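import Pool.Agent.H957.CX.Stm

/-!
Project CX (helper957), problem MP_83fd13_an: CX-A2, the operators (helper263; after the library
file `N229/SC/A2.lean` of helper514).
-/

set_option autoImplicit false

open Set Filter Topology

namespace Pool.Agent.H957.CX.PA2

open Pool.Agent.N229.SC (Al Wt cf mon lft norm_mon lft_mon norm_lft_le lft_hasSum ext_mon mulL mulL_mon
  mul_def one_def mon_mul_mon S_A1 ev evh Conf Nd Str Om SS UU PP eF Fb)

theorem a2_inc (j : ℤ) : inc (mon wW j) = mon wA j := lft_mon _ _ _ j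

theorem a2_conj (j : ℤ) : conj (mon wW j) = mon wW (-j) := lft_mon _ _ _ j

theorem a2_hol (j : ℤ) : hol (mon wW j) = mon wW j.natAbs := lft_mon _ _ _ j

theorem a2_der (j : ℤ) : der (mon wW j) = (j : ℝ) • mon wA j := lft_mon _ _ _ j

theorem a2_Pi2 (j : ℤ) : Pi2 (mon wW j) = if 2 ≤ j then mon wW j else 0 := lft_mon _ _ _ j

theorem a2_Pi5 (j : ℤ) : Pi5 (mon wW j) = if 5 ≤ j then mon wW j else 0 := lft_mon _ _ _ j

theorem a2_res (n i : ℕ) (j : ℤ) :
    res n i (mon wA j) = if 5 ≤ j then ((j : ℝ) + (i : ℝ) / n)⁻¹ • mon wW j else 0 :=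
  lft_mon _ _ _ j

theorem a2_bil {w : ℤ → ℝ} [Wt w] {Y : Type} [NormedAddCommGroup Y] [NormedSpace ℝ Y]
    (B B' : Al w →L[ℝ] Al w →L[ℝ] Y)
    (h : ∀ i j, B (mon w i) (mon w j) = B' (mon w i) (mon w j)) (a b : Al w) : B a b = B' a b := by
  have : B = B' := ext_mon fun i => ext_mon fun j => h i j
  rw [this]

theorem a2_inc_mul (a b : W) : inc (a * b) = inc a * inc b := by
  have h := a2_bil ((ContinuousLinearMap.compL ℝ W W A inc).comp (mulL wW))
    ((mulL wA).bilinearComp inc inc) (fun i j => by
      simp only [ContinuousLinearMap.comp_apply, ContinuousLinearMap.compL_apply,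
        ContinuousLinearMap.bilinearComp_apply, a2_inc, mulL_mon]) a b
  simpa only [ContinuousLinearMap.comp_apply, ContinuousLinearMap.compL_apply,
    ContinuousLinearMap.bilinearComp_apply, ← mul_def] using h

theorem a2_conj_mul (a b : W) : conj (a * b) = conj a * conj b := by
  have h := a2_bil ((ContinuousLinearMap.compL ℝ W W W conj).comp (mulL wW))
    ((mulL wW).bilinearComp conj conj) (fun i j => by
      simp only [ContinuousLinearMap.comp_apply, ContinuousLinearMap.compL_apply,
        ContinuousLinearMap.bilinearComp_apply, a2_conj, mulL_mon]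
      rw [neg_add]) a b
  simpa only [ContinuousLinearMap.comp_apply, ContinuousLinearMap.compL_apply,
    ContinuousLinearMap.bilinearComp_apply, ← mul_def] using h

theorem a2_der_mul (a b : W) : der (a * b) = der a * inc b + inc a * der b := by
  have h := a2_bil ((ContinuousLinearMap.compL ℝ W W A der).comp (mulL wW))
    ((mulL wA).bilinearComp der inc + (mulL wA).bilinearComp inc der) (fun i j => by
      simp only [ContinuousLinearMap.comp_apply, ContinuousLinearMap.compL_apply,
        add_apply, ContinuousLinearMap.bilinearComp_apply, a2_inc, a2_der,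
        mulL_mon, map_smul, smul_apply]
      rw [← add_smul, Int.cast_add]) a b
  simpa only [ContinuousLinearMap.comp_apply, ContinuousLinearMap.compL_apply,
    add_apply, ContinuousLinearMap.bilinearComp_apply, ← mul_def] using h

theorem a2_conj_conj (a : W) : conj (conj a) = a := by
  have h : conj.comp conj = ContinuousLinearMap.id ℝ W := ext_mon fun i => by
    rw [ContinuousLinearMap.comp_apply, a2_conj, a2_conj, neg_neg, ContinuousLinearMap.id_apply]
  have := DFunLike.congr_fun h a
  simpa using this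

theorem a2_le {w : ℤ → ℝ} [Wt w] {Y : Type} [NormedAddCommGroup Y] [NormedSpace ℝ Y]
    [CompleteSpace Y] (φ : ℤ → Y) (C : ℝ) (hC : 0 ≤ C) (h : ∀ j, ‖φ j‖ ≤ C * w j) (a : Al w) :
    ‖lft φ C h a‖ ≤ C * ‖a‖ :=
  (lft φ C h).le_of_opNorm_le (norm_lft_le φ C hC h) a

theorem a2_inc_res (n i : ℕ) (a : A) : ‖inc (res n i a)‖ ≤ 1 / 5 * ‖a‖ := by
  have h0 : ∀ j : ℤ, ‖(if 5 ≤ j then ((j : ℝ) + (i : ℝ) / n)⁻¹ • mon wA j else 0 : A)‖ ≤
      1 / 5 * wA j := by
    intro j
    have hw := Wt.pos wA j
    split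
    · rename_i h
      have h2 : (5 : ℝ) ≤ j := by exact_mod_cast h
      have h3 : (0 : ℝ) ≤ (i : ℝ) / n := by positivity
      have h4 : (0 : ℝ) < (j : ℝ) + (i : ℝ) / n := by linarith
      rw [norm_smul, norm_mon, Real.norm_eq_abs, abs_of_pos (inv_pos.mpr h4)]
      refine mul_le_mul_of_nonneg_right ?_ hw.le
      rw [inv_le_comm₀ h4 (by norm_num)]
      norm_num
      linarith
    · rw [norm_zero]
      positivity
  have h1 : inc.comp (res n i) =
      lft (fun j => if 5 ≤ j then ((j : ℝ) + (i : ℝ) / n)⁻¹ • mon wA j else 0) (1 / 5) h0 :=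
    ext_mon fun j => by
      rw [ContinuousLinearMap.comp_apply, a2_res, lft_mon]
      split
      · rw [map_smul, a2_inc]
      · rw [map_zero]
  have h2 : inc (res n i a) = (inc.comp (res n i)) a := rfl
  rw [h2, h1]
  exact a2_le _ _ (by norm_num) _ a

theorem a2_inc_res' (n i : ℕ) (a : A) : (i : ℝ) / n * ‖inc (res n i a)‖ ≤ ‖a‖ := by
  have h3 : (0 : ℝ) ≤ (i : ℝ) / n := by positivity
  have h0 : ∀ j : ℤ, ‖(if 5 ≤ j then ((i : ℝ) / n) • ((j : ℝ) + (i : ℝ) / n)⁻¹ • mon wA j else 0 : A)‖ ≤
      1 * wA j := by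
    intro j
    have hw := Wt.pos wA j
    split
    · rename_i h
      have h2 : (5 : ℝ) ≤ j := by exact_mod_cast h
      have h4 : (0 : ℝ) < (j : ℝ) + (i : ℝ) / n := by linarith
      rw [norm_smul, norm_smul, norm_mon, Real.norm_eq_abs, Real.norm_eq_abs,
        abs_of_pos (inv_pos.mpr h4), abs_of_nonneg h3, ← mul_assoc]
      refine mul_le_mul_of_nonneg_right ?_ hw.le
      rw [← div_eq_mul_inv, div_le_one h4]
      linarith
    · rw [norm_zero]
      positivity
  have h1 : ((i : ℝ) / n) • inc.comp (res n i) =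
      lft (fun j => if 5 ≤ j then ((i : ℝ) / n) • ((j : ℝ) + (i : ℝ) / n)⁻¹ • mon wA j else 0) 1 h0 :=
    ext_mon fun j => by
      rw [smul_apply, ContinuousLinearMap.comp_apply, a2_res, lft_mon]
      split
      · rw [map_smul, a2_inc]
      · rw [map_zero, smul_zero]
  have h2 : ‖(((i : ℝ) / n) • inc.comp (res n i)) a‖ = (i : ℝ) / n * ‖inc (res n i a)‖ := by
    rw [smul_apply, norm_smul, Real.norm_eq_abs, abs_of_nonneg h3]
    rfl
  rw [← h2, h1]
  have h4 := a2_le _ _ (by norm_num) h0 a
  rwa [one_mul] at h4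

theorem a2_wA (j : ℤ) (hj : 5 ≤ j) : wA j ≤ 8 / 13 * wW j := by
  unfold wA wW
  have h1 : (0 : ℝ) < Rad ^ j.natAbs := pow_pos (zero_lt_one.trans_le one_le_Rad) _
  have h2 : (5 : ℝ) ≤ j.natAbs := by
    have : 5 ≤ j.natAbs := by omega
    exact_mod_cast this
  nlinarith

/-- CX-A2. -/
theorem main (hA1 : S_A1) : S_A2 := by
  obtain ⟨Wadd, -, -, Wzero, Wsmul, Wmon, -, Wsum, -, Wext, -, -, WL⟩ := hA1 wW
  obtain ⟨Aadd, -, -, Azero, Asmul, Amon, -, Asum, -, Aext, -, -, AL⟩ := hA1 wA
  choose LW hLW using WL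
  choose LA hLA using AL
  have cinc : ∀ (a : W) (j : ℤ), cf (inc a) j = cf a j := by
    intro a j
    have h : (LA j).comp inc = LW j := ext_mon fun i => by
      rw [ContinuousLinearMap.comp_apply, a2_inc, hLA, hLW, Amon, Wmon]
    rw [← hLA, ← hLW, ← h, ContinuousLinearMap.comp_apply]
  refine ⟨⟨cinc, a2_inc_mul, ?_, fun a => ?_, fun a ha => ?_⟩, ⟨fun a j => ?_, a2_conj_mul, ?_, ?_,
    a2_conj_conj⟩, ⟨fun a j => ?_, fun a => ?_⟩, ⟨fun a j => ?_, fun a => ?_, a2_der_mul⟩,
    ⟨fun a j => ?_, fun a => ?_⟩, ⟨fun a j => ?_, fun a => ?_⟩,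
    ⟨fun n i a j => ?_, fun n i a => ?_, a2_inc_res, a2_inc_res'⟩⟩
  · rw [one_def, one_def, a2_inc]
  · have := a2_le (w := wW) (fun j => mon wA j) 1 (by norm_num) (fun j => by
      rw [norm_mon, one_mul]; exact wA_le_wW j) a
    rw [one_mul] at this
    exact this
  · have h1 := Asum (inc a)
    have h2 := (Wsum a).mul_left (8 / 13 : ℝ)
    refine hasSum_le (fun j => ?_) h1 h2
    rw [cinc]
    rcases lt_or_ge j 5 with hj | hj
    · rw [ha j hj]
      simp
    · have := a2_wA j hj
      have h3 := abs_nonneg (cf a j)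
      nlinarith
  · have h : (LW j).comp conj = LW (-j) := ext_mon fun i => by
      rw [ContinuousLinearMap.comp_apply, a2_conj, hLW, hLW, Wmon, Wmon]
      simp only [neg_eq_iff_eq_neg]
    rw [← hLW, ← hLW, ← h, ContinuousLinearMap.comp_apply]
  · rw [one_def, a2_conj, neg_zero]
  · have h1 : ∀ a : W, ‖conj a‖ ≤ ‖a‖ := by
      intro a
      have := a2_le (w := wW) (fun j => mon wW (-j)) 1 (by norm_num) (fun j => by
        rw [norm_mon, one_mul, Wt.neg (w := wW)]) a
      rw [one_mul] at this
      exact this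
    intro a
    refine le_antisymm (h1 a) ?_
    have := h1 (conj a)
    rwa [a2_conj_conj] at this
  · have h : (LW j).comp hol = if 0 < j then LW j + LW (-j) else if j = 0 then LW 0 else 0 :=
      ext_mon fun i => by
        rw [ContinuousLinearMap.comp_apply, a2_hol, hLW, Wmon]
        rcases lt_trichotomy 0 j with hj | hj | hj
        · rw [if_pos hj, add_apply, hLW, hLW, Wmon, Wmon]
          split_ifs <;> first | omega | norm_num
        · rw [if_neg (show ¬ (0 < j) by omega), if_pos hj.symm, hLW, Wmon]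
          split_ifs <;> first | omega | norm_num
        · rw [if_neg (show ¬ (0 < j) by omega), if_neg (show ¬ (j = 0) by omega), zero_apply]
          split_ifs <;> first | omega | norm_num
    rw [← hLW, ← ContinuousLinearMap.comp_apply, h]
    split
    · rw [add_apply, hLW, hLW]
    · split
      · rw [hLW]
      · rfl
  · have := a2_le (w := wW) (fun j => mon wW j.natAbs) 1 (by norm_num) (fun j => by
      rw [norm_mon, one_mul, wW, wW, Int.natAbs_natCast]) a
    rw [one_mul] at this
    exact this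
  · have h : (LA j).comp der = (j : ℝ) • LW j := ext_mon fun i => by
      rw [ContinuousLinearMap.comp_apply, a2_der, hLA, Asmul, Amon,
        smul_apply, hLW, Wmon, smul_eq_mul]
      split_ifs with hij
      · rw [hij]
      · simp
    rw [← hLA, ← hLW, ← ContinuousLinearMap.comp_apply, h]
    rfl
  · exact (der).le_of_opNorm_le (norm_lft_le _ 8 (by norm_num) _) a
  · have h : (LW j).comp Pi2 = if 2 ≤ j then LW j else 0 := ext_mon fun i => by
      rw [ContinuousLinearMap.comp_apply, a2_Pi2]
      split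
      · rw [hLW, Wmon]
        split_ifs with h1 h2 h2
        · rw [hLW, Wmon, if_pos h1]
        · omega
        · rw [hLW, Wmon, if_neg h1]
        · rfl
      · rw [map_zero]
        split_ifs with h2
        · rw [hLW, Wmon, if_neg (by omega)]
        · rfl
    rw [← hLW, ← ContinuousLinearMap.comp_apply, h]
    split
    · rw [hLW]
    · rfl
  · have := (Pi2).le_of_opNorm_le (norm_lft_le _ 1 (by norm_num) _) a
    rwa [one_mul] at this
  · have h : (LW j).comp Pi5 = if 5 ≤ j then LW j else 0 := ext_mon fun i => by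
      rw [ContinuousLinearMap.comp_apply, a2_Pi5]
      split
      · rw [hLW, Wmon]
        split_ifs with h1 h2 h2
        · rw [hLW, Wmon, if_pos h1]
        · omega
        · rw [hLW, Wmon, if_neg h1]
        · rfl
      · rw [map_zero]
        split_ifs with h2
        · rw [hLW, Wmon, if_neg (by omega)]
        · rfl
    rw [← hLW, ← ContinuousLinearMap.comp_apply, h]
    split
    · rw [hLW]
    · rfl
  · have := (Pi5).le_of_opNorm_le (norm_lft_le _ 1 (by norm_num) _) a
    rwa [one_mul] at this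
  · have h : (LW j).comp (res n i) = if 5 ≤ j then ((j : ℝ) + (i : ℝ) / n)⁻¹ • LA j else 0 :=
      ext_mon fun k => by
        rw [ContinuousLinearMap.comp_apply, a2_res]
        split
        · rw [hLW, Wsmul, Wmon]
          split_ifs with h1 h2 h2
          · rw [smul_apply, hLA, Amon, if_pos h1, h1, smul_eq_mul]
          · omega
          · rw [smul_apply, hLA, Amon, if_neg h1, smul_eq_mul]
            simp
          · simp
        · rw [map_zero]
          split_ifs with h2
          · rw [smul_apply, hLA, Amon, if_neg (by omega), smul_zero]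
          · rfl
    rw [← hLW, ← ContinuousLinearMap.comp_apply, h]
    split
    · rw [smul_apply, hLA, smul_eq_mul, inv_mul_eq_div]
    · rfl
  · exact (res n i).le_of_opNorm_le (norm_lft_le _ (13 / 40) (by norm_num) _) a

end Pool.Agent.H957.CX.PA2
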