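import Pool.Agent.H957.CX.Stm

/-!
Project CX (helper957), part AB (helper199): bounds of the sequences `a m`, `b`.
-/

set_option autoImplicit false

namespace Pool.Agent.H957.CX.PAB

open Pool.Agent.H957.CX

theorem ab_rec (c κ : ℕ → ℝ) (M : ℝ) (hM : 0 ≤ M) (hc : ∀ i, c (i + 2) = κ i * c (i + 1) - c i)
    (hκ0 : ∀ i, 0 ≤ κ i) (hκ : ∀ i : ℕ, κ i ≤ 177 / 100 + 24 / 100000 * (i + 1))
    (h0 : |c 0| ≤ M) (h1 : |c 1| ≤ M * (3 / 2)) :
    ∀ i, |c i| ≤ M * ((3 / 2) ^ i * i.factorial) ∧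
      |c (i + 1)| ≤ M * ((3 / 2) ^ (i + 1) * (i + 1).factorial) := by
  intro i
  induction i with
  | zero => exact ⟨by simpa using h0, by simpa using h1⟩
  | succ i ih =>
    refine ⟨ih.2, ?_⟩
    have hB : (0 : ℝ) ≤ M * ((3 / 2) ^ i * i.factorial) := by positivity
    have e1 : M * ((3 / 2 : ℝ) ^ (i + 1) * (i + 1).factorial) =
        (3 / 2) * (i + 1) * (M * ((3 / 2) ^ i * i.factorial)) := by
      rw [Nat.factorial_succ, pow_succ]
      push_cast
      ring
    have e2 : M * ((3 / 2 : ℝ) ^ (i + 1 + 1) * (i + 1 + 1).factorial) =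
        (9 / 4) * (i + 2) * (i + 1) * (M * ((3 / 2) ^ i * i.factorial)) := by
      rw [Nat.factorial_succ, Nat.factorial_succ, pow_succ, pow_succ]
      push_cast
      ring
    rw [e1] at ih
    rw [e2, hc i]
    set B : ℝ := M * ((3 / 2) ^ i * i.factorial) with hBdef
    have hi : (0 : ℝ) ≤ i := Nat.cast_nonneg i
    have h2 : |κ i * c (i + 1) - c i| ≤ κ i * |c (i + 1)| + |c i| := by
      refine (abs_sub _ _).trans (le_of_eq ?_)
      rw [abs_mul, abs_of_nonneg (hκ0 i)]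
    have h3 : κ i * |c (i + 1)| ≤ (177 / 100 + 24 / 100000 * (i + 1)) * ((3 / 2) * (i + 1) * B) :=
      mul_le_mul (hκ i) ih.2 (abs_nonneg _) (by positivity)
    have h4 : (177 / 100 + 24 / 100000 * ((i : ℝ) + 1)) * ((3 / 2) * (i + 1)) + 1 ≤
        (9 / 4) * (i + 2) * (i + 1) := by nlinarith
    have h5 := mul_le_mul_of_nonneg_right h4 hB
    calc |κ i * c (i + 1) - c i| ≤ κ i * |c (i + 1)| + |c i| := h2
      _ ≤ (177 / 100 + 24 / 100000 * (i + 1)) * ((3 / 2) * (i + 1) * B) + B := add_le_add h3 ih.1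
      _ = ((177 / 100 + 24 / 100000 * ((i : ℝ) + 1)) * ((3 / 2) * (i + 1)) + 1) * B := by ring
      _ ≤ _ := h5

theorem main : S_AB := by
  intro P G
  have hρ0 : (0 : ℝ) < P.ρ := lt_of_lt_of_le (by norm_num) G.rho
  have hnu : P.nu = P.n / P.ρ := rfl
  have hinv : 1 / P.ρ ≤ 1 / 8583 := one_div_le_one_div_of_le (by norm_num) G.rho
  have hinv' : 1 / 8584 ≤ 1 / P.ρ := one_div_le_one_div_of_le hρ0 G.rho'
  obtain ⟨r, hr⟩ : ∃ r : ℝ, r = 1 / P.ρ := ⟨_, rfl⟩
  rw [← hr] at hinv hinv'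
  have hr0 : 0 < r := lt_of_lt_of_le (by norm_num) hinv'
  have hr1 : r ≤ 11652 / 10 ^ 8 := hinv.trans (by norm_num)
  have hr2 : 11649 / 10 ^ 8 ≤ r := le_trans (by norm_num) hinv'
  obtain ⟨ν, hν⟩ : ∃ ν : ℝ, ν = P.nu := ⟨_, rfl⟩
  have n1 := G.nu1
  have n2 := G.nu2
  have hra : ∀ m : ℕ, 1 ≤ m → m ≤ 4 → ∀ i : ℕ,
      P.a m (i + 2) = (2 * m * ν + 2 * (i + 1) * r) * P.a m (i + 1) - P.a m i := by
    intro m hm1 hm2 i
    rw [G.ra m hm1 hm2 i, hν, hnu, hr]
    ring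
  have hrb : ∀ i : ℕ, P.b (i + 2) = (2 * (i + 2) * r) * P.b (i + 1) - P.b i := by
    intro i
    rw [G.rb i, hr]
    ring
  rw [← hν] at n1 n2
  have hν0 : 0 < ν := lt_of_lt_of_le (by norm_num) n1
  have h2 : ∀ m : ℕ, 1 ≤ m → m ≤ 4 → P.a m 2 = -(2 * m * ν + 2 * r) - P.a m 0 := by
    intro m hm1 hm2
    have := hra m hm1 hm2 0
    simp only [zero_add, Nat.cast_zero] at this
    rw [this, G.a1 m hm1 hm2]
    ring
  have h3 : ∀ m : ℕ, 1 ≤ m → m ≤ 4 → P.a m 3 = (2 * m * ν + 4 * r) * P.a m 2 + 1 := by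
    intro m hm1 hm2
    have := hra m hm1 hm2 1
    simp only [Nat.cast_one, Nat.reduceAdd] at this
    rw [this, G.a1 m hm1 hm2]
    ring
  have hb2 : P.b 2 = -(4 * r) - P.b 0 := by
    have := hrb 0
    simp only [zero_add, Nat.cast_zero] at this
    rw [this, G.b1]
    ring
  have hb3 : P.b 3 = (6 * r) * P.b 2 + 1 := by
    have := hrb 1
    simp only [Nat.cast_one, Nat.reduceAdd] at this
    rw [this, G.b1]
    ring
  have b0 := abs_le.mp G.b0
  have gen : ∀ (m : ℕ) (M : ℝ), 1 ≤ m → m ≤ 4 → 2 / 3 ≤ M → |P.a m 0| ≤ M →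
      ∀ i, |P.a m i| ≤ M * ((3 / 2) ^ i * i.factorial) := by
    intro m M hm1 hm2 hM h0 i
    have hm4 : (m : ℝ) ≤ 4 := by exact_mod_cast hm2
    have hm0 : (0 : ℝ) ≤ m := Nat.cast_nonneg m
    refine (ab_rec (P.a m) (fun i => 2 * m * ν + 2 * (i + 1) * r) M (by linarith) (hra m hm1 hm2)
      ?_ ?_ h0 ?_ i).1
    · intro i
      positivity
    · intro i
      have hi : (0 : ℝ) ≤ i := Nat.cast_nonneg i
      have e1 : 2 * (m : ℝ) * ν ≤ 177 / 100 := by
        have : (m : ℝ) * ν ≤ 4 * (22101 / 100000) := mul_le_mul hm4 n2 hν0.le (by norm_num)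
        linarith
      have e2 := mul_le_mul_of_nonneg_left hr1 (by positivity : (0 : ℝ) ≤ 2 * ((i : ℝ) + 1))
      have e3 : 2 * ((i : ℝ) + 1) * (11652 / 10 ^ 8) ≤ 24 / 100000 * (i + 1) := by
        linarith
      show 2 * (m : ℝ) * ν + 2 * ((i : ℝ) + 1) * r ≤ _
      linarith
    · rw [G.a1 m hm1 hm2, abs_neg, abs_one]
      linarith
  have v10 := G.a10
  have v10' := G.a10'
  have v20 := G.a20
  have v20' := G.a20'
  have v30 := G.a30
  have v30' := G.a30'
  have v40 := G.a40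
  have v40' := G.a40'
  have a12 : P.a 1 2 = -(2 * ν + 2 * r) - P.a 1 0 := by
    have := h2 1 le_rfl (by norm_num)
    rw [this]
    push_cast
    ring
  have a22 : P.a 2 2 = -(4 * ν + 2 * r) - P.a 2 0 := by
    have := h2 2 (by norm_num) (by norm_num)
    rw [this]
    push_cast
    ring
  have a32 : P.a 3 2 = -(6 * ν + 2 * r) - P.a 3 0 := by
    have := h2 3 (by norm_num) (by norm_num)
    rw [this]
    push_cast
    ring
  have a42 : P.a 4 2 = -(8 * ν + 2 * r) - P.a 4 0 := by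
    have := h2 4 (by norm_num) (by norm_num)
    rw [this]
    push_cast
    ring
  have a13 : P.a 1 3 = (2 * ν + 4 * r) * P.a 1 2 + 1 := by
    have := h3 1 le_rfl (by norm_num)
    rw [this]
    push_cast
    ring
  have a23 : P.a 2 3 = (4 * ν + 4 * r) * P.a 2 2 + 1 := by
    have := h3 2 (by norm_num) (by norm_num)
    rw [this]
    push_cast
    ring
  have a33 : P.a 3 3 = (6 * ν + 4 * r) * P.a 3 2 + 1 := by
    have := h3 3 (by norm_num) (by norm_num)
    rw [this]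
    push_cast
    ring
  have a43 : P.a 4 3 = (8 * ν + 4 * r) * P.a 4 2 + 1 := by
    have := h3 4 (by norm_num) (by norm_num)
    rw [this]
    push_cast
    ring
  -- the intervals
  have l12 : -(4424 / 10000) ≤ P.a 1 2 ∧ P.a 1 2 ≤ -(442 / 1000) := by
    constructor <;> (rw [a12]; linarith)
  have l22 : -(9655 / 10000) ≤ P.a 2 2 ∧ P.a 2 2 ≤ -(965 / 1000) := by
    constructor <;> (rw [a22]; linarith)
  have l32 : -(3151 / 1000) ≤ P.a 3 2 ∧ P.a 3 2 ≤ -(3149 / 1000) := by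
    constructor <;> (rw [a32]; linarith)
  have l42 : -(8205 / 10000) ≤ P.a 4 2 ∧ P.a 4 2 ≤ -(819 / 1000) := by
    constructor <;> (rw [a42]; linarith)
  have prod : ∀ x y x1 x2 y1 y2 : ℝ, 0 ≤ x1 → x1 ≤ x → x ≤ x2 → 0 ≤ y1 → -y2 ≤ y → y ≤ -y1 →
      -(x2 * y2) ≤ x * y ∧ x * y ≤ -(x1 * y1) := by
    intro x y x1 x2 y1 y2 hx1 h1 h2 hy1 h3 h4
    have e1 : x * (-y) ≤ x2 * y2 := mul_le_mul h2 (by linarith) (by linarith) (by linarith)
    have e2 : x1 * y1 ≤ x * (-y) := mul_le_mul h1 (by linarith) hy1 (by linarith)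
    constructor <;> linarith
  have p1 := prod (2 * ν + 4 * r) (P.a 1 2) (442 / 1000) (443 / 1000) (442 / 1000) (4424 / 10000)
    (by norm_num) (by linarith) (by linarith) (by norm_num) l12.1 l12.2
  have p2 := prod (4 * ν + 4 * r) (P.a 2 2) (884 / 1000) (885 / 1000) (965 / 1000) (9655 / 10000)
    (by norm_num) (by linarith) (by linarith) (by norm_num) l22.1 l22.2
  have p3 := prod (6 * ν + 4 * r) (P.a 3 2) (1326 / 1000) (1327 / 1000) (3149 / 1000) (3151 / 1000)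
    (by norm_num) (by linarith) (by linarith) (by norm_num) l32.1 l32.2
  have p4 := prod (8 * ν + 4 * r) (P.a 4 2) (1768 / 1000) (1769 / 1000) (819 / 1000) (8205 / 10000)
    (by norm_num) (by linarith) (by linarith) (by norm_num) l42.1 l42.2
  have hb2' : |P.b 2| ≤ 5 / 10000 := by
    rw [hb2, abs_le]
    constructor <;> linarith [b0.1, b0.2]
  refine ⟨gen 1 (2 / 3) le_rfl (by norm_num) le_rfl ?_, ?_,
    gen 3 2 (by norm_num) (by norm_num) (by norm_num) ?_, ?_, fun i => (ab_rec P.b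
      (fun i => 2 * (i + 2) * r) (2 / 3) (by norm_num) hrb ?_ ?_ ?_ ?_ i).1,
    ⟨?_, ?_, hb2', ?_⟩, ⟨?_, ?_, ?_, ?_, ?_, ?_⟩, ?_, ?_⟩
  · rw [abs_le]
    constructor <;> linarith
  · intro i
    have := gen 2 1 (by norm_num) (by norm_num) (by norm_num)
      (by rw [abs_le]; constructor <;> linarith) i
    rwa [one_mul] at this
  · rw [abs_le]
    constructor <;> linarith
  · intro i
    have := gen 4 1 (by norm_num) (by norm_num) (by norm_num)
      (by rw [abs_le]; constructor <;> linarith) i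
    rwa [one_mul] at this
  · intro i
    positivity
  · intro i
    have hi : (0 : ℝ) ≤ i := Nat.cast_nonneg i
    have e2 := mul_le_mul_of_nonneg_left hr1 (by positivity : (0 : ℝ) ≤ 2 * ((i : ℝ) + 2))
    show 2 * ((i : ℝ) + 2) * r ≤ _
    linarith
  · rw [abs_le]
    constructor <;> linarith [b0.1, b0.2]
  · rw [G.b1, abs_neg, abs_one]
    norm_num
  · rw [a12, ← hν, abs_le]
    constructor <;> linarith
  · rw [a13, abs_le]
    constructor <;> linarith [p1.1, p1.2]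
  · have h3 := abs_le.mp hb2'
    have e1 : 6 * r * P.b 2 ≤ 6 * r * (5 / 10000) := mul_le_mul_of_nonneg_left h3.2 (by positivity)
    have e2 : 6 * r * (-(5 / 10000)) ≤ 6 * r * P.b 2 :=
      mul_le_mul_of_nonneg_left h3.1 (by positivity)
    rw [hb3, abs_le]
    constructor <;> linarith
  · rw [abs_le]
    constructor <;> linarith [l22.1, l22.2]
  · rw [a23, abs_le]
    constructor <;> linarith [p2.1, p2.2]
  · rw [abs_le]
    constructor <;> linarith [l32.1, l32.2]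
  · rw [a33, abs_le]
    constructor <;> linarith [p3.1, p3.2]
  · rw [abs_le]
    constructor <;> linarith [l42.1, l42.2]
  · rw [a43, abs_le]
    constructor <;> linarith [p4.1, p4.2]
  · have e1 : (P.n : ℝ) = ν * P.ρ := by
      rw [hν, hnu]
      field_simp
    have e2 : (221 / 1000 : ℝ) * 8583 ≤ ν * P.ρ := mul_le_mul n1 G.rho (by norm_num) hν0.le
    rw [e1]
    linarith
  · have e1 : (P.n : ℝ) = ν * P.ρ := by
      rw [hν, hnu]
      field_simp
    have e2 : ν * P.ρ ≤ (22101 / 100000 : ℝ) * 8584 := mul_le_mul n2 G.rho' hρ0.le (by norm_num)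
    rw [e1]
    linarith

end Pool.Agent.H957.CX.PAB
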