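import Pool.Agent.H957.CX.Stm

/-!
Project CX (helper957), MP_83fd13_an: proof of `S_AN`.
-/

set_option autoImplicit false

open Set Filter Topology MeasureTheory

namespace Pool.Agent.H957.CX.PAN

open Pool.Agent.N229.SC (Al Wt cf mon lft norm_mon lft_mon norm_lft_le lft_hasSum ext_mon
  mul_def one_def mon_mul_mon S_A1 ev evh Conf Nd Str Om SS UU PP eF Fb)

theorem exp_sub_one_le {r : ℝ} (hr : |r| ≤ 1 / 2) : |Real.exp r - 1| ≤ 2 * |r| := by
  have h := Real.abs_exp_sub_one_le (x := r) (by linarith)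
  linarith

theorem main (_hA1 : S_A1) (_hA2 : S_A2) (hB1 : S_B1) (hEH : S_EH) : S_AN := by
  intro P X h v y F
  have hρ := F.good.rho
  have hρ0 : (0 : ℝ) < P.ρ := by linarith
  have hν := F.good.nu2
  have hν1 := F.good.nu1
  have hn : (1896 : ℝ) ≤ P.n := by
    have h1 : (P.n : ℝ) = P.nu * P.ρ := by
      unfold Par.nu; field_simp
    rw [h1]; nlinarith
  have hn0 : (0 : ℝ) < P.n := by linarith
  have hnh : ‖h‖ ≤ 12 / 10 ^ 4 := by
    have := F.sol.nh
    have := F.X_le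
    linarith
  have hPhi : ‖Phi P h‖ ≤ P.nu * ‖h‖ := ((hB1 P F.good h (by linarith)).1).1
  have hPhi2 : ‖Phi P h‖ ≤ 3 / 10 ^ 4 := by
    have h0 : 0 ≤ ‖h‖ := norm_nonneg _
    nlinarith
  have hw : ∀ j, Rad ^ j.natAbs ≤ wW j := by
    intro j
    unfold wW
    have h1 : (0 : ℝ) < Rad ^ j.natAbs := pow_pos (zero_lt_one.trans_le one_le_Rad) _
    have h2 : (0 : ℝ) ≤ j.natAbs := Nat.cast_nonneg _
    nlinarith [mul_nonneg h1.le h2]
  have hE := (hEH wW hw).2.1
  constructor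
  · intro z hz
    have hz0 : 0 ≤ ‖z‖ := norm_nonneg _
    have hzn : ‖z ^ P.n‖ ≤ Rad := by
      rw [norm_pow]
      exact (pow_le_one₀ hz0 hz).trans one_le_Rad
    have he : ‖evh (Phi P h) (z ^ P.n)‖ ≤ 3 / 10 ^ 4 := (hE _ _ hzn).trans hPhi2
    set r : ℝ := (evh (Phi P h) (z ^ P.n) / P.n).re with hr
    have hr1 : |r| ≤ 3 / 10 ^ 4 / 1896 := by
      have h1 : |r| ≤ ‖evh (Phi P h) (z ^ P.n) / P.n‖ := Complex.abs_re_le_norm _
      rw [norm_div, Complex.norm_natCast] at h1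
      refine h1.trans ?_
      gcongr
    have hr2 : |Real.exp r - 1| ≤ 1 / 10 ^ 6 := by
      have := exp_sub_one_le (r := r) (by
        refine hr1.trans ?_
        norm_num)
      refine this.trans ?_
      have : (3 / 10 ^ 4 / 1896 : ℝ) ≤ 1 / 10 ^ 6 / 2 := by norm_num
      linarith
    have hnorm : ‖fF P h z‖ = P.ρ * ‖z‖ * Real.exp r := by
      unfold fF
      rw [norm_mul, norm_mul, Complex.norm_exp, Complex.norm_real, Real.norm_eq_abs,
        abs_of_pos hρ0]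
    rw [hnorm]
    have : P.ρ * ‖z‖ * Real.exp r - P.ρ * ‖z‖ = P.ρ * ‖z‖ * (Real.exp r - 1) := by ring
    rw [this, abs_mul, abs_of_nonneg (by positivity)]
    calc P.ρ * ‖z‖ * |Real.exp r - 1| ≤ P.ρ * 1 * (1 / 10 ^ 6) := by gcongr
      _ = P.ρ / 10 ^ 6 := by ring
  · intro ω hω z
    unfold fF
    rw [mul_pow, hω, one_mul]
    ring

end Pool.Agent.H957.CX.PAN
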