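import Pool.Agent.H957.CX.Stm

/-!
Project CX (helper957), part B2 (helper196): bounds of the functions `q_i`, `v_i`, `V_i`, `Q_i`.
-/

set_option autoImplicit false

open Set Filter Topology

namespace Pool.Agent.H957.CX.PB2

open Pool.Agent.N229.SC (Al Wt cf mon lft norm_mon lft_mon norm_lft_le lft_hasSum ext_mon
  mul_def one_def mon_mul_mon S_A1 ev evh Conf Nd Str Om SS UU PP eF Fb)

theorem b2_pow1 (i : ℕ) : (3 / 2 : ℝ) ^ i * ((i : ℝ) + 1) ≤ 3 ^ i := by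
  have h : ((i : ℝ) + 1) ≤ 2 ^ i := by
    have h : i + 1 ≤ 2 ^ i := Nat.lt_two_pow_self
    exact_mod_cast h
  calc (3 / 2 : ℝ) ^ i * ((i : ℝ) + 1) ≤ (3 / 2) ^ i * 2 ^ i := by gcongr
    _ = 3 ^ i := by rw [← mul_pow]; norm_num

theorem b2_pow2 (i : ℕ) (hi : 1 ≤ i) : (3 / 2 : ℝ) ^ i ≤ 1 / 2 * 3 ^ i := by
  have h1 := b2_pow1 i
  have h2 : (1 : ℝ) ≤ i := by exact_mod_cast hi
  have h3 : (0 : ℝ) < (3 / 2) ^ i := by positivity
  nlinarith

theorem main (hA1 : S_A1) (hA2 : S_A2) (hA3 : S_A3) (hAB : S_AB) (hB1 : S_B1) (hM1 : S_M1) :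
    S_B2 := by
  intro P hP X h v y hX0 hX1 hD
  obtain ⟨cadd, csub, -, -, csmul, -⟩ := hA1 wW
  obtain ⟨⟨-, -, -, -, inc5⟩, -, -, -, -, ⟨p5cf, p5n⟩, rcf, rn, rin, -⟩ := hA2
  obtain ⟨ha, -, -, -, hb, -, -, hn, -⟩ := hAB P hP
  have hnh := hD.nh
  have hh : ‖h‖ ≤ 1 / 800 := by linarith
  obtain ⟨⟨-, hbeta, -, htau, -, -⟩, -, -, -⟩ := hB1 P hP h hh
  obtain ⟨-, hmd, hms, -, -, -⟩ := hM1 P hP h v hh hD.hv
  have hnu1 := hP.nu1
  have hnu2 := hP.nu2
  have hnu0 : 0 < P.nu := by linarith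
  have hn0 : (0 : ℝ) < P.n := by linarith
  have hinv : 1 / (2 * P.nu) ≤ 226245 / 100000 := by
    rw [div_le_iff₀ (by linarith)]
    linarith
  have hinv0 : 0 < 1 / (2 * P.nu) := by positivity
  have hbeta' : ‖beta P h‖ ≤ 213 / 100000 := by
    have h1 : P.nu * ‖h‖ ≤ 22101 / 100000 * (12 / 10 ^ 4) :=
      mul_le_mul hnu2 (by linarith) (norm_nonneg _) (by norm_num)
    linarith
  have h1b : ‖1 + beta P h‖ ≤ 100213 / 100000 := by
    refine (norm_add_le _ _).trans ?_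
    rw [norm_one]
    linarith
  -- supports
  have sq : ∀ i, ∀ j < 5, cf (qq P h v y i) j = 0 := by
    intro i j hj
    cases i with
    | zero =>
      show cf (res P.n 0 ((1 + beta P h) * inc (Pi5 v))) j = 0
      rw [rcf, if_neg (by omega)]
    | succ i =>
      show cf (res P.n (i + 1) (y i)) j = 0
      rw [rcf, if_neg (by omega)]
  have sp : ∀ j < 5, cf (Pi5 v) j = 0 := by
    intro j hj
    rw [p5cf, if_neg (by omega)]
  have sv : ∀ i, ∀ j < 5, cf (vv P h v y i) j = 0 := by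
    intro i j hj
    cases i with
    | zero => exact sp j hj
    | succ i =>
      show cf ((1 / (2 * P.nu)) • (qq P h v y i + qq P h v y (i + 2)) -
        (((i : ℝ) + 1) / P.n) • qq P h v y (i + 1)) j = 0
      rw [csub, csmul, csmul, cadd, sq i j hj, sq (i + 2) j hj, sq (i + 1) j hj]
      ring
  -- the norm of `vv (i + 1)`
  have hvv : ∀ i : ℕ, ‖vv P h v y (i + 1)‖ ≤
      226245 / 100000 * (‖qq P h v y i‖ + ‖qq P h v y (i + 2)‖) +
      ((i : ℝ) + 1) / 1896 * ‖qq P h v y (i + 1)‖ := by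
    intro i
    show ‖(1 / (2 * P.nu)) • (qq P h v y i + qq P h v y (i + 2)) -
        (((i : ℝ) + 1) / P.n) • qq P h v y (i + 1)‖ ≤ _
    refine (norm_sub_le _ _).trans (add_le_add ?_ ?_)
    · rw [norm_smul, Real.norm_eq_abs, abs_of_pos hinv0]
      exact mul_le_mul hinv (norm_add_le _ _) (norm_nonneg _) (by norm_num)
    · rw [norm_smul, Real.norm_eq_abs, abs_of_nonneg (by positivity)]
      refine mul_le_mul_of_nonneg_right ?_ (norm_nonneg _)
      exact div_le_div_of_nonneg_left (by positivity) (by norm_num) hn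
  have hX2 : 0 ≤ X ^ 2 := sq_nonneg X
  have key : ∀ V M : ℝ, 0 ≤ V → 0 ≤ M → ‖v‖ ≤ V * X ^ 2 → (∀ i, ‖y i‖ ≤ M * X ^ 2) →
      ‖qq P h v y 0‖ ≤ 201 / 1000 * V * X ^ 2 ∧ ‖inc (qq P h v y 0)‖ ≤ 1234 / 10 ^ 4 * V * X ^ 2 ∧
      (∀ i, ‖qq P h v y (i + 1)‖ ≤ 13 / 40 * M * X ^ 2) ∧
      (∀ i, ‖inc (qq P h v y (i + 1))‖ ≤ 1 / 5 * M * X ^ 2) ∧
      ‖vv P h v y 1‖ ≤ (46 / 100 * V + 74 / 100 * M) * X ^ 2 ∧
      (∀ i : ℕ, ‖vv P h v y (i + 1)‖ ≤ (46 / 100 * V + 148 / 100 * M) * (i + 1) * X ^ 2) := by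
    intro V M hV hM hvV hyM
    have hu : 0 ≤ V * X ^ 2 := mul_nonneg hV hX2
    have hm : 0 ≤ M * X ^ 2 := mul_nonneg hM hX2
    have h0 : ‖(1 + beta P h) * inc (Pi5 v)‖ ≤ 100213 / 100000 * (8 / 13 * (V * X ^ 2)) := by
      have h1 := inc5 (Pi5 v) sp
      have h1' := p5n v
      have h2 : ‖inc (Pi5 v)‖ ≤ 8 / 13 * (V * X ^ 2) := by linarith
      exact (norm_mul_le _ _).trans (mul_le_mul h1b h2 (norm_nonneg _) (by norm_num))
    have q0 : ‖qq P h v y 0‖ ≤ 201 / 1000 * V * X ^ 2 := by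
      have h1 : ‖qq P h v y 0‖ ≤ 13 / 40 * ‖(1 + beta P h) * inc (Pi5 v)‖ := rn P.n 0 _
      linarith
    have q0' : ‖inc (qq P h v y 0)‖ ≤ 1234 / 10 ^ 4 * V * X ^ 2 := by
      have h1 : ‖inc (qq P h v y 0)‖ ≤ 1 / 5 * ‖(1 + beta P h) * inc (Pi5 v)‖ := rin P.n 0 _
      linarith
    have qi : ∀ i, ‖qq P h v y (i + 1)‖ ≤ 13 / 40 * M * X ^ 2 := by
      intro i
      have h1 : ‖qq P h v y (i + 1)‖ ≤ 13 / 40 * ‖y i‖ := rn P.n (i + 1) _
      have h2 := hyM i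
      linarith
    have qi' : ∀ i, ‖inc (qq P h v y (i + 1))‖ ≤ 1 / 5 * M * X ^ 2 := by
      intro i
      have h1 : ‖inc (qq P h v y (i + 1))‖ ≤ 1 / 5 * ‖y i‖ := rin P.n (i + 1) _
      have h2 := hyM i
      linarith
    have v1 : ‖vv P h v y 1‖ ≤ (46 / 100 * V + 74 / 100 * M) * X ^ 2 := by
      have h1 := hvv 0
      have h2 := qi 0
      have h3 := qi 1
      simp only [Nat.cast_zero, zero_add] at h1 h2
      have h4 : ‖qq P h v y 2‖ ≤ 13 / 40 * M * X ^ 2 := h3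
      linarith
    refine ⟨q0, q0', qi, qi', v1, ?_⟩
    intro i
    cases i with
    | zero =>
      simp only [Nat.cast_zero, zero_add, mul_one]
      linarith
    | succ i =>
      have h1 := hvv (i + 1)
      have h2 := qi i
      have h3 := qi (i + 1)
      have h4 := qi (i + 2)
      have h5 : ‖qq P h v y (i + 1 + 2)‖ ≤ 13 / 40 * M * X ^ 2 := h4
      push_cast at h1 ⊢
      have hi : (0 : ℝ) ≤ i := Nat.cast_nonneg i
      have h6 : ((i : ℝ) + 1 + 1) / 1896 * ‖qq P h v y (i + 1 + 1)‖ ≤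
          ((i : ℝ) + 1 + 1) / 1896 * (13 / 40 * M * X ^ 2) :=
        mul_le_mul_of_nonneg_left h3 (by positivity)
      have h7 : 0 ≤ (M * X ^ 2) * (i : ℝ) := mul_nonneg hm hi
      have h8 : 0 ≤ (V * X ^ 2) * (i : ℝ) := mul_nonneg hu hi
      nlinarith
  obtain ⟨-, -, q5, -, -, v5⟩ := key 6 6 (by norm_num) (by norm_num) hD.nv hD.ny
  have ha' : ∀ i, |P.a 1 i| ≤ 1 / 3 * (3 ^ i * i.factorial) := by
    intro i
    rcases Nat.eq_zero_or_pos i with h0 | h0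
    · subst h0
      have h1 := hP.a10
      have h2 := hP.a10'
      rw [abs_of_nonneg (by linarith)]
      simp only [pow_zero, Nat.factorial_zero, Nat.cast_one]
      linarith
    · refine (ha i).trans ?_
      have h1 := b2_pow2 i h0
      have h2 : (0 : ℝ) ≤ i.factorial := Nat.cast_nonneg _
      nlinarith
  have hb' : ∀ i, |P.b i| ≤ 1 / 3 * (3 ^ i * i.factorial) := by
    intro i
    rcases Nat.eq_zero_or_pos i with h0 | h0
    · subst h0
      have h1 := hP.b0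
      simp only [pow_zero, Nat.factorial_zero, Nat.cast_one]
      linarith
    · refine (hb i).trans ?_
      have h1 := b2_pow2 i h0
      have h2 : (0 : ℝ) ≤ i.factorial := Nat.cast_nonneg _
      nlinarith
  have hsucc : ∀ i : ℕ, (3 / 2 : ℝ) ^ (i + 1) * (i + 1).factorial ≤
      3 / 2 * (3 ^ i * i.factorial) := by
    intro i
    have h1 := b2_pow1 i
    have h2 : (0 : ℝ) ≤ i.factorial := Nat.cast_nonneg _
    rw [Nat.factorial_succ, pow_succ]
    push_cast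
    have h3 : (3 / 2 : ℝ) ^ i * ((i : ℝ) + 1) * i.factorial ≤ 3 ^ i * i.factorial :=
      mul_le_mul_of_nonneg_right h1 h2
    linarith
  have ha1 : ∀ i, |P.a 1 (i + 1)| ≤ 3 ^ i * i.factorial := by
    intro i
    refine (ha (i + 1)).trans ?_
    have h1 := hsucc i
    linarith
  have hF : ∀ i : ℕ, (1 : ℝ) ≤ 3 ^ i * i.factorial := by
    intro i
    have h1 : (1 : ℝ) ≤ 3 ^ i := one_le_pow₀ (by norm_num)
    have h2 : (1 : ℝ) ≤ i.factorial := by exact_mod_cast Nat.succ_le_of_lt (Nat.factorial_pos i)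
    exact one_le_mul_of_one_le_of_one_le h1 h2
  have hF1 : ∀ i : ℕ, (i : ℝ) + 1 ≤ 3 ^ (i + 1) * (i + 1).factorial := by
    intro i
    have h1 : (1 : ℝ) ≤ 3 ^ (i + 1) := one_le_pow₀ (by norm_num)
    have h2 : (i : ℝ) + 1 ≤ (i + 1).factorial := by
      exact_mod_cast Nat.self_le_factorial (i + 1)
    have h3 : (0 : ℝ) ≤ (i + 1).factorial := Nat.cast_nonneg _
    nlinarith
  have hvF : ∀ i, ‖vv P h v y i‖ ≤ 12 * X ^ 2 * (3 ^ i * i.factorial) := by
    intro i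
    cases i with
    | zero =>
      have h1 : ‖vv P h v y 0‖ ≤ ‖v‖ := p5n v
      have h2 := hD.nv
      simp only [pow_zero, Nat.factorial_zero, Nat.cast_one]
      linarith
    | succ i =>
      have h1 := v5 i
      have h2 := hF1 i
      have h3 := mul_le_mul_of_nonneg_left h2 (mul_nonneg (by norm_num : (0 : ℝ) ≤ 12) hX2)
      have h4 : 0 ≤ X ^ 2 * ((i : ℝ) + 1) := by positivity
      linarith
  have hnv := hD.nv
  have hmdF : ∀ i, ‖md P h v i‖ ≤ 75 * X ^ 2 * (3 ^ i * i.factorial) := by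
    intro i
    have h1 := hmd i
    have h2 : (3 / 2 : ℝ) ^ i ≤ 3 ^ i := by gcongr; norm_num
    have h3 : (0 : ℝ) ≤ i.factorial := Nat.cast_nonneg _
    have h4 : (3 / 2 : ℝ) ^ i * i.factorial ≤ 3 ^ i * i.factorial :=
      mul_le_mul_of_nonneg_right h2 h3
    have h5 : 25 / 2 * ((3 / 2 : ℝ) ^ i * i.factorial) * ‖v‖ ≤
        25 / 2 * (3 ^ i * i.factorial) * (6 * X ^ 2) :=
      mul_le_mul (by linarith) hnv (norm_nonneg _) (by positivity)
    linarith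
  have hmsF : ∀ i, ‖ms P h v (i + 1)‖ ≤ 57 * X ^ 2 * (3 ^ i * i.factorial) := by
    intro i
    have h1 := hms (i + 1)
    have h2 := hsucc i
    have h5 : 25 / 4 * ((3 / 2 : ℝ) ^ (i + 1) * (i + 1).factorial) * ‖v‖ ≤
        25 / 4 * (3 / 2 * (3 ^ i * i.factorial)) * (6 * X ^ 2) :=
      mul_le_mul (by linarith) hnv (norm_nonneg _) (by positivity)
    have h6 : 0 ≤ X ^ 2 * (3 ^ i * (i.factorial : ℝ)) := by positivity
    linarith
  refine ⟨sq, sv, ?_, ?_, fun V M hV _ hM _ hvV hyM => key V M hV hM hvV hyM⟩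
  · intro i
    have hf := hF i
    have h1 : ‖(X * P.a 1 i) • tau P h‖ ≤
        X * (1 / 3 * (3 ^ i * i.factorial)) * (1149 / 1000) := by
      rw [norm_smul, Real.norm_eq_abs, abs_mul, abs_of_pos hX0]
      exact mul_le_mul (mul_le_mul_of_nonneg_left (ha' i) hX0.le) htau (norm_nonneg _)
        (by positivity)
    have h2 : ‖Vh P X h v y i‖ ≤ ‖(X * P.a 1 i) • tau P h‖ + ‖md P h v i‖ +
        ‖vv P h v y i‖ := norm_add₃_le
    have h3 := hvF i
    have h3' := hmdF i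
    have h4 : X ^ 2 ≤ 6 / 10 ^ 4 * X := by nlinarith
    generalize (3 ^ i * (i.factorial : ℝ)) = F at *
    have h5 : X ^ 2 * F ≤ 6 / 10 ^ 4 * X * F := mul_le_mul_of_nonneg_right h4 (by linarith)
    have h6 : 0 ≤ X * F := mul_nonneg hX0.le (by linarith)
    nlinarith
  · intro i
    have hf := hF i
    have h1 : ‖(X * P.a 1 (i + 1)) • tau P h‖ ≤
        X * (3 ^ i * i.factorial) * (1149 / 1000) := by
      rw [norm_smul, Real.norm_eq_abs, abs_mul, abs_of_pos hX0]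
      exact mul_le_mul (mul_le_mul_of_nonneg_left (ha1 i) hX0.le) htau (norm_nonneg _)
        (by positivity)
    have h2 : ‖Qh P X h v y i‖ ≤ ‖P.b i • (1 : W)‖ + ‖(X * P.a 1 (i + 1)) • tau P h‖ +
        ‖ms P h v (i + 1)‖ + ‖qq P h v y (i + 1)‖ :=
      (norm_add_le _ _).trans (add_le_add_left norm_add₃_le _)
    have h3 : ‖P.b i • (1 : W)‖ = |P.b i| := by
      rw [norm_smul, norm_one, mul_one, Real.norm_eq_abs]
    have h4 := hb' i
    have h5 := q5 i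
    have h5' := hmsF i
    have h6 : X ^ 2 ≤ 6 / 10 ^ 4 * (6 / 10 ^ 4) := by nlinarith
    generalize (3 ^ i * (i.factorial : ℝ)) = F at *
    have h7 : X * F ≤ 6 / 10 ^ 4 * F := mul_le_mul_of_nonneg_right hX1 (by linarith)
    have h8 : X ^ 2 * F ≤ 6 / 10 ^ 4 * (6 / 10 ^ 4) * F :=
      mul_le_mul_of_nonneg_right h6 (by linarith)
    nlinarith

end Pool.Agent.H957.CX.PB2
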