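import Pool.Agent.H957.CX.Stm

/-!
Project CX (helper957), part B3: Lipschitz bounds of the functions `q_i`, `v_i`, `V_i`, `Q_i`.
-/

set_option autoImplicit false

open Set Filter Topology

namespace Pool.Agent.H957.CX.PB3

open Pool.Agent.N229.SC (Al Wt cf mon lft norm_mon lft_mon norm_lft_le lft_hasSum ext_mon
  mul_def one_def mon_mul_mon S_A1 ev evh Conf Nd Str Om SS UU PP eF Fb)

theorem b3_prod (β β' u u' : A) :
    (1 + β) * u - (1 + β') * u' = (β - β') * u + (1 + β') * (u - u') := by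
  ring

theorem b3_nat (i : ℕ) : ((i : ℝ) + 1) * (3 / 2) ^ i ≤ 3 ^ i := by
  induction i with
  | zero => norm_num
  | succ i ih =>
    have h1 : (0 : ℝ) ≤ (3 / 2) ^ i := by positivity
    have h2 : (0 : ℝ) ≤ i := Nat.cast_nonneg i
    rw [pow_succ, pow_succ]
    push_cast
    nlinarith

theorem b3_fac (i : ℕ) : ((i : ℝ) + 1) ≤ ((i + 1).factorial : ℝ) := by
  have h : i + 1 ≤ (i + 1).factorial := Nat.self_le_factorial _
  exact_mod_cast h

theorem b3_three (i : ℕ) : (3 : ℝ) ≤ 3 ^ (i + 1) := by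
  have h : (1 : ℝ) ≤ 3 ^ i := one_le_pow₀ (by norm_num)
  rw [pow_succ]
  linarith

theorem b3_half (i : ℕ) : ((3 : ℝ) / 2) ^ (i + 1) ≤ 1 / 2 * 3 ^ (i + 1) := by
  have h1 : ((3 : ℝ) / 2) ^ i ≤ 3 ^ i := by
    gcongr
    norm_num
  rw [pow_succ, pow_succ]
  linarith

theorem b3_g {D : ℝ} (i : ℕ) (hD : 0 ≤ D) :
    181 / 80 * (13 / 40 + 13 / 40) * D + (((i + 1 : ℕ) : ℝ) + 1) / 1896 * (13 / 40 * D) ≤
      3 / 2 * (((i + 1 : ℕ) : ℝ) + 1) * D := by
  have h := mul_nonneg (Nat.cast_nonneg (α := ℝ) i) hD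
  push_cast
  nlinarith

theorem main (hA1 : S_A1) (hA2 : S_A2) (_hA3 : S_A3) (hAB : S_AB) (hB1 : S_B1) (_hM1 : S_M1)
    (hM2 : S_M2) (_hB2 : S_B2) : S_B3 := by
  intro P hP X h v y h' v' y' D hX0 hX hd hd' hh hv hy
  obtain ⟨haA, -, -, -, -, -, -, hn, -⟩ := hAB P hP
  have hD0 : 0 ≤ D := (norm_nonneg _).trans hv
  have hnu1 := hP.nu1
  have hnu2 := hP.nu2
  have hnu0 : 0 < P.nu := by linarith
  have hX2 : X ^ 2 ≤ 36 / 10 ^ 8 := by nlinarith
  have hh2 : ‖h‖ ≤ 12 / 10 ^ 4 := hd.nh.trans (by linarith)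
  have hh2' : ‖h'‖ ≤ 12 / 10 ^ 4 := hd'.nh.trans (by linarith)
  have hh1 : ‖h‖ ≤ 1 / 800 := hh2.trans (by norm_num)
  have hh1' : ‖h'‖ ≤ 1 / 800 := hh2'.trans (by norm_num)
  have hv2 : ‖v‖ ≤ 22 / 10 ^ 7 := hd.nv.trans (by linarith)
  have hv2' : ‖v'‖ ≤ 22 / 10 ^ 7 := hd'.nv.trans (by linarith)
  obtain ⟨-, -, -, hLip⟩ := hB1 P hP h hh1
  obtain ⟨hβL, hτL, -, -, -⟩ := hLip h' hh1'
  obtain ⟨⟨-, hβ', -⟩, -⟩ := hB1 P hP h' hh1'
  obtain ⟨hmd, hms, hm0, hm1, hs1⟩ := hM2 P hP h v h' v' D hh2 hh2' hd.hv hd'.hv hv2 hv2' hh hv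
  obtain ⟨⟨-, -, -, hinc1, hinc2⟩, -, -, -, -, ⟨hPi5, hPi5n⟩, -, hres1, hres2, -⟩ := hA2
  -- bounds of beta and tau
  have hβL' : ‖beta P h - beta P h'‖ ≤ 1769 / 100 * D := by
    refine hβL.trans ?_
    have h1 : 8 * P.nu * ‖h - h'‖ ≤ 8 * (22101 / 100000) * (10 * D) := by gcongr
    linarith
  have hτL' : ‖tau P h - tau P h'‖ ≤ 255 / 100 * D := by
    refine hτL.trans ?_
    linarith
  have hβb : ‖beta P h'‖ ≤ 213 / 10 ^ 5 := by
    refine hβ'.trans ?_
    have h1 : 8 * P.nu * ‖h'‖ ≤ 8 * (22101 / 100000) * (12 / 10 ^ 4) := by gcongr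
    refine h1.trans (by norm_num)
  -- the vector in qq 0
  have hcf5 : ∀ (a : W), ∀ j < 5, cf (Pi5 a) j = 0 := by
    intro a j hj
    rw [hPi5, if_neg (by omega)]
  have hiv : ‖inc (Pi5 v)‖ ≤ 14 / 10 ^ 7 := by
    refine (hinc2 (Pi5 v) (hcf5 v)).trans ?_
    have := hPi5n v
    linarith
  have hivv : ‖inc (Pi5 v) - inc (Pi5 v')‖ ≤ 8 / 13 * D := by
    rw [← map_sub, ← map_sub]
    refine (hinc2 (Pi5 (v - v')) (hcf5 _)).trans ?_
    have := hPi5n (v - v')
    linarith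
  have hone : ‖(1 : A) + beta P h'‖ ≤ 1 + 213 / 10 ^ 5 := by
    refine (norm_add_le _ _).trans ?_
    rw [norm_one]
    linarith
  have hvec : ‖(1 + beta P h) * inc (Pi5 v) - (1 + beta P h') * inc (Pi5 v')‖ ≤
      617 / 1000 * D := by
    rw [b3_prod]
    refine (norm_add_le _ _).trans ?_
    have h1 : ‖(beta P h - beta P h') * inc (Pi5 v)‖ ≤ (1769 / 100 * D) * (14 / 10 ^ 7) :=
      (norm_mul_le _ _).trans (by gcongr)
    have h2 : ‖(1 + beta P h') * (inc (Pi5 v) - inc (Pi5 v'))‖ ≤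
        (1 + 213 / 10 ^ 5) * (8 / 13 * D) :=
      (norm_mul_le _ _).trans (by gcongr)
    refine (add_le_add h1 h2).trans ?_
    nlinarith
  have e0 : qq P h v y 0 - qq P h' v' y' 0 =
      res P.n 0 ((1 + beta P h) * inc (Pi5 v) - (1 + beta P h') * inc (Pi5 v')) := by
    rw [map_sub]
    rfl
  have e1 : ∀ i, qq P h v y (i + 1) - qq P h' v' y' (i + 1) = res P.n (i + 1) (y i - y' i) := by
    intro i
    rw [map_sub]
    rfl
  have ha : ‖inc (qq P h v y 0) - inc (qq P h' v' y' 0)‖ ≤ 124 / 1000 * D := by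
    rw [← map_sub, e0]
    refine (hres2 _ _ _).trans ?_
    linarith
  have ha' : ‖qq P h v y 0 - qq P h' v' y' 0‖ ≤ 201 / 1000 * D := by
    rw [e0]
    refine (hres1 _ _ _).trans ?_
    linarith
  have hb : ∀ i, ‖qq P h v y (i + 1) - qq P h' v' y' (i + 1)‖ ≤ 13 / 40 * D := by
    intro i
    rw [e1]
    refine (hres1 _ _ _).trans ?_
    linarith [hy i]
  have hc : ∀ i, ‖inc (qq P h v y (i + 1)) - inc (qq P h' v' y' (i + 1))‖ ≤ 1 / 5 * D := by
    intro i
    rw [← map_sub, e1]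
    refine (hres2 _ _ _).trans ?_
    linarith [hy i]
  -- vv
  have hn0 : (0 : ℝ) < P.n := by linarith
  have hnu3 : 1 / (2 * P.nu) ≤ 181 / 80 := by
    rw [div_le_iff₀ (by positivity)]
    linarith
  have hnu4 : 0 ≤ 1 / (2 * P.nu) := by positivity
  have ev : ∀ i, vv P h v y (i + 1) - vv P h' v' y' (i + 1) =
      (1 / (2 * P.nu)) • ((qq P h v y i - qq P h' v' y' i) +
        (qq P h v y (i + 2) - qq P h' v' y' (i + 2))) -
      (((i : ℝ) + 1) / P.n) • (qq P h v y (i + 1) - qq P h' v' y' (i + 1)) := by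
    intro i
    change ((1 / (2 * P.nu)) • (qq P h v y i + qq P h v y (i + 2)) -
      (((i : ℝ) + 1) / P.n) • qq P h v y (i + 1)) -
      ((1 / (2 * P.nu)) • (qq P h' v' y' i + qq P h' v' y' (i + 2)) -
      (((i : ℝ) + 1) / P.n) • qq P h' v' y' (i + 1)) = _
    module
  have hvv : ∀ (i : ℕ) (q : ℝ), ‖qq P h v y i - qq P h' v' y' i‖ ≤ q * D →
      ‖vv P h v y (i + 1) - vv P h' v' y' (i + 1)‖ ≤
        181 / 80 * (q + 13 / 40) * D + ((i : ℝ) + 1) / 1896 * (13 / 40 * D) := by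
    intro i q hq
    rw [ev]
    refine (norm_sub_le _ _).trans (add_le_add ?_ ?_)
    · rw [norm_smul, Real.norm_eq_abs, abs_of_nonneg hnu4]
      have h1 : ‖(qq P h v y i - qq P h' v' y' i) +
          (qq P h v y (i + 2) - qq P h' v' y' (i + 2))‖ ≤ q * D + 13 / 40 * D :=
        (norm_add_le _ _).trans (add_le_add hq (hb (i + 1)))
      calc 1 / (2 * P.nu) * ‖(qq P h v y i - qq P h' v' y' i) +
            (qq P h v y (i + 2) - qq P h' v' y' (i + 2))‖
          ≤ 181 / 80 * (q * D + 13 / 40 * D) := by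
            refine mul_le_mul hnu3 h1 (norm_nonneg _) (by norm_num)
        _ = 181 / 80 * (q + 13 / 40) * D := by ring
    · have h0 : (0 : ℝ) ≤ (i : ℝ) + 1 := by positivity
      rw [norm_smul, Real.norm_eq_abs, abs_of_nonneg (by positivity)]
      refine mul_le_mul ?_ (hb i) (norm_nonneg _) (by positivity)
      exact div_le_div_of_nonneg_left h0 (by norm_num) hn
  have hd1 : ‖vv P h v y 1 - vv P h' v' y' 1‖ ≤ 6 / 5 * D := by
    have h1 := hvv 0 (201 / 1000) ha'
    refine h1.trans ?_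
    push_cast
    nlinarith
  have hd2 : ∀ i : ℕ, ‖vv P h v y (i + 1) - vv P h' v' y' (i + 1)‖ ≤ 3 / 2 * ((i : ℝ) + 1) * D := by
    intro i
    rcases i with _ | i
    · have h1 := hd1
      norm_num
      linarith
    · have h1 := hvv (i + 1) (13 / 40) (hb i)
      exact h1.trans (b3_g i hD0)
  -- Vh and Qh
  have eV : ∀ i, Vh P X h v y i - Vh P X h' v' y' i = (X * P.a 1 i) • (tau P h - tau P h') +
      (md P h v i - md P h' v' i) + (vv P h v y i - vv P h' v' y' i) := by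
    intro i
    change ((X * P.a 1 i) • tau P h + md P h v i + vv P h v y i) -
      ((X * P.a 1 i) • tau P h' + md P h' v' i + vv P h' v' y' i) = _
    module
  have eQ : ∀ i, Qh P X h v y i - Qh P X h' v' y' i =
      (X * P.a 1 (i + 1)) • (tau P h - tau P h') +
      (ms P h v (i + 1) - ms P h' v' (i + 1)) + (qq P h v y (i + 1) - qq P h' v' y' (i + 1)) := by
    intro i
    change (P.b i • (1 : W) + (X * P.a 1 (i + 1)) • tau P h + ms P h v (i + 1) +
        qq P h v y (i + 1)) -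
      (P.b i • (1 : W) + (X * P.a 1 (i + 1)) • tau P h' + ms P h' v' (i + 1) +
        qq P h' v' y' (i + 1)) = _
    module
  have ha10 : |P.a 1 0| ≤ 3380 / 10 ^ 10 := by
    rw [abs_of_nonneg (by linarith [hP.a10])]
    exact hP.a10'
  have ha11 : |P.a 1 1| = 1 := by
    rw [hP.a1 1 le_rfl (by norm_num), abs_neg, abs_one]
  have hτa : ∀ i (c : ℝ), |P.a 1 i| ≤ c →
      ‖(X * P.a 1 i) • (tau P h - tau P h')‖ ≤ (6 / 10 ^ 4) * c * (255 / 100 * D) := by
    intro i c hc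
    rw [norm_smul, Real.norm_eq_abs, abs_mul, abs_of_pos hX0]
    have hc0 : 0 ≤ c := (abs_nonneg _).trans hc
    gcongr
  have hV0 : ‖(Vh P X h v y 0 - Vh P X h' v' y' 0) - (v - v')‖ ≤ 3 / 1000 * D := by
    have e2 : (Vh P X h v y 0 - Vh P X h' v' y' 0) - (v - v') =
        (X * P.a 1 0) • (tau P h - tau P h') +
        ((md P h v 0 + Pi5 v - v) - (md P h' v' 0 + Pi5 v' - v')) := by
      rw [eV]
      change (X * P.a 1 0) • (tau P h - tau P h') +
        (md P h v 0 - md P h' v' 0) + (Pi5 v - Pi5 v') - (v - v') = _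
      abel
    rw [e2]
    refine (norm_add_le _ _).trans ?_
    have h1 := hτa 0 _ ha10
    have h2 : (6 / 10 ^ 4) * (3380 / 10 ^ 10) * (255 / 100 * D) ≤ 1 / 1000 * D := by
      nlinarith
    linarith
  refine ⟨ha, hb, hc, hd1, hV0, ?_, ?_, ?_, ?_⟩
  · rw [eV]
    refine (norm_add_le _ _).trans ?_
    have h1 := hτa 1 1 ha11.le
    have h2 := norm_add_le ((X * P.a 1 1) • (tau P h - tau P h')) (md P h v 1 - md P h' v' 1)
    nlinarith
  · rw [eQ]
    refine (norm_add_le _ _).trans ?_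
    have h1 := hτa 1 1 ha11.le
    have h2 := norm_add_le ((X * P.a 1 (0 + 1)) • (tau P h - tau P h'))
      (ms P h v (0 + 1) - ms P h' v' (0 + 1))
    have h3 := hb 0
    simp only [zero_add] at h2 h3 ⊢
    nlinarith
  · intro i
    rcases i with _ | i
    · have h1 : Vh P X h v y 0 - Vh P X h' v' y' 0 =
          ((Vh P X h v y 0 - Vh P X h' v' y' 0) - (v - v')) + (v - v') := by abel
      rw [h1]
      refine (norm_add_le _ _).trans ?_
      norm_num
      linarith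
    · rw [eV]
      refine (norm_add_le _ _).trans ?_
      have h2 := norm_add_le ((X * P.a 1 (i + 1)) • (tau P h - tau P h'))
        (md P h v (i + 1) - md P h' v' (i + 1))
      have hF : (0 : ℝ) < ((i + 1).factorial : ℝ) := by exact_mod_cast Nat.factorial_pos _
      set T : ℝ := 3 ^ (i + 1) * (i + 1).factorial with hT
      have hT0 : 0 ≤ T := by positivity
      have h3 : ((3 : ℝ) / 2) ^ (i + 1) * (i + 1).factorial ≤ 1 / 2 * T := by
        have := mul_le_mul_of_nonneg_right (b3_half i) hF.le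
        rw [hT]
        linarith
      have h4 : |P.a 1 (i + 1)| ≤ 1 / 3 * T := by
        refine (haA (i + 1)).trans ?_
        linarith
      have h5 := hτa (i + 1) _ h4
      have h6 : ‖md P h v (i + 1) - md P h' v' (i + 1)‖ ≤ 25 / 4 * T * D := by
        refine (hmd (i + 1)).trans ?_
        have := mul_le_mul_of_nonneg_right h3 hD0
        nlinarith
      have h7 : ((i : ℝ) + 1) ≤ 1 / 3 * T := by
        have h8 : (3 : ℝ) * ((i : ℝ) + 1) ≤ 3 ^ (i + 1) * (i + 1).factorial :=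
          mul_le_mul (b3_three i) (b3_fac i) (by positivity) (by positivity)
        rw [hT]
        linarith
      have h9 : ‖vv P h v y (i + 1) - vv P h' v' y' (i + 1)‖ ≤ 1 / 2 * T * D := by
        refine (hd2 i).trans ?_
        have := mul_le_mul_of_nonneg_right h7 hD0
        nlinarith
      have h10 := mul_nonneg hT0 hD0
      nlinarith
  · intro i
    rw [eQ]
    refine (norm_add_le _ _).trans ?_
    have h2 := norm_add_le ((X * P.a 1 (i + 1)) • (tau P h - tau P h'))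
      (ms P h v (i + 1) - ms P h' v' (i + 1))
    have hF : (0 : ℝ) < (i.factorial : ℝ) := by exact_mod_cast Nat.factorial_pos _
    set T : ℝ := 3 ^ i * i.factorial with hT
    have hT0 : 0 ≤ T := by positivity
    have h3 : ((3 : ℝ) / 2) ^ (i + 1) * (i + 1).factorial ≤ 3 / 2 * T := by
      have h4 := mul_le_mul_of_nonneg_right (b3_nat i) hF.le
      have h5 : ((3 : ℝ) / 2) ^ (i + 1) * (i + 1).factorial =
          3 / 2 * (((i : ℝ) + 1) * (3 / 2) ^ i * i.factorial) := by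
        rw [Nat.factorial_succ, pow_succ]
        push_cast
        ring
      rw [h5, hT]
      linarith
    have h4 : |P.a 1 (i + 1)| ≤ T := by
      refine (haA (i + 1)).trans ?_
      linarith
    have h5 := hτa (i + 1) _ h4
    have h6 : ‖ms P h v (i + 1) - ms P h' v' (i + 1)‖ ≤ 75 / 8 * T * D := by
      refine (hms (i + 1)).trans ?_
      have := mul_le_mul_of_nonneg_right h3 hD0
      nlinarith
    have hT1 : 1 ≤ T := by
      have h7 : (1 : ℝ) ≤ 3 ^ i := one_le_pow₀ (by norm_num)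
      have h8 : (1 : ℝ) ≤ (i.factorial : ℝ) := by exact_mod_cast Nat.factorial_pos _
      rw [hT]
      nlinarith
    have h9 : ‖qq P h v y (i + 1) - qq P h' v' y' (i + 1)‖ ≤ 13 / 40 * T * D := by
      refine (hb i).trans ?_
      have := mul_le_mul_of_nonneg_right hT1 hD0
      nlinarith
    have h10 := mul_nonneg hT0 hD0
    nlinarith

end Pool.Agent.H957.CX.PB3
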