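import Pool.Agent.H957.CX.Stm

/-!
Project CX (helper957), problem MP_83fd13_an: part D2, the second derivative of the conformal map.
-/

set_option autoImplicit false

open Set Filter Topology

namespace Pool.Agent.H957.CX.PD2

open Pool.Agent.N229.SC (Al Wt cf mon lft norm_mon lft_mon norm_lft_le lft_hasSum ext_mon mul_def
  one_def mon_mul_mon S_A1 ev evh Conf Nd Str Om SS UU PP eF Fb)

/-- `j² ≤ 151 wW j` -/
theorem sq_le (k : ℕ) : (k : ℝ) ^ 2 ≤ 151 * wW (k : ℤ) := by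
  have h0 : (0 : ℝ) ≤ k := Nat.cast_nonneg k
  have hL : (1 : ℝ) - (51 / 50)⁻¹ ≤ Real.log (51 / 50) := Real.one_sub_inv_le_log_of_pos (by norm_num)
  have hL' : (0.0196 : ℝ) ≤ Real.log (51 / 50) := le_trans (by norm_num) hL
  have he : (2.7182 : ℝ) ≤ Real.exp 1 := by
    have := Real.exp_one_gt_d9
    linarith
  have h1 : (51 / 50 : ℝ) ^ k = Real.exp (k * Real.log (51 / 50)) := by
    rw [mul_comm, Real.exp_mul, Real.exp_log (by norm_num), Real.rpow_natCast]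
  have h2 : (k : ℝ) * Real.log (51 / 50) ≤ Real.exp (k * Real.log (51 / 50) - 1) := by
    have := Real.add_one_le_exp (k * Real.log (51 / 50) - 1)
    linarith
  have h3 : Real.exp (k * Real.log (51 / 50)) =
      Real.exp (k * Real.log (51 / 50) - 1) * Real.exp 1 := by
    rw [← Real.exp_add]
    congr 1
    ring
  have h4 : (0.0532 : ℝ) * k ≤ (51 / 50 : ℝ) ^ k := by
    rw [h1, h3]
    have h5 : (0.0196 : ℝ) * k ≤ k * Real.log (51 / 50) := by nlinarith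
    have h6 : (0.0196 : ℝ) * k * 2.7182 ≤
        Real.exp (k * Real.log (51 / 50) - 1) * Real.exp 1 :=
      mul_le_mul (h5.trans h2) he (by norm_num) (Real.exp_pos _).le
    nlinarith
  have h5 : wW (k : ℤ) = (1 + (k : ℝ) / 8) * (51 / 50 : ℝ) ^ k := by
    unfold wW Rad
    rw [Int.natAbs_natCast]
  rw [h5]
  have h6 : (0 : ℝ) < (51 / 50 : ℝ) ^ k := by positivity
  nlinarith

theorem le_wW (k : ℕ) : (k : ℝ) ≤ 8 * wW (k : ℤ) := by
  have h0 : (0 : ℝ) ≤ k := Nat.cast_nonneg k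
  have h5 : wW (k : ℤ) = (1 + (k : ℝ) / 8) * (51 / 50 : ℝ) ^ k := by
    unfold wW Rad
    rw [Int.natAbs_natCast]
  have h6 : (1 : ℝ) ≤ (51 / 50 : ℝ) ^ k := one_le_pow₀ (by norm_num)
  rw [h5]
  nlinarith

theorem summ (hA1 : S_A1) (a : W) : Summable (fun k : ℕ => |cf a (k : ℤ)| * wW (k : ℤ)) := by
  obtain ⟨-, -, -, -, -, -, -, h, -⟩ := hA1 wW
  exact (h a).summable.comp_injective (i := fun k : ℕ => (k : ℤ)) Nat.cast_injective

theorem tsum_le (hA1 : S_A1) (a : W) : ∑' k : ℕ, |cf a (k : ℤ)| * wW (k : ℤ) ≤ ‖a‖ := by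
  obtain ⟨-, -, -, -, -, -, -, h, -⟩ := hA1 wW
  rw [← (h a).tsum_eq]
  exact tsum_comp_le_tsum_of_inj (f := fun j : ℤ => |cf a j| * wW j) (i := fun k : ℕ => (k : ℤ))
    (h a).summable (fun j => mul_nonneg (abs_nonneg _) (Wt.pos wW j).le) Nat.cast_injective

/-- derivative of a power series with a bound -/
theorem series (hA1 : S_A1) (a : W) (c : ℕ → ℝ) (C : ℝ) (hC : 0 ≤ C)
    (hc : ∀ k, |c k| * k ≤ C * (|cf a (k : ℤ)| * wW (k : ℤ))) (s : ℂ) (hs : ‖s‖ < 1) :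
    HasDerivAt (fun z : ℂ => ∑' k : ℕ, (c k : ℂ) * z ^ k)
      (∑' k : ℕ, (c k : ℂ) * ((k : ℂ) * s ^ (k - 1))) s ∧
      ‖∑' k : ℕ, (c k : ℂ) * ((k : ℂ) * s ^ (k - 1))‖ ≤ C * ‖a‖ := by
  have hsum := (summ hA1 a).mul_left C
  have hbd : ∀ (k : ℕ) (y : ℂ), ‖y‖ < 1 → ‖(c k : ℂ) * ((k : ℂ) * y ^ (k - 1))‖ ≤
      C * (|cf a (k : ℤ)| * wW (k : ℤ)) := by
    intro k y hy
    rw [norm_mul, norm_mul, norm_pow, Complex.norm_real, Real.norm_eq_abs, Complex.norm_natCast]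
    refine le_trans ?_ (hc k)
    have h1 : ‖y‖ ^ (k - 1) ≤ 1 := pow_le_one₀ (norm_nonneg _) hy.le
    have h2 : (0 : ℝ) ≤ |c k| * k := by positivity
    calc |c k| * (k * ‖y‖ ^ (k - 1)) = |c k| * k * ‖y‖ ^ (k - 1) := by ring
      _ ≤ |c k| * k * 1 := mul_le_mul_of_nonneg_left h1 h2
      _ = |c k| * k := mul_one _
  constructor
  · refine hasDerivAt_tsum_of_isPreconnected (t := Metric.ball (0 : ℂ) 1)
      (g := fun (k : ℕ) (z : ℂ) => (c k : ℂ) * z ^ k)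
      (g' := fun (k : ℕ) (z : ℂ) => (c k : ℂ) * ((k : ℂ) * z ^ (k - 1)))
      (y₀ := 0) hsum Metric.isOpen_ball
      (convex_ball _ _).isPreconnected ?_ ?_ ?_ ?_ ?_
    · intro k y _
      exact (hasDerivAt_pow k y).const_mul _
    · intro k y hy
      rw [mem_ball_zero_iff] at hy
      exact hbd k y hy
    · exact Metric.mem_ball_self one_pos
    · apply summable_of_ne_finset_zero (s := {0})
      intro k hk
      rw [Finset.mem_singleton] at hk
      show (c k : ℂ) * 0 ^ k = 0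
      rw [zero_pow hk, mul_zero]
    · rw [mem_ball_zero_iff]
      exact hs
  · have hn : Summable fun k : ℕ => ‖(c k : ℂ) * ((k : ℂ) * s ^ (k - 1))‖ :=
      Summable.of_nonneg_of_le (fun _ => norm_nonneg _) (fun k => hbd k s hs) hsum
    refine (norm_tsum_le_tsum_norm hn).trans ?_
    refine (hn.tsum_le_tsum (fun k => hbd k s hs) hsum).trans ?_
    rw [tsum_mul_left]
    exact mul_le_mul_of_nonneg_left (tsum_le hA1 a) hC

/-- the derivative of `evh a` -/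
theorem d_evh (hA1 : S_A1) (a : W) (s : ℂ) (hs : ‖s‖ < 1) :
    ∃ d, HasDerivAt (evh a) d s ∧ ‖d‖ ≤ 8 * ‖a‖ := by
  obtain ⟨h1, h2⟩ := series hA1 a (fun k => cf a (k : ℤ)) 8 (by norm_num) (fun k => by
    have := le_wW k
    have h0 := abs_nonneg (cf a (k : ℤ))
    nlinarith) s hs
  exact ⟨_, h1, h2⟩

/-- the derivative of `evh (der a)` -/
theorem d_der (hA1 : S_A1) (hA2 : S_A2) (a : W) (s : ℂ) (hs : ‖s‖ < 1) :
    ∃ d, HasDerivAt (evh (der a)) d s ∧ ‖d‖ ≤ 151 * ‖a‖ := by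
  obtain ⟨-, -, -, ⟨hd, -⟩, -⟩ := hA2
  obtain ⟨h1, h2⟩ := series hA1 a (fun k => cf (der a) (k : ℤ)) 151 (by norm_num) (fun k => by
    rw [hd, abs_mul]
    have := sq_le k
    have h0 := abs_nonneg (cf a (k : ℤ))
    have h3 : |(((k : ℕ) : ℤ) : ℝ)| = k := by simp
    rw [h3]
    nlinarith) s hs
  exact ⟨_, h1, h2⟩

theorem main (hA1 : S_A1) (hA2 : S_A2) (_hA3 : S_A3) (_hAB : S_AB) (hB1 : S_B1) (hEH : S_EH) :
    S_D2 := by
  intro P X h v y F z hz
  have hG := F.good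
  have hX0 := F.X_pos
  have hX1 := F.X_le
  have hρ : 0 < P.ρ := lt_of_lt_of_le (by norm_num) hG.rho
  have hnu1 := hG.nu1
  have hnu2 := hG.nu2
  have hnuρ : (P.n : ℝ) = P.nu * P.ρ := by
    unfold Par.nu
    field_simp
  have hn1 : (1896 : ℝ) ≤ P.n := by
    rw [hnuρ]
    have := hG.rho
    nlinarith
  have hn2 : (P.n : ℝ) ≤ 1898 := by
    rw [hnuρ]
    have := hG.rho'
    have := hG.rho
    nlinarith
  have hn0 : P.n ≠ 0 := by
    rintro h0
    rw [h0] at hn1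
    norm_num at hn1
  have hnp : (0 : ℝ) < P.n := by linarith
  have hh : ‖h‖ ≤ 12 / 10 ^ 4 := by
    have := F.sol.nh
    linarith
  obtain ⟨⟨b1, b2, -⟩, -⟩ := hB1 P hG h (by linarith)
  have hh0 := norm_nonneg h
  have hPhi : ‖Phi P h‖ ≤ 27 / 10 ^ 5 := by
    refine b1.trans ?_
    nlinarith
  have hbeta : ‖beta P h‖ ≤ 214 / 10 ^ 5 := by
    refine b2.trans ?_
    nlinarith
  have hw : ∀ j, Rad ^ j.natAbs ≤ wW j := wA_le_wW
  have hw' : ∀ j, Rad ^ j.natAbs ≤ wA j := fun j => le_rfl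
  obtain ⟨-, e2, e3, e4, -, -, e7, -⟩ := hEH wW hw
  obtain ⟨-, e2', e3', e4', -, -, -, -⟩ := hEH wA hw'
  rw [mem_ball_zero_iff] at hz
  have hRad : (1 : ℝ) < Rad := by norm_num [Rad]
  -- the first derivative
  have hpow : ∀ w : ℂ, ‖w‖ < 1 → ‖w ^ P.n‖ < 1 := fun w hw => by
    rw [norm_pow]
    exact pow_lt_one₀ (norm_nonneg _) hw hn0
  have hPd : ∀ w : ℂ, ‖w‖ < 1 → ∃ d, HasDerivAt (fun w : ℂ =>
      Complex.exp (evh (Phi P h) (w ^ P.n) / P.n))
      (Complex.exp (evh (Phi P h) (w ^ P.n) / P.n) * (d * w ^ (P.n - 1))) w ∧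
      ‖d‖ ≤ 8 * ‖Phi P h‖ ∧ w ^ P.n * d = evh (beta P h) (w ^ P.n) := by
    intro w hw
    obtain ⟨d, hd1, hd2⟩ := d_evh hA1 (Phi P h) (w ^ P.n) (hpow w hw)
    refine ⟨d, ?_, hd2, ?_⟩
    · have h3 : HasDerivAt (fun w : ℂ => evh (Phi P h) (w ^ P.n))
          (d * ((P.n : ℂ) * w ^ (P.n - 1))) w :=
        HasDerivAt.comp (h₂ := evh (Phi P h)) (h := fun w : ℂ => w ^ P.n) w hd1
          (hasDerivAt_pow P.n w)
      have h4 := (h3.div_const (P.n : ℂ)).cexp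
      refine h4.congr_deriv ?_
      have hn' : (P.n : ℂ) ≠ 0 := by exact_mod_cast hn0
      field_simp
    · have := e7 (Phi P h) (w ^ P.n) ((hpow w hw).trans hRad)
      rw [hd1.deriv] at this
      unfold beta
      rw [this]
  have hf1 : ∀ w : ℂ, ‖w‖ < 1 → HasDerivAt (fF P h) (P.ρ *
      (Complex.exp (evh (Phi P h) (w ^ P.n) / P.n) * (1 + evh (beta P h) (w ^ P.n)))) w := by
    intro w hw
    obtain ⟨d, hd1, hd2, hd3⟩ := hPd w hw
    have h5 : HasDerivAt (fF P h) _ w := ((hasDerivAt_id w).const_mul (P.ρ : ℂ)).mul hd1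
    refine h5.congr_deriv ?_
    simp only [id_eq]
    rw [← hd3]
    have h7 : w ^ P.n = w * w ^ (P.n - 1) := by
      rw [← pow_succ']
      congr 1
      omega
    rw [h7]
    ring
  -- the derivative of `β`
  have hhol : hol h = X • mon wW 1 + hol (h - X • cc) := by
    have h1 : hol cc = mon wW 1 := by
      have m1 : hol (mon wW 1) = mon wW 1 := by
        unfold hol
        rw [lft_mon]
        rfl
      have m2 : hol (mon wW (-1)) = mon wW 1 := by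
        unfold hol
        rw [lft_mon]
        rfl
      unfold cc
      rw [map_smul, map_add, m1, m2, ← two_smul ℝ (mon wW 1), smul_smul]
      norm_num
    have h2 : h = X • cc + (h - X • cc) := by abel
    conv_lhs => rw [h2]
    rw [map_add, map_smul, h1]
  have hr : ‖hol (h - X • cc)‖ ≤ 8 * X ^ 2 := by
    obtain ⟨-, -, ⟨-, hh1⟩, -⟩ := hA2
    exact (hh1 _).trans F.hX
  have hbd : ∀ s : ℂ, ‖s‖ < 1 → ∃ d, HasDerivAt (evh (beta P h)) d s ∧
      ‖d‖ ≤ P.nu * (X + 151 * (8 * X ^ 2)) := by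
    intro s hs
    obtain ⟨d, hd1, hd2⟩ := d_der hA1 hA2 (hol (h - X • cc)) s hs
    have hnu0 : 0 < P.nu := by linarith
    refine ⟨P.nu * (X + d), ?_, ?_⟩
    · have hb : beta P h = (P.nu * X) • mon wA 1 + P.nu • der (hol (h - X • cc)) := by
        unfold beta Phi
        rw [map_smul, hhol, map_add, map_smul, smul_add, smul_smul]
        congr 1
        have m1 : der (mon wW 1) = mon wA 1 := by
          unfold der
          rw [lft_mon]
          simp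
        rw [m1]
      have hm : ∀ w : ℂ, evh (mon wA 1) w = w := by
        intro w
        obtain ⟨-, -, -, -, -, hcm, -⟩ := hA1 wA
        unfold evh
        rw [tsum_eq_single 1]
        · rw [hcm]
          simp
        · intro k hk
          rw [hcm, if_neg]
          · simp
          · intro h1
            apply hk
            exact_mod_cast h1.symm
      have hev : ∀ w : ℂ, ‖w‖ < 1 → evh (beta P h) w =
          (P.nu : ℂ) * ((X : ℂ) * w + evh (der (hol (h - X • cc))) w) := by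
        intro w hw
        rw [hb, e3' _ _ _ (hw.trans hRad).le, e4', e4', hm]
        push_cast
        ring
      have h1 : HasDerivAt (fun w : ℂ => (P.nu : ℂ) * ((X : ℂ) * w + evh (der (hol (h - X • cc))) w))
          (P.nu * (X + d)) s := by
        have h2 := (((hasDerivAt_id s).const_mul (X : ℂ)).add hd1).const_mul (P.nu : ℂ)
        rw [mul_one] at h2
        exact h2
      refine h1.congr_of_eventuallyEq ?_
      filter_upwards [Metric.isOpen_ball.mem_nhds (mem_ball_zero_iff.2 hs)] with w hw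
      exact hev w (mem_ball_zero_iff.1 hw)
    · rw [norm_mul, Complex.norm_real, Real.norm_eq_abs, abs_of_pos hnu0]
      refine mul_le_mul_of_nonneg_left ?_ hnu0.le
      refine (norm_add_le _ _).trans ?_
      rw [Complex.norm_real, Real.norm_eq_abs, abs_of_pos hX0]
      linarith
  -- assembly
  obtain ⟨d, hd1, hd2, hd3⟩ := hPd z hz
  obtain ⟨b, hb1, hb2⟩ := hbd (z ^ P.n) (hpow z hz)
  obtain ⟨E, hE⟩ : ∃ E, E = Complex.exp (evh (Phi P h) (z ^ P.n) / P.n) := ⟨_, rfl⟩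
  obtain ⟨B, hB⟩ : ∃ B, B = evh (beta P h) (z ^ P.n) := ⟨_, rfl⟩
  have hBn : ‖B‖ ≤ 214 / 10 ^ 5 := by
    rw [hB]
    exact (e2' _ _ ((hpow z hz).trans hRad).le).trans hbeta
  have hun : ‖evh (Phi P h) (z ^ P.n) / (P.n : ℂ)‖ ≤ 1 / 10 ^ 6 := by
    rw [norm_div, Complex.norm_natCast, div_le_iff₀ hnp]
    refine ((e2 _ _ ((hpow z hz).trans hRad).le).trans hPhi).trans ?_
    nlinarith
  have hE1 : ‖E - 1‖ ≤ 2 / 10 ^ 6 := by
    rw [hE]
    refine (Complex.norm_exp_sub_one_le (hun.trans (by norm_num))).trans ?_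
    linarith
  have hEn : ‖E‖ ≤ 1 + 2 / 10 ^ 6 := by
    have := norm_add_le (E - 1) 1
    rw [sub_add_cancel, norm_one] at this
    linarith
  have hB1n : ‖1 + B‖ ≤ 1 + 214 / 10 ^ 5 := by
    refine (norm_add_le _ _).trans ?_
    rw [norm_one]
    linarith
  have hdn : ‖d‖ ≤ 216 / 10 ^ 5 := by linarith
  have hzp : ‖z ^ (P.n - 1)‖ ≤ 1 := by
    rw [norm_pow]
    exact pow_le_one₀ (norm_nonneg _) hz.le
  constructor
  · have hev : deriv (fF P h) =ᶠ[𝓝 z] fun w : ℂ => P.ρ *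
        (Complex.exp (evh (Phi P h) (w ^ P.n) / P.n) * (1 + evh (beta P h) (w ^ P.n))) := by
      filter_upwards [Metric.isOpen_ball.mem_nhds (mem_ball_zero_iff.2 hz)] with w hw
      exact (hf1 w (mem_ball_zero_iff.1 hw)).deriv
    have h3 : HasDerivAt (fun w : ℂ => evh (beta P h) (w ^ P.n))
        (b * ((P.n : ℂ) * z ^ (P.n - 1))) z :=
      HasDerivAt.comp (h₂ := evh (beta P h)) (h := fun w : ℂ => w ^ P.n) z hb1
        (hasDerivAt_pow P.n z)
    have h4 := (hd1.mul (h3.const_add 1)).const_mul (P.ρ : ℂ)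
    have h5 : deriv (deriv (fF P h)) z = P.ρ * (E * (d * z ^ (P.n - 1)) * (1 + B) +
        E * (b * ((P.n : ℂ) * z ^ (P.n - 1)))) := by
      rw [hev.deriv_eq, hE, hB]
      exact h4.deriv
    rw [h5, norm_mul, Complex.norm_real, Real.norm_eq_abs, abs_of_pos hρ]
    have h6 : ‖E * (d * z ^ (P.n - 1)) * (1 + B)‖ ≤ 3 / 10 ^ 3 := by
      rw [norm_mul, norm_mul, norm_mul]
      have k1 : ‖d‖ * ‖z ^ (P.n - 1)‖ ≤ 216 / 10 ^ 5 * 1 :=
        mul_le_mul hdn hzp (norm_nonneg _) (by norm_num)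
      have k2 : ‖E‖ * (‖d‖ * ‖z ^ (P.n - 1)‖) ≤ (1 + 2 / 10 ^ 6) * (216 / 10 ^ 5 * 1) :=
        mul_le_mul hEn k1 (by positivity) (by norm_num)
      have k3 : ‖E‖ * (‖d‖ * ‖z ^ (P.n - 1)‖) * ‖1 + B‖ ≤
          (1 + 2 / 10 ^ 6) * (216 / 10 ^ 5 * 1) * (1 + 214 / 10 ^ 5) :=
        mul_le_mul k2 hB1n (norm_nonneg _) (by norm_num)
      refine k3.trans ?_
      norm_num
    have h7 : ‖E * (b * ((P.n : ℂ) * z ^ (P.n - 1)))‖ ≤ 45 / 100 := by
      rw [norm_mul, norm_mul, norm_mul, Complex.norm_natCast]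
      have k0 : P.nu * (X + 151 * (8 * X ^ 2)) ≤ 2211 / 10 ^ 4 * (6 / 10 ^ 4 + 151 * (8 * (6 / 10 ^ 4) ^ 2)) := by
        apply mul_le_mul
        · linarith
        · nlinarith
        · positivity
        · norm_num
      have k1 : (P.n : ℝ) * ‖z ^ (P.n - 1)‖ ≤ 1898 * 1 :=
        mul_le_mul hn2 hzp (norm_nonneg _) (by norm_num)
      have k2 : ‖b‖ * ((P.n : ℝ) * ‖z ^ (P.n - 1)‖) ≤
          2211 / 10 ^ 4 * (6 / 10 ^ 4 + 151 * (8 * (6 / 10 ^ 4) ^ 2)) * (1898 * 1) :=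
        mul_le_mul (hb2.trans k0) k1 (by positivity) (by norm_num)
      have k3 : ‖E‖ * (‖b‖ * ((P.n : ℝ) * ‖z ^ (P.n - 1)‖)) ≤ (1 + 2 / 10 ^ 6) *
          (2211 / 10 ^ 4 * (6 / 10 ^ 4 + 151 * (8 * (6 / 10 ^ 4) ^ 2)) * (1898 * 1)) :=
        mul_le_mul hEn k2 (by positivity) (by norm_num)
      refine k3.trans ?_
      norm_num
    have h8 := norm_add_le (E * (d * z ^ (P.n - 1)) * (1 + B)) (E * (b * ((P.n : ℂ) * z ^ (P.n - 1))))
    have h9 : ‖E * (d * z ^ (P.n - 1)) * (1 + B) + E * (b * ((P.n : ℂ) * z ^ (P.n - 1)))‖ ≤ 1 / 2 := by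
      linarith
    calc P.ρ * ‖E * (d * z ^ (P.n - 1)) * (1 + B) + E * (b * ((P.n : ℂ) * z ^ (P.n - 1)))‖
        ≤ P.ρ * (1 / 2) := mul_le_mul_of_nonneg_left h9 hρ.le
      _ = P.ρ / 2 := by ring
  · rw [(hf1 z hz).deriv, ← hE, ← hB]
    have h4 : (P.ρ : ℂ) * (E * (1 + B)) - P.ρ = P.ρ * ((E - 1) * (1 + B) + B) := by ring
    rw [h4, norm_mul, Complex.norm_real, Real.norm_eq_abs, abs_of_pos hρ]
    have h5 : ‖(E - 1) * (1 + B) + B‖ ≤ 1 / 100 := by
      refine (norm_add_le _ _).trans ?_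
      rw [norm_mul]
      have h7 : ‖E - 1‖ * ‖1 + B‖ ≤ (2 / 10 ^ 6) * (1 + 214 / 10 ^ 5) :=
        mul_le_mul hE1 hB1n (norm_nonneg _) (by norm_num)
      have h8 : (2 / 10 ^ 6 : ℝ) * (1 + 214 / 10 ^ 5) + 214 / 10 ^ 5 ≤ 1 / 100 := by norm_num
      linarith
    calc P.ρ * ‖(E - 1) * (1 + B) + B‖ ≤ P.ρ * (1 / 100) := mul_le_mul_of_nonneg_left h5 hρ.le
      _ = P.ρ / 100 := by ring

end Pool.Agent.H957.CX.PD2
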