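import Pool.Agent.H957.CX.Stm

/-!
Project CX (helper957), problem MP_83fd13_an: part EV, evaluation on the unit circle (helper387;
after the library file of project SC).
-/

set_option autoImplicit false

open Set Filter Topology MeasureTheory

namespace Pool.Agent.H957.CX.PEV

open Pool.Agent.N229.SC (Al Wt cf mon lft norm_mon lft_mon norm_lft_le lft_hasSum ext_mon
  mul_def one_def mon_mul_mon S_A1 ev evh Conf Nd Str Om SS UU PP eF Fb mulL mulL_mon)

theorem ev_bound {t : ℂ} (ht : ‖t‖ = 1) (w : ℤ → ℝ) [Wt w] (j : ℤ) : ‖t ^ j‖ ≤ 1 * w j := by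
  rw [norm_zpow, ht, one_zpow, one_mul]
  exact Wt.one_le j

/-- The evaluation at `t` as a continuous linear map. -/
noncomputable def ev_L {t : ℂ} (ht : ‖t‖ = 1) (w : ℤ → ℝ) [Wt w] : Al w →L[ℝ] ℂ :=
  lft (fun j => t ^ j) 1 (ev_bound ht w)

theorem ev_L_eq {t : ℂ} (ht : ‖t‖ = 1) (w : ℤ → ℝ) [Wt w] (a : Al w) : ev_L ht w a = ev a t := by
  have h := (lft_hasSum (fun j => t ^ j) 1 (ev_bound ht w) a).tsum_eq
  unfold ev_L ev
  rw [← h]
  exact tsum_congr fun j => Complex.real_smul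

theorem ev_L_mon {t : ℂ} (ht : ‖t‖ = 1) (w : ℤ → ℝ) [Wt w] (j : ℤ) :
    ev_L ht w (mon w j) = t ^ j := lft_mon _ _ _ j

theorem ev_L_norm {t : ℂ} (ht : ‖t‖ = 1) (w : ℤ → ℝ) [Wt w] (a : Al w) : ‖ev_L ht w a‖ ≤ ‖a‖ := by
  have h := (ev_L ht w).le_opNorm a
  have h2 : ‖ev_L ht w‖ ≤ 1 := norm_lft_le _ 1 zero_le_one _
  exact h.trans (mul_le_of_le_one_left (norm_nonneg _) h2)

theorem ev_L_mul {t : ℂ} (ht : ‖t‖ = 1) (w : ℤ → ℝ) [Wt w] (a b : Al w) :
    ev_L ht w (a * b) = ev_L ht w a * ev_L ht w b := by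
  have ht0 : t ≠ 0 := by rintro rfl; simp at ht
  have h1 : ∀ (i : ℤ) (b : Al w), ev_L ht w (mulL w (mon w i) b) = t ^ i * ev_L ht w b := by
    intro i b
    have : (ev_L ht w).comp (mulL w (mon w i)) =
        (ContinuousLinearMap.mul ℝ ℂ (t ^ i)).comp (ev_L ht w) := by
      refine ext_mon fun j => ?_
      rw [ContinuousLinearMap.comp_apply, ContinuousLinearMap.comp_apply, mulL_mon, ev_L_mon,
        ev_L_mon, ContinuousLinearMap.mul_apply', zpow_add₀ ht0]
    exact DFunLike.congr_fun this b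
  have h2 : (ev_L ht w).comp ((mulL w).flip b) =
      ((ContinuousLinearMap.mul ℝ ℂ).flip (ev_L ht w b)).comp (ev_L ht w) := by
    refine ext_mon fun j => ?_
    rw [ContinuousLinearMap.comp_apply, ContinuousLinearMap.comp_apply,
      ContinuousLinearMap.flip_apply, ContinuousLinearMap.flip_apply, h1, ev_L_mon,
      ContinuousLinearMap.mul_apply']
  exact DFunLike.congr_fun h2 a

theorem ev_L_one {t : ℂ} (ht : ‖t‖ = 1) (w : ℤ → ℝ) [Wt w] : ev_L ht w (1 : Al w) = 1 := by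
  rw [one_def, ev_L_mon, zpow_zero]

theorem ev_L_pow {t : ℂ} (ht : ‖t‖ = 1) (w : ℤ → ℝ) [Wt w] (a : Al w) (k : ℕ) :
    ev_L ht w (a ^ k) = ev_L ht w a ^ k := by
  induction k with
  | zero => rw [pow_zero, pow_zero, ev_L_one]
  | succ k ih => rw [pow_succ, pow_succ, ev_L_mul, ih]

theorem ev_evh {t : ℂ} (w : ℤ → ℝ) (a : Al w) (h : ∀ j < 0, cf a j = 0) : ev a t = evh a t := by
  unfold ev evh
  rw [← Function.Injective.tsum_eq (g := fun k : ℕ => (k : ℤ)) Nat.cast_injective]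
  · exact tsum_congr fun k => by rw [zpow_natCast]
  · intro j hj
    rcases lt_or_ge j 0 with h1 | h1
    · exfalso
      apply hj
      simp only [h j h1, Complex.ofReal_zero, zero_mul]
    · exact ⟨j.toNat, Int.toNat_of_nonneg h1⟩

theorem ev_star {t : ℂ} (ht : ‖t‖ = 1) (j : ℤ) : starRingEnd ℂ (t ^ j) = t ^ (-j) := by
  rw [map_zpow₀, ← Complex.inv_eq_conj ht, inv_zpow, zpow_neg]

theorem ev_conj {t : ℂ} (ht : ‖t‖ = 1) (a : W) :
    ev_L ht wW (conj a) = starRingEnd ℂ (ev_L ht wW a) := by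
  have h : (ev_L ht wW).comp conj =
      (Complex.conjCLE : ℂ →L[ℝ] ℂ).comp (ev_L ht wW) := by
    refine ext_mon fun j => ?_
    rw [ContinuousLinearMap.comp_apply, ContinuousLinearMap.comp_apply, ev_L_mon]
    have h1 : conj (mon wW j) = mon wW (-j) := lft_mon _ _ _ j
    rw [h1, ev_L_mon, ← ev_star ht]
    rfl
  exact DFunLike.congr_fun h a

theorem ev_inc {t : ℂ} (ht : ‖t‖ = 1) (a : W) : ev_L ht wA (inc a) = ev_L ht wW a := by
  have h : (ev_L ht wA).comp inc = ev_L ht wW := by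
    refine ext_mon fun j => ?_
    have h1 : inc (mon wW j) = mon wA j := lft_mon _ _ _ j
    rw [ContinuousLinearMap.comp_apply, h1, ev_L_mon, ev_L_mon]
  exact DFunLike.congr_fun h a

theorem ev_hol {t : ℂ} (ht : ‖t‖ = 1) (a : W) :
    (ev_L ht wW (hol a)).re = (ev_L ht wW a).re := by
  have h : Complex.reCLM.comp ((ev_L ht wW).comp hol) = Complex.reCLM.comp (ev_L ht wW) := by
    refine ext_mon fun j => ?_
    have h1 : hol (mon wW j) = mon wW j.natAbs := lft_mon _ _ _ j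
    rw [ContinuousLinearMap.comp_apply, ContinuousLinearMap.comp_apply,
      ContinuousLinearMap.comp_apply, h1, ev_L_mon, ev_L_mon]
    show (t ^ (j.natAbs : ℤ)).re = (t ^ j).re
    rcases le_total 0 j with h2 | h2
    · rw [Int.natAbs_of_nonneg h2]
    · rw [Int.ofNat_natAbs_of_nonpos h2, ← ev_star ht, Complex.conj_re]
  exact DFunLike.congr_fun h a

/-- CX-EV: evaluation on the unit circle. -/
theorem main (_hA1 : S_A1) (hA2 : S_A2) (hA3 : S_A3) : S_EV := by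
  intro w _ t ht
  refine ⟨fun a => ?_, fun a b => ?_, fun r a => ?_, fun a b => ?_, fun j => ?_,
    fun a h => ev_evh w a h, ⟨ev_L ht w, fun a => ev_L_eq ht w a⟩, fun a => ?_, fun a => ?_,
    fun a => ?_, fun a ha => ⟨?_, ?_⟩⟩
  · rw [← ev_L_eq ht]; exact ev_L_norm ht w a
  · rw [← ev_L_eq ht, ← ev_L_eq ht, ← ev_L_eq ht, map_add]
  · rw [← ev_L_eq ht, ← ev_L_eq ht, map_smul, Complex.real_smul]
  · rw [← ev_L_eq ht, ← ev_L_eq ht, ← ev_L_eq ht, ev_L_mul]
  · rw [← ev_L_eq ht, ev_L_mon]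
  · rw [← ev_L_eq ht, ← ev_L_eq ht, ev_conj]
  · rw [← ev_L_eq ht, ← ev_L_eq ht, ev_inc]
  · rw [← ev_L_eq ht, ← ev_L_eq ht]
    have h1 := (ev_L ht wW).hasSum (hA3.1.1 a)
    have h2 : HasSum (fun k : ℕ => (ev_L ht wW a) ^ k / (k.factorial : ℂ))
        (Complex.exp (ev_L ht wW a)) := by
      rw [Complex.exp_eq_exp_ℂ]
      exact NormedSpace.expSeries_div_hasSum_exp _
    refine h1.unique (h2.congr_fun fun k => ?_)
    rw [map_smul, ev_L_pow, Complex.real_smul]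
    push_cast
    rw [div_eq_inv_mul]
  · rw [← ev_evh wW (hol a), ← ev_L_eq ht, ← ev_L_eq ht, ev_hol]
    intro j hj
    rw [hA2.2.2.1.1, if_neg (by omega), if_neg (by omega)]
  · rw [← ev_L_eq ht]
    have h1 := ev_conj ht a
    rw [ha] at h1
    exact Complex.conj_eq_iff_im.mp h1.symm

end Pool.Agent.H957.CX.PEV
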