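import Pool.Agent.H957.CX.Stm

/-!
Project CX (helper957), problem MP_83fd13_an: part FN1 (helper115), the conformal map.
Adapted from the library file `N229/SC/FN1.lean`.
-/

set_option autoImplicit false

open Set Filter Topology

namespace Pool.Agent.H957.CX.PFN1

open Pool.Agent.N229.SC (Al Wt cf mon lft norm_mon lft_mon norm_lft_le lft_hasSum ext_mon mul_def
  one_def mon_mul_mon S_A1 ev evh Conf Nd Str Om SS UU PP eF Fb)

private theorem fn1_rF_pow (P : Par) (hn : P.n ≠ 0) : rF P ^ P.n = Rad :=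
  Real.rpow_inv_natCast_pow (by norm_num [Rad]) hn

private theorem fn1_lt (P : Par) (hn : P.n ≠ 0) {z : ℂ} (hz : z ∈ Metric.ball (0 : ℂ) (rF P)) :
    ‖z ^ P.n‖ < Rad := by
  rw [mem_ball_zero_iff] at hz
  rw [norm_pow, ← fn1_rF_pow P hn]
  exact pow_lt_pow_left₀ hz (norm_nonneg z) hn

private theorem fn1_deriv (hEH : S_EH) (P : Par) (hn : P.n ≠ 0) (h : W) {z : ℂ}
    (hz : z ∈ Metric.ball (0 : ℂ) (rF P)) :
    HasDerivAt (fF P h) (P.ρ * Complex.exp (evh (Phi P h) (z ^ P.n) / P.n) *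
      (1 + evh (beta P h) (z ^ P.n))) z := by
  have hw : ∀ j, Rad ^ j.natAbs ≤ wW j := wA_le_wW
  obtain ⟨e1, -, -, -, -, -, e7, -⟩ := hEH wW hw
  have h1 := fn1_lt P hn hz
  have h1' : z ^ P.n ∈ Metric.ball (0 : ℂ) Rad := by
    rw [mem_ball_zero_iff]
    exact h1
  have h2 : HasDerivAt (evh (Phi P h)) (deriv (evh (Phi P h)) (z ^ P.n)) (z ^ P.n) :=
    ((e1 (Phi P h)).differentiableAt (Metric.isOpen_ball.mem_nhds h1')).hasDerivAt
  have h3 : HasDerivAt (fun w : ℂ => evh (Phi P h) (w ^ P.n))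
      (deriv (evh (Phi P h)) (z ^ P.n) * ((P.n : ℂ) * z ^ (P.n - 1))) z :=
    HasDerivAt.comp (h₂ := evh (Phi P h)) (h := fun w : ℂ => w ^ P.n) z h2 (hasDerivAt_pow P.n z)
  have h4 := (h3.div_const (P.n : ℂ)).cexp
  have h5 : HasDerivAt (fF P h) _ z := ((hasDerivAt_id z).const_mul (P.ρ : ℂ)).mul h4
  have h6 := e7 (Phi P h) (z ^ P.n) h1
  have hn' : (P.n : ℂ) ≠ 0 := by exact_mod_cast hn
  refine h5.congr_deriv ?_
  simp only [id_eq]
  unfold beta
  rw [h6]
  have h7 : z * z ^ (P.n - 1) = z ^ P.n := by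
    rw [← pow_succ']
    congr 1
    omega
  rw [← h7]
  field_simp

/-- Part FN1: the conformal map. -/
theorem main (_hA1 : S_A1) (_hA2 : S_A2) (_hA3 : S_A3) (hB1 : S_B1) (hEH : S_EH) (hEV : S_EV) :
    S_FN1 := by
  intro P X h v y hF
  have hG := hF.good
  have hX0 := hF.X_pos
  have hX1 := hF.X_le
  have hρ : 0 < P.ρ := lt_of_lt_of_le (by norm_num) hG.rho
  have hnu1 := hG.nu1
  have hnu2 := hG.nu2
  have hn : (1890 : ℝ) ≤ P.n := by
    unfold Par.nu at hnu1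
    rw [le_div_iff₀ hρ] at hnu1
    have := hG.rho
    linarith
  have hn0 : P.n ≠ 0 := by
    rintro h0
    rw [h0] at hn
    norm_num at hn
  have hn1 : 1 < P.n := by
    have : (1 : ℝ) < P.n := by linarith
    exact_mod_cast this
  have hnp : (0 : ℝ) < P.n := by linarith
  have hh : ‖h‖ ≤ 12 / 10 ^ 4 := by
    have := hF.sol.nh
    linarith
  obtain ⟨⟨b1, b2, -⟩, -⟩ := hB1 P hG h (by linarith)
  have hh0 := norm_nonneg h
  have hPhi : ‖Phi P h‖ ≤ 5 / 10 ^ 4 := by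
    refine b1.trans ?_
    nlinarith
  have hbeta : ‖beta P h‖ ≤ 4 / 10 ^ 3 := by
    refine b2.trans ?_
    nlinarith
  have hw : ∀ j, Rad ^ j.natAbs ≤ wW j := wA_le_wW
  have hw' : ∀ j, Rad ^ j.natAbs ≤ wA j := fun j => le_rfl
  obtain ⟨-, e2, -, e4, -, -, -, -⟩ := hEH wW hw
  obtain ⟨-, e2', -, -, -, -, -, -⟩ := hEH wA hw'
  have hder := fun (z : ℂ) (hz : z ∈ Metric.ball (0 : ℂ) (rF P)) => fn1_deriv hEH P hn0 h hz
  refine ⟨⟨hρ, ?_, ?_, ?_, ?_⟩, ⟨?_, ?_⟩⟩
  · -- the radius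
    unfold rF
    exact Real.one_lt_rpow (by norm_num [Rad]) (by positivity)
  · intro z hz
    exact (hder z hz).differentiableAt.differentiableWithinAt
  · simp [fF]
  · intro z hz
    rw [(hder z hz).deriv]
    have h1 := fn1_lt P hn0 hz
    have h2 := (e2' (beta P h) (z ^ P.n) h1.le).trans hbeta
    have h3 := (e2 (Phi P h) (z ^ P.n) h1.le).trans hPhi
    obtain ⟨b, hb⟩ : ∃ b, b = evh (beta P h) (z ^ P.n) := ⟨_, rfl⟩
    obtain ⟨u, hu⟩ : ∃ u, u = evh (Phi P h) (z ^ P.n) / (P.n : ℂ) := ⟨_, rfl⟩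
    have hun : ‖u‖ ≤ 5 / 10 ^ 4 := by
      rw [hu, norm_div, Complex.norm_natCast, div_le_iff₀ hnp]
      nlinarith
    rw [← hb, ← hu]
    rw [← hb] at h2
    have hexp : ‖Complex.exp u - 1‖ ≤ 2 * ‖u‖ := by
      refine Complex.norm_exp_sub_one_le ?_
      linarith
    have h4 : (P.ρ : ℂ) * Complex.exp u * (1 + b) - P.ρ =
        P.ρ * ((Complex.exp u - 1) * (1 + b) + b) := by ring
    rw [h4, norm_mul, Complex.norm_real, Real.norm_eq_abs, abs_of_pos hρ]
    have h5 : ‖(Complex.exp u - 1) * (1 + b) + b‖ ≤ 1 / 10 := by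
      refine (norm_add_le _ _).trans ?_
      rw [norm_mul]
      have h6 : ‖1 + b‖ ≤ 1 + 4 / 10 ^ 3 := by
        refine (norm_add_le _ _).trans ?_
        rw [norm_one]
        linarith
      have h7 : ‖Complex.exp u - 1‖ * ‖1 + b‖ ≤ (10 / 10 ^ 4) * (1 + 4 / 10 ^ 3) :=
        mul_le_mul (by linarith) h6 (norm_nonneg _) (by norm_num)
      have h8 : (10 / 10 ^ 4 : ℝ) * (1 + 4 / 10 ^ 3) + 4 / 10 ^ 3 ≤ 1 / 10 := by norm_num
      linarith
    calc P.ρ * ‖(Complex.exp u - 1) * (1 + b) + b‖ ≤ P.ρ * (1 / 10) := by gcongr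
      _ = P.ρ / 10 := by ring
  · -- the symmetry
    have hpr := Complex.isPrimitiveRoot_exp P.n hn0
    refine ⟨Complex.exp (2 * Real.pi * Complex.I / P.n), ?_, ?_, ?_⟩
    · exact hpr.norm'_eq_one hn0
    · exact hpr.ne_one hn1
    · intro z _
      unfold fF
      rw [mul_pow, hpr.pow_eq_one, one_mul]
      ring
  · -- the domain is not a disc
    obtain ⟨z2, hz2⟩ : ∃ z2 : ℂ, z2 ^ P.n = -1 := by
      refine ⟨Complex.exp (Real.pi * Complex.I / P.n), ?_⟩
      rw [← Complex.exp_nat_mul]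
      have hn' : (P.n : ℂ) ≠ 0 := by exact_mod_cast hn0
      rw [mul_div_cancel₀ _ hn', Complex.exp_pi_mul_I]
    have hz2n : ‖z2‖ = 1 := by
      have h1 : ‖z2‖ ^ P.n = 1 := by rw [← norm_pow, hz2]; simp
      exact (pow_eq_one_iff_of_nonneg (norm_nonneg _) hn0).1 h1
    refine ⟨1, z2, norm_one, hz2n, ?_⟩
    have hnorm : ∀ z : ℂ, ‖z‖ = 1 → ‖fF P h z‖ =
        P.ρ * Real.exp (P.nu * (ev h (z ^ P.n)).re / P.n) := by
      intro z hz
      have ht : ‖z ^ P.n‖ = 1 := by rw [norm_pow, hz, one_pow]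
      obtain ⟨-, -, -, -, -, -, -, -, -, -, v11⟩ := hEV wW (z ^ P.n) ht
      unfold fF
      rw [norm_mul, norm_mul, hz, Complex.norm_real, Real.norm_eq_abs, abs_of_pos hρ, mul_one,
        Complex.norm_exp]
      congr 2
      have h1 : (evh (Phi P h) (z ^ P.n)).re = P.nu * (ev h (z ^ P.n)).re := by
        unfold Phi
        rw [e4, Complex.re_ofReal_mul, (v11 h hF.sol.hc).1]
      have h2 : (P.n : ℂ) = ((P.n : ℝ) : ℂ) := by norm_cast
      rw [h2, Complex.div_ofReal_re, h1]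
    rw [hnorm 1 norm_one, hnorm z2 hz2n, hz2, one_pow]
    have hev : ∀ t : ℂ, ‖t‖ = 1 → ‖ev h t - X * (1 / 2 * (t ^ (1 : ℤ) + t ^ (-1 : ℤ)))‖ ≤
        8 * X ^ 2 := by
      intro t ht
      obtain ⟨v1, v2, v3, -, v5, -, -, -, -, -, -⟩ := hEV wW t ht
      have h1 : ev h t = ev (X • cc) t + ev (h - X • cc) t := by
        rw [← v2]
        congr 1
        abel
      have h2 : ev (X • cc) t = X * (1 / 2 * (t ^ (1 : ℤ) + t ^ (-1 : ℤ))) := by
        unfold cc
        rw [v3, v3, v2, v5, v5]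
        push_cast
        ring
      rw [h1, h2, add_sub_cancel_left]
      exact (v1 _).trans hF.hX
    have hp := hev 1 norm_one
    have hm := hev (-1) (by simp)
    have hp2 : |(ev h 1).re - X| ≤ 8 * X ^ 2 := by
      have h1 := (Complex.abs_re_le_norm _).trans hp
      have h2 : (ev h 1 - X * (1 / 2 * ((1 : ℂ) ^ (1 : ℤ) + (1 : ℂ) ^ (-1 : ℤ)))).re =
          (ev h 1).re - X := by
        norm_num
      rw [h2] at h1
      exact h1
    have hm2 : |(ev h (-1)).re + X| ≤ 8 * X ^ 2 := by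
      have h1 := (Complex.abs_re_le_norm _).trans hm
      have h2 : (ev h (-1) - X * (1 / 2 * ((-1 : ℂ) ^ (1 : ℤ) + (-1 : ℂ) ^ (-1 : ℤ)))).re =
          (ev h (-1)).re + X := by
        norm_num
      rw [h2] at h1
      exact h1
    have hXX : 8 * X ^ 2 < X := by nlinarith
    have hpos : 0 < (ev h 1).re := by linarith [(abs_le.1 hp2).1]
    have hneg : (ev h (-1)).re < 0 := by linarith [(abs_le.1 hm2).2]
    have hnu0 : 0 < P.nu := by linarith
    have h1 : P.nu * (ev h (-1)).re / P.n < P.nu * (ev h 1).re / P.n := by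
      refine div_lt_div_of_pos_right ?_ hnp
      nlinarith
    have h2 := Real.exp_lt_exp.2 h1
    exact (ne_of_lt (mul_lt_mul_of_pos_left h2 hρ)).symm

end Pool.Agent.H957.CX.PFN1
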