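import Pool.Agent.H957.CX.Stm

/-!
Project CX (helper957), problem MP_83fd13_an, part FN2 (helper177): the functions `Q_i`.
Adapted from the library proof (helper803).
-/

set_option autoImplicit false

open Set Filter Topology

namespace Pool.Agent.H957.CX.PFN2

open Pool.Agent.N229.SC (Al Wt cf mon lft norm_mon lft_mon norm_lft_le lft_hasSum ext_mon
  mul_def one_def mon_mul_mon S_A1 ev evh Conf Nd Str Om SS UU PP eF Fb)

private theorem fn2_pow {P : Par} (hn : P.n ≠ 0) {z : ℂ} (hz : ‖z‖ < rF P) :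
    ‖z ^ P.n‖ < Rad := by
  have h0 : (0 : ℝ) ≤ Rad := zero_le_one.trans one_le_Rad
  have h1 : rF P ^ P.n = Rad := Real.rpow_inv_natCast_pow h0 hn
  rw [norm_pow, ← h1]
  exact pow_lt_pow_left₀ hz (norm_nonneg z) hn

private theorem fn2_fF {P : Par} (hn : P.n ≠ 0) (hρ : P.ρ ≠ 0) (h : W) (z : ℂ) :
    (fF P h z / P.ρ) ^ P.n = z ^ P.n * Complex.exp (evh (Phi P h) (z ^ P.n)) := by
  have hρ' : (P.ρ : ℂ) ≠ 0 := by exact_mod_cast hρ
  have hn' : (P.n : ℂ) ≠ 0 := by exact_mod_cast hn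
  have e1 : fF P h z / P.ρ = z * Complex.exp (evh (Phi P h) (z ^ P.n) / P.n) := by
    unfold fF
    field_simp
  rw [e1, mul_pow, ← Complex.exp_nat_mul]
  congr 2
  field_simp

private theorem fn2_w (j : ℤ) : Rad ^ j.natAbs ≤ wW j := wA_le_wW j

/-- The bound of the finite sum of modes. -/
private theorem fn2_sum (c : ℕ → ℂ) (K : ℕ → ℝ) (w : ℂ) (E : ℝ) (hw : ‖w‖ ≤ E)
    (hc : ∀ m ∈ Finset.Icc 2 4, ‖c m‖ ≤ K m) :
    ‖∑ m ∈ (Finset.Icc 2 4 : Finset ℕ), c m * w ^ m‖ ≤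
      ∑ m ∈ (Finset.Icc 2 4 : Finset ℕ), K m * E ^ m := by
  refine (norm_sum_le _ _).trans (Finset.sum_le_sum fun m hm => ?_)
  rw [norm_mul, norm_pow]
  exact mul_le_mul (hc m hm) (pow_le_pow_left₀ (norm_nonneg _) hw m) (pow_nonneg (norm_nonneg _) m)
    ((norm_nonneg _).trans (hc m hm))

/-- Part FN2. -/
theorem main (hA1 : S_A1) (hA2 : S_A2) (hA3 : S_A3) (hAB : S_AB) (hB1 : S_B1) (hB2 : S_B2)
    (hEH : S_EH) : S_FN2 := by
  intro P X h v y hF
  have hρ : 0 < P.ρ := lt_of_lt_of_le (by norm_num) hF.good.rho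
  have hn : P.n ≠ 0 := by
    intro h0
    have h1 := hF.good.nu1
    unfold Par.nu at h1
    rw [h0, Nat.cast_zero, zero_div] at h1
    norm_num at h1
  obtain ⟨hE1, hE2, -⟩ := hEH wW fn2_w
  obtain ⟨C, hC, hCb⟩ := hF.bd
  have hC0 : 0 ≤ C := (abs_nonneg _).trans (hCb 0)
  have hmaps : MapsTo (fun z : ℂ => z ^ P.n) (Metric.ball 0 (rF P)) (Metric.ball 0 Rad) := by
    intro z hz
    rw [mem_ball_zero_iff] at hz ⊢
    exact fn2_pow hn hz
  have hd : ∀ a : W, DifferentiableOn ℂ (fun z : ℂ => evh a (z ^ P.n)) (Metric.ball 0 (rF P)) :=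
    fun a => (hE1 a).comp (differentiable_pow P.n).differentiableOn hmaps
  have hdf : DifferentiableOn ℂ (fun z : ℂ => (fF P h z / P.ρ) ^ P.n) (Metric.ball 0 (rF P)) := by
    have e : (fun z : ℂ => (fF P h z / P.ρ) ^ P.n) =
        fun z => z ^ P.n * Complex.exp (evh (Phi P h) (z ^ P.n)) :=
      funext fun z => fn2_fF hn hρ.ne' h z
    rw [e]
    exact (differentiable_pow P.n).differentiableOn.mul (hd (Phi P h)).cexp
  have hds : ∀ c : ℕ → ℂ, DifferentiableOn ℂ (fun z : ℂ =>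
      ∑ m ∈ (Finset.Icc 2 4 : Finset ℕ), c m * ((fF P h z / P.ρ) ^ P.n) ^ m)
      (Metric.ball 0 (rF P)) := fun c =>
    DifferentiableOn.fun_sum fun m _ => (hdf.pow m).const_mul (c m)
  refine ⟨fun i => ?_, ?_⟩
  · cases i with
    | zero => exact (((hdf.const_mul _).const_add _).add (hds _)).add (hd _)
    | succ i => exact (((hdf.const_mul _).const_add _).add (hds _)).add (hd _)
  · have hR0 : 0 ≤ Rad := zero_le_one.trans one_le_Rad
    have hbf : ∀ z ∈ Metric.ball (0 : ℂ) (rF P),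
        ‖(fF P h z / P.ρ) ^ P.n‖ ≤ Rad * Real.exp ‖Phi P h‖ := by
      intro z hz
      rw [mem_ball_zero_iff] at hz
      have h1 := fn2_pow hn hz
      rw [fn2_fF hn hρ.ne', norm_mul]
      refine mul_le_mul h1.le ?_ (norm_nonneg _) hR0
      refine (Complex.norm_exp_le_exp_norm _).trans (Real.exp_le_exp.2 ?_)
      exact hE2 _ _ h1.le
    have hbq : ∀ (a : W), ∀ z ∈ Metric.ball (0 : ℂ) (rF P), ‖evh a (z ^ P.n)‖ ≤ ‖a‖ := by
      intro a z hz
      rw [mem_ball_zero_iff] at hz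
      exact hE2 _ _ (fn2_pow hn hz).le
    have hres : ∀ (n i : ℕ) (a : A), ‖res n i a‖ ≤ 13 / 40 * ‖a‖ := hA2.2.2.2.2.2.2.2.1
    have hq : ∀ i, ‖qq P h v y (i + 1)‖ ≤ 13 / 40 * (6 * X ^ 2) := by
      intro i
      have h1 := hres P.n (i + 1) (y i)
      have h2 := hF.sol.ny i
      change ‖res P.n (i + 1) (y i)‖ ≤ _
      linarith
    have hX := hF.X_pos
    have hXa : ∀ i, ‖((X * P.a 1 i : ℝ) : ℂ)‖ ≤ X * C := by
      intro i
      rw [Complex.norm_real, Real.norm_eq_abs, abs_mul, abs_of_pos hX]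
      exact mul_le_mul_of_nonneg_left (hC 1 le_rfl (by norm_num) i) hX.le
    have hE0 : 0 ≤ Rad * Real.exp ‖Phi P h‖ := by positivity
    have hmul : ∀ i, ∀ z ∈ Metric.ball (0 : ℂ) (rF P),
        ‖((X * P.a 1 i : ℝ) : ℂ) * (fF P h z / P.ρ) ^ P.n‖ ≤
          X * C * (Rad * Real.exp ‖Phi P h‖) := by
      intro i z hz
      rw [norm_mul]
      exact mul_le_mul (hXa i) (hbf z hz) (norm_nonneg _) (by positivity)
    -- the modes
    obtain ⟨S, hSdef⟩ : ∃ S : ℝ, S = ∑ m ∈ (Finset.Icc 2 4 : Finset ℕ),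
        (|cf v (m : ℤ) / (m * P.a m 0)| * C) * (Rad * Real.exp ‖Phi P h‖) ^ m := ⟨_, rfl⟩
    have hmode : ∀ i, ∀ z ∈ Metric.ball (0 : ℂ) (rF P),
        ‖∑ m ∈ (Finset.Icc 2 4 : Finset ℕ),
          ((cf v (m : ℤ) / (m * P.a m 0) * P.a m i : ℝ) : ℂ) *
            ((fF P h z / P.ρ) ^ P.n) ^ m‖ ≤ S := by
      intro i z hz
      rw [hSdef]
      refine fn2_sum (fun m => ((cf v (m : ℤ) / (m * P.a m 0) * P.a m i : ℝ) : ℂ))
        (fun m => |cf v (m : ℤ) / (m * P.a m 0)| * C) _ _ (hbf z hz) ?_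
      intro m hm
      rw [Finset.mem_Icc] at hm
      rw [Complex.norm_real, Real.norm_eq_abs, abs_mul]
      exact mul_le_mul_of_nonneg_left (hC m (by omega) hm.2 i) (abs_nonneg _)
    refine ⟨(|2 / P.ρ| * C + C) + X * C * (Rad * Real.exp ‖Phi P h‖) + S +
      (‖qq P h v y 0‖ + 13 / 40 * (6 * X ^ 2)), fun i z hz => ?_⟩
    have h2ρ : 0 ≤ |2 / P.ρ| * C := mul_nonneg (abs_nonneg _) hC0
    cases i with
    | zero =>
      have h1 : ‖((2 / P.ρ * P.b 0 - P.b 1 : ℝ) : ℂ)‖ ≤ |2 / P.ρ| * C + C := by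
        rw [Complex.norm_real, Real.norm_eq_abs]
        refine (abs_sub _ _).trans (add_le_add ?_ (hCb 1))
        rw [abs_mul]
        exact mul_le_mul_of_nonneg_left (hCb 0) (abs_nonneg _)
      have h2 := hmul 0 z hz
      have h3 := hbq (qq P h v y 0) z hz
      have h4 : (0 : ℝ) ≤ 13 / 40 * (6 * X ^ 2) := by positivity
      have h5 := hmode 0 z hz
      change ‖((2 / P.ρ * P.b 0 - P.b 1 : ℝ) : ℂ) +
        ((X * P.a 1 0 : ℝ) : ℂ) * (fF P h z / P.ρ) ^ P.n +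
        ∑ m ∈ (Finset.Icc 2 4 : Finset ℕ),
          ((cf v (m : ℤ) / (m * P.a m 0) * P.a m 0 : ℝ) : ℂ) *
            ((fF P h z / P.ρ) ^ P.n) ^ m +
        evh (qq P h v y 0) (z ^ P.n)‖ ≤ _
      refine (norm_add_le _ _).trans ?_
      refine (add_le_add (norm_add₃_le) le_rfl).trans ?_
      linarith
    | succ i =>
      have h1 : ‖((P.b i : ℝ) : ℂ)‖ ≤ C := by
        rw [Complex.norm_real, Real.norm_eq_abs]
        exact hCb i
      have h2 := hmul (i + 1) z hz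
      have h3 := (hbq (qq P h v y (i + 1)) z hz).trans (hq i)
      have h4 : 0 ≤ ‖qq P h v y 0‖ := norm_nonneg _
      have h5 := hmode (i + 1) z hz
      change ‖((P.b i : ℝ) : ℂ) + ((X * P.a 1 (i + 1) : ℝ) : ℂ) * (fF P h z / P.ρ) ^ P.n +
        ∑ m ∈ (Finset.Icc 2 4 : Finset ℕ),
          ((cf v (m : ℤ) / (m * P.a m 0) * P.a m (i + 1) : ℝ) : ℂ) *
            ((fF P h z / P.ρ) ^ P.n) ^ m +
        evh (qq P h v y (i + 1)) (z ^ P.n)‖ ≤ _
      refine (norm_add_le _ _).trans ?_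
      refine (add_le_add (norm_add₃_le) le_rfl).trans ?_
      linarith

end Pool.Agent.H957.CX.PFN2
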