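import Pool.Agent.H957.CX.Stm

/-!
Project CX (helper957), problem MP_83fd13_an, part FN3: the relation between the functions `Q_i`.
Adapted from the library proof (`N229/SC/FN3.lean`), with the extra modes `2, 3, 4`.
-/

set_option autoImplicit false

open Set Filter Topology MeasureTheory

namespace Pool.Agent.H957.CX.PFN3

open Pool.Agent.N229.SC (Al Wt cf mon lft norm_mon lft_mon norm_lft_le lft_hasSum ext_mon
  mul_def one_def mon_mul_mon S_A1 ev evh Conf Nd Str Om SS UU PP eF Fb)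

private theorem fn3_wA (j : ℤ) : Rad ^ j.natAbs ≤ wA j := le_refl _

private theorem fn3_wW (j : ℤ) : Rad ^ j.natAbs ≤ wW j := wA_le_wW j

private theorem fn3_evh_one (hA1 : S_A1) (z : ℂ) : evh (1 : A) z = 1 := by
  obtain ⟨-, -, -, -, -, hm, -⟩ := hA1 wA
  have h1 : ∀ k : ℕ, (cf (1 : A) k : ℂ) * z ^ k = if k = 0 then 1 else 0 := by
    intro k
    have h2 : cf (1 : A) k = if (0 : ℤ) = k then 1 else 0 := hm 0 k
    rw [h2]
    by_cases hk : k = 0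
    · subst hk
      simp
    · have : ¬ (0 : ℤ) = k := by
        intro h
        exact hk (by exact_mod_cast h.symm)
      rw [if_neg this, if_neg hk]
      simp
  unfold evh
  rw [tsum_congr h1, tsum_ite_eq]

/-- the constants -/
private noncomputable def fn3_bc (P : Par) : ℕ → ℝ
  | 0 => 2 / P.ρ * P.b 0 - P.b 1
  | i + 1 => P.b i

private theorem fn3_bc_rec {P : Par} (hP : Good P) (i : ℕ) :
    ((i : ℝ) + 1) * fn3_bc P (i + 1) = P.ρ / 2 * (fn3_bc P i + fn3_bc P (i + 2)) := by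
  have hρ : P.ρ ≠ 0 := by
    have := hP.rho
    intro h
    rw [h] at this
    norm_num at this
  rcases i with _ | i
  · show ((0 : ℕ) + 1 : ℝ) * P.b 0 = P.ρ / 2 * ((2 / P.ρ * P.b 0 - P.b 1) + P.b 1)
    push_cast
    field_simp
    ring
  · show (((i + 1 : ℕ) : ℝ) + 1) * P.b (i + 1) = P.ρ / 2 * (P.b i + P.b (i + 2))
    rw [hP.rb i]
    push_cast
    field_simp
    ring

private theorem fn3_QF (P : Par) (X : ℝ) (h v : W) (y : ℕ → A) (i : ℕ) (z : ℂ) :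
    QF P X h v y i z = (fn3_bc P i : ℂ) + ((X * P.a 1 i : ℝ) : ℂ) * (fF P h z / P.ρ) ^ P.n +
      ∑ m ∈ (Finset.Icc 2 4 : Finset ℕ), (cf v (m : ℤ) / (m * P.a m 0) * P.a m i : ℝ) *
        ((fF P h z / P.ρ) ^ P.n) ^ m + evh (qq P h v y i) (z ^ P.n) := by
  rcases i with _ | i
  · rfl
  · rfl

private theorem fn3_supp (hA2 : S_A2) (P : Par) (h v : W) (y : ℕ → A) (i : ℕ) :
    ∀ j < 5, cf (qq P h v y i) j = 0 := by
  obtain ⟨-, -, -, -, -, -, ⟨hr, -⟩⟩ := hA2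
  intro j hj
  rcases i with _ | i
  · show cf (res P.n 0 _) j = 0
    rw [hr, if_neg (by omega)]
  · show cf (res P.n (i + 1) _) j = 0
    rw [hr, if_neg (by omega)]

/-- `(t d/dt + s) q = y` -/
private theorem fn3_der (hA1 : S_A1) (hA2 : S_A2) (P : Par) (h v : W) (y : ℕ → A)
    (hy : ∀ i, ∀ j < 5, cf (y i) j = 0) (i : ℕ) :
    der (qq P h v y (i + 1)) + (((i : ℝ) + 1) / P.n) • inc (qq P h v y (i + 1)) = y i := by
  obtain ⟨hadd, -, -, -, hsm, -, -, -, -, hext, -, -, -⟩ := hA1 wA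
  obtain ⟨⟨hinc, -⟩, -, -, ⟨hder, -⟩, -, -, ⟨hr, -⟩⟩ := hA2
  apply hext
  intro j
  rw [hadd, hsm, hder, hinc]
  have h1 : cf (qq P h v y (i + 1)) j =
      if 5 ≤ j then cf (y i) j / (j + ((i + 1 : ℕ) : ℝ) / P.n) else 0 := hr P.n (i + 1) (y i) j
  rw [h1]
  split_ifs with h2
  · have h3 : (0 : ℝ) < (j : ℝ) + ((i + 1 : ℕ) : ℝ) / P.n := by
      have h4 : (5 : ℝ) ≤ j := by exact_mod_cast h2
      have h5 : (0 : ℝ) ≤ ((i + 1 : ℕ) : ℝ) / P.n := by positivity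
      linarith
    have h6 : ((i : ℝ) + 1) / P.n = ((i + 1 : ℕ) : ℝ) / P.n := by push_cast; rfl
    rw [h6, ← add_mul, mul_div_assoc', mul_comm, mul_div_assoc, div_self h3.ne', mul_one]
  · rw [hy i j (by omega)]
    ring

theorem main (hA1 : S_A1) (hA2 : S_A2) (hA3 : S_A3) (hAB : S_AB) (hB1 : S_B1)
    (hB2 : S_B2) (hEH : S_EH) : S_FN3 := by
  intro P X h v y hF i z hz
  have hG := hF.good
  obtain ⟨-, -, -, -, -, -, -, hn8, -⟩ := hAB P hG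
  have hn0 : P.n ≠ 0 := by
    intro h0
    rw [h0] at hn8
    norm_num at hn8
  have hnpos : 0 < P.n := Nat.pos_of_ne_zero hn0
  have hnC : (P.n : ℂ) ≠ 0 := by exact_mod_cast hn0
  have hnR : (P.n : ℝ) ≠ 0 := by exact_mod_cast hn0
  have hρ0 : 0 < P.ρ := lt_of_lt_of_le (by norm_num) hG.rho
  have hρC : (P.ρ : ℂ) ≠ 0 := by exact_mod_cast hρ0.ne'
  -- the point `t`
  have hRad0 : 0 < Rad := lt_of_lt_of_le one_pos one_le_Rad
  have ht : ‖z ^ P.n‖ < Rad := by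
    rw [Metric.mem_ball, dist_zero_right] at hz
    have h1 : rF P ^ P.n = Rad := by
      unfold rF
      rw [← Real.rpow_natCast, ← Real.rpow_mul hRad0.le, inv_mul_cancel₀ hnR, Real.rpow_one]
    rw [norm_pow, ← h1]
    exact pow_lt_pow_left₀ hz (norm_nonneg z) hn0
  set t : ℂ := z ^ P.n with htdef
  have htb : t ∈ Metric.ball (0 : ℂ) Rad := by
    rw [Metric.mem_ball, dist_zero_right]
    exact ht
  obtain ⟨hWd, -, -, -, -, -, hWder, hinc⟩ := hEH wW fn3_wW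
  obtain ⟨-, -, hAadd, hAsm, hAmul, -, -, -⟩ := hEH wA fn3_wA
  have hdiff : ∀ a : W, HasDerivAt (evh a) (deriv (evh a) t) t := fun a =>
    ((hWd a).differentiableAt (Metric.isOpen_ball.mem_nhds htb)).hasDerivAt
  have hpow : HasDerivAt (fun z : ℂ => z ^ P.n) ((P.n : ℂ) * z ^ (P.n - 1)) z := hasDerivAt_pow P.n z
  have hcomp : ∀ a : W, HasDerivAt (fun z : ℂ => evh a (z ^ P.n))
      (deriv (evh a) t * ((P.n : ℂ) * z ^ (P.n - 1))) z := fun a =>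
    HasDerivAt.comp z (hdiff a) hpow
  have hz1 : z * z ^ (P.n - 1) = t := by
    rw [htdef, ← pow_succ', Nat.sub_add_cancel hnpos]
  -- the map `f`
  obtain ⟨E, hE⟩ : ∃ E, E = Complex.exp (evh (Phi P h) (z ^ P.n) / P.n) := ⟨_, rfl⟩
  obtain ⟨bt, hbt⟩ : ∃ bt, bt = evh (beta P h) t := ⟨_, rfl⟩
  have hf : fF P h z = P.ρ * z * E := by rw [hE]; rfl
  have hf' : HasDerivAt (fF P h) (P.ρ * E * (1 + bt)) z := by
    have h1 := (hcomp (Phi P h)).div_const (P.n : ℂ)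
    have h2 := h1.cexp
    have h3 : HasDerivAt (fun z : ℂ => (P.ρ : ℂ) * z) ((P.ρ : ℂ) * 1) z :=
      (hasDerivAt_id z).const_mul (P.ρ : ℂ)
    have h4 := h3.mul h2
    have h5 : (P.ρ : ℂ) * 1 * Complex.exp (evh (Phi P h) (z ^ P.n) / P.n) +
        (P.ρ : ℂ) * z * (Complex.exp (evh (Phi P h) (z ^ P.n) / P.n) *
          (deriv (evh (Phi P h)) t * ((P.n : ℂ) * z ^ (P.n - 1)) / P.n)) =
        P.ρ * E * (1 + bt) := by
      rw [← hE, hbt]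
      have h6 : evh (beta P h) t = t * deriv (evh (Phi P h)) t := hWder (Phi P h) t ht
      rw [h6]
      have h7 : z * (deriv (evh (Phi P h)) t * ((P.n : ℂ) * z ^ (P.n - 1)) / P.n) =
          t * deriv (evh (Phi P h)) t := by
        rw [← hz1]
        field_simp
      calc (P.ρ : ℂ) * 1 * E + (P.ρ : ℂ) * z * (E *
            (deriv (evh (Phi P h)) t * ((P.n : ℂ) * z ^ (P.n - 1)) / P.n))
          = P.ρ * E * (1 + z * (deriv (evh (Phi P h)) t * ((P.n : ℂ) * z ^ (P.n - 1)) / P.n)) := by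
            ring
        _ = _ := by rw [h7]
    rw [h5] at h4
    exact h4
  obtain ⟨F', hF'⟩ : ∃ F' : ℂ, F' = P.ρ * E * (1 + bt) := ⟨_, rfl⟩
  rw [← hF'] at hf'
  -- the functions `Q_i`
  have hQ' : HasDerivAt (QF P X h v y (i + 1))
      ((((X * P.a 1 (i + 1) : ℝ) : ℂ) * ((P.n : ℂ) * (fF P h z / P.ρ) ^ (P.n - 1) * (F' / P.ρ)) +
        ∑ m ∈ (Finset.Icc 2 4 : Finset ℕ), ((cf v (m : ℤ) / (m * P.a m 0) * P.a m (i + 1) : ℝ) : ℂ) *
          ((m : ℂ) * ((fF P h z / P.ρ) ^ P.n) ^ (m - 1) *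
            ((P.n : ℂ) * (fF P h z / P.ρ) ^ (P.n - 1) * (F' / P.ρ)))) +
        deriv (evh (qq P h v y (i + 1))) t * ((P.n : ℂ) * z ^ (P.n - 1))) z := by
    have h0 := (hf'.div_const (P.ρ : ℂ)).pow P.n
    have hs : HasDerivAt (fun w : ℂ => ∑ m ∈ (Finset.Icc 2 4 : Finset ℕ),
        ((cf v (m : ℤ) / (m * P.a m 0) * P.a m (i + 1) : ℝ) : ℂ) *
          ((fF P h w / P.ρ) ^ P.n) ^ m)
        (∑ m ∈ (Finset.Icc 2 4 : Finset ℕ), ((cf v (m : ℤ) / (m * P.a m 0) * P.a m (i + 1) : ℝ) : ℂ) *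
          ((m : ℂ) * ((fF P h z / P.ρ) ^ P.n) ^ (m - 1) *
            ((P.n : ℂ) * (fF P h z / P.ρ) ^ (P.n - 1) * (F' / P.ρ)))) z := by
      refine HasDerivAt.fun_sum fun m _ => ?_
      exact (h0.pow m).const_mul _
    have h1 := ((h0.const_mul ((X * P.a 1 (i + 1) : ℝ) : ℂ)).add hs).add
      (hcomp (qq P h v y (i + 1)))
    have h2 := h1.const_add (fn3_bc P (i + 1) : ℂ)
    refine h2.congr_of_eventuallyEq (Filter.Eventually.of_forall fun w => ?_)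
    rw [fn3_QF]
    simp only [Pi.add_apply, Pi.pow_apply]
    ring
  -- the interior equation
  have hder := fn3_der hA1 hA2 P h v y hF.sol.hy i
  rw [hF.sol.eY i] at hder
  obtain ⟨q0, hq0⟩ : ∃ q0, q0 = evh (qq P h v y i) t := ⟨_, rfl⟩
  obtain ⟨q1, hq1⟩ : ∃ q1, q1 = evh (qq P h v y (i + 1)) t := ⟨_, rfl⟩
  obtain ⟨q2, hq2⟩ : ∃ q2, q2 = evh (qq P h v y (i + 2)) t := ⟨_, rfl⟩
  have hbs : ∀ j < 1, cf (beta P h) j = 0 := by
    have hnh : ‖h‖ ≤ 1 / 800 := by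
      have h1 := hF.sol.nh
      have h2 := hF.X_le
      have h3 : 2 * X ≤ 1 / 800 := by
        have : (6 : ℝ) / 10 ^ 4 = 6 / 10000 := by norm_num
        linarith
      linarith
    exact (hB1 P hG h hnh).2.2.1.2.2.1
  have hadd := (hA1 wA).1
  have hcf1 : ∀ j < 0, cf (1 + beta P h) j = 0 := by
    intro j hj
    have h1 : cf (1 : A) j = if (0 : ℤ) = j then 1 else 0 := (hA1 wA).2.2.2.2.2.1 0 j
    rw [hadd, h1, if_neg (by omega), hbs j (by omega), add_zero]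
  have hcfb : ∀ j < 0, cf (beta P h) j = 0 := fun j hj => hbs j (by omega)
  have hcfq : ∀ (k : ℕ), ∀ j < 0, cf (inc (qq P h v y k)) j = 0 := by
    intro k j hj
    rw [hA2.1.1]
    exact fn3_supp hA2 P h v y k j (by omega)
  have hcfq2 : ∀ j < 0, cf (inc (qq P h v y i + qq P h v y (i + 2))) j = 0 := by
    intro j hj
    rw [hA2.1.1, (hA1 wW).1, fn3_supp hA2 P h v y i j (by omega),
      fn3_supp hA2 P h v y (i + 2) j (by omega), add_zero]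
  have hRH : evh (RH P h v y i) t = 1 / (2 * P.nu : ℝ) * ((1 + bt) * (q0 + q2)) -
      (((i : ℝ) + 1) / P.n : ℝ) * (bt * q1) := by
    have h1 : RH P h v y i =
        (1 / (2 * P.nu)) • ((1 + beta P h) * inc (qq P h v y i + qq P h v y (i + 2))) +
        (-(((i : ℝ) + 1) / P.n)) • (beta P h * inc (qq P h v y (i + 1))) := by
      unfold RH
      rw [neg_smul, sub_eq_add_neg]
    rw [h1, hAadd _ _ t ht.le, hAsm, hAsm, hAmul _ _ t ht.le hcf1 hcfq2,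
      hAmul _ _ t ht.le hcfb (hcfq (i + 1)), hAadd _ _ t ht.le, fn3_evh_one hA1, hinc, hinc,
      (hEH wW fn3_wW).2.2.1 _ _ t ht.le, ← hbt, ← hq0, ← hq1, ← hq2]
    push_cast
    ring
  have hkey : (P.n : ℂ) * (t * deriv (evh (qq P h v y (i + 1))) t) +
      ((i : ℂ) + 1) * ((1 + bt) * q1) = P.ρ / 2 * ((1 + bt) * (q0 + q2)) := by
    have h1 := congrArg (fun a : A => evh a t) hder
    beta_reduce at h1
    rw [hAadd _ _ t ht.le, hAsm, hinc, hWder _ t ht, hRH, ← hq1] at h1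
    have h2 : (P.nu : ℂ) = P.n / P.ρ := by
      unfold Par.nu
      push_cast
      rfl
    push_cast at h1
    rw [h2] at h1
    field_simp at h1
    field_simp
    linear_combination h1
  -- the recurrences
  have hrb : ((i : ℂ) + 1) * (fn3_bc P (i + 1) : ℂ) =
      P.ρ / 2 * ((fn3_bc P i : ℂ) + (fn3_bc P (i + 2) : ℂ)) := by
    exact_mod_cast fn3_bc_rec hG i
  have hra : ∀ m : ℕ, 1 ≤ m → m ≤ 4 → ((m : ℂ) * (P.n : ℂ) + i + 1) * (P.a m (i + 1) : ℂ) =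
      P.ρ / 2 * ((P.a m i : ℂ) + (P.a m (i + 2) : ℂ)) := by
    intro m hm1 hm4
    have h1 : ((m : ℝ) * (P.n : ℝ) + i + 1) * P.a m (i + 1) =
        P.ρ / 2 * (P.a m i + P.a m (i + 2)) := by
      rw [hG.ra m hm1 hm4 i]
      field_simp
      ring
    exact_mod_cast h1
  rw [hQ'.deriv, hf'.deriv, fn3_QF, fn3_QF, fn3_QF, ← htdef, ← hq0, ← hq1, ← hq2]
  obtain ⟨T, hT⟩ : ∃ T, T = (fF P h z / P.ρ) ^ P.n := ⟨_, rfl⟩
  have hT1 : fF P h z * ((fF P h z / P.ρ) ^ (P.n - 1) * (F' / P.ρ)) = T * F' := by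
    have h1 : (fF P h z / P.ρ) * (fF P h z / P.ρ) ^ (P.n - 1) = T := by
      rw [hT, ← pow_succ', Nat.sub_add_cancel hnpos]
    rw [← h1]
    field_simp
  have hq' : fF P h z * (deriv (evh (qq P h v y (i + 1))) t * ((P.n : ℂ) * z ^ (P.n - 1))) =
      P.ρ * E * ((P.n : ℂ) * (t * deriv (evh (qq P h v y (i + 1))) t)) := by
    rw [hf, ← hz1]
    ring
  rw [← hT]
  have hmode : fF P h z * (∑ m ∈ (Finset.Icc 2 4 : Finset ℕ),
        ((cf v (m : ℤ) / (m * P.a m 0) * P.a m (i + 1) : ℝ) : ℂ) *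
          ((m : ℂ) * T ^ (m - 1) * ((P.n : ℂ) * (fF P h z / P.ρ) ^ (P.n - 1) * (F' / P.ρ)))) +
      ((i : ℂ) + 1) * (F' * ∑ m ∈ (Finset.Icc 2 4 : Finset ℕ),
        ((cf v (m : ℤ) / (m * P.a m 0) * P.a m (i + 1) : ℝ) : ℂ) * T ^ m) =
      P.ρ / 2 * (F' * (∑ m ∈ (Finset.Icc 2 4 : Finset ℕ),
        ((cf v (m : ℤ) / (m * P.a m 0) * P.a m i : ℝ) : ℂ) * T ^ m +
        ∑ m ∈ (Finset.Icc 2 4 : Finset ℕ),
        ((cf v (m : ℤ) / (m * P.a m 0) * P.a m (i + 2) : ℝ) : ℂ) * T ^ m)) := by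
    rw [← Finset.sum_add_distrib, Finset.mul_sum, Finset.mul_sum, Finset.mul_sum, Finset.mul_sum,
      Finset.mul_sum, ← Finset.sum_add_distrib]
    refine Finset.sum_congr rfl fun m hm => ?_
    obtain ⟨hm1, hm4⟩ := Finset.mem_Icc.1 hm
    have hr := hra m (by omega) hm4
    have hTm : T ^ m = T * T ^ (m - 1) := by
      rw [← pow_succ', Nat.sub_add_cancel (by omega : 1 ≤ m)]
    obtain ⟨d, hd⟩ : ∃ d : ℝ, d = cf v (m : ℤ) / (m * P.a m 0) := ⟨_, rfl⟩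
    rw [← hd]
    push_cast
    calc fF P h z * ((d : ℂ) * (P.a m (i + 1) : ℂ) * ((m : ℂ) * T ^ (m - 1) *
          ((P.n : ℂ) * (fF P h z / P.ρ) ^ (P.n - 1) * (F' / P.ρ)))) +
        ((i : ℂ) + 1) * (F' * ((d : ℂ) * (P.a m (i + 1) : ℂ) * T ^ m))
        = (d : ℂ) * (P.a m (i + 1) : ℂ) * (m : ℂ) * T ^ (m - 1) * (P.n : ℂ) *
            (fF P h z * ((fF P h z / P.ρ) ^ (P.n - 1) * (F' / P.ρ))) +
          ((i : ℂ) + 1) * (F' * ((d : ℂ) * (P.a m (i + 1) : ℂ) * T ^ m)) := by ring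
      _ = (d : ℂ) * F' * (T * T ^ (m - 1)) *
            (((m : ℂ) * (P.n : ℂ) + i + 1) * (P.a m (i + 1) : ℂ)) := by
          rw [hT1, hTm]
          ring
      _ = _ := by
          rw [hr, ← hTm]
          ring
  have hr1 := hra 1 le_rfl (by norm_num)
  rw [Nat.cast_one, one_mul] at hr1
  obtain ⟨s1, hs1⟩ : ∃ s1, s1 = ∑ m ∈ (Finset.Icc 2 4 : Finset ℕ),
        ((cf v (m : ℤ) / (m * P.a m 0) * P.a m (i + 1) : ℝ) : ℂ) *
          ((m : ℂ) * T ^ (m - 1) * ((P.n : ℂ) * (fF P h z / P.ρ) ^ (P.n - 1) * (F' / P.ρ))) :=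
    ⟨_, rfl⟩
  obtain ⟨s2, hs2⟩ : ∃ s2, s2 = ∑ m ∈ (Finset.Icc 2 4 : Finset ℕ),
        ((cf v (m : ℤ) / (m * P.a m 0) * P.a m (i + 1) : ℝ) : ℂ) * T ^ m := ⟨_, rfl⟩
  obtain ⟨s3, hs3⟩ : ∃ s3, s3 = ∑ m ∈ (Finset.Icc 2 4 : Finset ℕ),
        ((cf v (m : ℤ) / (m * P.a m 0) * P.a m i : ℝ) : ℂ) * T ^ m := ⟨_, rfl⟩
  obtain ⟨s4, hs4⟩ : ∃ s4, s4 = ∑ m ∈ (Finset.Icc 2 4 : Finset ℕ),
        ((cf v (m : ℤ) / (m * P.a m 0) * P.a m (i + 2) : ℝ) : ℂ) * T ^ m := ⟨_, rfl⟩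
  rw [← hs1, ← hs2, ← hs3, ← hs4] at hmode ⊢
  simp only [Complex.ofReal_mul]
  calc fF P h z * (((X : ℂ) * (P.a 1 (i + 1) : ℂ) *
          ((P.n : ℂ) * (fF P h z / P.ρ) ^ (P.n - 1) * (F' / P.ρ)) + s1) +
          deriv (evh (qq P h v y (i + 1))) t * ((P.n : ℂ) * z ^ (P.n - 1))) +
        ((i : ℂ) + 1) * (F' * ((fn3_bc P (i + 1) : ℂ) + (X : ℂ) * (P.a 1 (i + 1) : ℂ) * T +
          s2 + q1))
      = (X : ℂ) * (P.a 1 (i + 1) : ℂ) * (P.n : ℂ) *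
          (fF P h z * ((fF P h z / P.ρ) ^ (P.n - 1) * (F' / P.ρ))) +
        fF P h z * (deriv (evh (qq P h v y (i + 1))) t * ((P.n : ℂ) * z ^ (P.n - 1))) +
        ((i : ℂ) + 1) * (F' * ((fn3_bc P (i + 1) : ℂ) + (X : ℂ) * (P.a 1 (i + 1) : ℂ) * T + q1)) +
        (fF P h z * s1 + ((i : ℂ) + 1) * (F' * s2)) := by
        ring
    _ = (X : ℂ) * T * F' * (((P.n : ℂ) + i + 1) * (P.a 1 (i + 1) : ℂ)) +
        F' * (((i : ℂ) + 1) * (fn3_bc P (i + 1) : ℂ)) +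
        P.ρ * E * ((P.n : ℂ) * (t * deriv (evh (qq P h v y (i + 1))) t) +
          ((i : ℂ) + 1) * ((1 + bt) * q1)) + P.ρ / 2 * (F' * (s3 + s4)) := by
        rw [hT1, hq', hmode, hF']
        ring
    _ = _ := by
        rw [hr1, hrb, hkey, hF']
        ring

end Pool.Agent.H957.CX.PFN3
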