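import Pool.Agent.H957.CX.Stm

/-!
Project CX (helper957), problem MP_83fd13_an: CX-FN5, the boundary value is not zero
(proof by helper376, after the library proof `N229/SC/FN5.lean`).
-/

set_option autoImplicit false

open Set Filter Topology

namespace Pool.Agent.H957.CX.PFN5

open Pool.Agent.N229.SC (Al Wt cf mon lft norm_mon lft_mon norm_lft_le lft_hasSum ext_mon
  mul_def one_def mon_mul_mon S_A1 ev evh Conf Nd Str Om SS UU PP eF Fb)

/-- The value of `‖f 1‖ ^ 2`. -/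
private theorem fn5_norm_f (hA2 : S_A2) (hAB : S_AB) (hB1 : S_B1) (hEV : S_EV)
    (P : Par) (hP : Good P) (h : W) (hh : ‖h‖ ≤ 1 / 800) (hc : conj h = h) :
    ‖fF P h 1‖ ^ 2 = P.ρ ^ 2 * Real.exp (2 / P.ρ * (ev h 1).re) := by
  have hρ : (0 : ℝ) < P.ρ := by have := hP.rho; linarith
  have hn : (0 : ℝ) < (P.n : ℝ) := by
    have := (hAB P hP).2.2.2.2.2.2.2.1
    linarith
  obtain ⟨-, hadd, hsmul, hmul, hmon, hev, -, -, -, hex, hre⟩ := hEV wW 1 (by simp)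
  have h1 : (evh (Phi P h) 1).re = P.nu * (ev h 1).re := by
    have h2 : ev (Phi P h) 1 = evh (Phi P h) 1 := hev _ ((hB1 P hP h hh).2.2.1.1)
    have h3 : ev (hol h) 1 = evh (hol h) 1 := by
      refine hev _ fun j hj => ?_
      rw [hA2.2.2.1.1 h j]
      rw [if_neg (by omega), if_neg (by omega)]
    rw [← h2, Phi, hsmul, h3, Complex.re_ofReal_mul, (hre h hc).1]
  have h4 : ‖fF P h 1‖ = P.ρ * Real.exp (P.nu * (ev h 1).re / P.n) := by
    rw [fF, one_pow, mul_one, norm_mul, Complex.norm_real, Real.norm_eq_abs, abs_of_pos hρ,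
      Complex.norm_exp, Complex.div_natCast_re, h1]
  rw [h4, mul_pow, ← Real.exp_nat_mul]
  congr 2
  rw [Par.nu]
  push_cast
  field_simp

/-- The value of `(f 1 / ρ) ^ n`. -/
private theorem fn5_tau (hAB : S_AB) (hB1 : S_B1) (hEV : S_EV)
    (P : Par) (hP : Good P) (h : W) (hh : ‖h‖ ≤ 1 / 800) :
    (fF P h 1 / P.ρ) ^ P.n = ev (tau P h) 1 := by
  have hρ : (0 : ℝ) < P.ρ := by have := hP.rho; linarith
  have hn : (0 : ℝ) < (P.n : ℝ) := by
    have := (hAB P hP).2.2.2.2.2.2.2.1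
    linarith
  obtain ⟨-, hadd, hsmul, hmul, hmon, hev, -, -, -, hex, hre⟩ := hEV wW 1 (by simp)
  have hρ' : (P.ρ : ℂ) ≠ 0 := by exact_mod_cast hρ.ne'
  have hn' : (P.n : ℂ) ≠ 0 := by exact_mod_cast hn.ne'
  have h2 : ev (Phi P h) 1 = evh (Phi P h) 1 := hev _ ((hB1 P hP h hh).2.2.1.1)
  rw [tau, hmul, hmon, hex, h2, one_zpow, one_mul, fF, one_pow, mul_one, mul_div_assoc,
    mul_comm, div_mul_cancel₀ _ hρ', ← Complex.exp_nat_mul]
  congr 1
  field_simp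

/-- The value of the modes. -/
private theorem fn5_ms (hEV : S_EV) (P : Par) (h v : W) (i : ℕ) :
    ev (ms P h v i) 1 = ∑ m ∈ (Finset.Icc 2 4 : Finset ℕ),
      ((cf v (m : ℤ) / (m * P.a m 0) * P.a m i : ℝ) : ℂ) * (ev (tau P h) 1) ^ m := by
  obtain ⟨-, -, hsmul, hmul, hmon, -, ⟨L, hL⟩, -, -, -, -⟩ := hEV wW 1 (by simp)
  have hone : ev (1 : W) 1 = 1 := by
    rw [one_def, hmon, one_zpow]
  have hpow : ∀ (x : W) (m : ℕ), ev (x ^ m) 1 = (ev x 1) ^ m := by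
    intro x m
    induction m with
    | zero => rw [pow_zero, pow_zero, hone]
    | succ k ih => rw [pow_succ, hmul, ih, pow_succ]
  rw [ms, ← hL, map_sum]
  refine Finset.sum_congr rfl fun m _ => ?_
  rw [hL, hsmul, hpow]

/-- The elementary estimate. -/
private theorem fn5_series (e : ℝ) (he : |e| ≤ 1 / 400) (q : ℕ → ℂ)
    (h0 : ‖q 0 - 1‖ ≤ 1 / 10) (hq : ∀ i : ℕ, ‖q (i + 1)‖ ≤ 3 / 5 * (3 ^ i * i.factorial)) :
    (∑' i : ℕ, ((e : ℂ) ^ i / (i.factorial : ℂ)) * q i).re ≠ 0 := by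
  have hb : ∀ i : ℕ, ‖((e : ℂ) ^ (i + 1) / ((i + 1).factorial : ℂ)) * q (i + 1)‖ ≤
      (1 / 400) * (1 / 2) ^ i := by
    intro i
    have hf : (0 : ℝ) < (i.factorial : ℝ) := by exact_mod_cast i.factorial_pos
    have h1 : ‖((e : ℂ) ^ (i + 1) / ((i + 1).factorial : ℂ))‖ =
        |e| ^ (i + 1) / ((i + 1 : ℝ) * i.factorial) := by
      rw [norm_div, norm_pow, Complex.norm_real, Real.norm_eq_abs, Complex.norm_natCast,
        Nat.factorial_succ]
      push_cast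
      ring
    have h2 : |e| ^ (i + 1) ≤ (1 / 400) * (1 / 6) ^ i := by
      rw [pow_succ']
      have h3 : |e| ^ i ≤ (1 / 6) ^ i := pow_le_pow_left₀ (abs_nonneg _) (he.trans (by norm_num)) i
      exact mul_le_mul he h3 (pow_nonneg (abs_nonneg _) _) (by norm_num)
    have hi : (1 : ℝ) ≤ (i : ℝ) + 1 := by
      have : (0 : ℝ) ≤ i := Nat.cast_nonneg _
      linarith
    rw [norm_mul, h1]
    calc |e| ^ (i + 1) / ((i + 1 : ℝ) * i.factorial) * ‖q (i + 1)‖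
        ≤ ((1 / 400) * (1 / 6) ^ i) / ((1 : ℝ) * i.factorial) * (3 / 5 * (3 ^ i * i.factorial)) := by
          have := hq i
          gcongr
      _ = 3 / 5 * ((1 / 400) * ((1 / 6) ^ i * 3 ^ i)) := by
          field_simp
      _ = 3 / 5 * ((1 / 400) * (1 / 2) ^ i) := by
          rw [← mul_pow]
          norm_num
      _ ≤ 1 * ((1 / 400) * (1 / 2) ^ i) := by
          have : (0 : ℝ) ≤ (1 / 400) * (1 / 2) ^ i := by positivity
          nlinarith
      _ = _ := one_mul _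
  have hg : Summable (fun i : ℕ => (1 / 400 : ℝ) * (1 / 2) ^ i) :=
    (summable_geometric_of_lt_one (by norm_num) (by norm_num)).mul_left _
  have hs : Summable (fun i : ℕ => ((e : ℂ) ^ (i + 1) / ((i + 1).factorial : ℂ)) * q (i + 1)) :=
    Summable.of_norm_bounded hg hb
  have hs' : Summable (fun i : ℕ => ((e : ℂ) ^ i / (i.factorial : ℂ)) * q i) :=
    (summable_nat_add_iff 1).mp hs
  rw [hs'.tsum_eq_zero_add]
  have h1 : ‖∑' i : ℕ, ((e : ℂ) ^ (i + 1) / ((i + 1).factorial : ℂ)) * q (i + 1)‖ ≤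
      (1 / 400) * 2 := by
    refine tsum_of_norm_bounded ?_ hb
    exact (hasSum_geometric_two).mul_left _
  have h2 := (Complex.abs_re_le_norm _).trans h1
  have h3 := (Complex.abs_re_le_norm _).trans h0
  rw [abs_le] at h2 h3
  rw [Complex.sub_re, Complex.one_re] at h3
  simp only [pow_zero, Nat.factorial_zero, Nat.cast_one, div_one, one_mul, Complex.add_re]
  intro h4
  linarith [h2.1, h3.1]

/-- CX-FN5: the boundary value is not zero. -/
theorem main (hA1 : S_A1) (hA2 : S_A2) (hA3 : S_A3) (hAB : S_AB) (hB1 : S_B1) (hM1 : S_M1)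
    (hB2 : S_B2) (hEH : S_EH) (hEV : S_EV) : S_FN5 := by
  intro P X h v y hF
  have hP := hF.good
  have hS := hF.sol
  have hX := hF.X_pos
  have hX' := hF.X_le
  have hD : Dom X h v y := ⟨hS.hc, hS.hv, hS.hy, hS.nh, hS.nv, hS.ny⟩
  have hh : ‖h‖ ≤ 12 / 10 ^ 4 := by
    have := hS.nh
    linarith
  have hh' : ‖h‖ ≤ 1 / 800 := hh.trans (by norm_num)
  have hρ : (8583 : ℝ) ≤ P.ρ := hP.rho
  have hρ0 : (0 : ℝ) < P.ρ := by linarith
  have hX2 : X ^ 2 ≤ (6 / 10 ^ 4) ^ 2 := by gcongr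
  have hB := hB2 P hP X h v y hX hX' hD
  obtain ⟨hq0, -, -, hQ, hVM⟩ := hB
  have hq00 := (hVM 6 6 (by norm_num) (by norm_num) (by norm_num) (by norm_num) hS.nv hS.ny).1
  obtain ⟨hn, hadd, hsmul, hmul, hmon, hev, -, -, -, hex, hre⟩ := hEV wW 1 (by simp)
  have hone : ev (1 : W) 1 = 1 := by
    rw [one_def, hmon, one_zpow]
  have hms := fn5_ms hEV P h v
  refine ⟨1, by simp, ?_⟩
  rw [UU, PP]
  refine fn5_series _ ?_ (fun i => QF P X h v y i 1) ?_ ?_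
  · -- the value of `e`
    have h1 : |(ev h 1).re| ≤ 12 / 10 ^ 4 := (Complex.abs_re_le_norm _).trans ((hn h).trans hh)
    rw [eF, fn5_norm_f hA2 hAB hB1 hEV P hP h hh' hS.hc]
    set s : ℝ := 2 / P.ρ * (ev h 1).re with hs
    have h2 : |s| = 2 / P.ρ * |(ev h 1).re| := by
      rw [hs, abs_mul, abs_of_pos (by positivity)]
    have h3 : |s| ≤ 2 / P.ρ * (12 / 10 ^ 4) := by
      rw [h2]
      gcongr
    have h4 : |s| ≤ 1 := by
      refine h3.trans ?_
      rw [div_mul_eq_mul_div, div_le_one hρ0]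
      linarith
    have h5 := Real.abs_exp_sub_one_le h4
    have h6 : (P.ρ ^ 2 - P.ρ ^ 2 * Real.exp s) / (2 * P.ρ) = P.ρ / 2 * -(Real.exp s - 1) := by
      field_simp
      ring
    rw [h6, abs_mul, abs_neg, abs_of_pos (by positivity)]
    calc P.ρ / 2 * |Real.exp s - 1| ≤ P.ρ / 2 * (2 * (2 / P.ρ * (12 / 10 ^ 4))) := by
          have : |Real.exp s - 1| ≤ 2 * (2 / P.ρ * (12 / 10 ^ 4)) := h5.trans (by linarith)
          gcongr
      _ = 24 / 10 ^ 4 := by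
          field_simp
          norm_num
      _ ≤ 1 / 400 := by norm_num
  · -- the first term
    have h1 : QF P X h v y 0 1 = ((2 / P.ρ * P.b 0 - P.b 1 : ℝ) : ℂ) +
        ((X * P.a 1 0 : ℝ) : ℂ) * ev (tau P h) 1 + ev (ms P h v 0) 1 +
        ev (qq P h v y 0) 1 := by
      have h2 : ev (qq P h v y 0) 1 = evh (qq P h v y 0) 1 :=
        hev _ fun j hj => hq0 0 j (by omega)
      show (2 / P.ρ * P.b 0 - P.b 1 : ℝ) + (X * P.a 1 0 : ℝ) * (fF P h 1 / P.ρ) ^ P.n +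
        ∑ m ∈ (Finset.Icc 2 4 : Finset ℕ), (cf v (m : ℤ) / (m * P.a m 0) * P.a m 0 : ℝ) *
          ((fF P h 1 / P.ρ) ^ P.n) ^ m + evh (qq P h v y 0) (1 ^ P.n) = _
      rw [fn5_tau hAB hB1 hEV P hP h hh', one_pow, h2, hms 0]
    rw [h1, hP.b1]
    have h3 : ‖ev (tau P h) 1‖ ≤ 2 := by
      refine (hn _).trans ?_
      have := (hB1 P hP h hh').1.2.2.2.1
      linarith
    have h4 : ‖ev (qq P h v y 0) 1‖ ≤ 1 / 100 := by
      refine ((hn _).trans hq00).trans ?_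
      linarith
    have h4' : ‖ev (ms P h v 0) 1‖ ≤ 1 / 100 := by
      refine ((hn _).trans ((hM1 P hP h v hh' hS.hv).2.2.1 0)).trans ?_
      have h10 := hS.nv
      have h11 : (25 / 4 * ((3 / 2) ^ 0 * ((0 : ℕ).factorial : ℝ)) : ℝ) = 25 / 4 := by
        simp
      rw [h11]
      linarith
    have h5 : ‖((X * P.a 1 0 : ℝ) : ℂ) * ev (tau P h) 1‖ ≤ 1 / 100 := by
      rw [norm_mul, Complex.norm_real, Real.norm_eq_abs]
      have ha := hP.a10
      have ha' := hP.a10'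
      have hpos : 0 ≤ X * P.a 1 0 := mul_nonneg hX.le (by linarith)
      rw [abs_of_nonneg hpos]
      have h6 : X * P.a 1 0 ≤ 6 / 10 ^ 4 * 1 := by
        refine mul_le_mul hX' ?_ (by linarith) (by norm_num)
        linarith
      calc X * P.a 1 0 * ‖ev (tau P h) 1‖ ≤ (6 / 10 ^ 4 * 1) * 2 := by
            gcongr
        _ ≤ 1 / 100 := by norm_num
    have h7 : ‖((2 / P.ρ * P.b 0 : ℝ) : ℂ)‖ ≤ 1 / 100 := by
      rw [Complex.norm_real, Real.norm_eq_abs, abs_mul, abs_of_pos (by positivity)]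
      have hb := hP.b0
      have h8 : 2 / P.ρ ≤ 1 := by
        rw [div_le_one hρ0]
        linarith
      calc 2 / P.ρ * |P.b 0| ≤ 1 * (1 / 10 ^ 15) := by gcongr
        _ ≤ 1 / 100 := by norm_num
    have h9 : ((2 / P.ρ * P.b 0 - -1 : ℝ) : ℂ) + ((X * P.a 1 0 : ℝ) : ℂ) * ev (tau P h) 1 +
        ev (ms P h v 0) 1 + ev (qq P h v y 0) 1 - 1 = ((2 / P.ρ * P.b 0 : ℝ) : ℂ) +
        ((X * P.a 1 0 : ℝ) : ℂ) * ev (tau P h) 1 + ev (ms P h v 0) 1 +
        ev (qq P h v y 0) 1 := by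
      push_cast
      ring
    rw [h9]
    have h12 := norm_add_le (((2 / P.ρ * P.b 0 : ℝ) : ℂ) +
        ((X * P.a 1 0 : ℝ) : ℂ) * ev (tau P h) 1 + ev (ms P h v 0) 1) (ev (qq P h v y 0) 1)
    have h13 : ‖((2 / P.ρ * P.b 0 : ℝ) : ℂ) +
        ((X * P.a 1 0 : ℝ) : ℂ) * ev (tau P h) 1 + ev (ms P h v 0) 1‖ ≤ _ := norm_add₃_le
    linarith
  · -- the other terms
    intro i
    have h1 : QF P X h v y (i + 1) 1 = ev (Qh P X h v y i) 1 := by
      have h2 : ev (qq P h v y (i + 1)) 1 = evh (qq P h v y (i + 1)) 1 :=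
        hev _ fun j hj => hq0 (i + 1) j (by omega)
      show (P.b i : ℝ) + (X * P.a 1 (i + 1) : ℝ) * (fF P h 1 / P.ρ) ^ P.n +
        ∑ m ∈ (Finset.Icc 2 4 : Finset ℕ), (cf v (m : ℤ) / (m * P.a m 0) * P.a m (i + 1) : ℝ) *
          ((fF P h 1 / P.ρ) ^ P.n) ^ m + evh (qq P h v y (i + 1)) (1 ^ P.n) = _
      rw [fn5_tau hAB hB1 hEV P hP h hh', one_pow, ← h2, Qh, hadd, hadd, hadd, hsmul, hsmul,
        hone, mul_one, hms (i + 1)]
    rw [h1]
    exact (hn _).trans (hQ i)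

end Pool.Agent.H957.CX.PFN5
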