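import Pool.Agent.H957.CX.Stm

/-!
Project CX (helper957), problem MP_83fd13_an: the first functional of the bifurcation function
(written by helper707, after the library proof `gg_D`).
-/

set_option autoImplicit false

open Set Filter Topology

namespace Pool.Agent.H957.CX.PGD

open Pool.Agent.N229.SC (Al Wt cf mon lft norm_mon lft_mon norm_lft_le lft_hasSum ext_mon
  mul_def one_def mon_mul_mon S_A1 ev evh Conf Nd Str Om SS UU PP eF Fb)

/-! ### Coefficients -/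

private lemma gg_mon (hA1 : S_A1) (i : ℤ) (z : W) (k : ℤ) : cf (mon wW i * z) k = cf z (k - i) := by
  obtain ⟨-, -, -, -, -, hm, -, -, -, -, hs, -, -⟩ := hA1 wW
  have h1 := hs (mon wW i) z k
  have h2 : HasSum (fun j => cf (mon wW i) j * cf z (k - j)) (cf z (k - i)) := by
    have h3 := hasSum_single (f := fun j => cf (mon wW i) j * cf z (k - j)) i (fun j hj => by
      rw [hm, if_neg (Ne.symm hj), zero_mul])
    simp only [hm, if_true, one_mul] at h3 ⊢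
    exact h3
  exact h1.unique h2

private lemma gg_cc (hA1 : S_A1) (z : W) (k : ℤ) :
    cf (cc * z) k = (cf z (k - 1) + cf z (k + 1)) / 2 := by
  obtain ⟨ha, -, -, -, hr, -⟩ := hA1 wW
  have h1 : cc * z = (1 / 2 : ℝ) • (mon wW 1 * z + mon wW (-1) * z) := by
    unfold cc
    rw [smul_mul_assoc, add_mul]
  rw [h1, hr, ha, gg_mon hA1, gg_mon hA1, sub_neg_eq_add]
  ring

/-! ### Norms -/

private lemma gg_nm {a b : W} {x y : ℝ} (ha : ‖a‖ ≤ x) (hb : ‖b‖ ≤ y) : ‖a * b‖ ≤ x * y :=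
  (norm_mul_le a b).trans (mul_le_mul ha hb (norm_nonneg _) ((norm_nonneg _).trans ha))

private lemma gg_na {a b : W} {x y : ℝ} (ha : ‖a‖ ≤ x) (hb : ‖b‖ ≤ y) : ‖a + b‖ ≤ x + y :=
  (norm_add_le a b).trans (add_le_add ha hb)

private lemma gg_ns {a : W} {r s x : ℝ} (hr : |r| ≤ s) (ha : ‖a‖ ≤ x) : ‖r • a‖ ≤ s * x := by
  rw [norm_smul, Real.norm_eq_abs]
  exact mul_le_mul hr ha (norm_nonneg _) ((abs_nonneg _).trans hr)

private lemma gg_am {a b x y : ℝ} (ha : |a| ≤ x) (hb : |b| ≤ y) : |a * b| ≤ x * y := by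
  rw [abs_mul]
  exact mul_le_mul ha hb (abs_nonneg _) ((abs_nonneg _).trans ha)

private lemma gg_w1 : ‖(mon wW 1 : W)‖ = 11475 / 10000 := by
  rw [norm_mon]
  simp only [wW, Rad, Int.natAbs_one]
  norm_num

private lemma gg_w1' : ‖(mon wW (-1) : W)‖ = 11475 / 10000 := by
  rw [norm_mon, Wt.neg (w := wW), ← norm_mon (w := wW) 1]
  exact gg_w1

private lemma gg_cn : ‖cc‖ ≤ 11475 / 10000 := by
  unfold cc
  have h1 := gg_na (le_of_eq gg_w1) (le_of_eq gg_w1')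
  have h2 := gg_ns (r := 1 / 2) (s := 1 / 2) (by rw [abs_of_pos (by norm_num)]) h1
  exact h2.trans (by norm_num)

/-- The first functional. -/
theorem main (hA1 : S_A1) (hA2 : S_A2) : S_GD := by
  intro X ν a0 a2 p ζ τ W0 W1 W2 V3 R B D m hD hm hDn hR
  obtain ⟨X0, X1, ν0, ν1, a00, a01, a2b, zn, zc, xn, tn, tn1, tn2, tD, tD', w0, w1, w1c, w1n,
    w2n, V3n⟩ := B
  have hmn : ∀ i j : ℤ, cf (mon wW i) j = if i = j then 1 else 0 := (hA1 wW).2.2.2.2.2.1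
  have hcj : ∀ (z : W) (j : ℤ), cf (conj z) j = cf z (-j) := hA2.2.1.1
  set t : W := mon wW 1 with ht
  have ht2 : t * t = mon wW 2 := by
    rw [ht, mon_mul_mon]
    norm_num
  have key : (X * a0) • τ + W0 - (X • cc + ζ) * ((-X) • τ + W1) +
      (1/2 : ℝ) • ((X • cc + ζ) ^ 2 * ((X * a2) • τ + W2)) -
      (1/6 : ℝ) • ((X • cc + ζ) ^ 3 * V3) + R =
      (X * a0) • τ + W0 + X ^ 2 • (cc * t) + (ν * X ^ 3) • (cc * (t * t)) +
      X ^ 2 • (cc * (τ - t - (ν * X) • (t * t))) + X • (ζ * t) + X • (ζ * (τ - t)) -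
      X • (cc * W1) - ζ * W1 + (1/2 * a2 * X ^ 3) • (cc * (cc * t)) +
      (1/2 * X * a2) • (ζ * (X • cc + ζ + X • cc) * τ + X ^ 2 • (cc * cc * (τ - t))) +
      (1/2 : ℝ) • ((X • cc + ζ) ^ 2 * W2) - (1/6 : ℝ) • ((X • cc + ζ) ^ 3 * V3) + R := by
    simp only [Algebra.smul_def, map_mul, map_neg, map_pow]
    ring
  rw [key]
  simp only [map_add, map_sub, map_smul, smul_eq_mul]
  -- exact values
  have d1 : D τ = cf τ 1 := by rw [hD, tD', sub_zero]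
  have d2 : D W0 = 0 := by rw [hD, w0 1 (by norm_num), w0 (-1) (by norm_num), sub_zero]
  have d3 : D (cc * t) = 0 := by
    rw [hD, gg_cc hA1, gg_cc hA1, hmn, hmn, hmn, hmn]
    norm_num
  have d4 : D (cc * (t * t)) = 1 / 2 := by
    rw [hD, ht2, gg_cc hA1, gg_cc hA1, hmn, hmn, hmn, hmn]
    norm_num
  have d5 : D (ζ * t) = m ζ := by
    have h1 : cf ζ (-2) = cf ζ 2 := by
      have := hcj ζ 2
      rw [zc] at this
      exact this.symm
    rw [hD, hm, mul_comm ζ t, gg_mon hA1, gg_mon hA1]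
    norm_num
    linarith
  have d6 : D (cc * W1) = p / 2 := by
    rw [hD, gg_cc hA1, gg_cc hA1]
    norm_num
    rw [w1c, w1 0 (by norm_num), w1 (-2) (by norm_num)]
    ring
  have d7 : D (cc * (cc * t)) = 1 / 4 := by
    rw [hD, gg_cc hA1, gg_cc hA1, gg_cc hA1, gg_cc hA1, gg_cc hA1, gg_cc hA1]
    simp only [hmn, ht]
    norm_num
  -- bounds
  have b1 : |X * a0 * (cf τ 1 - 1)| ≤ X * (4 * X ^ 2) * (4 * X ^ 2) := by
    refine gg_am ?_ tD
    rw [abs_of_pos (by positivity)]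
    exact mul_le_mul_of_nonneg_left a01 X0.le
  have b2 : |X ^ 2 * D (cc * (τ - t - (ν * X) • (t * t)))| ≤
      X ^ 2 * (11475 / 10000 * (22 / 10 * X ^ 2)) :=
    gg_am (by rw [abs_of_pos (by positivity)]) ((hDn _).trans (gg_nm gg_cn tn2))
  have b3 : |X * D (ζ * (τ - t))| ≤ X * (8 * X ^ 2 * (3 / 10 * X)) :=
    gg_am (by rw [abs_of_pos X0]) ((hDn _).trans (gg_nm zn tn1))
  have b4 : |D (ζ * W1)| ≤ 8 * X ^ 2 * (10 * X ^ 2) := (hDn _).trans (gg_nm zn w1n)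
  have hXc : ‖X • cc‖ ≤ X * (11475 / 10000) := gg_ns (by rw [abs_of_pos X0]) gg_cn
  have b5 : |1/2 * X * a2 * (D (ζ * (X • cc + ζ + X • cc) * τ) + X ^ 2 * D (cc * cc * (τ - t)))| ≤
      1 / 2 * X * (4424 / 10 ^ 4) *
      (8 * X ^ 2 * (29 / 25 * X + X * (11475 / 10000)) * (1149 / 1000) +
        X ^ 2 * (11475 / 10000 * (11475 / 10000) * (3 / 10 * X))) := by
    refine gg_am (gg_am ?_ a2b) ?_
    · rw [abs_of_pos (by positivity)]
    · refine (abs_add_le _ _).trans (add_le_add ?_ ?_)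
      · exact (hDn _).trans (gg_nm (gg_nm zn (gg_na xn hXc)) tn)
      · exact gg_am (by rw [abs_of_pos (by positivity)])
          ((hDn _).trans (gg_nm (gg_nm gg_cn gg_cn) tn1))
  have hx2 : ‖(X • cc + ζ) ^ 2‖ ≤ 29 / 25 * X * (29 / 25 * X) := by
    rw [sq]
    exact gg_nm xn xn
  have hx3 : ‖(X • cc + ζ) ^ 3‖ ≤ 29 / 25 * X * (29 / 25 * X) * (29 / 25 * X) := by
    rw [pow_succ]
    exact gg_nm hx2 xn
  have b6 : |1/2 * D ((X • cc + ζ) ^ 2 * W2)| ≤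
      1/2 * (29 / 25 * X * (29 / 25 * X) * (11 * X ^ 2)) :=
    gg_am (by rw [abs_of_pos (by norm_num)]) ((hDn _).trans (gg_nm hx2 w2n))
  have b7 : |1/6 * D ((X • cc + ζ) ^ 3 * V3)| ≤
      1/6 * (29 / 25 * X * (29 / 25 * X) * (29 / 25 * X) * X) :=
    gg_am (by rw [abs_of_pos (by norm_num)]) ((hDn _).trans (gg_nm hx3 V3n))
  have b8 : |D R| ≤ 1 / 10 * X ^ 4 := (hDn _).trans hR
  rw [d1, d2, d3, d4, d5, d6, d7]
  have hX5 : X ^ 5 ≤ 582 / 10 ^ 6 * X ^ 4 := by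
    rw [pow_succ, mul_comm]
    exact mul_le_mul_of_nonneg_right X1 (by positivity)
  have hX4 : 0 ≤ X ^ 4 := by positivity
  rw [abs_le] at b1 b2 b3 b4 b5 b6 b7 b8 ⊢
  obtain ⟨b1, b1'⟩ := b1
  obtain ⟨b2, b2'⟩ := b2
  obtain ⟨b3, b3'⟩ := b3
  obtain ⟨b4, b4'⟩ := b4
  obtain ⟨b5, b5'⟩ := b5
  obtain ⟨b6, b6'⟩ := b6
  obtain ⟨b7, b7'⟩ := b7
  obtain ⟨b8, b8'⟩ := b8
  constructor <;> nlinarith

end Pool.Agent.H957.CX.PGD
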