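import Pool.Agent.H957.CX.Stm

/-!
Project CX (helper957), problem MP_83fd13_an: the main estimate of the bifurcation function
(S_GG), following the library file `N229/SC/GG.lean`.
-/

set_option autoImplicit false

open Set Filter Topology

namespace Pool.Agent.H957.CX.PGG

open Pool.Agent.N229.SC (Al Wt cf mon lft norm_mon lft_mon norm_lft_le lft_hasSum ext_mon
  mul_def one_def mon_mul_mon S_A1 ev evh Conf Nd Str Om SS UU PP eF Fb)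

/-! ### Coefficients -/

private lemma gg_cc0 (hA1 : S_A1) (k : ℤ) :
    cf cc k = ((if 1 = k then 1 else 0) + (if -1 = k then 1 else 0)) / 2 := by
  obtain ⟨ha, -, -, -, hr, hm, -⟩ := hA1 wW
  unfold cc
  rw [hr, ha, hm, hm]
  ring

private lemma gg_fun (hA1 : S_A1) (hA2 : S_A2) : ∃ D m : W →L[ℝ] ℝ,
    (∀ z, D z = cf z 1 - cf z (-1)) ∧ (∀ z, m z = cf z 0 - (cf z 2 + cf z (-2)) / 2) ∧
    (∀ z, |D z| ≤ ‖z‖) ∧ (∀ z, |m z| ≤ ‖z‖) ∧ ∀ z, m (conj z) = m z := by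
  obtain ⟨-, -, -, -, -, -, -, hn, -, -, -, -, hL⟩ := hA1 wW
  obtain ⟨L1, h1⟩ := hL 1
  obtain ⟨L1', h1'⟩ := hL (-1)
  obtain ⟨L0, h0⟩ := hL 0
  obtain ⟨L2, h2⟩ := hL 2
  obtain ⟨L2', h2'⟩ := hL (-2)
  have hc : ∀ (z : W) (j : ℤ), cf (conj z) j = cf z (-j) := hA2.2.1.1
  have hw : ∀ j, 1 ≤ wW j := fun j => Wt.one_le j
  refine ⟨L1 - L1', L0 - (1/2 : ℝ) • (L2 + L2'), fun z => ?_, fun z => ?_, fun z => ?_,
    fun z => ?_, fun z => ?_⟩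
  · rw [sub_apply, h1, h1']
  · simp only [sub_apply, smul_apply, add_apply, h0, h2, h2', smul_eq_mul]
    ring
  · rw [sub_apply, h1, h1']
    have h3 : |cf z 1| * wW 1 + |cf z (-1)| * wW (-1) ≤ ‖z‖ := by
      have := sum_le_hasSum ({1, -1} : Finset ℤ) (fun j _ => by
        have := Wt.pos wW j
        positivity) (hn z)
      rwa [Finset.sum_pair (by norm_num)] at this
    have h4 : |cf z 1| ≤ |cf z 1| * wW 1 := le_mul_of_one_le_right (abs_nonneg _) (hw 1)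
    have h5 : |cf z (-1)| ≤ |cf z (-1)| * wW (-1) := le_mul_of_one_le_right (abs_nonneg _) (hw (-1))
    have h6 := abs_sub (cf z 1) (cf z (-1))
    linarith
  · simp only [sub_apply, smul_apply, add_apply, h0, h2, h2', smul_eq_mul]
    have h3 : |cf z 0| * wW 0 + (|cf z 2| * wW 2 + |cf z (-2)| * wW (-2)) ≤ ‖z‖ := by
      have := sum_le_hasSum ({0, 2, -2} : Finset ℤ) (fun j _ => by
        have := Wt.pos wW j
        positivity) (hn z)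
      rwa [Finset.sum_insert (by decide), Finset.sum_pair (by norm_num)] at this
    have h4 : |cf z 0| ≤ |cf z 0| * wW 0 := le_mul_of_one_le_right (abs_nonneg _) (hw 0)
    have h5 : |cf z 2| ≤ |cf z 2| * wW 2 := le_mul_of_one_le_right (abs_nonneg _) (hw 2)
    have h6 : |cf z (-2)| ≤ |cf z (-2)| * wW (-2) := le_mul_of_one_le_right (abs_nonneg _) (hw (-2))
    have h7 := abs_sub (cf z 0) (1 / 2 * (cf z 2 + cf z (-2)))
    have h8 : |1 / 2 * (cf z 2 + cf z (-2))| ≤ 1 / 2 * (|cf z 2| + |cf z (-2)|) := by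
      rw [abs_mul, abs_of_pos (by norm_num : (0 : ℝ) < 1 / 2)]
      exact mul_le_mul_of_nonneg_left (abs_add_le _ _) (by norm_num)
    have h9 := abs_nonneg (cf z 2)
    have h10 := abs_nonneg (cf z (-2))
    linarith
  · simp only [sub_apply, smul_apply, add_apply, h0, h2, h2', smul_eq_mul, hc]
    norm_num
    ring

/-! ### Norms -/

private lemma gg_na {a b : W} {x y : ℝ} (ha : ‖a‖ ≤ x) (hb : ‖b‖ ≤ y) : ‖a + b‖ ≤ x + y :=
  (norm_add_le a b).trans (add_le_add ha hb)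

private lemma gg_ns {a : W} {r s x : ℝ} (hr : |r| ≤ s) (ha : ‖a‖ ≤ x) : ‖r • a‖ ≤ s * x := by
  rw [norm_smul, Real.norm_eq_abs]
  exact mul_le_mul hr ha (norm_nonneg _) ((abs_nonneg _).trans hr)

private lemma gg_am {a b x y : ℝ} (ha : |a| ≤ x) (hb : |b| ≤ y) : |a * b| ≤ x * y := by
  rw [abs_mul]
  exact mul_le_mul ha hb (abs_nonneg _) ((abs_nonneg _).trans ha)

private lemma gg_w1 : ‖(mon wW 1 : W)‖ = 11475 / 10000 := by
  rw [norm_mon]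
  simp only [wW, Rad, Int.natAbs_one]
  norm_num

private lemma gg_w1' : ‖(mon wW (-1) : W)‖ = 11475 / 10000 := by
  rw [norm_mon, Wt.neg (w := wW), ← norm_mon (w := wW) 1]
  exact gg_w1

private lemma gg_cn : ‖cc‖ ≤ 11475 / 10000 := by
  unfold cc
  have h1 := gg_na (le_of_eq gg_w1) (le_of_eq gg_w1')
  have h2 := gg_ns (r := 1 / 2) (s := 1 / 2) (by rw [abs_of_pos (by norm_num)]) h1
  exact h2.trans (by norm_num)

/-- The small parameter. -/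
private lemma gg_X {P : Par} {X : ℝ} {h v : W} {y : ℕ → A} (H : Hyp P X h v y) :
    0 < X ∧ X ≤ 582 / 10 ^ 6 ∧ 0 < P.a 1 0 ∧ P.a 1 0 ≤ 4 * X ^ 2 ∧ 8 / 10 ^ 8 ≤ X ^ 2 := by
  have h1 := H.good.a10
  have h2 := H.good.a10'
  have h3 : 0 < P.a 1 0 := lt_of_lt_of_le (by norm_num) h1
  have h4 : 0 < Real.sqrt (P.a 1 0) := Real.sqrt_pos.2 h3
  have h5 : Real.sqrt (P.a 1 0) ≤ 582 / 10 ^ 6 := by
    rw [Real.sqrt_le_left (by norm_num)]
    refine h2.trans (by norm_num)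
  have h6 := H.X1
  have h7 := H.X2
  have h8 : P.a 1 0 ≤ (2 * X) ^ 2 := by
    rw [← Real.sqrt_le_left (by linarith)]
    linarith
  have h9 : P.a 1 0 ≤ 4 * X ^ 2 := by
    refine h8.trans (le_of_eq (by ring))
  exact ⟨by linarith, by linarith, h3, h9, by linarith⟩

private lemma gg_dom {P : Par} {X : ℝ} {h v : W} {y : ℕ → A} (H : Hyp P X h v y) :
    Dom X h v y := ⟨H.sol.hc, H.sol.hv, H.sol.hy, H.sol.nh, H.sol.nv, H.sol.ny⟩

/-- Elements close to `X c`. -/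
private lemma gg_near {X : ℝ} (hX0 : 0 < X) (hX : X ≤ 582 / 10 ^ 6) {z : W}
    (h : ‖z - X • cc‖ ≤ 8 * X ^ 2) : ‖z‖ ≤ 29 / 25 * X := by
  have h1 : z = X • cc + (z - X • cc) := by abel
  have h2 := gg_na (gg_ns (r := X) (s := X) (by rw [abs_of_pos hX0]) gg_cn) h
  rw [← h1] at h2
  nlinarith

/-! ### The series -/

private lemma gg_T4 (ξ : W) (c : ℕ → W) :
    ∑ i ∈ Finset.range 4, ((-1 : ℝ) ^ i * ((i.factorial : ℝ))⁻¹) • (ξ ^ i * c i) =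
      c 0 - ξ * c 1 + (1 / 2 : ℝ) • (ξ ^ 2 * c 2) - (1 / 6 : ℝ) • (ξ ^ 3 * c 3) := by
  rw [Finset.sum_range_succ, Finset.sum_range_succ, Finset.sum_range_succ, Finset.sum_range_one]
  norm_num [Nat.factorial]
  abel

private lemma gg_T3 (ξ : W) (c : ℕ → W) :
    ∑ i ∈ Finset.range 3, ((-1 : ℝ) ^ i * ((i.factorial : ℝ))⁻¹) • (ξ ^ i * c i) =
      c 0 - ξ * c 1 + (1 / 2 : ℝ) • (ξ ^ 2 * c 2) := by
  rw [Finset.sum_range_succ, Finset.sum_range_succ, Finset.sum_range_one]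
  norm_num [Nat.factorial]
  abel

private lemma gg_T1 (ξ : W) (c : ℕ → W) :
    ∑ i ∈ Finset.range 1, ((-1 : ℝ) ^ i * ((i.factorial : ℝ))⁻¹) • (ξ ^ i * c i) = c 0 := by
  rw [Finset.sum_range_one]
  norm_num [Nat.factorial]

private lemma gg_conj_cc : conj cc = cc := by
  unfold cc conj
  rw [map_smul, map_add, lft_mon, lft_mon, neg_neg, add_comm]

/-! ### The final combination -/

private lemma gg_end {X ν a0 a20 a12 κ v2 mz G : ℝ} (hX0 : 0 < X) (hX : X ≤ 582 / 10 ^ 6)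
    (hν0 : 221 / 1000 ≤ ν) (hν1 : ν ≤ 22101 / 100000) (h20 : 8109 / 10 ^ 5 ≤ a20)
    (h12 : |a12 + 2 * ν| ≤ 3 / 10000) (hκ : |κ - 1| ≤ 8 * X ^ 2) (hv : |v2| ≤ 3 / 4 * X ^ 2)
    (hv2 : |v2 + X ^ 2 / 2| ≤ 62 * X ^ 3)
    (fD : |G - (X * a0 + X * mz - X * (v2 / a20 * (-1) * κ) / 2 + a12 * X ^ 3 / 8 +
      ν * X ^ 3 / 2)| ≤ 110 * X ^ 4)
    (fm : |mz - (ν * (X ^ 2 / 4 - v2 / a20 * a20 * κ / 2) - ν * X ^ 2 / 2 +
      v2 / (2 * a20) * (-1) * κ / 2 + a12 * X ^ 2 / 4)| ≤ 25 * X ^ 3 + 2 / 1000 * X ^ 2) :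
    |G - (X * a0 - (ν / 4 + 1 / (8 * a20)) * X ^ 3)| ≤ 600 * X ^ 4 + 1 / 100 * X ^ 3 := by
  have ha : 0 < a20 := lt_of_lt_of_le (by norm_num) h20
  have ha' : a20 ≠ 0 := ha.ne'
  have hX3 : 0 ≤ X ^ 3 := by positivity
  have hX4 : 0 ≤ X ^ 4 := by positivity
  have hX4' : X ^ 4 ≤ 582 / 10 ^ 6 * X ^ 3 := by nlinarith
  -- `u = κ v₂ + X² / 2`
  have hu : |κ * v2 + X ^ 2 / 2| ≤ 621 / 10 * X ^ 3 := by
    have h1 : κ * v2 + X ^ 2 / 2 = (κ - 1) * v2 + (v2 + X ^ 2 / 2) := by ring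
    rw [h1]
    refine (abs_add_le _ _).trans ?_
    have h2 := gg_am hκ hv
    nlinarith
  have hw : |1 / (4 * a20)| ≤ 309 / 100 := by
    rw [abs_of_pos (by positivity), div_le_iff₀ (by positivity)]
    linarith
  have e1 : v2 / a20 * a20 = v2 := div_mul_cancel₀ v2 ha'
  have f1 : |X * ((κ * v2 + X ^ 2 / 2) * (1 / (4 * a20)))| ≤
      X * (621 / 10 * X ^ 3 * (309 / 100)) :=
    gg_am (by rw [abs_of_pos hX0]) (gg_am hu hw)
  have f2 : |X * ((κ * v2 + X ^ 2 / 2) * (ν / 2))| ≤ X * (621 / 10 * X ^ 3 * (1 / 9)) :=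
    gg_am (by rw [abs_of_pos hX0]) (gg_am hu (by
      rw [abs_of_pos (by linarith)]
      linarith))
  have f3 : |X * (mz - (ν * (X ^ 2 / 4 - v2 / a20 * a20 * κ / 2) - ν * X ^ 2 / 2 +
      v2 / (2 * a20) * (-1) * κ / 2 + a12 * X ^ 2 / 4))| ≤
      X * (25 * X ^ 3 + 2 / 1000 * X ^ 2) := gg_am (by rw [abs_of_pos hX0]) fm
  have f4 : |3 / 8 * X ^ 3 * (a12 + 2 * ν)| ≤ 3 / 8 * X ^ 3 * (3 / 10000) :=
    gg_am (by rw [abs_of_pos (by positivity)]) h12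
  rw [e1] at f3
  have key : G - (X * a0 - (ν / 4 + 1 / (8 * a20)) * X ^ 3) =
      (G - (X * a0 + X * mz - X * (v2 / a20 * (-1) * κ) / 2 + a12 * X ^ 3 / 8 +
        ν * X ^ 3 / 2)) +
      X * (mz - (ν * (X ^ 2 / 4 - v2 * κ / 2) - ν * X ^ 2 / 2 +
        v2 / (2 * a20) * (-1) * κ / 2 + a12 * X ^ 2 / 4)) +
      3 / 8 * X ^ 3 * (a12 + 2 * ν) +
      X * ((κ * v2 + X ^ 2 / 2) * (1 / (4 * a20))) -
      X * ((κ * v2 + X ^ 2 / 2) * (ν / 2)) := by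
    field_simp
    ring
  rw [key]
  rw [abs_le] at f1 f2 f3 f4 fD ⊢
  obtain ⟨f1, f1'⟩ := f1
  obtain ⟨f2, f2'⟩ := f2
  obtain ⟨f3, f3'⟩ := f3
  obtain ⟨f4, f4'⟩ := f4
  obtain ⟨fD, fD'⟩ := fD
  constructor <;> nlinarith

theorem main (hA1 : S_A1) (hA2 : S_A2) (hA3 : S_A3) (hAB : S_AB) (hB1 : S_B1) (hM1 : S_M1)
    (hB2 : S_B2) (hGT : S_GT) (hGD : S_GD) (hGM : S_GM) : S_GG := by
  intro P X h v y H Rf
  obtain ⟨hX0, hX, ha00, ha01, hXl⟩ := gg_X H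
  obtain ⟨D, m, hD, hm, hDn, hmn, hmc⟩ := gg_fun hA1 hA2
  obtain ⟨tn2, tD, hκ⟩ := hGT P X h v y H Rf
  have hn := Rf.rh
  have hxi := Rf.rxc
  have hv := Rf.rv
  have hy := Rf.ry
  have hxn := gg_near hX0 hX hxi
  have hn1 : ‖h‖ ≤ 1 / 800 := by linarith
  obtain ⟨⟨-, -, bt1, bt2, bY, -⟩, hsym, ⟨-, -, -, ht0, -, -⟩, -⟩ := hB1 P H.good h hn1
  obtain ⟨ab1, -, -, -, -, ⟨ab3, ab5, ab4, ab6⟩, -⟩ := hAB P H.good
  obtain ⟨⟨md0, ms0, md2, ms2⟩, -, hmsn, -, ⟨hmd1, hmd2, hmd3⟩, ⟨hms1, hms2, hms3⟩⟩ :=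
    hM1 P H.good h v hn1 H.sol.hv
  obtain ⟨hq0, hv0, hVn, hQn, hB2'⟩ := hB2 P H.good X h v y hX0 (by linarith) (gg_dom H)
  obtain ⟨-, -, hqn, -, hv1n, hvn⟩ := hB2' (3 / 4) (2 / 5) (by norm_num) (by norm_num)
    (by norm_num) (by norm_num) hv hy
  have hnu0 := H.good.nu1
  have hnu1 := H.good.nu2
  have hXa : |X| ≤ X := by rw [abs_of_pos hX0]
  have hX2 : X ^ 2 ≤ 582 / 10 ^ 6 * X := by nlinarith
  have hXp2 : 0 ≤ X ^ 2 := by positivity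
  have hX3 : X ^ 3 ≤ 582 / 10 ^ 6 * X ^ 2 := by nlinarith
  have hXp3 : 0 ≤ X ^ 3 := by positivity
  have hX4 : X ^ 4 ≤ 582 / 10 ^ 6 * X ^ 3 := by nlinarith
  have hXp4 : 0 ≤ X ^ 4 := by positivity
  have hX5 : X ^ 5 ≤ 582 / 10 ^ 6 * X ^ 4 := by nlinarith
  have hx30 : ‖xi P h‖ ≤ 1 / 30 := by linarith
  have hxp := norm_nonneg (xi P h)
  -- the powers of the norm of `ξ`
  have hp3 : (3 * ‖xi P h‖) ^ 3 ≤ (348 / 100 * X) ^ 3 :=
    pow_le_pow_left₀ (by positivity) (by linarith) 3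
  have hp4 : (3 * ‖xi P h‖) ^ 4 ≤ (348 / 100 * X) ^ 4 :=
    pow_le_pow_left₀ (by positivity) (by linarith) 4
  -- the series
  obtain ⟨-, hT⟩ := hA3.2.1 (xi P h) (Vh P X h v y) (3 / 5 * X) hVn hx30
  obtain ⟨-, hS⟩ := hA3.2.1 (xi P h) (Qh P X h v y) (3 / 5) hQn hx30
  have hT4 := hT 4
  have hT3 := hT 3
  have hS4 := hS 4
  have hS1 := hS 1
  rw [gg_T4] at hT4 hS4
  rw [gg_T3] at hT3
  rw [gg_T1] at hS1
  obtain ⟨T, hTd⟩ : ∃ T, T = TT (xi P h) (Vh P X h v y) := ⟨_, rfl⟩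
  obtain ⟨S, hSd⟩ : ∃ S, S = TT (xi P h) (Qh P X h v y) := ⟨_, rfl⟩
  rw [← hTd] at hT4 hT3
  rw [← hSd] at hS4 hS1
  obtain ⟨ζ, hζ⟩ : ∃ ζ, ζ = xi P h - X • cc := ⟨_, rfl⟩
  have hξ : xi P h = X • cc + ζ := by
    rw [hζ]
    abel
  obtain ⟨W0, hW0⟩ : ∃ W0, W0 = md P h v 0 + vv P h v y 0 := ⟨_, rfl⟩
  obtain ⟨W1, hW1⟩ : ∃ W1, W1 = md P h v 1 + vv P h v y 1 := ⟨_, rfl⟩
  obtain ⟨W2, hW2⟩ : ∃ W2, W2 = md P h v 2 + vv P h v y 2 := ⟨_, rfl⟩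
  obtain ⟨S1, hS1d⟩ : ∃ S1, S1 = ms P h v 1 + qq P h v y 1 := ⟨_, rfl⟩
  obtain ⟨S2, hS2d⟩ : ∃ S2, S2 = ms P h v 2 + qq P h v y 2 := ⟨_, rfl⟩
  have ha1 : P.a 1 1 = -1 := H.good.a1 1 le_rfl (by norm_num)
  have ha21 : P.a 2 1 = -1 := H.good.a1 2 (by norm_num) (by norm_num)
  have hV0 : Vh P X h v y 0 = (X * P.a 1 0) • tau P h + W0 := by
    rw [hW0, ← add_assoc]
    rfl
  have hV1 : Vh P X h v y 1 = (-X) • tau P h + W1 := by
    rw [hW1, ← add_assoc]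
    show (X * P.a 1 1) • tau P h + md P h v 1 + vv P h v y 1 = _
    rw [ha1, mul_neg_one]
  have hV2 : Vh P X h v y 2 = (X * P.a 1 2) • tau P h + W2 := by
    rw [hW2, ← add_assoc]
    rfl
  have hV3 : Vh P X h v y 3 = (X * P.a 1 3) • tau P h + md P h v 3 + vv P h v y 3 := rfl
  have hQ0 : Qh P X h v y 0 = P.b 0 • (1 : W) + (-X) • tau P h + S1 := by
    rw [hS1d, ← add_assoc]
    show P.b 0 • (1 : W) + (X * P.a 1 1) • tau P h + ms P h v 1 + qq P h v y 1 = _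
    rw [ha1, mul_neg_one]
  have hQ1 : Qh P X h v y 1 = (-1 : ℝ) • (1 : W) + (X * P.a 1 2) • tau P h + S2 := by
    rw [hS2d, ← add_assoc]
    show P.b 1 • (1 : W) + (X * P.a 1 2) • tau P h + ms P h v 2 + qq P h v y 2 = _
    rw [H.good.b1]
  have hQ2 : Qh P X h v y 2 = P.b 2 • (1 : W) + (X * P.a 1 3) • tau P h + ms P h v 3 +
      qq P h v y 3 := rfl
  have hQ3 : Qh P X h v y 3 = P.b 3 • (1 : W) + (X * P.a 1 4) • tau P h + ms P h v 4 +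
      qq P h v y 4 := rfl
  -- bounds of the numbers
  have ha2 : |P.a 1 2| ≤ 4424 / 10 ^ 4 := by
    have ab3' := ab3
    rw [abs_le] at ab3' ⊢
    constructor <;> linarith
  have ha4 : |P.a 1 4| ≤ 81 := by
    have := ab1 4
    norm_num [Nat.factorial] at this
    exact this.trans (by norm_num)
  have hb0 : |P.b 0| ≤ 1 / 10 ^ 4 * X ^ 2 := by
    have := H.good.b0
    linarith
  have h1n : ‖(1 : W)‖ ≤ 1 := le_of_eq norm_one
  have hW1n : ‖W1‖ ≤ 10 * X ^ 2 := by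
    rw [hW1]
    refine (gg_na hmd1 hv1n).trans ?_
    linarith
  have hv2n' : ‖vv P h v y 2‖ ≤ 188 / 100 * X ^ 2 := by
    have := hvn 1
    norm_num at this
    linarith
  have hv3n' : ‖vv P h v y 3‖ ≤ 282 / 100 * X ^ 2 := by
    have := hvn 2
    norm_num at this
    linarith
  have hW2n : ‖W2‖ ≤ 11 * X ^ 2 := by
    rw [hW2]
    refine (gg_na hmd2 hv2n').trans ?_
    linarith
  have hq : ∀ i, ‖qq P h v y (i + 1)‖ ≤ 13 / 100 * X ^ 2 := fun i => (hqn i).trans (by linarith)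
  have hS2n : ‖S2‖ ≤ 5 * X ^ 2 := by
    rw [hS2d]
    refine (gg_na hms2 (hq 1)).trans ?_
    linarith
  have hV2n : ‖Vh P X h v y 2‖ ≤ 52 / 100 * X := by
    rw [hV2]
    refine (gg_na (gg_ns (gg_am hXa ha2) bt2) hW2n).trans ?_
    linarith
  have hV3n : ‖Vh P X h v y 3‖ ≤ X := by
    rw [hV3]
    refine (gg_na (gg_na (gg_ns (gg_am hXa ab5) bt2) hmd3) hv3n').trans ?_
    linarith
  have hQ0n : ‖Qh P X h v y 0‖ ≤ 1152 / 1000 * X := by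
    rw [hQ0, hS1d]
    refine (gg_na (gg_na (gg_ns hb0 h1n) (gg_ns (r := -X) (s := X) (by rw [abs_neg]; exact hXa)
      bt2)) (gg_na hms1 (hq 0))).trans ?_
    linarith
  have hQ2n : ‖Qh P X h v y 2‖ ≤ 5 / 10 ^ 4 + 94 / 100 * X := by
    rw [hQ2]
    refine (gg_na (gg_na (gg_na (gg_ns ab4 h1n) (gg_ns (gg_am hXa ab5) bt2)) hms3)
      (hq 2)).trans ?_
    linarith
  have hms4 : ‖ms P h v 4‖ ≤ 760 * ‖v‖ := by
    have := hmsn 4
    norm_num [Nat.factorial] at this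
    refine this.trans ?_
    have := norm_nonneg v
    linarith
  have hQ3n : ‖Qh P X h v y 3‖ ≤ 11 / 10 := by
    rw [hQ3]
    refine (gg_na (gg_na (gg_na (gg_ns ab6 h1n) (gg_ns (gg_am hXa ha4) bt2)) hms4)
      (hq 3)).trans ?_
    linarith
  have hYn : ‖YY P h - 1‖ ≤ 28 / 10 ^ 5 * X := bY.trans (by linarith)
  -- the remainders
  have hR4 : ‖T - (Vh P X h v y 0 - xi P h * Vh P X h v y 1 +
      (1 / 2 : ℝ) • (xi P h ^ 2 * Vh P X h v y 2) -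
      (1 / 6 : ℝ) • (xi P h ^ 3 * Vh P X h v y 3))‖ ≤ 1 / 10 * X ^ 4 := by
    refine hT4.trans ?_
    calc 10 / 9 * (3 / 5 * X) * (3 * ‖xi P h‖) ^ 4 ≤
        10 / 9 * (3 / 5 * X) * (348 / 100 * X) ^ 4 := mul_le_mul_of_nonneg_left hp4 (by positivity)
      _ ≤ _ := by nlinarith
  have hR3 : ‖T - (Vh P X h v y 0 - xi P h * Vh P X h v y 1 +
      (1 / 2 : ℝ) • (xi P h ^ 2 * Vh P X h v y 2))‖ ≤ 2 / 100 * X ^ 3 := by
    refine hT3.trans ?_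
    calc 10 / 9 * (3 / 5 * X) * (3 * ‖xi P h‖) ^ 3 ≤
        10 / 9 * (3 / 5 * X) * (348 / 100 * X) ^ 3 := mul_le_mul_of_nonneg_left hp3 (by positivity)
      _ ≤ _ := by nlinarith
  have hRS : ‖S - (Qh P X h v y 0 - xi P h * Qh P X h v y 1 +
      (1 / 2 : ℝ) • (xi P h ^ 2 * Qh P X h v y 2) -
      (1 / 6 : ℝ) • (xi P h ^ 3 * Qh P X h v y 3))‖ ≤ 6 / 100 * X ^ 3 := by
    refine hS4.trans ?_
    calc 10 / 9 * (3 / 5) * (3 * ‖xi P h‖) ^ 4 ≤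
        10 / 9 * (3 / 5) * (348 / 100 * X) ^ 4 := mul_le_mul_of_nonneg_left hp4 (by positivity)
      _ ≤ _ := by nlinarith
  have hSn : ‖S‖ ≤ 35 / 10 * X := by
    have h1 : S = Qh P X h v y 0 + (S - Qh P X h v y 0) := by abel
    have h2 := gg_na hQ0n hS1
    rw [← h1] at h2
    refine h2.trans ?_
    rw [pow_one]
    linarith
  -- the coefficients
  obtain ⟨hcadd, hcsub, -, -, -, -, hcle, -⟩ := hA1 wW
  have hw0 : ∀ j < 2, cf W0 j = 0 := fun j hj => by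
    rw [hW0, hcadd, md0 0 j hj, hv0 0 j (by omega), add_zero]
  have hw1 : ∀ j < 2, cf W1 j = 0 := fun j hj => by
    rw [hW1, hcadd, md0 1 j hj, hv0 1 j (by omega), add_zero]
  have hs1 : ∀ j < 2, cf S1 j = 0 := fun j hj => by
    rw [hS1d, hcadd, ms0 1 j hj, hq0 1 j (by omega), add_zero]
  have hw0c : cf W0 2 = cf v 2 / P.a 2 0 * P.a 2 0 * Real.exp (2 * (P.nu * cf h 0)) := by
    rw [hW0, hcadd, md2 0, hv0 0 2 (by omega), add_zero]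
  have hw1c : cf W1 2 = cf v 2 / P.a 2 0 * (-1) * Real.exp (2 * (P.nu * cf h 0)) := by
    rw [hW1, hcadd, md2 1, hv0 1 2 (by omega), add_zero, ha21]
  have hs1c : cf S1 2 = cf v 2 / (2 * P.a 2 0) * (-1) * Real.exp (2 * (P.nu * cf h 0)) := by
    rw [hS1d, hcadd, ms2 1, hq0 1 2 (by omega), add_zero, ha21]
  have B : GB X P.nu (P.a 1 0) (P.a 1 2)
      (cf v 2 / P.a 2 0 * (-1) * Real.exp (2 * (P.nu * cf h 0))) ζ (tau P h) W0 W1 W2
      (Vh P X h v y 3) :=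
    { X0 := hX0
      X1 := hX
      ν0 := hnu0
      ν1 := hnu1
      a00 := ha00
      a01 := ha01
      a2b := ha2
      zn := by rw [hζ]; exact hxi
      zc := by
        rw [hζ, map_sub, map_smul, (hsym H.sol.hc).1, gg_conj_cc]
      xn := by rw [← hξ]; exact hxn
      tn := bt2
      tn1 := bt1.trans (by linarith)
      tn2 := tn2
      tD := tD
      tD' := ht0 (-1) (by norm_num)
      w0 := hw0
      w1 := hw1
      w1c := hw1c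
      w1n := hW1n
      w2n := hW2n
      V3n := hV3n }
  have C : GC X (P.b 0) (cf v 2 / (2 * P.a 2 0) * (-1) * Real.exp (2 * (P.nu * cf h 0))) S1 S2
      (Vh P X h v y 2) (Qh P X h v y 2) (Qh P X h v y 3)
      (T - (Vh P X h v y 0 - xi P h * Vh P X h v y 1 +
      (1 / 2 : ℝ) • (xi P h ^ 2 * Vh P X h v y 2)))
      (S - (Qh P X h v y 0 - xi P h * Qh P X h v y 1 +
      (1 / 2 : ℝ) • (xi P h ^ 2 * Qh P X h v y 2) -
      (1 / 6 : ℝ) • (xi P h ^ 3 * Qh P X h v y 3))) (YY P h) :=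
    { b0n := hb0
      s10 := hs1
      s1c := hs1c
      s2n := hS2n
      V2n := hV2n
      Q2n := hQ2n
      Q3n := hQ3n
      R3n := hR3
      RSn := hRS
      Yn := hYn }
  have hE : (P.nu / 2) • (T + conj T) - (1 / 2 : ℝ) • (YY P h * (S + conj S)) = 0 := by
    have := H.sol.eE
    unfold EE at this
    rw [← hTd, ← hSd] at this
    exact this
  have fm := hGM X P.nu (P.a 1 0) (P.a 1 2) _ _ (P.b 0) _ ζ (tau P h) W0 W1 W2 _ S1 S2 _ _ _ _ _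
    (YY P h) T S B C hw0c m hm hmn hmc (by rw [hV0, hV1, hξ]; abel) (by rw [hQ0, hQ1, hξ]; abel)
    hSn hE
  have fD := hGD X P.nu (P.a 1 0) (P.a 1 2) _ ζ (tau P h) W0 W1 W2 _ _ B D m hD hm hDn hR4
  have hTe : (X * P.a 1 0) • tau P h + W0 - (X • cc + ζ) * ((-X) • tau P h + W1) +
      (1/2 : ℝ) • ((X • cc + ζ) ^ 2 * ((X * P.a 1 2) • tau P h + W2)) -
      (1/6 : ℝ) • ((X • cc + ζ) ^ 3 * Vh P X h v y 3) +
      (T - (Vh P X h v y 0 - xi P h * Vh P X h v y 1 +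
      (1 / 2 : ℝ) • (xi P h ^ 2 * Vh P X h v y 2) -
      (1 / 6 : ℝ) • (xi P h ^ 3 * Vh P X h v y 3))) = T := by
    rw [hV0, hV1, hV2, hξ]
    abel
  rw [hTe, hD] at fD
  have hOO : cf (OO P X h v y) 1 = cf T 1 - cf T (-1) := by
    unfold OO
    rw [← hTd, (hA1 wW).2.1, hA2.2.1.1]
  rw [hOO]
  have hv2a : |cf v 2| ≤ 3 / 4 * X ^ 2 := by
    have h1 : |cf v 2| ≤ |cf v 2| * wW 2 :=
      le_mul_of_one_le_right (abs_nonneg _) (Wt.one_le (w := wW) 2)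
    exact h1.trans ((hcle v 2).trans hv)
  exact gg_end hX0 hX hnu0 hnu1 H.good.a20 ab3 hκ hv2a Rf.rc2 fD fm

end Pool.Agent.H957.CX.PGG
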