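import Pool.Agent.H957.CX.Stm

/-!
Project CX (helper957), problem MP_83fd13_an: the second functional (`S_GM`).
-/

set_option autoImplicit false

open Set Filter Topology

namespace Pool.Agent.H957.CX.PGM

open Pool.Agent.N229.SC (Al Wt cf mon lft norm_mon lft_mon norm_lft_le lft_hasSum ext_mon
  mul_def one_def mon_mul_mon S_A1 ev evh Conf Nd Str Om SS UU PP eF Fb)

/-! ### Coefficients -/

private lemma gg_mon (hA1 : S_A1) (i : ℤ) (z : W) (k : ℤ) : cf (mon wW i * z) k = cf z (k - i) := by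
  obtain ⟨-, -, -, -, -, hm, -, -, -, -, hs, -, -⟩ := hA1 wW
  have h1 := hs (mon wW i) z k
  have h2 : HasSum (fun j => cf (mon wW i) j * cf z (k - j)) (cf z (k - i)) := by
    have h3 := hasSum_single (f := fun j => cf (mon wW i) j * cf z (k - j)) i (fun j hj => by
      rw [hm, if_neg (Ne.symm hj), zero_mul])
    simp only [hm, if_true, one_mul] at h3 ⊢
    exact h3
  exact h1.unique h2

private lemma gg_cc (hA1 : S_A1) (z : W) (k : ℤ) :
    cf (cc * z) k = (cf z (k - 1) + cf z (k + 1)) / 2 := by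
  obtain ⟨ha, -, -, -, hr, -⟩ := hA1 wW
  have h1 : cc * z = (1 / 2 : ℝ) • (mon wW 1 * z + mon wW (-1) * z) := by
    unfold cc
    rw [smul_mul_assoc, add_mul]
  rw [h1, hr, ha, gg_mon hA1, gg_mon hA1, sub_neg_eq_add]
  ring

private lemma gg_cc0 (hA1 : S_A1) (k : ℤ) :
    cf cc k = ((if 1 = k then 1 else 0) + (if -1 = k then 1 else 0)) / 2 := by
  obtain ⟨ha, -, -, -, hr, hm, -⟩ := hA1 wW
  unfold cc
  rw [hr, ha, hm, hm]
  ring

/-! ### Norms -/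

private lemma gg_nm {a b : W} {x y : ℝ} (ha : ‖a‖ ≤ x) (hb : ‖b‖ ≤ y) : ‖a * b‖ ≤ x * y :=
  (norm_mul_le a b).trans (mul_le_mul ha hb (norm_nonneg _) ((norm_nonneg _).trans ha))

private lemma gg_na {a b : W} {x y : ℝ} (ha : ‖a‖ ≤ x) (hb : ‖b‖ ≤ y) : ‖a + b‖ ≤ x + y :=
  (norm_add_le a b).trans (add_le_add ha hb)

private lemma gg_ns {a : W} {r s x : ℝ} (hr : |r| ≤ s) (ha : ‖a‖ ≤ x) : ‖r • a‖ ≤ s * x := by
  rw [norm_smul, Real.norm_eq_abs]
  exact mul_le_mul hr ha (norm_nonneg _) ((abs_nonneg _).trans hr)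

private lemma gg_am {a b x y : ℝ} (ha : |a| ≤ x) (hb : |b| ≤ y) : |a * b| ≤ x * y := by
  rw [abs_mul]
  exact mul_le_mul ha hb (abs_nonneg _) ((abs_nonneg _).trans ha)

private lemma gg_w1 : ‖(mon wW 1 : W)‖ = 11475 / 10000 := by
  rw [norm_mon]
  simp only [wW, Rad, Int.natAbs_one]
  norm_num

private lemma gg_w1' : ‖(mon wW (-1) : W)‖ = 11475 / 10000 := by
  rw [norm_mon, Wt.neg (w := wW), ← norm_mon (w := wW) 1]
  exact gg_w1

private lemma gg_cn : ‖cc‖ ≤ 11475 / 10000 := by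
  unfold cc
  have h1 := gg_na (le_of_eq gg_w1) (le_of_eq gg_w1')
  have h2 := gg_ns (r := 1 / 2) (s := 1 / 2) (by rw [abs_of_pos (by norm_num)]) h1
  exact h2.trans (by norm_num)

/-- The second functional. -/
theorem main (hA1 : S_A1) (hA2 : S_A2) : S_GM := by
  intro X ν a0 a2 p r0 b0 s ζ τ W0 W1 W2 V3 S1 S2 V2 Q2 Q3 R3 RS Y T S B C vc m hm hmb hmc hT hS
    hSn hE
  obtain ⟨X0, X1, ν0, ν1, a00, a01, a2b, zn, zc, xn, tn, tn1, tn2, tD, tD', w0, w1, w1c, w1n,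
    w2n, V3n⟩ := B
  obtain ⟨b0n, s10, s1c, s2n, V2n, Q2n, Q3n, R3n, RSn, Yn⟩ := C
  have hmn : ∀ i j : ℤ, cf (mon wW i) j = if i = j then 1 else 0 := (hA1 wW).2.2.2.2.2.1
  have hconj : ∀ z : W, ‖conj z‖ = ‖z‖ := hA2.2.1.2.2.2.1
  set t : W := mon wW 1 with ht
  have ht2 : t * t = mon wW 2 := by
    rw [ht, mon_mul_mon]
    norm_num
  set E : W := X • (cc * (τ - t)) + ζ * τ with hEdef
  -- exact values
  have m1 : m (1 : W) = 1 := by
    rw [hm, one_def, hmn, hmn, hmn]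
    norm_num
  have m2 : m t = 0 := by
    rw [hm, ht, hmn, hmn, hmn]
    norm_num
  have m3 : m (t * t) = -1 / 2 := by
    rw [hm, ht2, hmn, hmn, hmn]
    norm_num
  have m4 : m cc = 0 := by
    rw [hm, gg_cc0 hA1, gg_cc0 hA1, gg_cc0 hA1]
    norm_num
  have m5 : m (cc * t) = 1 / 4 := by
    rw [hm, gg_cc hA1, gg_cc hA1, gg_cc hA1]
    simp only [hmn, ht]
    norm_num
  have m6 : m W0 = -r0 / 2 := by
    rw [hm, w0 0 (by norm_num), w0 (-2) (by norm_num), vc]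
    ring
  have m7 : m S1 = -s / 2 := by
    rw [hm, s10 0 (by norm_num), s10 (-2) (by norm_num), s1c]
    ring
  have m8 : m τ = -(ν * X) / 2 + m (τ - t - (ν * X) • (t * t)) := by
    have h1 : τ = t + (ν * X) • (t * t) + (τ - t - (ν * X) • (t * t)) := by abel
    conv_lhs => rw [h1]
    rw [map_add, map_add, map_smul, m2, m3, smul_eq_mul]
    ring
  -- the expansions
  have kT : T = (X * a0) • τ + W0 + X ^ 2 • (cc * t) + X • E - (X • cc + ζ) * W1 +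
      (1/2 : ℝ) • ((X • cc + ζ) ^ 2 * V2) + R3 := by
    rw [hT, hEdef]
    simp only [Algebra.smul_def, map_mul, map_neg, map_pow]
    ring
  have kS : S = b0 • (1 : W) - X • τ + S1 + X • cc + ζ - (X ^ 2 * a2) • (cc * t) -
      (X * a2) • E - (X • cc + ζ) * S2 + (1/2 : ℝ) • ((X • cc + ζ) ^ 2 * Q2) -
      (1/6 : ℝ) • ((X • cc + ζ) ^ 3 * Q3) + RS := by
    rw [hS, hEdef]
    simp only [Algebra.smul_def, map_mul, map_neg, map_pow, map_one]
    ring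
  have mT : m T = X * a0 * m τ - r0 / 2 + X ^ 2 / 4 + X * m E - m ((X • cc + ζ) * W1) +
      1/2 * m ((X • cc + ζ) ^ 2 * V2) + m R3 := by
    rw [kT]
    simp only [map_add, map_sub, map_smul, smul_eq_mul, m5, m6]
    ring
  have mS : m S = b0 - X * m τ - s / 2 + m ζ - X ^ 2 * a2 / 4 - X * a2 * m E -
      m ((X • cc + ζ) * S2) + 1/2 * m ((X • cc + ζ) ^ 2 * Q2) -
      1/6 * m ((X • cc + ζ) ^ 3 * Q3) + m RS := by
    rw [kS]
    simp only [map_add, map_sub, map_smul, smul_eq_mul, m1, m4, m5, m7]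
    ring
  have hE2 : ν * m T - m S - 1 / 2 * m ((Y - 1) * (S + conj S)) = 0 := by
    have h1 : (ν / 2) • (T + conj T) - (1 / 2 : ℝ) • ((S + conj S) + (Y - 1) * (S + conj S)) =
        0 := by
      rw [← hE]
      congr 2
      ring
    have h2 := congrArg m h1
    simp only [map_add, map_sub, map_smul, smul_eq_mul, map_zero, hmc] at h2 ⊢
    linarith
  -- bounds
  have hXc : ‖X • cc‖ ≤ X * (11475 / 10000) := gg_ns (by rw [abs_of_pos X0]) gg_cn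
  have hx2 : ‖(X • cc + ζ) ^ 2‖ ≤ 29 / 25 * X * (29 / 25 * X) := by
    rw [sq]
    exact gg_nm xn xn
  have hx3 : ‖(X • cc + ζ) ^ 3‖ ≤ 29 / 25 * X * (29 / 25 * X) * (29 / 25 * X) := by
    rw [pow_succ]
    exact gg_nm hx2 xn
  have hνa : |ν| ≤ 22101 / 100000 := by rw [abs_of_pos (by linarith)]; exact ν1
  have hXa : |X| ≤ X := by rw [abs_of_pos X0]
  have hha : |(1 / 2 : ℝ)| ≤ 1 / 2 := by rw [abs_of_pos (by norm_num)]
  have hEn : ‖E‖ ≤ X * (11475 / 10000 * (3 / 10 * X)) + 8 * X ^ 2 * (1149 / 1000) :=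
    gg_na (gg_ns hXa (gg_nm gg_cn tn1)) (gg_nm zn tn)
  have c1 : |ν * (X * a0 * m τ)| ≤ 22101 / 100000 * (X * (4 * X ^ 2) * (1149 / 1000)) :=
    gg_am hνa (gg_am (gg_am hXa (by rw [abs_of_pos a00]; exact a01)) ((hmb _).trans tn))
  have c2 : |ν * (X * m E)| ≤ 22101 / 100000 * (X * (X * (11475 / 10000 * (3 / 10 * X)) +
      8 * X ^ 2 * (1149 / 1000))) :=
    gg_am hνa (gg_am hXa ((hmb _).trans hEn))
  have c3 : |ν * m ((X • cc + ζ) * W1)| ≤ 22101 / 100000 * (29 / 25 * X * (10 * X ^ 2)) :=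
    gg_am hνa ((hmb _).trans (gg_nm xn w1n))
  have c4 : |ν * (1 / 2 * m ((X • cc + ζ) ^ 2 * V2))| ≤
      22101 / 100000 * (1 / 2 * (29 / 25 * X * (29 / 25 * X) * (52 / 100 * X))) :=
    gg_am hνa (gg_am hha ((hmb _).trans (gg_nm hx2 V2n)))
  have c5 : |ν * m R3| ≤ 22101 / 100000 * (2 / 100 * X ^ 3) := gg_am hνa ((hmb _).trans R3n)
  have c7 : |X * m (τ - t - (ν * X) • (t * t))| ≤ X * (22 / 10 * X ^ 2) :=
    gg_am hXa ((hmb _).trans tn2)
  have c8 : |X * a2 * m E| ≤ X * (4424 / 10 ^ 4) * (X * (11475 / 10000 * (3 / 10 * X)) +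
      8 * X ^ 2 * (1149 / 1000)) := gg_am (gg_am hXa a2b) ((hmb _).trans hEn)
  have c9 : |m ((X • cc + ζ) * S2)| ≤ 29 / 25 * X * (5 * X ^ 2) :=
    (hmb _).trans (gg_nm xn s2n)
  have c10 : |1 / 2 * m ((X • cc + ζ) ^ 2 * Q2)| ≤
      1 / 2 * (29 / 25 * X * (29 / 25 * X) * (5 / 10 ^ 4 + 94 / 100 * X)) :=
    gg_am hha ((hmb _).trans (gg_nm hx2 Q2n))
  have c11 : |1 / 6 * m ((X • cc + ζ) ^ 3 * Q3)| ≤
      1 / 6 * (29 / 25 * X * (29 / 25 * X) * (29 / 25 * X) * (11 / 10)) :=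
    gg_am (by rw [abs_of_pos (by norm_num)]) ((hmb _).trans (gg_nm hx3 Q3n))
  have c12 : |m RS| ≤ 6 / 100 * X ^ 3 := (hmb _).trans RSn
  have c13 : |1 / 2 * m ((Y - 1) * (S + conj S))| ≤
      1 / 2 * (28 / 10 ^ 5 * X * (35 / 10 * X + 35 / 10 * X)) :=
    gg_am hha ((hmb _).trans (gg_nm Yn (gg_na hSn (by rw [hconj]; exact hSn))))
  have hXτ : X * m τ = -(ν * X ^ 2) / 2 + X * m (τ - t - (ν * X) • (t * t)) := by
    rw [m8]
    ring
  rw [mT, mS] at hE2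
  have hX3 : 0 ≤ X ^ 3 := by positivity
  have hX2 : 0 ≤ X ^ 2 := by positivity
  generalize m (τ - t - (ν * X) • (t * t)) = u1 at *
  generalize m ((Y - 1) * (S + conj S)) = u2 at *
  generalize m ((X • cc + ζ) ^ 3 * Q3) = u3 at *
  generalize m ((X • cc + ζ) ^ 2 * Q2) = u4 at *
  generalize m ((X • cc + ζ) * S2) = u5 at *
  generalize m ((X • cc + ζ) ^ 2 * V2) = u6 at *
  generalize m ((X • cc + ζ) * W1) = u7 at *
  generalize m R3 = u8 at *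
  generalize m RS = u9 at *
  generalize m E = u10 at *
  generalize m τ = u11 at *
  generalize m ζ = u12 at *
  rw [abs_le] at b0n c1 c2 c3 c4 c5 c7 c8 c9 c10 c11 c12 c13 ⊢
  obtain ⟨b0n, b0n'⟩ := b0n
  obtain ⟨c1, c1'⟩ := c1
  obtain ⟨c2, c2'⟩ := c2
  obtain ⟨c3, c3'⟩ := c3
  obtain ⟨c4, c4'⟩ := c4
  obtain ⟨c5, c5'⟩ := c5
  obtain ⟨c7, c7'⟩ := c7
  obtain ⟨c8, c8'⟩ := c8
  obtain ⟨c9, c9'⟩ := c9
  obtain ⟨c10, c10'⟩ := c10
  obtain ⟨c11, c11'⟩ := c11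
  obtain ⟨c12, c12'⟩ := c12
  obtain ⟨c13, c13'⟩ := c13
  constructor <;> linarith

end Pool.Agent.H957.CX.PGM
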