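import Pool.Agent.H957.CX.Stm

/-!
Project CX (helper957), problem MP_83fd13_an: the second order term of `τ` (helper155).
-/

set_option autoImplicit false

open Set Filter Topology

namespace Pool.Agent.H957.CX.PGT

open Pool.Agent.N229.SC (Al Wt cf mon lft norm_mon lft_mon norm_lft_le lft_hasSum ext_mon
  mul_def one_def mon_mul_mon S_A1 ev evh Conf Nd Str Om SS UU PP eF Fb)

private lemma gt_nm {a b : W} {x y : ℝ} (ha : ‖a‖ ≤ x) (hb : ‖b‖ ≤ y) : ‖a * b‖ ≤ x * y :=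
  (norm_mul_le a b).trans (mul_le_mul ha hb (norm_nonneg _) ((norm_nonneg _).trans ha))

private lemma gt_na {a b : W} {x y : ℝ} (ha : ‖a‖ ≤ x) (hb : ‖b‖ ≤ y) : ‖a + b‖ ≤ x + y :=
  (norm_add_le a b).trans (add_le_add ha hb)

private lemma gt_ns {a : W} {r s x : ℝ} (hr : |r| ≤ s) (ha : ‖a‖ ≤ x) : ‖r • a‖ ≤ s * x := by
  rw [norm_smul, Real.norm_eq_abs]
  exact mul_le_mul hr ha (norm_nonneg _) ((abs_nonneg _).trans hr)

private lemma gt_w1 : ‖(mon wW 1 : W)‖ = 11475 / 10000 := by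
  rw [norm_mon]
  simp only [wW, Rad, Int.natAbs_one]
  norm_num

private lemma gt_cc0 (hA1 : S_A1) (k : ℤ) :
    cf cc k = ((if 1 = k then 1 else 0) + (if -1 = k then 1 else 0)) / 2 := by
  obtain ⟨ha, -, -, -, hr, hm, -⟩ := hA1 wW
  unfold cc
  rw [hr, ha, hm, hm]
  ring

/-- The small parameter. -/
private lemma gt_X {P : Par} {X : ℝ} {h v : W} {y : ℕ → A} (H : Hyp P X h v y) :
    0 < X ∧ X ≤ 582 / 10 ^ 6 := by
  have h1 := H.good.a10
  have h2 := H.good.a10'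
  have h3 : 0 < P.a 1 0 := lt_of_lt_of_le (by norm_num) h1
  have h4 : 0 < Real.sqrt (P.a 1 0) := Real.sqrt_pos.2 h3
  have h5 : Real.sqrt (P.a 1 0) ≤ 582 / 10 ^ 6 := by
    rw [Real.sqrt_le_left (by norm_num)]
    refine h2.trans (by norm_num)
  have h6 := H.X1
  have h7 := H.X2
  exact ⟨lt_of_lt_of_le (by positivity) h6, h7.trans h5⟩

/-- CX-GT. -/
theorem main (hA1 : S_A1) (hA2 : S_A2) (hA3 : S_A3) (hB1 : S_B1) : S_GT := by
  intro P X h v y H hR
  obtain ⟨hX0, hX⟩ := gt_X H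
  have hn := hR.rh
  have hh := hR.rhc
  have hn0 := norm_nonneg h
  have hn1 : ‖h‖ ≤ 1 / 800 := by linarith
  have hX2 : 0 < X ^ 2 := by positivity
  obtain ⟨⟨hP, -⟩, -, ⟨-, -, -, -, ht1, -⟩, -⟩ := hB1 P H.good h hn1
  obtain ⟨⟨-, -, -, -, hex, -⟩, -⟩ := hA3
  have hnu0 := H.good.nu1
  have hnu1 := H.good.nu2
  -- the constant coefficient of `h`
  obtain ⟨-, hsub, -, -, hsm, -, hle, -⟩ := hA1 wW
  have hc0 : |cf h 0| ≤ 8 * X ^ 2 := by
    have h1 : cf (h - X • cc) 0 = cf h 0 := by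
      rw [hsub, hsm, gt_cc0 hA1]
      norm_num
    have h2 := hle (h - X • cc) 0
    rw [h1, Wt.zero (w := wW), mul_one] at h2
    exact h2.trans hh
  have hx : |P.nu * cf h 0| ≤ 22101 / 100000 * (8 * X ^ 2) := by
    rw [abs_mul, abs_of_nonneg (by linarith : (0 : ℝ) ≤ P.nu)]
    exact mul_le_mul hnu1 hc0 (abs_nonneg _) (by norm_num)
  have hX2' : X ^ 2 ≤ 1 / 1000 := by nlinarith
  refine ⟨?_, ?_, ?_⟩
  · have hhol : hol cc = mon wW 1 := by
      unfold cc hol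
      rw [map_smul, map_add, lft_mon, lft_mon]
      simp only [Int.natAbs_one, Int.natAbs_neg, Nat.cast_one]
      rw [← two_smul ℝ (mon wW 1), smul_smul]
      norm_num
    have hholn : ‖hol (h - X • cc)‖ ≤ ‖h - X • cc‖ := hA2.2.2.1.2 _
    have e1 : Phi P h - (P.nu * X) • mon wW 1 = P.nu • hol (h - X • cc) := by
      rw [map_sub, map_smul, hhol, smul_sub, smul_smul]
      rfl
    have e2 : tau P h - mon wW 1 - (P.nu * X) • (mon wW 1 * mon wW 1) =
        mon wW 1 * (ex (Phi P h) - 1 - Phi P h) + mon wW 1 * (Phi P h - (P.nu * X) • mon wW 1) := by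
      unfold tau
      simp only [Algebra.smul_def]
      ring
    have hPn : ‖Phi P h‖ ≤ 2564 / 10000 * X := by
      refine hP.trans ?_
      have h1 : P.nu * ‖h‖ ≤ 22101 / 100000 * (29 / 25 * X) :=
        mul_le_mul hnu1 hn hn0 (by norm_num)
      linarith
    have hP0 := norm_nonneg (Phi P h)
    have h3 : ‖ex (Phi P h) - 1 - Phi P h‖ ≤ 66 / 1000 * X ^ 2 := by
      refine (hex (Phi P h)).trans ?_
      have h4 := Real.abs_exp_sub_one_sub_id_le (x := ‖Phi P h‖) (by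
        rw [abs_of_nonneg hP0]
        linarith)
      have h5 := le_abs_self (Real.exp ‖Phi P h‖ - 1 - ‖Phi P h‖)
      have h6 : ‖Phi P h‖ ^ 2 ≤ (2564 / 10000 * X) ^ 2 := pow_le_pow_left₀ hP0 hPn 2
      have h7 : (2564 / 10000 * X) ^ 2 = (2564 / 10000) ^ 2 * X ^ 2 := by ring
      rw [h7] at h6
      nlinarith
    have h4 : ‖Phi P h - (P.nu * X) • mon wW 1‖ ≤ 22101 / 100000 * (8 * X ^ 2) := by
      rw [e1]
      exact gt_ns (by rw [abs_of_nonneg (by linarith)]; linarith) (hholn.trans hh)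
    rw [e2]
    have h5 := gt_na (gt_nm (le_of_eq gt_w1) h3) (gt_nm (le_of_eq gt_w1) h4)
    refine h5.trans ?_
    linarith
  · rw [ht1]
    have h1 := Real.abs_exp_sub_one_le (x := P.nu * cf h 0) (by linarith)
    linarith
  · have h2 : |2 * (P.nu * cf h 0)| = 2 * |P.nu * cf h 0| := by
      rw [abs_mul, abs_of_pos (by norm_num : (0 : ℝ) < 2)]
    have h1 := Real.abs_exp_sub_one_le (x := 2 * (P.nu * cf h 0)) (by rw [h2]; linarith)
    rw [h2] at h1
    linarith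

end Pool.Agent.H957.CX.PGT
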