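import Pool.Agent.H957.CX.Stm

/-!
Project CX (helper957), problem MP_83fd13_an, part M1 (helper261): bounds of the modes `2, 3, 4`.
-/

set_option autoImplicit false

open Set Filter Topology

namespace Pool.Agent.H957.CX.PM1

open Pool.Agent.N229.SC (Al Wt cf mon lft norm_mon lft_mon norm_lft_le lft_hasSum ext_mon mul_def
  one_def mon_mul_mon S_A1 ev evh Conf Nd Str Om SS UU PP eF Fb)

theorem sum3 {M : Type} [AddCommMonoid M] (f : ℕ → M) :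
    ∑ m ∈ (Finset.Icc 2 4 : Finset ℕ), f m = f 2 + f 3 + f 4 := by
  rw [show (Finset.Icc 2 4 : Finset ℕ) = {2, 3, 4} from rfl]
  rw [Finset.sum_insert (by decide), Finset.sum_insert (by decide), Finset.sum_singleton,
    add_assoc]

theorem wW2 : wW 2 = 13005 / 10000 := by
  norm_num [wW, Rad]

theorem wW3 : wW 3 = 1459161 / 1000000 := by
  have : ((3 : ℤ).natAbs) = 3 := rfl
  norm_num [wW, Rad, this]

theorem wW4 : wW 4 = 162364824 / 100000000 := by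
  have : ((4 : ℤ).natAbs) = 4 := rfl
  norm_num [wW, Rad, this]

/-- The norm is the weighted sum of the coefficients. -/
theorem norm_split (hA1 : S_A1) (hA2 : S_A2) (v : W) :
    |cf v 2| * wW 2 + |cf v 3| * wW 3 + |cf v 4| * wW 4 + ‖Pi5 v‖ ≤ ‖v‖ := by
  obtain ⟨-, -, -, -, -, -, -, hs, -⟩ := hA1 wW
  obtain ⟨-, -, -, -, -, ⟨hp, -⟩, -⟩ := hA2
  have h1 := hs v
  have h2 := hs (Pi5 v)
  have h3 := h1.sub h2
  have h4 : ∑ j ∈ ({2, 3, 4} : Finset ℤ), (|cf v j| * wW j - |cf (Pi5 v) j| * wW j) ≤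
      ‖v‖ - ‖Pi5 v‖ := by
    refine sum_le_hasSum _ (fun j _ => ?_) h3
    rw [hp]
    split
    · simp
    · have := Wt.pos wW j
      simp only [abs_zero, zero_mul, sub_zero]
      positivity
  rw [Finset.sum_insert (by decide), Finset.sum_insert (by decide), Finset.sum_singleton] at h4
  rw [hp, hp, hp] at h4
  norm_num at h4
  linarith

/-- The decomposition of `v`. -/
theorem split (hA1 : S_A1) (hA2 : S_A2) (v : W) (hv : ∀ j < 2, cf v j = 0) :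
    v = cf v 2 • mon wW 2 + cf v 3 • mon wW 3 + cf v 4 • mon wW 4 + Pi5 v := by
  obtain ⟨hadd, -, -, -, hsm, hmon, -, -, -, hext, -⟩ := hA1 wW
  obtain ⟨-, -, -, -, -, ⟨hp, -⟩, -⟩ := hA2
  refine hext _ _ fun j => ?_
  rw [hadd, hadd, hadd, hsm, hsm, hsm, hmon, hmon, hmon, hp]
  by_cases h1 : j < 2
  · rw [hv j h1, if_neg (by omega), if_neg (by omega), if_neg (by omega), if_neg (by omega)]
    ring
  · by_cases h2 : j = 2
    · subst h2; norm_num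
    · by_cases h3 : j = 3
      · subst h3; norm_num
      · by_cases h4 : j = 4
        · subst h4; norm_num
        · rw [if_neg (by omega), if_neg (by omega), if_neg (by omega), if_pos (by omega)]
          ring

/-- The norm of a sum of three modes. -/
theorem bnd (τ2 τ3 τ4 : W) (k2 k3 k4 K c2 c3 c4 w2 w3 w4 V : ℝ) (hk2 : |k2| ≤ K) (hk3 : |k3| ≤ K)
    (hk4 : |k4| ≤ K) (h2 : ‖τ2‖ ≤ 1002 / 1000 * w2) (h3 : ‖τ3‖ ≤ 1002 / 1000 * w3)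
    (h4 : ‖τ4‖ ≤ 1002 / 1000 * w4) (hV : |c2| * w2 + |c3| * w3 + |c4| * w4 ≤ V) :
    ‖(c2 * k2) • τ2 + (c3 * k3) • τ3 + (c4 * k4) • τ4‖ ≤ 1002 / 1000 * K * V := by
  have hK : 0 ≤ K := (abs_nonneg _).trans hk2
  have key : ∀ (c k w : ℝ) (t : W), |k| ≤ K → ‖t‖ ≤ 1002 / 1000 * w →
      ‖(c * k) • t‖ ≤ 1002 / 1000 * K * (|c| * w) := by
    intro c k w t hk ht
    rw [norm_smul, Real.norm_eq_abs, abs_mul]
    have h1 : |c| * |k| ≤ |c| * K := mul_le_mul_of_nonneg_left hk (abs_nonneg _)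
    calc |c| * |k| * ‖t‖ ≤ |c| * K * (1002 / 1000 * w) :=
          mul_le_mul h1 ht (norm_nonneg _) (mul_nonneg (abs_nonneg _) hK)
      _ = _ := by ring
  calc ‖(c2 * k2) • τ2 + (c3 * k3) • τ3 + (c4 * k4) • τ4‖
      ≤ ‖(c2 * k2) • τ2‖ + ‖(c3 * k3) • τ3‖ + ‖(c4 * k4) • τ4‖ := norm_add₃_le
    _ ≤ 1002 / 1000 * K * (|c2| * w2) + 1002 / 1000 * K * (|c3| * w3) +
        1002 / 1000 * K * (|c4| * w4) :=
        add_le_add (add_le_add (key _ _ _ _ hk2 h2) (key _ _ _ _ hk3 h3)) (key _ _ _ _ hk4 h4)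
    _ = 1002 / 1000 * K * (|c2| * w2 + |c3| * w3 + |c4| * w4) := by ring
    _ ≤ _ := mul_le_mul_of_nonneg_left hV (by positivity)

theorem kb {x y B L K : ℝ} (hx : |x| ≤ B) (hy : L ≤ |y|) (hL : 0 < L) (hK : 0 ≤ K)
    (h : B ≤ K * L) : |x / y| ≤ K := by
  rw [abs_div, div_le_iff₀ (hL.trans_le hy)]
  exact (hx.trans h).trans (mul_le_mul_of_nonneg_left hy hK)

theorem md_eq (P : Par) (h v : W) (i : ℕ) : md P h v i =
    (cf v 2 * (P.a 2 i / P.a 2 0)) • tau P h ^ 2 + (cf v 3 * (P.a 3 i / P.a 3 0)) • tau P h ^ 3 +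
      (cf v 4 * (P.a 4 i / P.a 4 0)) • tau P h ^ 4 := by
  rw [md, sum3]
  push_cast
  rw [show cf v 2 / P.a 2 0 * P.a 2 i = cf v 2 * (P.a 2 i / P.a 2 0) by ring,
    show cf v 3 / P.a 3 0 * P.a 3 i = cf v 3 * (P.a 3 i / P.a 3 0) by ring,
    show cf v 4 / P.a 4 0 * P.a 4 i = cf v 4 * (P.a 4 i / P.a 4 0) by ring]

theorem ms_eq (P : Par) (h v : W) (i : ℕ) : ms P h v i =
    (cf v 2 * (P.a 2 i / (2 * P.a 2 0))) • tau P h ^ 2 +
      (cf v 3 * (P.a 3 i / (3 * P.a 3 0))) • tau P h ^ 3 +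
      (cf v 4 * (P.a 4 i / (4 * P.a 4 0))) • tau P h ^ 4 := by
  rw [ms, sum3]
  push_cast
  rw [show cf v 2 / (2 * P.a 2 0) * P.a 2 i = cf v 2 * (P.a 2 i / (2 * P.a 2 0)) by ring,
    show cf v 3 / (3 * P.a 3 0) * P.a 3 i = cf v 3 * (P.a 3 i / (3 * P.a 3 0)) by ring,
    show cf v 4 / (4 * P.a 4 0) * P.a 4 i = cf v 4 * (P.a 4 i / (4 * P.a 4 0)) by ring]

theorem main (hA1 : S_A1) (hA2 : S_A2) (hAB : S_AB) (hB1 : S_B1) : S_M1 := by
  intro P hP h v hh hv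
  obtain ⟨⟨-, -, -, -, -, -, hτ⟩, -, ⟨-, -, -, -, -, hcτ⟩, -⟩ := hB1 P hP h hh
  obtain ⟨-, hb2, hb3, hb4, -, -, ⟨h22, h23, h32, h33, h42, h43⟩, -, -⟩ := hAB P hP
  have hns := norm_split hA1 hA2 v
  have hsp := split hA1 hA2 v hv
  have hA1' := hA1 wW
  obtain ⟨hadd, -, -, -, hsm, hmon, -, -, -, hext, -⟩ := hA1'
  -- the powers of `τ`
  have t2 := hτ 2 le_rfl (by norm_num)
  have t3 := hτ 3 (by norm_num) (by norm_num)
  have t4 := hτ 4 (by norm_num) le_rfl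
  have u2 := hcτ 2 le_rfl (by norm_num)
  have u3 := hcτ 3 (by norm_num) (by norm_num)
  have u4 := hcτ 4 (by norm_num) le_rfl
  push_cast at t2 t3 t4 u2 u3 u4
  have ha2 : 8109 / 10 ^ 5 ≤ |P.a 2 0| := hP.a20.trans (le_abs_self _)
  have ha3 : 1823 / 1000 ≤ |P.a 3 0| := hP.a30.trans (le_abs_self _)
  have ha4 : 948 / 1000 ≤ |P.a 4 0| := by
    have := hP.a40'
    have h1 := neg_le_abs (P.a 4 0)
    linarith
  have hb2' : 2 * (8109 / 10 ^ 5) ≤ |2 * P.a 2 0| := by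
    rw [abs_mul, abs_of_pos (by norm_num : (0 : ℝ) < 2)]
    linarith
  have hb3' : 3 * (1823 / 1000) ≤ |3 * P.a 3 0| := by
    rw [abs_mul, abs_of_pos (by norm_num : (0 : ℝ) < 3)]
    linarith
  have hb4' : 4 * (948 / 1000) ≤ |4 * P.a 4 0| := by
    rw [abs_mul, abs_of_pos (by norm_num : (0 : ℝ) < 4)]
    linarith
  have hV0 : 0 ≤ ‖v‖ := norm_nonneg _
  have hV : |cf v 2| * wW 2 + |cf v 3| * wW 3 + |cf v 4| * wW 4 ≤ ‖v‖ := by
    have := norm_nonneg (Pi5 v)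
    linarith
  have hmd : ∀ (i : ℕ) (K C : ℝ), 0 ≤ K → (∃ B, |P.a 2 i| ≤ B ∧ B ≤ K * (8109 / 10 ^ 5)) →
      (∃ B, |P.a 3 i| ≤ B ∧ B ≤ K * (1823 / 1000)) → (∃ B, |P.a 4 i| ≤ B ∧ B ≤ K * (948 / 1000)) →
      1002 / 1000 * K ≤ C → ‖md P h v i‖ ≤ C * ‖v‖ := by
    rintro i K C hK ⟨B2, p2, q2⟩ ⟨B3, p3, q3⟩ ⟨B4, p4, q4⟩ hC
    rw [md_eq]
    exact (bnd _ _ _ _ _ _ K _ _ _ _ _ _ _ (kb p2 ha2 (by norm_num) hK q2)
      (kb p3 ha3 (by norm_num) hK q3) (kb p4 ha4 (by norm_num) hK q4) t2.2 t3.2 t4.2 hV).trans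
      (mul_le_mul_of_nonneg_right hC hV0)
  have hms : ∀ (i : ℕ) (K C : ℝ), 0 ≤ K → (∃ B, |P.a 2 i| ≤ B ∧ B ≤ K * (2 * (8109 / 10 ^ 5))) →
      (∃ B, |P.a 3 i| ≤ B ∧ B ≤ K * (3 * (1823 / 1000))) →
      (∃ B, |P.a 4 i| ≤ B ∧ B ≤ K * (4 * (948 / 1000))) →
      1002 / 1000 * K ≤ C → ‖ms P h v i‖ ≤ C * ‖v‖ := by
    rintro i K C hK ⟨B2, p2, q2⟩ ⟨B3, p3, q3⟩ ⟨B4, p4, q4⟩ hC
    rw [ms_eq]
    exact (bnd _ _ _ _ _ _ K _ _ _ _ _ _ _ (kb p2 hb2' (by norm_num) hK q2)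
      (kb p3 hb3' (by norm_num) hK q3) (kb p4 hb4' (by norm_num) hK q4) t2.2 t3.2 t4.2 hV).trans
      (mul_le_mul_of_nonneg_right hC hV0)
  have e2 : |P.a 2 1| = 1 := by rw [hP.a1 2 (by norm_num) (by norm_num)]; norm_num
  have e3 : |P.a 3 1| = 1 := by rw [hP.a1 3 (by norm_num) (by norm_num)]; norm_num
  have e4 : |P.a 4 1| = 1 := by rw [hP.a1 4 (by norm_num) (by norm_num)]; norm_num
  refine ⟨⟨?_, ?_, ?_, ?_⟩, ?_, ?_, ⟨?_, ?_⟩, ⟨?_, ?_, ?_⟩, ⟨?_, ?_, ?_⟩⟩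
  · intro i j hj
    rw [md_eq, hadd, hadd, hsm, hsm, hsm, u2.1 j hj, u3.1 j (by omega), u4.1 j (by omega)]
    ring
  · intro i j hj
    rw [ms_eq, hadd, hadd, hsm, hsm, hsm, u2.1 j hj, u3.1 j (by omega), u4.1 j (by omega)]
    ring
  · intro i
    rw [md_eq, hadd, hadd, hsm, hsm, hsm, u2.2, u3.1 2 (by omega), u4.1 2 (by omega)]
    ring
  · intro i
    rw [ms_eq, hadd, hadd, hsm, hsm, hsm, u2.2, u3.1 2 (by omega), u4.1 2 (by omega)]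
    ring
  · intro i
    have hp : 0 < (3 / 2 : ℝ) ^ i * i.factorial := by positivity
    refine hmd i (12332 / 1000 * ((3 / 2) ^ i * i.factorial)) _ (by positivity) ⟨_, hb2 i, ?_⟩
      ⟨_, hb3 i, ?_⟩ ⟨_, hb4 i, ?_⟩ ?_ <;> nlinarith
  · intro i
    have hp : 0 < (3 / 2 : ℝ) ^ i * i.factorial := by positivity
    refine hms i (6167 / 1000 * ((3 / 2) ^ i * i.factorial)) _ (by positivity) ⟨_, hb2 i, ?_⟩
      ⟨_, hb3 i, ?_⟩ ⟨_, hb4 i, ?_⟩ ?_ <;> nlinarith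
  · -- the difference
    have hd2 : P.a 2 0 / P.a 2 0 = 1 := div_self fun h0 => by
      rw [h0, abs_zero] at ha2; norm_num at ha2
    have hd3 : P.a 3 0 / P.a 3 0 = 1 := div_self fun h0 => by
      rw [h0, abs_zero] at ha3; norm_num at ha3
    have hd4 : P.a 4 0 / P.a 4 0 = 1 := div_self fun h0 => by
      rw [h0, abs_zero] at ha4; norm_num at ha4
    have hP5 : Pi5 v = v - (cf v 2 • mon wW 2 + cf v 3 • mon wW 3 + cf v 4 • mon wW 4) := by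
      rw [eq_sub_iff_add_eq, add_comm]
      exact hsp.symm
    have hEq : md P h v 0 + Pi5 v - v = cf v 2 • (tau P h ^ 2 - mon wW 2) +
        cf v 3 • (tau P h ^ 3 - mon wW 3) + cf v 4 • (tau P h ^ 4 - mon wW 4) := by
      rw [md_eq, hd2, hd3, hd4, mul_one, mul_one, mul_one, hP5, smul_sub, smul_sub, smul_sub]
      abel
    have key : ∀ (c : ℝ) (t : W), ‖t‖ ≤ 3 / 2 * ‖h‖ → ‖c • t‖ ≤ |c| * (3 / 2 * ‖h‖) := by
      intro c t ht
      rw [norm_smul, Real.norm_eq_abs]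
      exact mul_le_mul_of_nonneg_left ht (abs_nonneg _)
    have hc : |cf v 2| + |cf v 3| + |cf v 4| ≤ 10000 / 13005 * ‖v‖ := by
      rw [wW2, wW3, wW4] at hV
      have h3 := abs_nonneg (cf v 3)
      have h4 := abs_nonneg (cf v 4)
      linarith
    rw [hEq]
    calc ‖cf v 2 • (tau P h ^ 2 - mon wW 2) + cf v 3 • (tau P h ^ 3 - mon wW 3) +
          cf v 4 • (tau P h ^ 4 - mon wW 4)‖
        ≤ ‖cf v 2 • (tau P h ^ 2 - mon wW 2)‖ + ‖cf v 3 • (tau P h ^ 3 - mon wW 3)‖ +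
          ‖cf v 4 • (tau P h ^ 4 - mon wW 4)‖ := norm_add₃_le
      _ ≤ |cf v 2| * (3 / 2 * ‖h‖) + |cf v 3| * (3 / 2 * ‖h‖) + |cf v 4| * (3 / 2 * ‖h‖) :=
          add_le_add (add_le_add (key _ _ t2.1) (key _ _ t3.1)) (key _ _ t4.1)
      _ = (|cf v 2| + |cf v 3| + |cf v 4|) * (3 / 2 * ‖h‖) := by ring
      _ ≤ 10000 / 13005 * ‖v‖ * (3 / 2 * ‖h‖) :=
          mul_le_mul_of_nonneg_right hc (mul_nonneg (by norm_num) (norm_nonneg h))
      _ ≤ 6 / 5 * ‖h‖ * ‖v‖ := by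
          have := mul_nonneg (norm_nonneg h) hV0
          nlinarith
  · have hd2 : P.a 2 0 / P.a 2 0 = 1 := div_self fun h0 => by
      rw [h0, abs_zero] at ha2; norm_num at ha2
    have hd3 : P.a 3 0 / P.a 3 0 = 1 := div_self fun h0 => by
      rw [h0, abs_zero] at ha3; norm_num at ha3
    have hd4 : P.a 4 0 / P.a 4 0 = 1 := div_self fun h0 => by
      rw [h0, abs_zero] at ha4; norm_num at ha4
    have h1 : ‖md P h v 0‖ ≤ 1002 / 1000 * 1 *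
        (|cf v 2| * wW 2 + |cf v 3| * wW 3 + |cf v 4| * wW 4) := by
      rw [md_eq, hd2, hd3, hd4]
      exact bnd _ _ _ _ _ _ 1 _ _ _ _ _ _ _ (by norm_num) (by norm_num) (by norm_num) t2.2 t3.2
        t4.2 le_rfl
    have h2 := norm_add_le (md P h v 0) (Pi5 v)
    have h3 := norm_nonneg (Pi5 v)
    linarith
  · exact hmd 1 (12332 / 1000) _ (by norm_num) ⟨1, e2.le, by norm_num⟩ ⟨1, e3.le, by norm_num⟩
      ⟨1, e4.le, by norm_num⟩ (by norm_num)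
  · exact hmd 2 (11965 / 1000) _ (by norm_num) ⟨_, h22, by norm_num⟩ ⟨_, h32, by norm_num⟩
      ⟨_, h42, by norm_num⟩ (by norm_num)
  · exact hmd 3 (1851 / 1000) _ (by norm_num) ⟨_, h23, by norm_num⟩ ⟨_, h33, by norm_num⟩
      ⟨_, h43, by norm_num⟩ (by norm_num)
  · exact hms 1 (6167 / 1000) _ (by norm_num) ⟨1, e2.le, by norm_num⟩ ⟨1, e3.le, by norm_num⟩
      ⟨1, e4.le, by norm_num⟩ (by norm_num)
  · exact hms 2 (5983 / 1000) _ (by norm_num) ⟨_, h22, by norm_num⟩ ⟨_, h32, by norm_num⟩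
      ⟨_, h42, by norm_num⟩ (by norm_num)
  · have := hms 3 (926 / 1000) 1 (by norm_num) ⟨_, h23, by norm_num⟩ ⟨_, h33, by norm_num⟩
      ⟨_, h43, by norm_num⟩ (by norm_num)
    linarith

end Pool.Agent.H957.CX.PM1
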