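import Pool.Agent.H957.CX.Stm

/-!
Project CX (helper957), part M2: Lipschitz bounds of the modes.
-/

set_option autoImplicit false

open Set Filter Topology

namespace Pool.Agent.H957.CX.PM2

open Pool.Agent.N229.SC (Al Wt cf mon lft norm_mon lft_mon norm_lft_le lft_hasSum ext_mon
  mul_def one_def mon_mul_mon S_A1 ev evh Conf Nd Str Om SS UU PP eF Fb)

/-- the index set of the modes -/
abbrev I : Finset ℕ := Finset.Icc 2 4

theorem mem_I {m : ℕ} (hm : m ∈ I) : m = 2 ∨ m = 3 ∨ m = 4 := by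
  rw [Finset.mem_Icc] at hm
  omega

theorem I_eq : I = {2, 3, 4} := by decide

theorem sum_I {M : Type} [AddCommMonoid M] (f : ℕ → M) : ∑ m ∈ I, f m = f 2 + (f 3 + f 4) := by
  rw [I_eq, Finset.sum_insert (by decide), Finset.sum_insert (by decide), Finset.sum_singleton]

theorem wW_ge {m : ℕ} (hm : m ∈ I) : 13 / 10 ≤ wW (m : ℤ) := by
  unfold wW Rad
  rcases mem_I hm with rfl | rfl | rfl <;> norm_num

/-- the coefficients of the modes are bounded by the norm -/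
theorem sum_le (hA1 : S_A1) (u : W) : ∑ m ∈ I, |cf u (m : ℤ)| * wW (m : ℤ) ≤ ‖u‖ := by
  have h := (hA1 wW).2.2.2.2.2.2.2.1 u
  have h1 : ∑ j ∈ ({2, 3, 4} : Finset ℤ), |cf u j| * wW j ≤ ‖u‖ :=
    sum_le_hasSum _ (fun j _ => mul_nonneg (abs_nonneg _) (Wt.pos wW j).le) h
  rw [sum_I]
  rw [Finset.sum_insert (by decide), Finset.sum_insert (by decide), Finset.sum_singleton] at h1
  exact_mod_cast h1

theorem sum_le' (hA1 : S_A1) (u : W) : ∑ m ∈ I, |cf u (m : ℤ)| ≤ 10 / 13 * ‖u‖ := by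
  have h := sum_le hA1 u
  have h1 : 13 / 10 * ∑ m ∈ I, |cf u (m : ℤ)| ≤ ∑ m ∈ I, |cf u (m : ℤ)| * wW (m : ℤ) := by
    rw [Finset.mul_sum]
    refine Finset.sum_le_sum fun m hm => ?_
    rw [mul_comm]
    exact mul_le_mul_of_nonneg_left (wW_ge hm) (abs_nonneg _)
  linarith

/-- The general Lipschitz bound. -/
theorem gen (hA1 : S_A1) (hB1 : S_B1) (P : Par) (hP : Good P) (h v h' v' : W) (D : ℝ)
    (nh : ‖h‖ ≤ 12 / 10 ^ 4) (nh' : ‖h'‖ ≤ 12 / 10 ^ 4) (nv' : ‖v'‖ ≤ 22 / 10 ^ 7)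
    (hh : ‖h - h'‖ ≤ 10 * D) (hv : ‖v - v'‖ ≤ D) (s : ℕ → ℝ) (B : ℝ)
    (hs : ∀ m ∈ I, |s m| ≤ B) :
    ‖∑ m ∈ I, (cf v (m : ℤ) * s m) • tau P h ^ m -
      ∑ m ∈ I, (cf v' (m : ℤ) * s m) • tau P h' ^ m‖ ≤ 10021 / 10 ^ 4 * B * D := by
  have hB : 0 ≤ B := (abs_nonneg _).trans (hs 2 (by decide))
  have hD : 0 ≤ D := (norm_nonneg _).trans hv
  have b1 := hB1 P hP h (nh.trans (by norm_num))
  have b2 := b1.2.2.2 h' (nh'.trans (by norm_num))
  have hT : ∀ m ∈ I, ‖tau P h ^ m‖ ≤ 1002 / 1000 * wW (m : ℤ) := by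
    intro m hm
    rw [Finset.mem_Icc] at hm
    exact (b1.1.2.2.2.2.2.2 m hm.1 hm.2).2
  have hTT : ∀ m ∈ I, ‖tau P h ^ m - tau P h' ^ m‖ ≤ 15 * D := by
    intro m hm
    rw [Finset.mem_Icc] at hm
    have := b2.2.2.2.2 m hm.1 hm.2
    linarith
  have e1 : ∑ m ∈ I, (cf v (m : ℤ) * s m) • tau P h ^ m -
      ∑ m ∈ I, (cf v' (m : ℤ) * s m) • tau P h' ^ m =
      ∑ m ∈ I, ((cf (v - v') (m : ℤ) * s m) • tau P h ^ m +
        (cf v' (m : ℤ) * s m) • (tau P h ^ m - tau P h' ^ m)) := by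
    rw [← Finset.sum_sub_distrib]
    refine Finset.sum_congr rfl fun m _ => ?_
    rw [(hA1 wW).2.1, sub_mul, sub_smul, smul_sub]
    abel
  rw [e1]
  have e2 : ∀ m ∈ I, ‖(cf (v - v') (m : ℤ) * s m) • tau P h ^ m +
        (cf v' (m : ℤ) * s m) • (tau P h ^ m - tau P h' ^ m)‖ ≤
      B * (1002 / 1000) * (|cf (v - v') (m : ℤ)| * wW (m : ℤ)) + B * (15 * D) *
        |cf v' (m : ℤ)| := by
    intro m hm
    refine (norm_add_le _ _).trans (add_le_add ?_ ?_)
    · rw [norm_smul, Real.norm_eq_abs, abs_mul]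
      calc |cf (v - v') (m : ℤ)| * |s m| * ‖tau P h ^ m‖
          ≤ |cf (v - v') (m : ℤ)| * B * (1002 / 1000 * wW (m : ℤ)) :=
            mul_le_mul (mul_le_mul_of_nonneg_left (hs m hm) (abs_nonneg _)) (hT m hm)
              (norm_nonneg _) (mul_nonneg (abs_nonneg _) hB)
        _ = _ := by ring
    · rw [norm_smul, Real.norm_eq_abs, abs_mul]
      calc |cf v' (m : ℤ)| * |s m| * ‖tau P h ^ m - tau P h' ^ m‖
          ≤ |cf v' (m : ℤ)| * B * (15 * D) :=
            mul_le_mul (mul_le_mul_of_nonneg_left (hs m hm) (abs_nonneg _)) (hTT m hm)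
              (norm_nonneg _) (mul_nonneg (abs_nonneg _) hB)
        _ = _ := by ring
  refine (norm_sum_le _ _).trans ((Finset.sum_le_sum e2).trans ?_)
  rw [Finset.sum_add_distrib, ← Finset.mul_sum, ← Finset.mul_sum]
  have s1 := (sum_le hA1 (v - v')).trans hv
  have s2 : ∑ m ∈ I, |cf v' (m : ℤ)| ≤ 17 / 10 ^ 7 := by
    have := sum_le' hA1 v'
    linarith
  have t1 : B * (1002 / 1000) * ∑ m ∈ I, |cf (v - v') (m : ℤ)| * wW (m : ℤ) ≤
      B * (1002 / 1000) * D := mul_le_mul_of_nonneg_left s1 (by positivity)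
  have t2 : B * (15 * D) * ∑ m ∈ I, |cf v' (m : ℤ)| ≤ B * (15 * D) * (17 / 10 ^ 7) :=
    mul_le_mul_of_nonneg_left s2 (by positivity)
  have t3 : 0 ≤ B * D := mul_nonneg hB hD
  linarith

/-- `md 0 + Pi5 v - v` -/
theorem md0 (hA1 : S_A1) (hA2 : S_A2) (P : Par) (hP : Good P) (h v : W)
    (hv : ∀ j < 2, cf v j = 0) :
    md P h v 0 + Pi5 v - v = ∑ m ∈ I, cf v (m : ℤ) • (tau P h ^ m - mon wW (m : ℤ)) := by
  have ha : ∀ m ∈ I, P.a m 0 ≠ 0 := by
    intro m hm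
    rcases mem_I hm with rfl | rfl | rfl
    · have := hP.a20; intro h0; rw [h0] at this; norm_num at this
    · have := hP.a30; intro h0; rw [h0] at this; norm_num at this
    · have := hP.a40'; intro h0; rw [h0] at this; norm_num at this
  have e1 : md P h v 0 = ∑ m ∈ I, cf v (m : ℤ) • tau P h ^ m := by
    unfold md
    refine Finset.sum_congr rfl fun m hm => ?_
    rw [div_mul_cancel₀ _ (ha m hm)]
  have e2 : v = ∑ m ∈ I, cf v (m : ℤ) • mon wW (m : ℤ) + Pi5 v := by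
    obtain ⟨a1, a2, a3, a4, a5, a6, a7, a8, a9, a10, -⟩ := hA1 wW
    refine a10 _ _ fun j => ?_
    rw [sum_I]
    rw [a1, a1, a1, a5, a5, a5, a6, a6, a6, (hA2.2.2.2.2.2.1).1 v j]
    by_cases h5 : 5 ≤ j
    · rw [if_pos h5, if_neg, if_neg, if_neg]
      · ring
      · push_cast; omega
      · push_cast; omega
      · push_cast; omega
    · rw [if_neg h5]
      by_cases h2 : j < 2
      · rw [hv j h2, if_neg, if_neg, if_neg]
        · ring
        · push_cast; omega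
        · push_cast; omega
        · push_cast; omega
      · have : j = 2 ∨ j = 3 ∨ j = 4 := by omega
        rcases this with rfl | rfl | rfl <;> norm_num
  rw [e1]
  have e3 : ∑ m ∈ I, cf v (m : ℤ) • (tau P h ^ m - mon wW (m : ℤ)) =
      ∑ m ∈ I, cf v (m : ℤ) • tau P h ^ m - ∑ m ∈ I, cf v (m : ℤ) • mon wW (m : ℤ) := by
    rw [← Finset.sum_sub_distrib]
    exact Finset.sum_congr rfl fun m _ => smul_sub _ _ _
  rw [e3]
  have e4 : ∑ m ∈ I, cf v (m : ℤ) • mon wW (m : ℤ) = v - Pi5 v := by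
    rw [eq_sub_iff_add_eq]
    exact e2.symm
  rw [e4]
  abel

theorem main (hA1 : S_A1) (hA2 : S_A2) (hAB : S_AB) (hB1 : S_B1) : S_M2 := by
  intro P hP h v h' v' D nh nh' hv hv' nv nv' hh hvv
  have hD : 0 ≤ D := (norm_nonneg _).trans hvv
  obtain ⟨-, ab2, ab3, ab4, -⟩ := hAB P hP
  have a20 := hP.a20
  have a30 := hP.a30
  have a40 := hP.a40'
  have p20 : 0 < P.a 2 0 := by linarith [show (0:ℝ) < 8109 / 10 ^ 5 by norm_num]
  have p30 : 0 < P.a 3 0 := by linarith [show (0:ℝ) < 1823 / 1000 by norm_num]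
  have p40 : P.a 4 0 < 0 := by linarith [show -(948:ℝ) / 1000 < 0 by norm_num]
  -- bounds of the quotients
  have hq : ∀ (i : ℕ) (c2 c3 c4 B : ℝ), |P.a 2 i| ≤ c2 → |P.a 3 i| ≤ c3 → |P.a 4 i| ≤ c4 →
      c2 ≤ B * (8109 / 10 ^ 5) → c3 ≤ B * (1823 / 1000) → c4 ≤ B * (948 / 1000) → 0 ≤ B →
      ∀ m ∈ I, |P.a m i / P.a m 0| ≤ B := by
    intro i c2 c3 c4 B h2 h3 h4 k2 k3 k4 hB m hm
    rw [abs_div]
    rcases mem_I hm with rfl | rfl | rfl
    · rw [abs_of_pos p20, div_le_iff₀ p20]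
      exact (h2.trans k2).trans (mul_le_mul_of_nonneg_left a20 hB)
    · rw [abs_of_pos p30, div_le_iff₀ p30]
      exact (h3.trans k3).trans (mul_le_mul_of_nonneg_left a30 hB)
    · rw [abs_of_neg p40, div_le_iff₀ (by linarith)]
      exact (h4.trans k4).trans (mul_le_mul_of_nonneg_left (by linarith) hB)
  have hq' : ∀ (i : ℕ) (B : ℝ), 0 ≤ B → (∀ m ∈ I, |P.a m i / P.a m 0| ≤ B) →
      ∀ m ∈ I, |P.a m i / (m * P.a m 0)| ≤ B / 2 := by
    intro i B hB hq m hm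
    have h1 := hq m hm
    have hm2 : (2 : ℝ) ≤ m := by
      rw [Finset.mem_Icc] at hm
      exact_mod_cast hm.1
    have e : P.a m i / (m * P.a m 0) = P.a m i / P.a m 0 / m := by
      rw [div_div, mul_comm]
    rw [e, abs_div, abs_of_pos (by linarith : (0:ℝ) < m), div_le_iff₀ (by linarith)]
    have : B / 2 * 2 ≤ B / 2 * m := mul_le_mul_of_nonneg_left hm2 (by linarith)
    linarith
  have hmd : ∀ (i : ℕ) (B : ℝ), (∀ m ∈ I, |P.a m i / P.a m 0| ≤ B) →
      ‖md P h v i - md P h' v' i‖ ≤ 10021 / 10 ^ 4 * B * D := by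
    intro i B hB
    have := gen hA1 hB1 P hP h v h' v' D nh nh' nv' hh hvv (fun m => P.a m i / P.a m 0) B hB
    have e : ∀ (h v : W), md P h v i =
        ∑ m ∈ I, (cf v (m : ℤ) * (P.a m i / P.a m 0)) • tau P h ^ m := by
      intro h v
      unfold md
      refine Finset.sum_congr rfl fun m _ => ?_
      congr 1
      ring
    rw [e, e]
    exact this
  have hms : ∀ (i : ℕ) (B : ℝ), (∀ m ∈ I, |P.a m i / (m * P.a m 0)| ≤ B) →
      ‖ms P h v i - ms P h' v' i‖ ≤ 10021 / 10 ^ 4 * B * D := by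
    intro i B hB
    have := gen hA1 hB1 P hP h v h' v' D nh nh' nv' hh hvv (fun m => P.a m i / (m * P.a m 0)) B hB
    have e : ∀ (h v : W), ms P h v i =
        ∑ m ∈ I, (cf v (m : ℤ) * (P.a m i / (m * P.a m 0))) • tau P h ^ m := by
      intro h v
      unfold ms
      refine Finset.sum_congr rfl fun m _ => ?_
      congr 1
      ring
    rw [e, e]
    exact this
  -- the general bound
  have hgen : ∀ i : ℕ, ∀ m ∈ I, |P.a m i / P.a m 0| ≤
      12333 / 1000 * ((3 / 2) ^ i * i.factorial) := by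
    intro i
    have hc : (0 : ℝ) ≤ (3 / 2) ^ i * i.factorial := by positivity
    exact hq i _ _ _ _ (ab2 i) (ab3 i) (ab4 i) (by nlinarith) (by nlinarith) (by nlinarith)
      (by positivity)
  have hone : ∀ m ∈ I, |P.a m 1 / P.a m 0| ≤ 12333 / 1000 := by
    refine hq 1 1 1 1 _ ?_ ?_ ?_ (by norm_num) (by norm_num) (by norm_num) (by norm_num)
    · rw [hP.a1 2 (by norm_num) (by norm_num)]; norm_num
    · rw [hP.a1 3 (by norm_num) (by norm_num)]; norm_num
    · rw [hP.a1 4 (by norm_num) (by norm_num)]; norm_num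
  refine ⟨fun i => ?_, fun i => ?_, ?_, ?_, ?_⟩
  · have h1 := hmd i _ (hgen i)
    have hc : (0 : ℝ) ≤ (3 / 2) ^ i * i.factorial := by positivity
    have hcD : 0 ≤ (3 / 2) ^ i * i.factorial * D := mul_nonneg hc hD
    refine h1.trans ?_
    nlinarith
  · have h1 := hms i _ (hq' i _ (by positivity) (hgen i))
    have hc : (0 : ℝ) ≤ (3 / 2) ^ i * i.factorial := by positivity
    have hcD : 0 ≤ (3 / 2) ^ i * i.factorial * D := mul_nonneg hc hD
    refine h1.trans ?_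
    nlinarith
  · rw [md0 hA1 hA2 P hP h v hv, md0 hA1 hA2 P hP h' v' hv']
    have b1 := hB1 P hP h (nh.trans (by norm_num))
    have b2 := b1.2.2.2 h' (nh'.trans (by norm_num))
    have hT : ∀ m ∈ I, ‖tau P h ^ m - mon wW (m : ℤ)‖ ≤ 18 / 10 ^ 4 := by
      intro m hm
      rw [Finset.mem_Icc] at hm
      have := (b1.1.2.2.2.2.2.2 m hm.1 hm.2).1
      linarith
    have hTT : ∀ m ∈ I, ‖tau P h ^ m - tau P h' ^ m‖ ≤ 15 * D := by
      intro m hm
      rw [Finset.mem_Icc] at hm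
      have := b2.2.2.2.2 m hm.1 hm.2
      linarith
    have e1 : ∑ m ∈ I, cf v (m : ℤ) • (tau P h ^ m - mon wW (m : ℤ)) -
        ∑ m ∈ I, cf v' (m : ℤ) • (tau P h' ^ m - mon wW (m : ℤ)) =
        ∑ m ∈ I, (cf (v - v') (m : ℤ) • (tau P h ^ m - mon wW (m : ℤ)) +
          cf v' (m : ℤ) • (tau P h ^ m - tau P h' ^ m)) := by
      rw [← Finset.sum_sub_distrib]
      refine Finset.sum_congr rfl fun m _ => ?_
      rw [(hA1 wW).2.1, sub_smul]
      simp only [smul_sub]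
      abel
    rw [e1]
    have e2 : ∀ m ∈ I, ‖cf (v - v') (m : ℤ) • (tau P h ^ m - mon wW (m : ℤ)) +
          cf v' (m : ℤ) • (tau P h ^ m - tau P h' ^ m)‖ ≤
        18 / 10 ^ 4 * |cf (v - v') (m : ℤ)| + 15 * D * |cf v' (m : ℤ)| := by
      intro m hm
      refine (norm_add_le _ _).trans (add_le_add ?_ ?_)
      · rw [norm_smul, Real.norm_eq_abs, mul_comm]
        exact mul_le_mul_of_nonneg_right (hT m hm) (abs_nonneg _)
      · rw [norm_smul, Real.norm_eq_abs, mul_comm]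
        exact mul_le_mul_of_nonneg_right (hTT m hm) (abs_nonneg _)
    refine (norm_sum_le _ _).trans ((Finset.sum_le_sum e2).trans ?_)
    rw [Finset.sum_add_distrib, ← Finset.mul_sum, ← Finset.mul_sum]
    have s1 : ∑ m ∈ I, |cf (v - v') (m : ℤ)| ≤ 10 / 13 * D :=
      (sum_le' hA1 (v - v')).trans (by linarith)
    have s2 : ∑ m ∈ I, |cf v' (m : ℤ)| ≤ 17 / 10 ^ 7 := by
      have := sum_le' hA1 v'
      linarith
    have t2 : 15 * D * ∑ m ∈ I, |cf v' (m : ℤ)| ≤ 15 * D * (17 / 10 ^ 7) :=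
      mul_le_mul_of_nonneg_left s2 (by positivity)
    linarith
  · have h1 := hmd 1 _ hone
    refine h1.trans ?_
    nlinarith
  · have h1 := hms 1 _ (hq' 1 _ (by norm_num) hone)
    refine h1.trans ?_
    nlinarith

end Pool.Agent.H957.CX.PM2
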