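import Pool.Agent.H957.CX.Stm

/-!
Project CX (helper957), problem MP_83fd13_an: part NUM, existence of the parameters.
(After the library file `N229/SC/NUM.lean`.)
-/

set_option autoImplicit false

open Set Filter Topology MeasureTheory

namespace Pool.Agent.H957.CX.PNUM

open Pool.Agent.N229.SC (Al Wt cf mon lft norm_mon lft_mon norm_lft_le lft_hasSum ext_mon mul_def
  one_def mon_mul_mon S_A1 ev evh Conf Nd Str Om SS UU PP eF Fb)

/-- the radius -/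
private noncomputable def nr : ℝ := 2 ^ 129 / (NN : ℝ)

private theorem NN_val : (NN : ℝ) = 79286479667852473810299853436585926 := by
  unfold NN
  norm_num

private theorem nr_facts : (85836 / 10 : ℝ) ≤ nr ∧ nr ≤ 85837 / 10 ∧ (NN : ℝ) = 2 ^ 129 / nr := by
  unfold nr
  rw [NN_val]
  norm_num

/-- the comparison of the Bessel functions with the computed sequences -/
private theorem cmp (ρ : ℝ) (h1 : 85836 / 10 ≤ ρ) (h2 : ρ ≤ 85837 / 10)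
    (h3 : (NN : ℝ) = 2 ^ 129 / ρ)
    (hN2 : S_N2) (F : ℕ → ℝ) (hF : ∀ m : ℕ, F m = 2 * (m + 1) / ρ * F (m + 1) - F (m + 2))
    (r : ℝ) (hr0 : 0 ≤ r) (hr1 : r ≤ 1) (hM : F 8760 = 2 ^ 700)
    (hM1 : F 8761 = r * 2 ^ 700) (x z : ℕ → ℤ)
    (x0 : x 8760 = 2 ^ 700) (x1 : x 8761 = 0)
    (xr : ∀ m < 8760, |2 ^ 128 * x m - ((m + 1) * NN * x (m + 1) - 2 ^ 128 * x (m + 2))| ≤ 2 ^ 128)
    (z0 : z 8760 = 2 ^ 700) (z1 : z 8761 = 2 ^ 700)
    (zr : ∀ m < 8760, |2 ^ 128 * z m - ((m + 1) * NN * z (m + 1) - 2 ^ 128 * z (m + 2))| ≤ 2 ^ 128) :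
    ∀ m ≤ 8760, |F m - ((1 - r) * x m + r * z m)| ≤ 2 ^ 388 := by
  have hρ : 0 < ρ := by linarith
  have key : ∀ (y : ℕ → ℤ) (m : ℕ),
      |2 ^ 128 * y m - ((m + 1) * NN * y (m + 1) - 2 ^ 128 * y (m + 2))| ≤ 2 ^ 128 →
      |(y m : ℝ) - (2 * (m + 1) / ρ * y (m + 1) - y (m + 2))| ≤ 1 := by
    intro y m h
    have h4 : |(2 : ℝ) ^ 128 * y m - ((m + 1) * NN * y (m + 1) - 2 ^ 128 * y (m + 2))| ≤ 2 ^ 128 := by
      exact_mod_cast h
    rw [h3] at h4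
    have h5 : (2 : ℝ) ^ 128 * y m - ((m + 1) * (2 ^ 129 / ρ) * y (m + 1) - 2 ^ 128 * y (m + 2)) =
        2 ^ 128 * ((y m : ℝ) - (2 * (m + 1) / ρ * y (m + 1) - y (m + 2))) := by
      field_simp
    rw [h5, abs_mul, abs_of_pos (by positivity : (0 : ℝ) < 2 ^ 128)] at h4
    have h6 : (2 : ℝ) ^ 128 * |(y m : ℝ) - (2 * (m + 1) / ρ * y (m + 1) - y (m + 2))| ≤
        2 ^ 128 * 1 := by rw [mul_one]; exact h4
    exact le_of_mul_le_mul_left h6 (by positivity)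
  have h7 := hN2 ρ 8760 180 (fun m => F m - ((1 - r) * x m + r * z m)) (by linarith)
    (by push_cast; linarith) (by push_cast; linarith) (by push_cast; linarith)
    (by
      simp only [hM, x0, z0]
      push_cast
      ring)
    (by
      have e : (8760 + 1 : ℕ) = 8761 := rfl
      simp only [e, hM1, x1, z1]
      push_cast
      ring)
    (by
      intro m hm
      have hx := abs_le.1 (key x m (xr m hm))
      have hz := abs_le.1 (key z m (zr m hm))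
      have hFm := hF m
      set A := 2 * ((m : ℝ) + 1) / ρ with hA
      have e : F m - ((1 - r) * x m + r * z m) -
          (A * (F (m + 1) - ((1 - r) * x (m + 1) + r * z (m + 1))) -
            (F (m + 2) - ((1 - r) * x (m + 2) + r * z (m + 2)))) =
          -((1 - r) * ((x m : ℝ) - (A * x (m + 1) - x (m + 2))) +
            r * ((z m : ℝ) - (A * z (m + 1) - z (m + 2)))) := by
        rw [hFm]
        ring
      rw [e, abs_neg, abs_le]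
      constructor <;> nlinarith)
  intro m hm
  refine (h7 m hm).trans ?_
  have h8 : ρ ^ 2 ≤ (2 ^ 14) ^ 2 := by
    have : ρ ≤ 2 ^ 14 := by norm_num; linarith
    gcongr
  calc ρ ^ 2 * 4 ^ 180 ≤ (2 ^ 14) ^ 2 * 4 ^ 180 := by gcongr
    _ = 2 ^ 388 := by
      rw [show (4 : ℝ) = 2 ^ 2 by norm_num, ← pow_mul, ← pow_mul, ← pow_add]

/-- the big numbers -/
private theorem big : (10 : ℝ) ^ 16 * 2 ^ 388 ≤ 2 ^ 700 := by
  have : (10 : ℝ) ^ 16 ≤ 2 ^ 312 := by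
    have h1 : (10 : ℝ) ^ 16 ≤ 2 ^ 54 := by norm_num
    have h2 : (2 : ℝ) ^ 54 ≤ 2 ^ 312 := pow_le_pow_right₀ (by norm_num) (by norm_num)
    exact h1.trans h2
  calc (10 : ℝ) ^ 16 * 2 ^ 388 ≤ 2 ^ 312 * 2 ^ 388 := by gcongr
    _ = 2 ^ 700 := by rw [← pow_add]

/-- the inequalities for the computed sequences -/
private structure Q (K y1 y2 a1 b1 a2 b2 a3 b3 a4 b4 : ℝ) : Prop where
  p1 : K ≤ -y2
  p2 : |y1| * 10 ^ 20 ≤ -y2
  p3 : K ≤ b1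
  p4 : 33792 * b1 ≤ 10 ^ 11 * (-a1)
  p5 : 10 ^ 11 * (-a1) ≤ 33793 * b1
  p6 : K ≤ b2
  p7 : 81098 * b2 ≤ 10 ^ 6 * (-a2)
  p8 : 10 ^ 6 * (-a2) ≤ 81099 * b2
  p9 : K ≤ b3
  p10 : 18235 * b3 ≤ 10 ^ 4 * (-a3)
  p11 : 10 ^ 4 * (-a3) ≤ 18236 * b3
  p12 : K ≤ b4
  p13 : 94805 * b4 ≤ 10 ^ 5 * a4
  p14 : 10 ^ 5 * a4 ≤ 94806 * b4

private theorem Q_comb {K y1 y2 a1 b1 a2 b2 a3 b3 a4 b4 y1' y2' a1' b1' a2' b2' a3' b3' a4' b4' : ℝ}
    (h : Q K y1 y2 a1 b1 a2 b2 a3 b3 a4 b4)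
    (h' : Q K y1' y2' a1' b1' a2' b2' a3' b3' a4' b4') (s t : ℝ) (hs : 0 ≤ s) (ht : 0 ≤ t)
    (hst : s + t = 1) :
    Q K (s * y1 + t * y1') (s * y2 + t * y2') (s * a1 + t * a1') (s * b1 + t * b1')
      (s * a2 + t * a2') (s * b2 + t * b2') (s * a3 + t * a3') (s * b3 + t * b3')
      (s * a4 + t * a4') (s * b4 + t * b4') := by
  have hK : K = s * K + t * K := by
    rw [← add_mul, hst, one_mul]
  have gen : ∀ {p q p' q' : ℝ}, p ≤ q → p' ≤ q' → s * p + t * p' ≤ s * q + t * q' := by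
    intro p q p' q' h1 h2
    exact add_le_add (mul_le_mul_of_nonneg_left h1 hs) (mul_le_mul_of_nonneg_left h2 ht)
  have habs : |s * y1 + t * y1'| ≤ s * |y1| + t * |y1'| := by
    calc |s * y1 + t * y1'| ≤ |s * y1| + |t * y1'| := abs_add_le _ _
      _ = s * |y1| + t * |y1'| := by
        rw [abs_mul, abs_mul, abs_of_nonneg hs, abs_of_nonneg ht]
  refine ⟨?_, ?_, ?_, ?_, ?_, ?_, ?_, ?_, ?_, ?_, ?_, ?_, ?_, ?_⟩
  · have := gen h.p1 h'.p1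
    linarith
  · have h1 := gen h.p2 h'.p2
    have h2 := mul_le_mul_of_nonneg_right habs (by positivity : (0 : ℝ) ≤ 10 ^ 20)
    linarith
  · have := gen h.p3 h'.p3
    linarith
  · have := gen h.p4 h'.p4
    linarith
  · have := gen h.p5 h'.p5
    linarith
  · have := gen h.p6 h'.p6
    linarith
  · have := gen h.p7 h'.p7
    linarith
  · have := gen h.p8 h'.p8
    linarith
  · have := gen h.p9 h'.p9
    linarith
  · have := gen h.p10 h'.p10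
    linarith
  · have := gen h.p11 h'.p11
    linarith
  · have := gen h.p12 h'.p12
    linarith
  · have := gen h.p13 h'.p13
    linarith
  · have := gen h.p14 h'.p14
    linarith

private theorem fin1 (D B y1 y2 w1 w2 : ℝ) (hB : 10 ^ 16 * D ≤ B)
    (hB0 : 0 < B) (h1 : |w1 - y1| ≤ D) (h2 : |w2 - y2| ≤ D)
    (a1 : B ≤ -y2) (a2 : |y1| * 10 ^ 20 ≤ -y2) :
    w2 < 0 ∧ |w1| * 10 ^ 15 ≤ -w2 := by
  have hy : |w1| ≤ |y1| + D := by
    have := abs_sub_abs_le_abs_sub w1 y1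
    linarith
  rw [abs_le] at h2
  obtain ⟨h21, h22⟩ := h2
  norm_num at hB a2 ⊢
  refine ⟨by linarith, by linarith⟩

private theorem fin2 (D B a b wa wb : ℝ) (hB : 10 ^ 16 * D ≤ B)
    (hB0 : 0 < B) (h1 : |wa - a| ≤ D) (h2 : |wb - b| ≤ D) (h3 : B ≤ b)
    (h4 : 33792 * b ≤ 10 ^ 11 * (-a)) (h5 : 10 ^ 11 * (-a) ≤ 33793 * b) :
    0 < wb ∧ 3379 * wb ≤ 10 ^ 10 * (-wa) ∧ 10 ^ 10 * (-wa) ≤ 3380 * wb := by
  rw [abs_le] at h1 h2
  obtain ⟨h11, h12⟩ := h1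
  obtain ⟨h21, h22⟩ := h2
  norm_num at hB h4 h5 ⊢
  refine ⟨by linarith, by linarith, by linarith⟩

private theorem fin3 (D B a b wa wb : ℝ) (hB : 10 ^ 16 * D ≤ B)
    (hB0 : 0 < B) (h1 : |wa - a| ≤ D) (h2 : |wb - b| ≤ D) (h3 : B ≤ b)
    (h4 : 81098 * b ≤ 10 ^ 6 * (-a)) (h5 : 10 ^ 6 * (-a) ≤ 81099 * b) :
    0 < wb ∧ 8109 * wb ≤ 10 ^ 5 * (-wa) ∧ 10 ^ 5 * (-wa) ≤ 8110 * wb := by
  rw [abs_le] at h1 h2
  obtain ⟨h11, h12⟩ := h1
  obtain ⟨h21, h22⟩ := h2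
  norm_num at hB h4 h5 ⊢
  refine ⟨by linarith, by linarith, by linarith⟩

private theorem fin4 (D B a b wa wb : ℝ) (hB : 10 ^ 16 * D ≤ B)
    (hB0 : 0 < B) (h1 : |wa - a| ≤ D) (h2 : |wb - b| ≤ D) (h3 : B ≤ b)
    (h4 : 18235 * b ≤ 10 ^ 4 * (-a)) (h5 : 10 ^ 4 * (-a) ≤ 18236 * b) :
    0 < wb ∧ 1823 * wb ≤ 1000 * (-wa) ∧ 1000 * (-wa) ≤ 1824 * wb := by
  rw [abs_le] at h1 h2
  obtain ⟨h11, h12⟩ := h1
  obtain ⟨h21, h22⟩ := h2
  norm_num at hB h4 h5 ⊢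
  refine ⟨by linarith, by linarith, by linarith⟩

private theorem fin5 (D B a b wa wb : ℝ) (hB : 10 ^ 16 * D ≤ B)
    (hB0 : 0 < B) (h1 : |wa - a| ≤ D) (h2 : |wb - b| ≤ D) (h3 : B ≤ b)
    (h4 : 94805 * b ≤ 10 ^ 5 * a) (h5 : 10 ^ 5 * a ≤ 94806 * b) :
    0 < wb ∧ 948 * wb ≤ 1000 * wa ∧ 1000 * wa ≤ 949 * wb := by
  rw [abs_le] at h1 h2
  obtain ⟨h11, h12⟩ := h1
  obtain ⟨h21, h22⟩ := h2
  norm_num at hB h4 h5 ⊢
  refine ⟨by linarith, by linarith, by linarith⟩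

private theorem castQ (y : ℕ → ℤ) (ha : 2 ^ 700 ≤ -y 2) (hb : |y 1| * 10 ^ 20 ≤ -y 2)
    (hc : 2 ^ 700 ≤ y 1898 ∧ 33792 * y 1898 ≤ 10 ^ 11 * (-y 1897) ∧
      10 ^ 11 * (-y 1897) ≤ 33793 * y 1898)
    (hd : 2 ^ 700 ≤ y 3795 ∧ 81098 * y 3795 ≤ 10 ^ 6 * (-y 3794) ∧
      10 ^ 6 * (-y 3794) ≤ 81099 * y 3795)
    (he : 2 ^ 700 ≤ y 5692 ∧ 18235 * y 5692 ≤ 10 ^ 4 * (-y 5691) ∧
      10 ^ 4 * (-y 5691) ≤ 18236 * y 5692)
    (hf : 2 ^ 700 ≤ y 7589 ∧ 94805 * y 7589 ≤ 10 ^ 5 * y 7588 ∧ 10 ^ 5 * y 7588 ≤ 94806 * y 7589) :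
    Q (2 ^ 700) (y 1) (y 2) (y 1897) (y 1898) (y 3794) (y 3795) (y 5691) (y 5692) (y 7588)
      (y 7589) := by
  obtain ⟨hc1, hc2, hc3⟩ := hc
  obtain ⟨hd1, hd2, hd3⟩ := hd
  obtain ⟨he1, he2, he3⟩ := he
  obtain ⟨hf1, hf2, hf3⟩ := hf
  exact ⟨by exact_mod_cast ha, by exact_mod_cast hb, by exact_mod_cast hc1, by exact_mod_cast hc2,
    by exact_mod_cast hc3, by exact_mod_cast hd1, by exact_mod_cast hd2, by exact_mod_cast hd3,
    by exact_mod_cast he1, by exact_mod_cast he2, by exact_mod_cast he3, by exact_mod_cast hf1,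
    by exact_mod_cast hf2, by exact_mod_cast hf3⟩

theorem main (hN1 : Pool.Agent.N229.SC.S_N1) (hN2 : S_N2) (hN3 : S_N3) : S_NUM := by
  obtain ⟨hr1, hr2, hr3⟩ := nr_facts
  have hρ : 0 < nr := by linarith
  obtain ⟨hrec, ⟨C, hC⟩, hpos⟩ := hN1 nr hρ
  obtain ⟨hM0, hM1⟩ := hpos 8760 (by push_cast; linarith)
  obtain ⟨hM2, -⟩ := hpos 8761 (by push_cast; linarith)
  obtain ⟨x, x0, x1, xr, xa, xb, xc, xd, xe, xf⟩ := hN3 0 (Or.inl rfl)
  obtain ⟨z, z0, z1, zr, za, zb, zc, zd, ze, zf⟩ := hN3 1 (Or.inr rfl)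
  have e1 : (8760 + 1 : ℕ) = 8761 := rfl
  rw [e1] at hM1
  -- the constant
  have hK : (0 : ℝ) < 2 ^ 700 := pow_pos (by norm_num) _
  have hx := castQ x xa xb xc xd xe xf
  have hz := castQ z za zb zc zd ze zf
  have hbig0 := big
  obtain ⟨D, hDd⟩ : ∃ D : ℝ, D = 2 ^ 388 := ⟨_, rfl⟩
  rw [← hDd] at hbig0
  obtain ⟨K, hKd⟩ : ∃ K : ℝ, K = 2 ^ 700 := ⟨_, rfl⟩
  have hKc : ((2 : ℝ) ^ 700) = K := hKd.symm
  rw [hKc] at hK hx hz hbig0
  set r : ℝ := Fb nr 8761 / Fb nr 8760 with hr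
  have hr0 : 0 ≤ r := div_nonneg hM2.le hM0.le
  have hr1' : r ≤ 1 := (div_le_one hM0).2 hM1
  set F : ℕ → ℝ := fun m => K / Fb nr 8760 * Fb nr m with hF
  have hcoef : 0 < K / Fb nr 8760 := div_pos hK hM0
  have hFM : F 8760 = 2 ^ 700 := by
    rw [hKc]
    simp only [hF]
    field_simp
  have hFM1 : F 8761 = r * 2 ^ 700 := by
    rw [hKc]
    simp only [hF, hr]
    field_simp
  have hFr : ∀ m : ℕ, F m = 2 * (m + 1) / nr * F (m + 1) - F (m + 2) := by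
    intro m
    simp only [hF]
    rw [hrec m]
    ring
  have hc := cmp nr hr1 hr2 hr3 hN2 F hFr r hr0 hr1' hFM hFM1 x z x0 (by rw [x1, zero_mul]) xr z0
    (by rw [z1, one_mul]) zr
  rw [← hDd] at hc
  have hs0 : 0 ≤ 1 - r := by linarith
  have hQ := Q_comb hx hz (1 - r) r hs0 hr0 (by ring)
  obtain ⟨f1, f2⟩ := fin1 D K _ _ (F 1) (F 2) hbig0 hK (hc 1 (by norm_num)) (hc 2 (by norm_num))
    hQ.p1 hQ.p2
  obtain ⟨f3, f4, f5⟩ := fin2 D K _ _ (F 1897) (F 1898) hbig0 hK (hc 1897 (by norm_num))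
    (hc 1898 (by norm_num)) hQ.p3 hQ.p4 hQ.p5
  obtain ⟨f6, f7, f8⟩ := fin3 D K _ _ (F 3794) (F 3795) hbig0 hK (hc 3794 (by norm_num))
    (hc 3795 (by norm_num)) hQ.p6 hQ.p7 hQ.p8
  obtain ⟨f9, f10, f11⟩ := fin4 D K _ _ (F 5691) (F 5692) hbig0 hK (hc 5691 (by norm_num))
    (hc 5692 (by norm_num)) hQ.p9 hQ.p10 hQ.p11
  obtain ⟨f12, f13, f14⟩ := fin5 D K _ _ (F 7588) (F 7589) hbig0 hK (hc 7588 (by norm_num))
    (hc 7589 (by norm_num)) hQ.p12 hQ.p13 hQ.p14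
  -- back to the Bessel functions
  have hFb : ∀ m, F m = K / Fb nr 8760 * Fb nr m := fun m => rfl
  set κ : ℝ := K / Fb nr 8760 with hκ
  simp only [hFb] at f1 f2 f3 f4 f5 f6 f7 f8 f9 f10 f11 f12 f13 f14
  have dv : ∀ {p q : ℝ}, κ * p ≤ κ * q → p ≤ q := fun h => le_of_mul_le_mul_left h hcoef
  have g1 : Fb nr 2 < 0 := by
    by_contra h
    have := mul_nonneg hcoef.le (not_lt.1 h)
    linarith
  have g2 : |Fb nr 1| * 10 ^ 15 ≤ -Fb nr 2 := by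
    rw [abs_mul, abs_of_pos hcoef] at f2
    exact dv (by linarith)
  have g3 : 0 < Fb nr 1898 := (mul_pos_iff_of_pos_left hcoef).1 f3
  have g4 : 3379 * Fb nr 1898 ≤ 10 ^ 10 * (-Fb nr 1897) := dv (by linarith)
  have g5 : 10 ^ 10 * (-Fb nr 1897) ≤ 3380 * Fb nr 1898 := dv (by linarith)
  have g6 : 0 < Fb nr 3795 := (mul_pos_iff_of_pos_left hcoef).1 f6
  have g7 : 8109 * Fb nr 3795 ≤ 10 ^ 5 * (-Fb nr 3794) := dv (by linarith)
  have g8 : 10 ^ 5 * (-Fb nr 3794) ≤ 8110 * Fb nr 3795 := dv (by linarith)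
  have g9 : 0 < Fb nr 5692 := (mul_pos_iff_of_pos_left hcoef).1 f9
  have g10 : 1823 * Fb nr 5692 ≤ 1000 * (-Fb nr 5691) := dv (by linarith)
  have g11 : 1000 * (-Fb nr 5691) ≤ 1824 * Fb nr 5692 := dv (by linarith)
  have g12 : 0 < Fb nr 7589 := (mul_pos_iff_of_pos_left hcoef).1 f12
  have g13 : 948 * Fb nr 7589 ≤ 1000 * Fb nr 7588 := dv (by linarith)
  have g14 : 1000 * Fb nr 7588 ≤ 949 * Fb nr 7589 := dv (by linarith)
  have hC0 : 0 ≤ C := (abs_nonneg _).trans (hC 0)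
  have hmpos : ∀ m : ℕ, 1 ≤ m → m ≤ 4 → 0 < Fb nr (1897 * m + 1) := by
    intro m h1 h2
    interval_cases m
    · have e : 1897 * 1 + 1 = 1898 := by norm_num
      rw [e]
      exact g3
    · have e : 1897 * 2 + 1 = 3795 := by norm_num
      rw [e]
      exact g6
    · have e : 1897 * 3 + 1 = 5692 := by norm_num
      rw [e]
      exact g9
    · have e : 1897 * 4 + 1 = 7589 := by norm_num
      rw [e]
      exact g12
  refine ⟨⟨nr, 1897, fun m i => -Fb nr (1897 * m + i) / Fb nr (1897 * m + 1),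
    fun i => -Fb nr (1 + i) / Fb nr 2⟩,
    ⟨?_, ?_, ?_, ?_, ?_, ?_, ?_, ?_, ?_, ?_, ?_, ?_, ?_, ?_, ?_, ?_, ?_⟩, ?_⟩
  · show (8583 : ℝ) ≤ nr
    linarith
  · show nr ≤ (8584 : ℝ)
    linarith
  · show (221 / 1000 : ℝ) ≤ ((1897 : ℕ) : ℝ) / nr
    rw [le_div_iff₀ hρ]
    push_cast
    linarith
  · show ((1897 : ℕ) : ℝ) / nr ≤ 22101 / 100000
    rw [div_le_iff₀ hρ]
    push_cast
    linarith
  · intro m h1 h2
    show -Fb nr (1897 * m + 1) / Fb nr (1897 * m + 1) = -1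
    rw [neg_div, div_self (hmpos m h1 h2).ne']
  · show -Fb nr 2 / Fb nr 2 = -1
    rw [neg_div, div_self g1.ne]
  · show 3379 / 10 ^ 10 ≤ -Fb nr 1897 / Fb nr 1898
    rw [div_le_div_iff₀ (by positivity) g3]
    linarith
  · show -Fb nr 1897 / Fb nr 1898 ≤ 3380 / 10 ^ 10
    rw [div_le_div_iff₀ g3 (by positivity)]
    linarith
  · show 8109 / 10 ^ 5 ≤ -Fb nr 3794 / Fb nr 3795
    rw [div_le_div_iff₀ (by positivity) g6]
    linarith
  · show -Fb nr 3794 / Fb nr 3795 ≤ 8110 / 10 ^ 5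
    rw [div_le_div_iff₀ g6 (by positivity)]
    linarith
  · show 1823 / 1000 ≤ -Fb nr 5691 / Fb nr 5692
    rw [div_le_div_iff₀ (by positivity) g9]
    linarith
  · show -Fb nr 5691 / Fb nr 5692 ≤ 1824 / 1000
    rw [div_le_div_iff₀ g9 (by positivity)]
    linarith
  · show -949 / 1000 ≤ -Fb nr 7588 / Fb nr 7589
    rw [div_le_div_iff₀ (by positivity) g12]
    linarith
  · show -Fb nr 7588 / Fb nr 7589 ≤ -948 / 1000
    rw [div_le_div_iff₀ g12 (by positivity)]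
    linarith
  · show |-Fb nr 1 / Fb nr 2| ≤ 1 / 10 ^ 15
    rw [abs_div, abs_neg, abs_of_neg g1, div_le_div_iff₀ (by linarith) (by positivity)]
    linarith
  · intro m h1 h2 i
    show -Fb nr (1897 * m + (i + 2)) / Fb nr (1897 * m + 1) =
      2 * ((m : ℝ) * ((1897 : ℕ) : ℝ) + i + 1) / nr *
      (-Fb nr (1897 * m + (i + 1)) / Fb nr (1897 * m + 1)) -
        -Fb nr (1897 * m + i) / Fb nr (1897 * m + 1)
    have h := hrec (1897 * m + i)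
    have e2 : 1897 * m + i + 1 = 1897 * m + (i + 1) := by ring
    have e3 : 1897 * m + i + 2 = 1897 * m + (i + 2) := by ring
    rw [e2, e3] at h
    rw [h]
    push_cast
    ring
  · intro i
    show -Fb nr (1 + (i + 2)) / Fb nr 2 = 2 * ((i : ℝ) + 2) / nr *
      (-Fb nr (1 + (i + 1)) / Fb nr 2) - -Fb nr (1 + i) / Fb nr 2
    have h := hrec (1 + i)
    have e2 : 1 + i + 1 = 1 + (i + 1) := by ring
    have e3 : 1 + i + 2 = 1 + (i + 2) := by ring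
    rw [e2, e3] at h
    rw [h]
    push_cast
    ring
  · have t1 : 0 ≤ C / Fb nr 1898 := div_nonneg hC0 g3.le
    have t2 : 0 ≤ C / Fb nr 3795 := div_nonneg hC0 g6.le
    have t3 : 0 ≤ C / Fb nr 5692 := div_nonneg hC0 g9.le
    have t4 : 0 ≤ C / Fb nr 7589 := div_nonneg hC0 g12.le
    have g1' : 0 < -Fb nr 2 := by linarith
    have t5 : 0 ≤ C / (-Fb nr 2) := div_nonneg hC0 g1'.le
    have hb : ∀ m : ℕ, 1 ≤ m → m ≤ 4 → ∀ i : ℕ,
        |-Fb nr (1897 * m + i) / Fb nr (1897 * m + 1)| ≤ C / Fb nr (1897 * m + 1) := by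
      intro m h1 h2 i
      have hp := hmpos m h1 h2
      rw [abs_div, abs_neg, abs_of_pos hp]
      gcongr
      exact hC _
    refine ⟨C / Fb nr 1898 + C / Fb nr 3795 + C / Fb nr 5692 + C / Fb nr 7589 + C / (-Fb nr 2),
      ?_, ?_⟩
    · intro m h1 h2 i
      show |-Fb nr (1897 * m + i) / Fb nr (1897 * m + 1)| ≤ _
      refine (hb m h1 h2 i).trans ?_
      interval_cases m
      · show C / Fb nr 1898 ≤ _
        linarith
      · show C / Fb nr 3795 ≤ _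
        linarith
      · show C / Fb nr 5692 ≤ _
        linarith
      · show C / Fb nr 7589 ≤ _
        linarith
    · intro i
      show |-Fb nr (1 + i) / Fb nr 2| ≤ _
      rw [abs_div, abs_neg, abs_of_neg g1]
      have t6 : |Fb nr (1 + i)| / (-Fb nr 2) ≤ C / (-Fb nr 2) := by
        gcongr
        exact hC _
      linarith

end Pool.Agent.H957.CX.PNUM
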