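import Pool.Agent.H957.CX.Stm

/-!
Project CX (helper957), MP_83fd13_an: proof of `S_POL` (Polyak's convexity principle for a
holomorphic map close to the identity).
-/

set_option autoImplicit false

open Set Filter Topology MeasureTheory

namespace Pool.Agent.H957.CX.PPOL

open Metric

/-- Taylor's estimate of order two on a convex set. -/
theorem taylor2 {f : ℂ → ℂ} {r M : ℝ} {K : Set ℂ} (hK : Convex ℝ K) (hKr : K ⊆ ball 0 r)
    (hf : DifferentiableOn ℂ f (ball 0 r)) (hM : ∀ z ∈ K, ‖deriv (deriv f) z‖ ≤ M)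
    {m c : ℂ} (hm : m ∈ K) (hc : c ∈ K) :
    ‖f c - f m - deriv f m * (c - m)‖ ≤ M / 2 * ‖c - m‖ ^ 2 := by
  have hd1 : ∀ z ∈ K, DifferentiableAt ℂ f z := fun z hz =>
    hf.differentiableAt (isOpen_ball.mem_nhds (hKr hz))
  have hd2 : ∀ z ∈ K, DifferentiableAt ℂ (deriv f) z := fun z hz =>
    (hf.deriv isOpen_ball).differentiableAt (isOpen_ball.mem_nhds (hKr hz))
  have hγ : ∀ x ∈ Icc (0 : ℝ) 1, m + (x : ℂ) * (c - m) ∈ K := by
    intro x hx
    have := hK.add_smul_sub_mem hm hc hx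
    rwa [Complex.real_smul] at this
  have hder : ∀ x ∈ Icc (0 : ℝ) 1, HasDerivAt
      (fun x : ℝ => f (m + (x : ℂ) * (c - m)) - f m - deriv f m * ((x : ℂ) * (c - m)))
      ((deriv f (m + (x : ℂ) * (c - m)) - deriv f m) * (c - m)) x := by
    intro x hx
    have h0 : HasDerivAt (fun x : ℝ => (x : ℂ)) 1 x := Complex.ofRealCLM.hasDerivAt
    have h1 : HasDerivAt (fun x : ℝ => (x : ℂ) * (c - m)) (c - m) x := by
      simpa using h0.mul_const (c - m)
    have h2 : HasDerivAt (fun x : ℝ => m + (x : ℂ) * (c - m)) (c - m) x := by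
      simpa using h1.const_add m
    have h3 : HasDerivAt (fun x : ℝ => f (m + (x : ℂ) * (c - m)))
        (deriv f (m + (x : ℂ) * (c - m)) * (c - m)) x :=
      HasDerivAt.comp_of_eq (h₂ := f) x (hd1 _ (hγ x hx)).hasDerivAt h2 rfl
    have h4 := (h3.sub_const (f m)).sub (h1.const_mul (deriv f m))
    rw [← sub_mul] at h4
    exact h4
  have hB : ∀ x : ℝ, HasDerivAt (fun x : ℝ => M / 2 * ‖c - m‖ ^ 2 * x ^ 2)
      (M * ‖c - m‖ ^ 2 * x) x := by
    intro x
    have := (hasDerivAt_pow 2 x).const_mul (M / 2 * ‖c - m‖ ^ 2)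
    have e : M / 2 * ‖c - m‖ ^ 2 * (((2 : ℕ) : ℝ) * x ^ (2 - 1)) = M * ‖c - m‖ ^ 2 * x := by
      push_cast
      simp only [pow_one]
      ring
    rw [e] at this
    exact this
  have key := image_norm_le_of_norm_deriv_right_le_deriv_boundary
    (f := fun x : ℝ => f (m + (x : ℂ) * (c - m)) - f m - deriv f m * ((x : ℂ) * (c - m)))
    (f' := fun x : ℝ => (deriv f (m + (x : ℂ) * (c - m)) - deriv f m) * (c - m))
    (a := 0) (b := 1)
    (fun x hx => (hder x hx).continuousAt.continuousWithinAt)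
    (fun x hx => (hder x ⟨hx.1, hx.2.le⟩).hasDerivWithinAt)
    (B := fun x : ℝ => M / 2 * ‖c - m‖ ^ 2 * x ^ 2)
    (B' := fun x : ℝ => M * ‖c - m‖ ^ 2 * x)
    (by simp) hB
    (by
      intro x hx
      have h1 := hK.norm_image_sub_le_of_norm_deriv_le hd2 hM hm (hγ x ⟨hx.1, hx.2.le⟩)
      have h2 : ‖m + (x : ℂ) * (c - m) - m‖ = x * ‖c - m‖ := by
        rw [add_sub_cancel_left, norm_mul, Complex.norm_real, Real.norm_eq_abs,
          abs_of_nonneg hx.1]
      rw [h2] at h1
      rw [norm_mul]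
      calc ‖deriv f (m + (x : ℂ) * (c - m)) - deriv f m‖ * ‖c - m‖
          ≤ (M * (x * ‖c - m‖)) * ‖c - m‖ := by gcongr
        _ = M * ‖c - m‖ ^ 2 * x := by ring)
  have := key (x := 1) ⟨zero_le_one, le_rfl⟩
  simpa using this

theorem norm_comb {a b : ℂ} {s t : ℝ} (hst : s + t = 1) :
    ‖s • a + t • b‖ ^ 2 = s * ‖a‖ ^ 2 + t * ‖b‖ ^ 2 - s * t * ‖a - b‖ ^ 2 := by
  have ht : t = 1 - s := by linarith
  subst ht
  rw [Complex.sq_norm, Complex.sq_norm, Complex.sq_norm, Complex.sq_norm, Complex.normSq_apply,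
    Complex.normSq_apply, Complex.normSq_apply, Complex.normSq_apply]
  simp only [Complex.add_re, Complex.add_im, Complex.real_smul, Complex.mul_re, Complex.mul_im,
    Complex.ofReal_re, Complex.ofReal_im, Complex.sub_re, Complex.sub_im]
  ring

theorem key {ρ r : ℝ} {f : ℂ → ℂ} (hρ : 0 < ρ) (hr : 1 < r)
    (hf : DifferentiableOn ℂ f (ball 0 r))
    (hb : ∀ z ∈ ball (0 : ℂ) 1, ‖deriv (deriv f) z‖ ≤ ρ / 2 ∧ ‖deriv f z - ρ‖ ≤ ρ / 100)
    {a b : ℂ} (ha : ‖a‖ ≤ 1) (hb' : ‖b‖ ≤ 1) (hab : a ≠ b) {s t : ℝ} (hs : 0 < s) (ht : 0 < t)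
    (hst : s + t = 1) : s • f a + t • f b ∈ interior (f '' ball 0 1) := by
  have hKr : closedBall (0 : ℂ) 1 ⊆ ball 0 r := closedBall_subset_ball hr
  have hM : ∀ z ∈ closedBall (0 : ℂ) 1, ‖deriv (deriv f) z‖ ≤ ρ / 2 := by
    intro z hz
    have hcl : z ∈ closure (ball (0 : ℂ) 1) := by
      rw [closure_ball (0 : ℂ) one_ne_zero]; exact hz
    have hc : ContinuousAt (fun z => ‖deriv (deriv f) z‖) z :=
      (((hf.deriv isOpen_ball).deriv isOpen_ball).differentiableAt
        (isOpen_ball.mem_nhds (hKr hz))).continuousAt.norm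
    exact ContinuousWithinAt.closure_le hcl hc.continuousWithinAt
      continuousWithinAt_const (fun y hy => (hb y hy).1)
  set m : ℂ := s • a + t • b with hm
  have hd : 0 < ‖a - b‖ := norm_pos_iff.2 (sub_ne_zero.2 hab)
  set q : ℝ := s * t * ‖a - b‖ ^ 2 / 2 with hq
  have hq0 : 0 < q := by positivity
  have hm2 : ‖m‖ ^ 2 ≤ 1 - 2 * q := by
    rw [hm, norm_comb hst]
    have h1 : ‖a‖ ^ 2 ≤ 1 := pow_le_one₀ (norm_nonneg _) ha
    have h2 : ‖b‖ ^ 2 ≤ 1 := pow_le_one₀ (norm_nonneg _) hb'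
    have h3 : s * ‖a‖ ^ 2 + t * ‖b‖ ^ 2 ≤ s * 1 + t * 1 := by gcongr
    rw [hq]
    linarith
  have hmq : ‖m‖ + q < 1 := by
    by_contra hcon
    push Not at hcon
    have h0 : 0 ≤ ‖m‖ := norm_nonneg _
    have h1 : 0 ≤ 1 - q := by nlinarith [sq_nonneg ‖m‖]
    have h2 : (1 - q) ^ 2 ≤ ‖m‖ ^ 2 := pow_le_pow_left₀ h1 (by linarith) 2
    nlinarith
  have hmK : m ∈ closedBall (0 : ℂ) 1 := by
    rw [mem_closedBall_zero_iff]; linarith
  have haK : a ∈ closedBall (0 : ℂ) 1 := by rwa [mem_closedBall_zero_iff]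
  have hbK : b ∈ closedBall (0 : ℂ) 1 := by rwa [mem_closedBall_zero_iff]
  have hta := taylor2 (convex_closedBall _ _) hKr hf hM hmK haK
  have htb := taylor2 (convex_closedBall _ _) hKr hf hM hmK hbK
  have ham : a - m = (t : ℂ) * (a - b) := by
    rw [hm, Complex.real_smul, Complex.real_smul]
    have : (s : ℂ) = 1 - t := by
      rw [← Complex.ofReal_one, ← Complex.ofReal_sub]; congr 1; linarith
    rw [this]; ring
  have hbm : b - m = -((s : ℂ) * (a - b)) := by
    rw [hm, Complex.real_smul, Complex.real_smul]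
    have : (t : ℂ) = 1 - s := by
      rw [← Complex.ofReal_one, ← Complex.ofReal_sub]; congr 1; linarith
    rw [this]; ring
  have hna : ‖a - m‖ = t * ‖a - b‖ := by
    rw [ham, norm_mul, Complex.norm_real, Real.norm_eq_abs, abs_of_pos ht]
  have hnb : ‖b - m‖ = s * ‖a - b‖ := by
    rw [hbm, norm_neg, norm_mul, Complex.norm_real, Real.norm_eq_abs, abs_of_pos hs]
  have hdist : ‖s • f a + t • f b - f m‖ ≤ ρ * q / 2 := by
    have e : s • f a + t • f b - f m = (s : ℂ) * (f a - f m - deriv f m * (a - m)) +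
        (t : ℂ) * (f b - f m - deriv f m * (b - m)) := by
      rw [ham, hbm, Complex.real_smul, Complex.real_smul]
      have : f m = ((s : ℂ) + t) * f m := by
        rw [← Complex.ofReal_add, hst, Complex.ofReal_one, one_mul]
      nth_rewrite 1 [this]
      ring
    rw [e]
    calc ‖(s : ℂ) * (f a - f m - deriv f m * (a - m)) +
          (t : ℂ) * (f b - f m - deriv f m * (b - m))‖
        ≤ s * ‖f a - f m - deriv f m * (a - m)‖ + t * ‖f b - f m - deriv f m * (b - m)‖ := by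
          refine (norm_add_le _ _).trans ?_
          rw [norm_mul, norm_mul, Complex.norm_real, Complex.norm_real, Real.norm_eq_abs,
            Real.norm_eq_abs, abs_of_pos hs, abs_of_pos ht]
      _ ≤ s * (ρ / 2 / 2 * (t * ‖a - b‖) ^ 2) + t * (ρ / 2 / 2 * (s * ‖a - b‖) ^ 2) := by
          rw [hna] at hta
          rw [hnb] at htb
          gcongr
      _ = ρ * (s * t * (s + t) * ‖a - b‖ ^ 2 / 2) / 2 := by ring
      _ = ρ * q / 2 := by rw [hst, hq]; ring
  -- the surjectivity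
  have hsub : closedBall m q ⊆ ball (0 : ℂ) 1 := by
    intro z hz
    rw [mem_closedBall, dist_eq_norm] at hz
    rw [mem_ball_zero_iff]
    calc ‖z‖ = ‖(z - m) + m‖ := by rw [sub_add_cancel]
      _ ≤ ‖z - m‖ + ‖m‖ := norm_add_le _ _
      _ < 1 := by linarith
  have hlip : ApproximatesLinearOn f ((ρ : ℂ) • ContinuousLinearMap.id ℂ ℂ) (ball (0 : ℂ) 1)
      (⟨ρ / 100, by positivity⟩ : NNReal) := by
    intro x hx y hy
    have h1 := (convex_ball (0 : ℂ) 1).norm_image_sub_le_of_norm_deriv_le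
      (f := fun z => f z - (ρ : ℂ) * z) (C := ρ / 100) (x := y) (y := x)
      (fun z hz => ((hf.differentiableAt (isOpen_ball.mem_nhds
        (hKr (ball_subset_closedBall hz)))).sub
          ((differentiableAt_id).const_mul (ρ : ℂ))))
      (fun z hz => by
        have hdz : DifferentiableAt ℂ f z := hf.differentiableAt (isOpen_ball.mem_nhds
          (hKr (ball_subset_closedBall hz)))
        have h2 : HasDerivAt (fun z => f z - (ρ : ℂ) * z) (deriv f z - ρ) z := by
          have h3 := hdz.hasDerivAt.sub ((hasDerivAt_id z).const_mul (ρ : ℂ))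
          rw [mul_one] at h3
          exact h3
        rw [h2.deriv]
        exact (hb z hz).2) hy hx
    have e : f x - f y - ((ρ : ℂ) • ContinuousLinearMap.id ℂ ℂ) (x - y) =
        (f x - (ρ : ℂ) * x) - (f y - (ρ : ℂ) * y) := by
      simp only [smul_apply, ContinuousLinearMap.id_apply, smul_eq_mul]
      ring
    rw [e]
    exact h1
  have hρC : (ρ : ℂ) ≠ 0 := by exact_mod_cast hρ.ne'
  let fs : ContinuousLinearMap.NonlinearRightInverse ((ρ : ℂ) • ContinuousLinearMap.id ℂ ℂ) :=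
    { toFun := fun w => (ρ : ℂ)⁻¹ * w
      nnnorm := ⟨ρ⁻¹, by positivity⟩
      bound' := by
        intro w
        rw [norm_mul, norm_inv, Complex.norm_real, Real.norm_eq_abs, abs_of_pos hρ]
        exact le_rfl
      right_inv' := by
        intro w
        simp only [smul_apply, ContinuousLinearMap.id_apply, smul_eq_mul]
        rw [← mul_assoc, mul_inv_cancel₀ hρC, one_mul] }
  have hsurj := hlip.surjOn_closedBall_of_nonlinearRightInverse fs hq0.le hsub
  replace hsurj : SurjOn f (closedBall m q) (closedBall (f m) ((ρ - ρ / 100) * q)) := by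
    refine hsurj.mono Subset.rfl (closedBall_subset_closedBall ?_)
    change (ρ - ρ / 100) * q ≤ ((ρ⁻¹)⁻¹ - ρ / 100) * q
    rw [inv_inv]
  rw [mem_interior]
  refine ⟨ball (f m) ((ρ - ρ / 100) * q), ?_, isOpen_ball, ?_⟩
  · intro w hw
    obtain ⟨z, hz, hzw⟩ := hsurj (ball_subset_closedBall hw)
    exact ⟨z, hsub hz, hzw⟩
  · rw [mem_ball, dist_eq_norm]
    refine hdist.trans_lt ?_
    have : 0 < ρ * q := by positivity
    nlinarith

theorem main : S_POL := by
  intro ρ r f hρ hr hf hb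
  constructor
  · rw [convex_iff_forall_pos]
    rintro x ⟨a, ha, rfl⟩ y ⟨b, hb', rfl⟩ s t hs ht hst
    by_cases hab : a = b
    · subst hab
      rw [← add_smul, hst, one_smul]
      exact ⟨a, ha, rfl⟩
    · rw [mem_ball_zero_iff] at ha hb'
      exact interior_subset (key hρ hr hf hb ha.le hb'.le hab hs ht hst)
  · rintro x ⟨a, ha, rfl⟩ y ⟨b, hb', rfl⟩ hxy s t hs ht hst
    have hab : a ≠ b := fun h => hxy (by rw [h])
    rw [mem_closedBall_zero_iff] at ha hb'
    exact interior_mono (image_mono ball_subset_closedBall)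
      (key hρ hr hf hb ha hb' hab hs ht hst)

end Pool.Agent.H957.CX.PPOL
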