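import Pool.Agent.H957.CX.Stm

/-!
Project CX, part REF: the refined estimates in two rounds.
-/

set_option autoImplicit false

namespace Pool.Agent.H957.CX.PREF

open Pool.Agent.N229.SC (Al Wt cf mon lft norm_mon lft_mon norm_lft_le lft_hasSum ext_mon
  mul_def one_def mon_mul_mon S_A1 ev evh Conf Nd Str Om SS UU PP eF Fb)

theorem wW1 : wW 1 = 11475 / 10000 := by
  simp only [wW, Rad]
  norm_num

theorem wW2 : wW 2 = 13005 / 10000 := by
  simp only [wW, Rad]
  norm_num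

theorem cc_le : ‖cc‖ ≤ 11475 / 10000 := by
  unfold cc
  rw [norm_smul]
  have h1 : ‖mon wW 1 + mon wW (-1)‖ ≤ wW 1 + wW (-1) := by
    refine (norm_add_le _ _).trans ?_
    rw [norm_mon, norm_mon]
  rw [Wt.neg (w := wW), wW1] at h1
  rw [Real.norm_eq_abs, abs_of_pos (by norm_num)]
  linarith

theorem h_le {X K : ℝ} (hX0 : 0 < X) {h : W} (hK : ‖h - X • cc‖ ≤ K * X ^ 2) :
    ‖h‖ ≤ 11475 / 10000 * X + K * X ^ 2 := by
  have e2 : ‖h‖ ≤ ‖X • cc‖ + ‖h - X • cc‖ := by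
    have e : h = X • cc + (h - X • cc) := by abel
    conv_lhs => rw [e]
    exact norm_add_le _ _
  have e3 : ‖X • cc‖ ≤ X * (11475 / 10000) := by
    rw [norm_smul, Real.norm_eq_abs, abs_of_pos hX0]
    exact mul_le_mul_of_nonneg_left cc_le hX0.le
  linarith

theorem v_le {X K : ℝ} {v : W} (hK : ‖v + (X ^ 2 / 2) • mon wW 2‖ ≤ K * X ^ 3) :
    ‖v‖ ≤ K * X ^ 3 + 13005 / 20000 * X ^ 2 := by
  have e2 : ‖v‖ ≤ ‖v + (X ^ 2 / 2) • mon wW 2‖ + ‖(X ^ 2 / 2) • mon wW 2‖ := by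
    have e : v = (v + (X ^ 2 / 2) • mon wW 2) - (X ^ 2 / 2) • mon wW 2 := by abel
    conv_lhs => rw [e]
    exact norm_sub_le _ _
  have e3 : ‖(X ^ 2 / 2) • mon wW 2‖ = (X ^ 2 / 2) * (13005 / 10000) := by
    rw [norm_smul, Real.norm_eq_abs, abs_of_nonneg (by positivity), norm_mon, wW2]
  rw [e3] at e2
  linarith

theorem main (hA1 : S_A1) (hHG : S_HG) (hVG : S_VG) (hYG : S_YG) : S_REF := by
  intro P X h v y H
  have ha1 := H.good.a10
  have ha2 := H.good.a10'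
  have hs0 : 0 < Real.sqrt (P.a 1 0) := Real.sqrt_pos.2 (by linarith)
  have hs1 : Real.sqrt (P.a 1 0) ≤ 582 / 10 ^ 6 := by
    rw [Real.sqrt_le_left (by norm_num)]
    refine ha2.trans ?_
    norm_num
  have hX0 : 0 < X := by
    have := H.X1
    linarith
  have hX : X ≤ 582 / 10 ^ 6 := H.X2.trans hs1
  have hX2 : 0 < X ^ 2 := by positivity
  have hX3 : 0 < X ^ 3 := by positivity
  have hX23 : X ^ 3 ≤ 582 / 10 ^ 6 * X ^ 2 := by
    have : X ^ 3 = X * X ^ 2 := by ring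
    rw [this]
    exact mul_le_mul_of_nonneg_right hX hX2.le
  have hXX : X ^ 2 ≤ 582 / 10 ^ 6 * X := by
    have : X ^ 2 = X * X := by ring
    rw [this]
    exact mul_le_mul_of_nonneg_right hX hX0.le
  -- first round
  have y0 : ∀ i, ‖y i‖ ≤ 312 / 100 * X ^ 2 := fun i => by
    have := hYG P X h v y H 6 (by norm_num) H.sol.nv i
    linarith
  obtain ⟨a1, a2⟩ := hHG P X h v y H 2 6 (312 / 100) (by norm_num) (by norm_num) (by norm_num)
    (by norm_num) (by norm_num) (by norm_num) H.sol.nh H.sol.nv y0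
  have b0 := h_le hX0 a1
  have b1 : ‖h‖ ≤ 1173 / 1000 * X := by linarith
  have a3 := hVG P X h v y H (1173 / 1000) 6 (312 / 100) (4234 / 100) (by norm_num) (by norm_num)
    (by norm_num) (by norm_num) (by norm_num) (by norm_num) (by norm_num) (by norm_num)
    b1 H.sol.nv y0 (by linarith)
  have b2' := v_le a3
  have b2 : ‖v‖ ≤ 8453 / 10000 * X ^ 2 := by linarith
  have b3 : ∀ i, ‖y i‖ ≤ 44 / 100 * X ^ 2 := fun i => by
    have := hYG P X h v y H (8453 / 10000) (by norm_num) b2 i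
    linarith
  -- second round
  obtain ⟨a4, a5⟩ := hHG P X h v y H (1173 / 1000) (8453 / 10000) (44 / 100) (by norm_num)
    (by norm_num) (by norm_num) (by norm_num) (by norm_num) (by norm_num) b1 b2 b3
  have b4 := h_le hX0 a4
  have b5 : ‖h‖ ≤ 29 / 25 * X := by linarith
  have a6 := hVG P X h v y H (29 / 25) (8453 / 10000) (44 / 100) (707 / 100) (by norm_num)
    (by norm_num) (by norm_num) (by norm_num) (by norm_num) (by norm_num) (by norm_num)
    (by norm_num) b5 b2 b3 (by linarith)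
  have b6 : ‖v + (X ^ 2 / 2) • mon wW 2‖ ≤ 80 * X ^ 3 := by linarith
  have b7 := v_le b6
  have b8 : ‖v‖ ≤ 3 / 4 * X ^ 2 := by linarith
  obtain ⟨c1, -, -, -, c5, c6, c7, -⟩ := hA1 wW
  have d1 : cf (v + (X ^ 2 / 2) • mon wW 2) 2 = cf v 2 + X ^ 2 / 2 := by
    rw [c1, c5, c6]
    simp
  have d2 := c7 (v + (X ^ 2 / 2) • mon wW 2) 2
  rw [d1, wW2] at d2
  refine ⟨b5, by linarith, by linarith, b8, fun i => ?_, b6, ?_⟩
  · have := hYG P X h v y H (3 / 4) (by norm_num) b8 i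
    linarith
  · have b9 := abs_nonneg (cf v 2 + X ^ 2 / 2)
    linarith

end Pool.Agent.H957.CX.PREF
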