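import Pool.Agent.H957.CX.Stm

/-!
Project CX (helper957), part SGN (helper353): the signs at the two ends.
-/

set_option autoImplicit false

namespace Pool.Agent.H957.CX.PSGN

open Pool.Agent.N229.SC (Al Wt cf mon lft norm_mon lft_mon norm_lft_le lft_hasSum ext_mon
  mul_def one_def mon_mul_mon S_A1 ev evh Conf Nd Str Om SS UU PP eF Fb)

/-- CX-SGN -/
theorem main (hREF : S_REF) (hGG : S_GG) : S_SGN := by
  intro P X h v y H
  have hG := H.good
  have ha1 := hG.a10
  have ha2 := hG.a10'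
  have hb1 := hG.a20
  have hb2 := hG.a20'
  have hn1 := hG.nu1
  have hn2 := hG.nu2
  have g := hGG P X h v y H (hREF P X h v y H)
  obtain ⟨s, hs⟩ : ∃ s, s = Real.sqrt (P.a 1 0) := ⟨_, rfl⟩
  have hss : s ^ 2 = P.a 1 0 := by
    rw [hs]
    exact Real.sq_sqrt (by linarith)
  have hs0 : 0 < s := by
    rw [hs]
    exact Real.sqrt_pos.2 (by linarith)
  have hs1 : s ≤ 582 / 10 ^ 6 := by
    rw [hs, Real.sqrt_le_left (by norm_num)]
    refine ha2.trans ?_
    norm_num
  have hinv1 : 1 / (8 * P.a 2 0) ≤ 15416 / 10 ^ 4 := by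
    rw [div_le_iff₀ (by linarith)]
    linarith
  have hinv2 : 15412 / 10 ^ 4 ≤ 1 / (8 * P.a 2 0) := by
    rw [le_div_iff₀ (by linarith)]
    linarith
  obtain ⟨q, hq⟩ : ∃ q, q = 1 / (8 * P.a 2 0) := ⟨_, rfl⟩
  rw [← hq] at g hinv1 hinv2
  rw [abs_le] at g
  constructor
  · intro hX
    rw [← hs] at hX
    have hX0 : 0 < X := by
      rw [hX]
      linarith
    have hX1 : X ≤ 291 / 10 ^ 6 := by
      rw [hX]
      linarith
    have hX3 : 0 < X ^ 3 := by positivity
    have e1 : X * P.a 1 0 = 4 * X ^ 3 := by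
      rw [← hss, hX]
      ring
    have e2 : X ^ 4 ≤ 291 / 10 ^ 6 * X ^ 3 := by
      have : X ^ 4 = X * X ^ 3 := by ring
      rw [this]
      exact mul_le_mul_of_nonneg_right hX1 hX3.le
    have e3 : (P.nu / 4 + q) * X ^ 3 ≤ (15969 / 10 ^ 4) * X ^ 3 :=
      mul_le_mul_of_nonneg_right (by linarith) hX3.le
    rw [e1] at g
    linarith [g.1]
  · intro hX
    rw [← hs] at hX
    have hX0 : 0 < X := by
      rw [hX]
      linarith
    have hX1 : X ≤ 582 / 10 ^ 6 := by
      rw [hX]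
      linarith
    have hX3 : 0 < X ^ 3 := by positivity
    have e1 : X * P.a 1 0 = X ^ 3 := by
      rw [← hss, hX]
      ring
    have e2 : X ^ 4 ≤ 582 / 10 ^ 6 * X ^ 3 := by
      have : X ^ 4 = X * X ^ 3 := by ring
      rw [this]
      exact mul_le_mul_of_nonneg_right hX1 hX3.le
    have e3 : (15964 / 10 ^ 4) * X ^ 3 ≤ (P.nu / 4 + q) * X ^ 3 :=
      mul_le_mul_of_nonneg_right (by linarith) hX3.le
    rw [e1] at g
    linarith [g.2]

end Pool.Agent.H957.CX.PSGN
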