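import Pool.Agent.H957.CX.Stm

/-!
Project CX (helper957), problem MP_83fd13_an: the second order of `v` (CX-VG), by helper870, after
the library's `N229/SC/VG.lean`.
-/

set_option autoImplicit false

open Set Filter Topology

namespace Pool.Agent.H957.CX.PVG

open Pool.Agent.N229.SC (Al Wt cf mon lft norm_mon lft_mon norm_lft_le lft_hasSum ext_mon
  mul_def one_def mon_mul_mon S_A1 ev evh Conf Nd Str Om SS UU PP eF Fb)

private lemma vg_alg {R : Type*} [CommRing R] [Algebra ℝ R] (x a : ℝ)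
    (ξ τ τc t tc v vc W0 W0c W1 W1c E Ec c : R) :
    ((x * a) • τ + W0 - ξ * ((-x) • τ + W1) + E) -
      ((x * a) • τc + W0c - ξ * ((-x) • τc + W1c) + Ec) =
    ((x * a) • ((τ - t) - (τc - tc)) + x • ((ξ - x • c) * (τ - τc)) +
      (x ^ 2) • (c * ((τ - t) - (τc - tc))) - ξ * (W1 - W1c) +
      ((W0 - v) - (W0c - vc)) + (E - Ec)) +
      (v - vc) + (x * a) • (t - tc) + (x ^ 2) • (c * (t - tc)) := by
  simp only [Algebra.smul_def, map_mul, map_pow, map_neg]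
  ring

private lemma vg_num {X H V M K N a₀ : ℝ} (hX0 : 0 < X) (hX : X ≤ 582 / 10 ^ 6) (hH0 : 0 ≤ H)
    (hV0 : 0 ≤ V) (hM0 : 0 ≤ M) (hK0 : 0 ≤ K)
    (ha : a₀ ≤ 4 * X ^ 2) (hN0 : 0 ≤ N) (hN : N ≤ (1 + 1 / 10 ^ 6) * (H * X)) :
    X * a₀ * (2 * (255 / 1000 * (H * X))) + X * (K * X ^ 2 * (2 * (1149 / 1000))) +
      X ^ 2 * (11475 / 10000 * (2 * (255 / 1000 * (H * X)))) +
      N * (2 * ((1282 / 100 * V + 74 / 100 * M) * X ^ 2)) +
      2 * (6 / 5 * (H * X) * (V * X ^ 2)) +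
      2 * (10 / 9 * (3 / 5 * X) * (3 * N) ^ 2) ≤
    (23 / 10 * K + H * (29 * V + 3 / 2 * M) + 3 / 5 * H + 25 / 2 * H ^ 2 + 10) * X ^ 3 := by
  have hX3 : 0 < X ^ 3 := by positivity
  have e1 : X * a₀ * (2 * (255 / 1000 * (H * X))) ≤ 2 / 1000 * H * X ^ 3 := by
    calc X * a₀ * (2 * (255 / 1000 * (H * X))) ≤
          X * (4 * X ^ 2) * (2 * (255 / 1000 * (H * X))) := by
          gcongr
      _ = 204 / 100 * X * (H * X ^ 3) := by ring
      _ ≤ 204 / 100 * (582 / 10 ^ 6) * (H * X ^ 3) := by gcongr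
      _ ≤ 2 / 1000 * H * X ^ 3 := by
          have : 0 ≤ H * X ^ 3 := by positivity
          linarith
  have e2 : X * (K * X ^ 2 * (2 * (1149 / 1000))) ≤ 23 / 10 * (K * X ^ 3) := by
    have : 0 ≤ K * X ^ 3 := by positivity
    have h : X * (K * X ^ 2 * (2 * (1149 / 1000))) = 2298 / 1000 * (K * X ^ 3) := by ring
    rw [h]
    linarith
  have e3 : X ^ 2 * (11475 / 10000 * (2 * (255 / 1000 * (H * X)))) ≤
      5853 / 10000 * (H * X ^ 3) := by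
    have : 0 ≤ H * X ^ 3 := by positivity
    have h : X ^ 2 * (11475 / 10000 * (2 * (255 / 1000 * (H * X)))) =
        11475 / 10000 * (510 / 1000) * (H * X ^ 3) := by ring
    rw [h]
    linarith
  have e4 : N * (2 * ((1282 / 100 * V + 74 / 100 * M) * X ^ 2)) ≤
      257 / 10 * (H * V * X ^ 3) + 3 / 2 * (H * M * X ^ 3) := by
    have h0 : 0 ≤ 2 * ((1282 / 100 * V + 74 / 100 * M) * X ^ 2) := by positivity
    have h1 : N * (2 * ((1282 / 100 * V + 74 / 100 * M) * X ^ 2)) ≤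
        (1 + 1 / 10 ^ 6) * (H * X) * (2 * ((1282 / 100 * V + 74 / 100 * M) * X ^ 2)) :=
      mul_le_mul_of_nonneg_right hN h0
    have h2 : (1 + 1 / 10 ^ 6) * (H * X) * (2 * ((1282 / 100 * V + 74 / 100 * M) * X ^ 2)) =
        (1 + 1 / 10 ^ 6) * (2564 / 100) * (H * V * X ^ 3) +
          (1 + 1 / 10 ^ 6) * (148 / 100) * (H * M * X ^ 3) := by ring
    rw [h2] at h1
    refine h1.trans ?_
    have h5 : 0 ≤ H * V * X ^ 3 := by positivity
    have h6 : 0 ≤ H * M * X ^ 3 := by positivity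
    refine add_le_add (mul_le_mul_of_nonneg_right (by norm_num) h5)
      (mul_le_mul_of_nonneg_right (by norm_num) h6)
  have e5 : 2 * (6 / 5 * (H * X) * (V * X ^ 2)) = 12 / 5 * (H * V * X ^ 3) := by ring
  have hNN : N ^ 2 ≤ 10001 / 10000 * (H ^ 2 * X ^ 2) := by
    have h1 : N ^ 2 ≤ ((1 + 1 / 10 ^ 6) * (H * X)) ^ 2 := pow_le_pow_left₀ hN0 hN 2
    refine h1.trans ?_
    have h2 : ((1 + 1 / 10 ^ 6) * (H * X)) ^ 2 = (1 + 1 / 10 ^ 6) ^ 2 * (H ^ 2 * X ^ 2) := by ring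
    rw [h2]
    refine mul_le_mul_of_nonneg_right (by norm_num) (by positivity)
  have e6 : 2 * (10 / 9 * (3 / 5 * X) * (3 * N) ^ 2) ≤ 121 / 10 * (H ^ 2 * X ^ 3) := by
    calc 2 * (10 / 9 * (3 / 5 * X) * (3 * N) ^ 2) = 12 * X * N ^ 2 := by ring
      _ ≤ 12 * X * (10001 / 10000 * (H ^ 2 * X ^ 2)) := by gcongr
      _ = 12 * (10001 / 10000) * (H ^ 2 * X ^ 3) := by ring
      _ ≤ 121 / 10 * (H ^ 2 * X ^ 3) := by
          have : 0 ≤ H ^ 2 * X ^ 3 := by positivity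
          linarith
  have e7 : 0 ≤ H * X ^ 3 := by positivity
  have e8 : 0 ≤ H ^ 2 * X ^ 3 := by positivity
  have e10 : 0 ≤ H * V * X ^ 3 := by positivity
  have e9 : (23 / 10 * K + H * (29 * V + 3 / 2 * M) + 3 / 5 * H + 25 / 2 * H ^ 2 + 10) * X ^ 3 =
      23 / 10 * (K * X ^ 3) + 29 * (H * V * X ^ 3) + 3 / 2 * (H * M * X ^ 3) +
      3 / 5 * (H * X ^ 3) + 25 / 2 * (H ^ 2 * X ^ 3) + 10 * X ^ 3 := by ring
  rw [e9]
  linarith

theorem main (hA1 : S_A1) (hA2 : S_A2) (hA3 : S_A3) (_hAB : S_AB) (hB1 : S_B1) (hM1 : S_M1)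
    (hB2 : S_B2) : S_VG := by
  intro P X h v y hyp H V M K hH0 hH2 hV0 hV6 hM0 hM6 hK0 _hK50 hh hv hy hxi
  have G := hyp.good
  have hs := hyp.sol
  -- the size of `X`
  have ha0 : 0 < P.a 1 0 := lt_of_lt_of_le (by norm_num) G.a10
  have hs0 : 0 < Real.sqrt (P.a 1 0) := Real.sqrt_pos.2 ha0
  have hX0 : 0 < X := lt_of_lt_of_le (half_pos hs0) hyp.X1
  have hX : X ≤ 582 / 10 ^ 6 := by
    refine hyp.X2.trans ?_
    rw [Real.sqrt_le_left (by norm_num)]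
    exact G.a10'.trans (by norm_num)
  have haX : P.a 1 0 ≤ 4 * X ^ 2 := by
    have h1 : Real.sqrt (P.a 1 0) ≤ 2 * X := by
      have := hyp.X1
      linarith
    have h2 : Real.sqrt (P.a 1 0) ^ 2 ≤ (2 * X) ^ 2 := pow_le_pow_left₀ hs0.le h1 2
    rw [Real.sq_sqrt ha0.le] at h2
    linarith
  have hD : Dom X h v y := ⟨hs.hc, hs.hv, hs.hy, hs.nh, hs.nv, hs.ny⟩
  have hh3 : ‖h‖ ≤ 1 / 800 := by
    have := hs.nh
    linarith
  have hX' : X ≤ 6 / 10 ^ 4 := by linarith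
  obtain ⟨⟨-, -, bτ', bτ, -, bξ, -⟩, bc, -, -⟩ := hB1 P G h hh3
  obtain ⟨hcξ, -⟩ := bc hs.hc
  obtain ⟨-, -, bV, -, bq⟩ := hB2 P G X h v y hX0 hX' hD
  obtain ⟨-, -, -, -, bv1, -⟩ := bq V M hV0 hV6 hM0 hM6 hv hy
  obtain ⟨-, -, -, ⟨bm0, -⟩, ⟨bm1, -, -⟩, -⟩ := hM1 P G h v hh3 hs.hv
  obtain ⟨-, ⟨conj_cf, conj_mul, -, conj_norm, -⟩, -, -, ⟨Pi2_cf, Pi2_norm⟩, -⟩ := hA2
  obtain ⟨-, cf_sub, -, cf_zero, cf_smul, cf_mon, -, -, -, cf_ext, -, -, -⟩ := hA1 wW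
  -- names
  obtain ⟨ξ, hξ⟩ : ∃ ξ, ξ = xi P h := ⟨_, rfl⟩
  obtain ⟨τ, hτ⟩ : ∃ τ, τ = tau P h := ⟨_, rfl⟩
  obtain ⟨W0, hW0⟩ : ∃ W0, W0 = md P h v 0 + Pi5 v := ⟨_, rfl⟩
  obtain ⟨W1, hW1⟩ : ∃ W1, W1 = md P h v 1 + vv P h v y 1 := ⟨_, rfl⟩
  rw [← hξ] at bξ hcξ hxi
  rw [← hτ] at bτ bτ'
  rw [← hW0] at bm0
  -- the norm of `ξ`
  have hN : ‖ξ‖ ≤ (1 + 1 / 10 ^ 6) * (H * X) := by
    have h1 : ‖ξ‖ ≤ ‖ξ - h‖ + ‖h‖ := by
      have := norm_add_le (ξ - h) h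
      rwa [sub_add_cancel] at this
    have h2 : ‖h‖ ^ 2 / 8000 ≤ 1 / 10 ^ 6 * ‖h‖ := by
      have h5 := norm_nonneg h
      nlinarith
    calc ‖ξ‖ ≤ (1 + 1 / 10 ^ 6) * ‖h‖ := by linarith
      _ ≤ (1 + 1 / 10 ^ 6) * (H * X) := by gcongr
  have hξ30 : ‖ξ‖ ≤ 1 / 30 := by
    refine hN.trans ?_
    have : H * X ≤ 2 * (582 / 10 ^ 6) := by gcongr
    linarith
  -- the expansion
  obtain ⟨-, hT⟩ := hA3.2.1 ξ (Vh P X h v y) (3 / 5 * X) bV hξ30
  have hT2 := hT 2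
  obtain ⟨E, hE⟩ : ∃ E, E = TT ξ (Vh P X h v y) -
      ((X * P.a 1 0) • τ + W0 - ξ * ((-X) • τ + W1)) := ⟨_, rfl⟩
  have hV0e : Vh P X h v y 0 = (X * P.a 1 0) • τ + W0 := by
    rw [hτ, hW0, ← add_assoc]; rfl
  have hV1e : Vh P X h v y 1 = (-X) • τ + W1 := by
    rw [hτ, hW1, Vh, G.a1 1 le_rfl (by norm_num), mul_neg, mul_one, ← add_assoc]
  have hE3 : ‖E‖ ≤ 10 / 9 * (3 / 5 * X) * (3 * ‖ξ‖) ^ 2 := by
    refine le_trans (le_of_eq ?_) hT2
    congr 1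
    rw [hE, Finset.sum_range_succ, Finset.sum_range_one, hV0e, hV1e]
    simp only [pow_zero, pow_one, Nat.factorial_zero, Nat.factorial_one,
      Nat.cast_one, inv_one, mul_one, one_smul, one_mul, neg_smul]
    abel
  have hTe : TT ξ (Vh P X h v y) =
      (X * P.a 1 0) • τ + W0 - ξ * ((-X) • τ + W1) + E := by
    rw [hE]; abel
  -- the conjugate
  have hTc : conj (TT ξ (Vh P X h v y)) =
      (X * P.a 1 0) • conj τ + conj W0 - ξ * ((-X) • conj τ + conj W1) + conj E := by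
    rw [hTe]
    simp only [map_add, map_sub, map_smul, conj_mul, hcξ]
  obtain ⟨t, ht⟩ : ∃ t, t = mon wW 1 := ⟨_, rfl⟩
  have hid := vg_alg X (P.a 1 0) ξ τ (conj τ) t (conj t) v (conj v) W0 (conj W0) W1 (conj W1) E
    (conj E) cc
  obtain ⟨Z, hZ⟩ : ∃ Z, Z = (X * P.a 1 0) • ((τ - t) - (conj τ - conj t)) +
      X • ((ξ - X • cc) * (τ - conj τ)) +
      (X ^ 2) • (cc * ((τ - t) - (conj τ - conj t))) - ξ * (W1 - conj W1) +
      ((W0 - v) - (conj W0 - conj v)) + (E - conj E) := ⟨_, rfl⟩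
  rw [← hTe, ← hTc, ← hZ] at hid
  -- the projection
  have hOO : Pi2 (TT ξ (Vh P X h v y) - conj (TT ξ (Vh P X h v y))) = 0 := by
    have := hs.eO
    rwa [OO, ← hξ] at this
  have hct : conj t = mon wW (-1) := by
    apply cf_ext
    intro j
    rw [conj_cf, ht, cf_mon, cf_mon]
    congr 1
    apply propext
    constructor <;> intro h <;> omega
  have hp1 : Pi2 v = v := by
    apply cf_ext
    intro j
    rw [Pi2_cf]
    split_ifs with hj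
    · rfl
    · rw [hs.hv j (by omega)]
  have hp2 : Pi2 (conj v) = 0 := by
    apply cf_ext
    intro j
    rw [Pi2_cf, cf_zero]
    split_ifs with hj
    · rw [conj_cf, hs.hv (-j) (by omega)]
    · rfl
  have hp3 : Pi2 (t - conj t) = 0 := by
    apply cf_ext
    intro j
    rw [Pi2_cf, cf_zero]
    split_ifs with hj
    · rw [cf_sub, hct, ht, cf_mon, cf_mon, if_neg (by omega), if_neg (by omega), sub_zero]
    · rfl
  have hp4 : cc * (t - conj t) = (1 / 2 : ℝ) • (mon wW 2 - mon wW (-2)) := by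
    rw [hct, ht, cc, smul_mul_assoc]
    congr 1
    have e1 : (mon wW 1 + mon wW (-1)) * (mon wW 1 - mon wW (-1)) =
        mon wW 1 * mon wW 1 - mon wW (-1) * mon wW (-1) := by ring
    rw [e1, mon_mul_mon, mon_mul_mon]
    norm_num
  have hp5 : Pi2 (cc * (t - conj t)) = (1 / 2 : ℝ) • mon wW 2 := by
    rw [hp4]
    apply cf_ext
    intro j
    rw [Pi2_cf, cf_smul, cf_smul, cf_sub, cf_mon, cf_mon]
    by_cases hj : 2 ≤ j
    · rw [if_pos hj, if_neg (by omega : ¬ (-2 : ℤ) = j), sub_zero]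
    · rw [if_neg hj, if_neg (by omega : ¬ (2 : ℤ) = j), mul_zero]
  have hkey : v + (X ^ 2 / 2) • mon wW 2 = -Pi2 Z := by
    rw [hid, map_add, map_add, map_add, map_smul, map_smul, hp3, hp5, map_sub, hp1, hp2,
      smul_zero, smul_smul, sub_zero, add_zero] at hOO
    rw [show X ^ 2 / 2 = X ^ 2 * (1 / 2) by ring]
    rw [eq_neg_iff_add_eq_zero, ← hOO]
    abel
  rw [hkey, norm_neg]
  refine (Pi2_norm Z).trans ?_
  -- the bounds
  have hcn : ∀ a : W, ‖a - conj a‖ ≤ 2 * ‖a‖ := by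
    intro a
    have h1 := norm_sub_le a (conj a)
    rw [conj_norm] at h1
    linarith
  have hτt : ‖(τ - t) - (conj τ - conj t)‖ ≤ 2 * (255 / 1000 * (H * X)) := by
    rw [← map_sub]
    refine (hcn _).trans ?_
    rw [← ht] at bτ'
    have h1 : (255 : ℝ) / 1000 * ‖h‖ ≤ 255 / 1000 * (H * X) := by gcongr
    linarith
  have hcc : ‖cc‖ ≤ 11475 / 10000 := by
    have h1 : ‖mon wW 1‖ = 11475 / 10000 := by
      rw [norm_mon]
      norm_num [wW, Rad]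
    have h2 : ‖mon wW (-1)‖ = 11475 / 10000 := by
      rw [norm_mon]
      norm_num [wW, Rad]
    rw [cc, norm_smul]
    have h3 := norm_add_le (mon wW 1) (mon wW (-1))
    rw [h1, h2] at h3
    have h4 : ‖(1 / 2 : ℝ)‖ = 1 / 2 := by norm_num
    rw [h4]
    linarith
  have t1 : ‖(X * P.a 1 0) • ((τ - t) - (conj τ - conj t))‖ ≤
      X * P.a 1 0 * (2 * (255 / 1000 * (H * X))) := by
    rw [norm_smul, Real.norm_eq_abs, abs_of_pos (by positivity)]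
    gcongr
  have t2 : ‖X • ((ξ - X • cc) * (τ - conj τ))‖ ≤ X * (K * X ^ 2 * (2 * (1149 / 1000))) := by
    rw [norm_smul, Real.norm_eq_abs, abs_of_pos hX0]
    refine mul_le_mul_of_nonneg_left ?_ hX0.le
    refine (norm_mul_le _ _).trans ?_
    refine mul_le_mul hxi ?_ (norm_nonneg _) (by positivity)
    refine (hcn _).trans ?_
    linarith
  have t3 : ‖(X ^ 2) • (cc * ((τ - t) - (conj τ - conj t)))‖ ≤
      X ^ 2 * (11475 / 10000 * (2 * (255 / 1000 * (H * X)))) := by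
    rw [norm_smul, Real.norm_eq_abs, abs_of_pos (by positivity)]
    refine mul_le_mul_of_nonneg_left ?_ (by positivity)
    exact (norm_mul_le _ _).trans (mul_le_mul hcc hτt (norm_nonneg _) (by norm_num))
  have hW1n : ‖W1‖ ≤ (1282 / 100 * V + 74 / 100 * M) * X ^ 2 := by
    have h1 : ‖W1‖ ≤ ‖md P h v 1‖ + ‖vv P h v y 1‖ := by
      rw [hW1]; exact norm_add_le _ _
    have h2 : (1236 : ℝ) / 100 * ‖v‖ ≤ 1236 / 100 * (V * X ^ 2) := by gcongr
    have h3 : (1282 / 100 * V + 74 / 100 * M) * X ^ 2 =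
        1236 / 100 * (V * X ^ 2) + (46 / 100 * V + 74 / 100 * M) * X ^ 2 := by ring
    rw [h3]
    linarith
  have t4 : ‖ξ * (W1 - conj W1)‖ ≤
      ‖ξ‖ * (2 * ((1282 / 100 * V + 74 / 100 * M) * X ^ 2)) := by
    refine (norm_mul_le _ _).trans ?_
    refine mul_le_mul_of_nonneg_left ?_ (norm_nonneg _)
    refine (hcn _).trans ?_
    linarith
  have t5 : ‖(W0 - v) - (conj W0 - conj v)‖ ≤ 2 * (6 / 5 * (H * X) * (V * X ^ 2)) := by
    rw [← map_sub]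
    refine (hcn _).trans ?_
    have h1 : 6 / 5 * ‖h‖ * ‖v‖ ≤ 6 / 5 * (H * X) * (V * X ^ 2) := by gcongr
    linarith
  have t6 : ‖E - conj E‖ ≤ 2 * (10 / 9 * (3 / 5 * X) * (3 * ‖ξ‖) ^ 2) := by
    refine (hcn _).trans ?_
    linarith
  have hnum := vg_num hX0 hX hH0 hV0 hM0 hK0 haX (norm_nonneg ξ) hN
  refine le_trans ?_ hnum
  rw [hZ]
  refine (norm_add_le _ _).trans (add_le_add ?_ t6)
  refine (norm_add_le _ _).trans (add_le_add ?_ t5)
  refine (norm_sub_le _ _).trans (add_le_add ?_ t4)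
  refine (norm_add_le _ _).trans (add_le_add ?_ t3)
  exact (norm_add_le _ _).trans (add_le_add t1 t2)

end Pool.Agent.H957.CX.PVG
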