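import Pool.Agent.H957.CX.Fin
import Pool.Agent.H957.CX.A2
import Pool.Agent.H957.CX.A3
import Pool.Agent.H957.CX.AB
import Pool.Agent.H957.CX.B1
import Pool.Agent.H957.CX.M1
import Pool.Agent.H957.CX.M2
import Pool.Agent.H957.CX.B2
import Pool.Agent.H957.CX.B3
import Pool.Agent.H957.CX.SELF
import Pool.Agent.H957.CX.CTR
import Pool.Agent.H957.CX.LX
import Pool.Agent.H957.CX.FIX
import Pool.Agent.H957.CX.HG
import Pool.Agent.H957.CX.VG
import Pool.Agent.H957.CX.YG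
import Pool.Agent.H957.CX.REF
import Pool.Agent.H957.CX.GT
import Pool.Agent.H957.CX.GD
import Pool.Agent.H957.CX.GM
import Pool.Agent.H957.CX.GG
import Pool.Agent.H957.CX.SGN
import Pool.Agent.H957.CX.EXI
import Pool.Agent.H957.CX.N2
import Pool.Agent.H957.CX.N3
import Pool.Agent.H957.CX.NUM
import Pool.Agent.H957.CX.EV
import Pool.Agent.H957.CX.EH
import Pool.Agent.H957.CX.FN1
import Pool.Agent.H957.CX.FN2
import Pool.Agent.H957.CX.FN3
import Pool.Agent.H957.CX.FN4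
import Pool.Agent.H957.CX.FN5
import Pool.Agent.H957.CX.D2
import Pool.Agent.H957.CX.POL
import Pool.Agent.H957.CX.AN
import Pool.Graph.R_pool_sql_team_seeded_63374d34.N229.SC.A1
import Pool.Graph.R_pool_sql_team_seeded_63374d34.N229.SC.N1
import Pool.Graph.R_pool_sql_team_seeded_63374d34.N229.SC.PSM
import Pool.Graph.R_pool_sql_team_seeded_63374d34.N229.SC.PDE
import Pool.Graph.R_pool_sql_team_seeded_63374d34.N229.SC.INJ
import Pool.Graph.R_pool_sql_team_seeded_63374d34.N229.SC.TOP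
import Pool.Graph.R_pool_sql_team_seeded_63374d34.N229.SC.LIP
import Pool.Graph.R_pool_sql_team_seeded_63374d34.N229.SC.NB
import Pool.Graph.R_pool_sql_team_seeded_63374d34.N229.SC.DIV
import Pool.Graph.R_pool_sql_team_seeded_63374d34.N229.SC.CV
import Pool.Graph.R_pool_sql_team_seeded_63374d34.N229.SC.WK1
import Pool.Graph.R_pool_sql_team_seeded_63374d34.N229.SC.WK2
import Pool.Graph.R_pool_sql_team_seeded_63374d34.N229.SC.WK3

/-!
Project CX (helper957), problem MP_83fd13_an: all parts together.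
-/

set_option autoImplicit false

open Set Filter Topology MeasureTheory

namespace Pool.Agent.H957.CX

theorem all : ∃ (ρ r : ℝ) (f : ℂ → ℂ) (Ω : Set ℂ), Dmn ρ r f Ω ∧ Sln ρ r f Ω := by
  have hA1 : Pool.Agent.N229.SC.S_A1 := Pool.Agent.N229.SC.proof_A1
  have hA2 : S_A2 := PA2.main hA1
  have hA3 : S_A3 := PA3.main hA1 hA2
  have hAB : S_AB := PAB.main
  have hB1 : S_B1 := PB1.main hA1 hA2 hA3
  have hM1 : S_M1 := PM1.main hA1 hA2 hAB hB1
  have hM2 : S_M2 := PM2.main hA1 hA2 hAB hB1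
  have hB2 : S_B2 := PB2.main hA1 hA2 hA3 hAB hB1 hM1
  have hB3 : S_B3 := PB3.main hA1 hA2 hA3 hAB hB1 hM1 hM2 hB2
  have hSELF : S_SELF := PSELF.main hA1 hA2 hA3 hAB hB1 hM1 hB2
  have hCTR : S_CTR := PCTR.main hA1 hA2 hA3 hAB hB1 hM1 hM2 hB2 hB3
  have hLX : S_LX := PLX.main hA1 hA2 hA3 hAB hB1 hB2
  have hFIX : S_FIX := PFIX.main hA1 hA2 hSELF hCTR hLX
  have hHG : S_HG := PHG.main hA1 hA2 hA3 hAB hB1 hM1 hB2
  have hVG : S_VG := PVG.main hA1 hA2 hA3 hAB hB1 hM1 hB2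
  have hYG : S_YG := PYG.main hA1 hA2 hA3 hAB hB1 hB2
  have hREF : S_REF := PREF.main hA1 hHG hVG hYG
  have hGT : S_GT := PGT.main hA1 hA2 hA3 hB1
  have hGD : S_GD := PGD.main hA1 hA2
  have hGM : S_GM := PGM.main hA1 hA2
  have hGG : S_GG := PGG.main hA1 hA2 hA3 hAB hB1 hM1 hB2 hGT hGD hGM
  have hSGN : S_SGN := PSGN.main hREF hGG
  have hEXI : S_EXI := PEXI.main hA1 hA2 hFIX hREF hSGN
  have hNUM : S_NUM := PNUM.main Pool.Agent.N229.SC.proof_N1 PN2.main PN3.main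
  have hEV : S_EV := PEV.main hA1 hA2 hA3
  have hEH : S_EH := PEH.main hA1 hA2
  have hFN1 : S_FN1 := PFN1.main hA1 hA2 hA3 hB1 hEH hEV
  have hFN2 : S_FN2 := PFN2.main hA1 hA2 hA3 hAB hB1 hB2 hEH
  have hFN3 : S_FN3 := PFN3.main hA1 hA2 hA3 hAB hB1 hB2 hEH
  have hFN4 : S_FN4 := PFN4.main hA1 hA2 hA3 hAB hB1 hM1 hB2 hEH hEV
  have hFN5 : S_FN5 := PFN5.main hA1 hA2 hA3 hAB hB1 hM1 hB2 hEH hEV
  have hD2 : S_D2 := PD2.main hA1 hA2 hA3 hAB hB1 hEH
  have hPOL : S_POL := PPOL.main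
  have hAN : S_AN := PAN.main hA1 hA2 hB1 hEH
  open Pool.Agent.N229.SC in
  have hPDE := proof_PDE proof_PSM
  have hINJ := Pool.Agent.N229.SC.proof_INJ
  have hTOP := Pool.Agent.N229.SC.proof_TOP hINJ
  have hLIP := Pool.Agent.N229.SC.proof_LIP hINJ hTOP
  have hNB := Pool.Agent.N229.SC.proof_NB hINJ hTOP
  have hCV := Pool.Agent.N229.SC.proof_CV hINJ
  have hDIV := Pool.Agent.N229.SC.proof_DIV
  have hWK1 := Pool.Agent.N229.SC.proof_WK1 hINJ hTOP hCV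
  have hWK2 := Pool.Agent.N229.SC.proof_WK2 hINJ hTOP hCV hDIV
  have hWK3 := Pool.Agent.N229.SC.proof_WK3 hINJ hTOP hCV hDIV
  exact dmn hEXI hNUM hFN1 hFN2 hFN3 hFN4 hFN5 hD2 hPOL hAN hPDE hINJ hTOP hLIP hNB hWK1 hWK2 hWK3

end Pool.Agent.H957.CX
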