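import Pool.Graph.R_pool_sql_team_seeded_63374d34.N229.SC.Stm

/-!
Project CX (helper957), problem MP_83fd13_an: a CONVEX counterexample to Schiffer's conjecture.
Definitions.  The general algebra (`Al`, `Wt`, `cf`, `mon`, `lft`) and the geometric part (`Conf`,
`Nd`, `Str`, `Cl`, `Om`, `Weak`, ...) are those of the library module
`Pool.Graph.R_pool_sql_team_seeded_63374d34.N229.SC` (namespace `Pool.Agent.N229.SC`), which proves
the frozen negation with a nonconvex domain.  New here: the weight `Rad = 51 / 50`, four propagating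
modes (`n ρ⁻¹ = 0.2210`), the parameters `ρ = 8583.616...`, `n = 1897`.
-/

set_option autoImplicit false

open Set Filter Topology

namespace Pool.Agent.H957.CX

open Pool.Agent.N229.SC (Al Wt cf mon lft norm_mon lft_mon norm_lft_le lft_hasSum ext_mon
  mul_def one_def mon_mul_mon)

/-- The radius of the annulus `1 / Rad < |t| < Rad`. -/
noncomputable def Rad : ℝ := 51 / 50

theorem one_le_Rad : 1 ≤ Rad := by norm_num [Rad]

/-- The weight `R ^ |j|`. -/
noncomputable def wA (j : ℤ) : ℝ := Rad ^ j.natAbs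

/-- The weight `(1 + |j| / 8) R ^ |j|`. -/
noncomputable def wW (j : ℤ) : ℝ := (1 + (j.natAbs : ℝ) / 8) * Rad ^ j.natAbs

theorem pow_natAbs_add_le (i j : ℤ) : Rad ^ (i + j).natAbs ≤ Rad ^ i.natAbs * Rad ^ j.natAbs := by
  rw [← pow_add]
  exact pow_le_pow_right₀ one_le_Rad (Int.natAbs_add_le i j)

instance : Wt wA where
  one_le j := one_le_pow₀ one_le_Rad
  zero := by simp [wA]
  neg j := by simp [wA]
  mul i j := pow_natAbs_add_le i j

instance : Wt wW where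
  one_le j := one_le_mul_of_one_le_of_one_le (by
    have : (0 : ℝ) ≤ j.natAbs := Nat.cast_nonneg _
    linarith) (one_le_pow₀ one_le_Rad)
  zero := by simp [wW]
  neg j := by simp [wW]
  mul i j := by
    unfold wW
    have h1 := pow_natAbs_add_le i j
    have h2 : (((i + j).natAbs : ℕ) : ℝ) ≤ i.natAbs + j.natAbs := by
      exact_mod_cast Int.natAbs_add_le i j
    have h3 : (0 : ℝ) ≤ i.natAbs := Nat.cast_nonneg _
    have h4 : (0 : ℝ) ≤ j.natAbs := Nat.cast_nonneg _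
    have h5 : (1 + ((i + j).natAbs : ℝ) / 8) ≤ (1 + (i.natAbs : ℝ) / 8) * (1 + (j.natAbs : ℝ) / 8) := by
      nlinarith [mul_nonneg h3 h4]
    calc (1 + ((i + j).natAbs : ℝ) / 8) * Rad ^ (i + j).natAbs
        ≤ ((1 + (i.natAbs : ℝ) / 8) * (1 + (j.natAbs : ℝ) / 8)) *
          (Rad ^ i.natAbs * Rad ^ j.natAbs) := by
          have : 0 ≤ Rad ^ (i + j).natAbs := pow_nonneg (zero_le_one.trans one_le_Rad) _
          have : (0 : ℝ) ≤ (1 + (i.natAbs : ℝ) / 8) * (1 + (j.natAbs : ℝ) / 8) := by positivity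
          gcongr
      _ = _ := by ring

/-- The algebra with the weight `R ^ |j|`. -/
abbrev A := Al wA

/-- The algebra with the weight `(1 + |j| / 8) R ^ |j|`. -/
abbrev W := Al wW

theorem wA_le_wW (j : ℤ) : wA j ≤ wW j := by
  unfold wA wW
  have h1 : (0 : ℝ) < Rad ^ j.natAbs := pow_pos (zero_lt_one.trans_le one_le_Rad) _
  have h2 : (0 : ℝ) ≤ j.natAbs := Nat.cast_nonneg _
  nlinarith [mul_nonneg h1.le h2]

/-- The inclusion. -/
noncomputable def inc : W →L[ℝ] A := lft (fun j => mon wA j) 1 fun j => by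
  rw [norm_mon, one_mul]; exact wA_le_wW j

/-- The conjugation `t ^ j ↦ t ^ (-j)`. -/
noncomputable def conj : W →L[ℝ] W := lft (fun j => mon wW (-j)) 1 fun j => by
  rw [norm_mon, one_mul, Wt.neg (w := wW)]

/-- `t ^ j ↦ t ^ |j|`. -/
noncomputable def hol : W →L[ℝ] W := lft (fun j => mon wW j.natAbs) 1 fun j => by
  rw [norm_mon, one_mul, wW, wW, Int.natAbs_natCast]

/-- The derivation `t d/dt`. -/
noncomputable def der : W →L[ℝ] A := lft (fun j => (j : ℝ) • mon wA j) 8 fun j => by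
  rw [norm_smul, norm_mon, Real.norm_eq_abs, wA, wW]
  have h1 : (0 : ℝ) < Rad ^ j.natAbs := pow_pos (zero_lt_one.trans_le one_le_Rad) _
  have h2 : |(j : ℝ)| = j.natAbs := by
    rw [Nat.cast_natAbs, Int.cast_abs]
  rw [h2]
  nlinarith

/-- The projection onto the powers `≥ 2`. -/
noncomputable def Pi2 : W →L[ℝ] W := lft (fun j => if 2 ≤ j then mon wW j else 0) 1 fun j => by
  split
  · rw [norm_mon, one_mul]
  · rw [norm_zero, one_mul]; exact (Wt.pos wW j).le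

/-- The projection onto the powers `≥ 5`. -/
noncomputable def Pi5 : W →L[ℝ] W := lft (fun j => if 5 ≤ j then mon wW j else 0) 1 fun j => by
  split
  · rw [norm_mon, one_mul]
  · rw [norm_zero, one_mul]; exact (Wt.pos wW j).le

theorem norm_res_aux (n i : ℕ) (j : ℤ) :
    ‖(if 5 ≤ j then ((j : ℝ) + (i : ℝ) / n)⁻¹ • mon wW j else 0 : W)‖ ≤ 13 / 40 * wA j := by
  split
  · rename_i h
    rw [norm_smul, norm_mon, Real.norm_eq_abs]
    have h2 : (5 : ℝ) ≤ j := by exact_mod_cast h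
    have h3 : (0 : ℝ) ≤ (i : ℝ) / n := by positivity
    have h4 : (0 : ℝ) < (j : ℝ) + (i : ℝ) / n := by linarith
    rw [abs_of_pos (inv_pos.mpr h4), wA, wW]
    have h5 : (0 : ℝ) < Rad ^ j.natAbs := pow_pos (zero_lt_one.trans_le one_le_Rad) _
    have h6 : ((j.natAbs : ℕ) : ℝ) = j := by
      rw [Nat.cast_natAbs, abs_of_nonneg (by omega)]
    rw [h6, ← mul_assoc]
    refine mul_le_mul_of_nonneg_right ?_ h5.le
    rw [inv_mul_le_iff₀ h4]
    nlinarith
  · rw [norm_zero]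
    have := Wt.pos wA j
    positivity

/-- The resolvent `(t d/dt + i / n)⁻¹` on the powers `≥ 5`. -/
noncomputable def res (n i : ℕ) : A →L[ℝ] W :=
  lft (fun j => if 5 ≤ j then ((j : ℝ) + (i : ℝ) / n)⁻¹ • mon wW j else 0) (13 / 40)
    (norm_res_aux n i)

/-- The exponential series. -/
noncomputable def ex (x : W) : W := ∑' k : ℕ, ((k.factorial : ℝ)⁻¹) • x ^ k

/-- The series `∑ (-ξ) ^ i / i! c_i`. -/
noncomputable def TT (ξ : W) (c : ℕ → W) : W :=
  ∑' i : ℕ, ((-1) ^ i * (i.factorial : ℝ)⁻¹) • (ξ ^ i * c i)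

/-- The parameters: the radius `ρ`, the order `n` of the symmetry, and the sequences
`a m i = -J_{mn+i}(ρ)/J_{mn+1}(ρ)` (`1 ≤ m ≤ 4`), `b i = -J_{1+i}(ρ)/J_2(ρ)`. -/
structure Par where
  /-- The radius. -/
  ρ : ℝ
  /-- The order of the symmetry. -/
  n : ℕ
  /-- The sequences `a m`. -/
  a : ℕ → ℕ → ℝ
  /-- The sequence `b`. -/
  b : ℕ → ℝ

/-- `ν = n / ρ`. -/
noncomputable def Par.nu (P : Par) : ℝ := P.n / P.ρ

/-- The conditions on the parameters. -/
structure Good (P : Par) : Prop where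
  rho : 8583 ≤ P.ρ
  rho' : P.ρ ≤ 8584
  nu1 : 221 / 1000 ≤ P.nu
  nu2 : P.nu ≤ 22101 / 100000
  a1 : ∀ m, 1 ≤ m → m ≤ 4 → P.a m 1 = -1
  b1 : P.b 1 = -1
  a10 : 3379 / 10 ^ 10 ≤ P.a 1 0
  a10' : P.a 1 0 ≤ 3380 / 10 ^ 10
  a20 : 8109 / 10 ^ 5 ≤ P.a 2 0
  a20' : P.a 2 0 ≤ 8110 / 10 ^ 5
  a30 : 1823 / 1000 ≤ P.a 3 0
  a30' : P.a 3 0 ≤ 1824 / 1000
  a40 : -949 / 1000 ≤ P.a 4 0
  a40' : P.a 4 0 ≤ -948 / 1000
  b0 : |P.b 0| ≤ 1 / 10 ^ 15
  ra : ∀ m, 1 ≤ m → m ≤ 4 → ∀ i : ℕ,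
    P.a m (i + 2) = 2 * (m * P.n + i + 1) / P.ρ * P.a m (i + 1) - P.a m i
  rb : ∀ i : ℕ, P.b (i + 2) = 2 * (i + 2) / P.ρ * P.b (i + 1) - P.b i

section
variable (P : Par) (X : ℝ) (h v : W) (y : ℕ → A)

/-- `n` times the logarithm of `f (z) / (ρ z)`. -/
noncomputable def Phi : W := P.nu • hol h

/-- `t dΦ/dt`. -/
noncomputable def beta : A := der (Phi P h)

/-- `(f (z) / ρ) ^ n`. -/
noncomputable def tau : W := mon wW 1 * ex (Phi P h)

/-- `|f| ^ 2 / ρ ^ 2` on the boundary. -/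
noncomputable def YY : W := ex ((2 / P.ρ) • h)

/-- `ξ = (|f| ^ 2 - ρ ^ 2) / (2 ρ)` on the boundary. -/
noncomputable def xi : W := (P.ρ / 2) • (YY P h - 1)

/-- The modes `2, 3, 4` in `V_i` (`i = 0`: `∑ v_m τ ^ m`, where `v_m` is the coefficient of `v`). -/
noncomputable def md (i : ℕ) : W :=
  ∑ m ∈ (Finset.Icc 2 4 : Finset ℕ), (cf v (m : ℤ) / P.a m 0 * P.a m i) • tau P h ^ m

/-- The modes `2, 3, 4` in `Q_i`. -/
noncomputable def ms (i : ℕ) : W :=
  ∑ m ∈ (Finset.Icc 2 4 : Finset ℕ), (cf v (m : ℤ) / (m * P.a m 0) * P.a m i) • tau P h ^ m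

/-- The functions `q_i`; `y i` stands for `(t d/dt + (i + 1) / n) q_{i+1}`. -/
noncomputable def qq : ℕ → W
  | 0 => res P.n 0 ((1 + beta P h) * inc (Pi5 v))
  | i + 1 => res P.n (i + 1) (y i)

/-- The functions `v_i`. -/
noncomputable def vv : ℕ → W
  | 0 => Pi5 v
  | i + 1 => (1 / (2 * P.nu)) • (qq P h v y i + qq P h v y (i + 2)) -
      (((i : ℝ) + 1) / P.n) • qq P h v y (i + 1)

/-- `V_i = X a_i τ + (modes 2, 3, 4) + v_i`. -/
noncomputable def Vh (i : ℕ) : W := (X * P.a 1 i) • tau P h + md P h v i + vv P h v y i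

/-- `Q_{i+1} = b_i + X a_{i+1} τ + (modes 2, 3, 4) + q_{i+1}`. -/
noncomputable def Qh (i : ℕ) : W :=
  P.b i • 1 + (X * P.a 1 (i + 1)) • tau P h + ms P h v (i + 1) + qq P h v y (i + 1)

/-- The tangential equation. -/
noncomputable def OO : W :=
  TT (xi P h) (Vh P X h v y) - conj (TT (xi P h) (Vh P X h v y))

/-- The normal equation. -/
noncomputable def EE : W :=
  (P.nu / 2) • (TT (xi P h) (Vh P X h v y) + conj (TT (xi P h) (Vh P X h v y))) -
    (1 / 2 : ℝ) • (YY P h * (TT (xi P h) (Qh P X h v y) + conj (TT (xi P h) (Qh P X h v y))))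

/-- The right hand side of the interior equation. -/
noncomputable def RH (i : ℕ) : A :=
  (1 / (2 * P.nu)) • ((1 + beta P h) * inc (qq P h v y i + qq P h v y (i + 2))) -
    (((i : ℝ) + 1) / P.n) • (beta P h * inc (qq P h v y (i + 1)))

/-- Solutions of all the equations except one. -/
structure IsSol : Prop where
  hc : conj h = h
  hv : ∀ j < 2, cf v j = 0
  hy : ∀ i, ∀ j < 5, cf (y i) j = 0
  nh : ‖h‖ ≤ 2 * X
  nv : ‖v‖ ≤ 6 * X ^ 2
  ny : ∀ i, ‖y i‖ ≤ 6 * X ^ 2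
  eE : EE P X h v y = 0
  eO : Pi2 (OO P X h v y) = 0
  eY : ∀ i, y i = RH P h v y i

end

end Pool.Agent.H957.CX
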