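import Pool.Agent.H957.CX.Stm

/-!
Project CX (helper957), problem MP_83fd13_an: assembly of the domain in the plane `ℂ`.
-/

set_option autoImplicit false

open Set Filter Topology MeasureTheory

namespace Pool.Agent.H957.CX

open Pool.Agent.N229.SC (Al Wt cf mon lft S_A1 ev evh Conf Nd Str Cl Om SS UU PP eF Fb Weak uF GF
  S_PDE S_INJ S_TOP S_LIP S_NB S_WK1 S_WK2 S_WK3)

/-- All the properties of the domain `Ω = f (D)` in the plane `ℂ`. -/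
structure Dmn (ρ r : ℝ) (f : ℂ → ℂ) (Ω : Set ℂ) : Prop where
  dom : Ω = f '' Metric.ball 0 1
  ρ0 : 0 < ρ
  r1 : 1 < r
  diff : DifferentiableOn ℂ f (Metric.ball 0 r)
  inj : InjOn f (Metric.ball 0 r)
  op : IsOpen Ω
  bd : Bornology.IsBounded Ω
  conn : IsConnected Ω
  sc : SimplyConnectedSpace Ω
  fr : Nonempty (frontier Ω ≃ₜ Metric.sphere (0 : ℂ) 1)
  lip : ∀ p ∈ frontier Ω, ∃ e g : ℂ, ‖e‖ = 1 ∧ ‖g‖ = 1 ∧ @inner ℝ ℂ _ e g = 0 ∧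
      ∃ s : ℝ, 0 < s ∧ ∃ K : NNReal, ∃ γ : ℝ → ℝ, LipschitzWith K γ ∧
        ∀ x ∈ Metric.ball p s, (x ∈ Ω ↔ γ (@inner ℝ ℂ _ x e) < @inner ℝ ℂ _ x g)
  cvx : Convex ℝ Ω
  scvx : StrictConvex ℝ (closure Ω)
  inn : Metric.ball 0 (ρ * (1 - 1 / 10 ^ 6)) ⊆ Ω
  out : Ω ⊆ Metric.ball 0 (ρ * (1 + 1 / 10 ^ 6))
  rot : ∀ ω : ℂ, ω ^ 1897 = 1 → (fun z => ω * z) '' Ω = Ω
  nd : ∀ (a : ℂ) (s : ℝ), Ω ≠ Metric.ball a s

/-- The classical and the weak solution. -/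
structure Sln (ρ r : ℝ) (f : ℂ → ℂ) (Ω : Set ℂ) : Prop where
  conf : Conf ρ r f
  ndf : Nd f
  ex : ∃ (r' c : ℝ) (U : ℂ → ℝ) (S : ℂ → ℂ), 1 < r' ∧ r' ≤ r ∧ Cl r' c f U S ∧ c ≠ 0 ∧
    Weak Ω 1 c (uF f U) (GF f S)

/-- The order of the symmetry is determined. -/
theorem n_eq {P : Par} (hP : Good P) : P.n = 1897 := by
  have h1 := hP.rho
  have h2 := hP.rho'
  have h3 := hP.nu1
  have h4 := hP.nu2
  have h0 : 0 < P.ρ := by linarith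
  have h5 : (P.n : ℝ) = P.nu * P.ρ := by
    unfold Par.nu
    field_simp
  have h6 : (1896 : ℝ) < P.n := by
    rw [h5]
    nlinarith
  have h7 : (P.n : ℝ) < 1898 := by
    rw [h5]
    nlinarith
  have h8 : 1896 < P.n := by exact_mod_cast h6
  have h9 : P.n < 1898 := by exact_mod_cast h7
  omega

/-- A small disc is contained in the domain. -/
theorem ball_sub {Ω : Set ℂ} (hop : IsOpen Ω) (h0 : (0 : ℂ) ∈ Ω) {R : ℝ} (hR : 0 < R)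
    (hfr : ∀ z ∈ frontier Ω, R ≤ ‖z‖) : Metric.ball 0 R ⊆ Ω := by
  have hpre : IsPreconnected (Metric.ball (0 : ℂ) R) := (convex_ball 0 R).isPreconnected
  refine hpre.subset_of_closure_inter_subset hop ⟨0, Metric.mem_ball_self hR, h0⟩ ?_
  rintro z ⟨hz1, hz2⟩
  by_contra hz
  have h1 : z ∈ frontier Ω := by
    rw [frontier, hop.interior_eq]
    exact ⟨hz1, hz⟩
  have h2 := hfr z h1
  rw [mem_ball_zero_iff] at hz2
  linarith

/-- The domain with all its properties, and the solution. -/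
theorem dmn (hEXI : S_EXI) (hNUM : S_NUM) (hFN1 : S_FN1) (hFN2 : S_FN2) (hFN3 : S_FN3)
    (hFN4 : S_FN4) (hFN5 : S_FN5) (hD2 : S_D2) (hPOL : S_POL) (hAN : S_AN) (hPDE : S_PDE)
    (hINJ : S_INJ) (hTOP : S_TOP) (hLIP : S_LIP) (hNB : S_NB)
    (hWK1 : S_WK1) (hWK2 : S_WK2) (hWK3 : S_WK3) :
    ∃ (ρ r : ℝ) (f : ℂ → ℂ) (Ω : Set ℂ), Dmn ρ r f Ω ∧ Sln ρ r f Ω := by
  obtain ⟨P, hG, hbd⟩ := hNUM
  obtain ⟨X, h, v, y, hX, hX', hsol, hO, hh⟩ := hEXI P hG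
  have hX0 : 0 < X := lt_of_lt_of_le (by norm_num) hX
  have hF : Full P X h v y := ⟨hG, hbd, hX0, hX', hsol, hO, hh⟩
  obtain ⟨hconf, hnd⟩ := hFN1 P X h v y hF
  obtain ⟨hQd, hQb⟩ := hFN2 P X h v y hF
  have hStr : Str P.ρ (rF P) (fF P h) (QF P X h v y) :=
    ⟨hconf, hQd, hQb, hFN3 P X h v y hF, hFN4 P X h v y hF, hFN5 P X h v y hF⟩
  obtain ⟨r', c, U, S, hr1, hr2, hCl⟩ := hPDE _ _ _ _ hStr
  obtain ⟨t1, t2, t3, t4, t5, t6⟩ := hTOP _ _ _ hconf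
  obtain ⟨w1, w2, w3⟩ := hWK1 _ _ _ _ _ _ _ hconf hr1 hr2 hCl
  obtain ⟨hcv, hscv⟩ := hPOL P.ρ (rF P) (fF P h) hconf.rho_pos hconf.r_gt hconf.f_diff
    (hD2 P X h v y hF)
  obtain ⟨han, hrot⟩ := hAN P X h v y hF
  have hρ := hconf.rho_pos
  have hcl : closure (Om (fF P h)) = fF P h '' Metric.closedBall 0 1 := by
    rw [closure_eq_self_union_frontier, t5, ← Metric.ball_union_sphere, image_union]
    rfl
  refine ⟨P.ρ, rF P, fF P h, Om (fF P h), ⟨rfl, hρ, hconf.r_gt, hconf.f_diff,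
    (hINJ _ _ _ hconf).2, t1, t2, t3, t4, t6, ?_, hcv, ?_, ?_, ?_, ?_, hNB _ _ _ hconf hnd⟩,
    ⟨hconf, hnd, r', c, U, S, hr1, hr2, hCl, hCl.c_ne, w1, w2, ?_, ?_, w3⟩⟩
  · intro p hp
    rw [t5] at hp
    obtain ⟨z, hz, rfl⟩ := hp
    exact hLIP _ _ _ hconf z (by simpa using hz)
  · rw [hcl]
    exact hscv
  · refine ball_sub t1 ⟨0, Metric.mem_ball_self one_pos, hconf.f_zero⟩ (by nlinarith) ?_
    intro w hw
    rw [t5] at hw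
    obtain ⟨z, hz, rfl⟩ := hw
    have hz1 : ‖z‖ = 1 := by simpa using hz
    have h1 := abs_le.1 (han z hz1.le)
    rw [hz1] at h1
    linarith [h1.1]
  · rintro w ⟨z, hz, rfl⟩
    rw [mem_ball_zero_iff] at hz ⊢
    have h1 := abs_le.1 (han z hz.le)
    have h2 : P.ρ * ‖z‖ < P.ρ * 1 := mul_lt_mul_of_pos_left hz hρ
    linarith [h1.2]
  · intro ω hω
    have hn : P.n = 1897 := n_eq hG
    have hω1 : ‖ω‖ = 1 := by
      have h1 : ‖ω‖ ^ 1897 = 1 := by rw [← norm_pow, hω, norm_one]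
      exact (pow_eq_one_iff_of_nonneg (norm_nonneg _) (by norm_num)).1 h1
    have hω0 : ω ≠ 0 := by
      intro h0
      rw [h0, norm_zero] at hω1
      exact zero_ne_one hω1
    have hr := hrot ω (by rw [hn]; exact hω)
    have hr' := hrot ω⁻¹ (by rw [hn, inv_pow, hω, inv_one])
    apply Subset.antisymm
    · rintro w ⟨_, ⟨z, hz, rfl⟩, rfl⟩
      refine ⟨ω * z, ?_, hr z⟩
      rw [mem_ball_zero_iff] at hz ⊢
      rwa [norm_mul, hω1, one_mul]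
    · rintro w ⟨z, hz, rfl⟩
      refine ⟨fF P h (ω⁻¹ * z), ⟨ω⁻¹ * z, ?_, rfl⟩, ?_⟩
      · rw [mem_ball_zero_iff] at hz ⊢
        rwa [norm_mul, norm_inv, hω1, inv_one, one_mul]
      · simp only
        rw [hr' z, ← mul_assoc, mul_inv_cancel₀ hω0, one_mul]
  · exact hWK2 _ _ _ _ _ _ _ hconf hr1 hr2 hCl
  · exact hWK3 _ _ _ _ _ _ _ hconf hr1 hr2 hCl

end Pool.Agent.H957.CX
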