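import Pool.Graph.R_pool_sql_team_seeded_63374d34.N596.SC.Pomp

/-!
Project CX (helper957), problem MP_a61b9a_an: the Fourier-Laplace transform of the indicator
function of a Schiffer domain is divisible by `ζ₁² + ζ₂² - 1`.
-/

set_option autoImplicit false

open Set Filter Topology MeasureTheory

namespace Pool.Agent.H957.CX.PF

/-- the exponential `exp (- i (x₁ ζ₁ + x₂ ζ₂))` -/
noncomputable def ee (ζ : Fin 2 → ℂ) (x : ℂ) : ℂ :=
  Complex.exp (-(Complex.I * ((x.re : ℂ) * ζ 0 + (x.im : ℂ) * ζ 1)))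

/-- the linear form in the exponent -/
noncomputable def ell (ζ : Fin 2 → ℂ) : ℂ →L[ℝ] ℂ :=
  -(Complex.I • ((ζ 0) • (Complex.ofRealCLM.comp Complex.reCLM) +
    (ζ 1) • (Complex.ofRealCLM.comp Complex.imCLM)))

theorem ell_apply (ζ : Fin 2 → ℂ) (x : ℂ) :
    ell ζ x = -(Complex.I * ((x.re : ℂ) * ζ 0 + (x.im : ℂ) * ζ 1)) := by
  simp only [ell, neg_apply, smul_apply, add_apply, ContinuousLinearMap.comp_apply, Complex.reCLM_apply,
    Complex.imCLM_apply, Complex.ofRealCLM_apply, smul_eq_mul]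
  ring

theorem ee_eq (ζ : Fin 2 → ℂ) : ee ζ = fun x => Complex.exp (ell ζ x) := by
  funext x
  rw [ee, ell_apply]

theorem ee_smooth (ζ : Fin 2 → ℂ) : ContDiff ℝ 2 (ee ζ) := by
  rw [ee_eq]
  exact (ell ζ).contDiff.cexp

theorem ee_deriv (ζ : Fin 2 → ℂ) (x v : ℂ) :
    fderiv ℝ (ee ζ) x v = ell ζ v * ee ζ x := by
  have h : HasFDerivAt (fun x => Complex.exp (ell ζ x)) (Complex.exp (ell ζ x) • (ell ζ)) x :=
    (ell ζ).hasFDerivAt.cexp
  rw [ee_eq, h.fderiv]
  simp [mul_comm]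

section
variable {Ω : Set ℂ} {c : ℝ} {u : ℂ → ℝ} {G : ℂ → ℂ}

theorem memLp_of_cont (hb : Bornology.IsBounded Ω) (g : ℂ → ℂ) (hg : Continuous g) :
    MemLp g 2 (volume.restrict Ω) := by
  have hfin : IsFiniteMeasure (volume.restrict Ω) := ⟨by
    rw [Measure.restrict_apply_univ]
    exact hb.measure_lt_top⟩
  obtain ⟨R, hR⟩ := hb.subset_closedBall 0
  obtain ⟨C, hC⟩ := (isCompact_closedBall (0 : ℂ) R).exists_bound_of_continuousOn hg.continuousOn
  have h1 : ∀ᵐ x ∂(volume.restrict Ω), ‖g x‖ ≤ C := by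
    refine ae_restrict_of_ae_restrict_of_subset hR ?_
    rw [ae_restrict_iff' Metric.isClosed_closedBall.measurableSet]
    exact Eventually.of_forall hC
  exact MemLp.of_bound hg.aestronglyMeasurable C h1

/-- the product of a square integrable real function and a continuous function is integrable -/
theorem int_mul (hb : Bornology.IsBounded Ω) {w : ℂ → ℝ} (hw : MemLp w 2 (volume.restrict Ω))
    (g : ℂ → ℂ) (hg : Continuous g) :
    Integrable (fun x => (w x : ℂ) * g x) (volume.restrict Ω) := by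
  have h1 : MemLp (fun x => (w x : ℂ)) 2 (volume.restrict Ω) := hw.ofReal
  exact h1.integrable_mul (memLp_of_cont hb g hg)

/-- complex version of the first identity -/
theorem cid1 (hΩ : IsOpen Ω) (hb : Bornology.IsBounded Ω)
    (hu : MemLp u 2 (volume.restrict Ω)) (hG : MemLp G 2 (volume.restrict Ω))
    (h1 : ∀ φ : ℂ → ℝ, ContDiff ℝ 1 φ → HasCompactSupport φ → ∀ v : ℂ,
      ∫ x in Ω, (u x - c) * (fderiv ℝ φ x v) = - ∫ x in Ω, @inner ℝ ℂ _ (G x) v * φ x)
    (θ : ℂ → ℂ) (hθ : ContDiff ℝ 1 θ) (v : ℂ) :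
    ∫ x in Ω, ((u x - c : ℝ) : ℂ) * (fderiv ℝ θ x v) =
      - ∫ x in Ω, ((@inner ℝ ℂ _ (G x) v : ℝ) : ℂ) * θ x := by
  have hfin : IsFiniteMeasure (volume.restrict Ω) := ⟨by
    rw [Measure.restrict_apply_univ]
    exact hb.measure_lt_top⟩
  have hre : ContDiff ℝ 1 fun x => (θ x).re := Complex.reCLM.contDiff.comp hθ
  have him : ContDiff ℝ 1 fun x => (θ x).im := Complex.imCLM.contDiff.comp hθ
  have e1 := Pool.Agent.N596.SC.id1 hΩ hb h1 _ hre v
  have e2 := Pool.Agent.N596.SC.id1 hΩ hb h1 _ him v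
  have d0 : ∀ x, HasFDerivAt θ (fderiv ℝ θ x) x := fun x =>
    (hθ.differentiable one_ne_zero x).hasFDerivAt
  have d1 : ∀ x, fderiv ℝ (fun x => (θ x).re) x v = (fderiv ℝ θ x v).re := by
    intro x
    have := (Complex.reCLM.hasFDerivAt (x := θ x)).comp x (d0 x)
    have h := this.fderiv
    change fderiv ℝ (fun x => (θ x).re) x = _ at h
    rw [h]
    rfl
  have d2 : ∀ x, fderiv ℝ (fun x => (θ x).im) x v = (fderiv ℝ θ x v).im := by
    intro x
    have := (Complex.imCLM.hasFDerivAt (x := θ x)).comp x (d0 x)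
    have h := this.fderiv
    change fderiv ℝ (fun x => (θ x).im) x = _ at h
    rw [h]
    rfl
  simp only [d1] at e1
  simp only [d2] at e2
  have hc : Continuous fun x => fderiv ℝ θ x v :=
    (hθ.continuous_fderiv one_ne_zero).clm_apply continuous_const
  have huc : MemLp (fun x => u x - c) 2 (volume.restrict Ω) := hu.sub (memLp_const c)
  have hGv : MemLp (fun x => @inner ℝ ℂ _ (G x) v) 2 (volume.restrict Ω) := by
    have h := ((innerSL ℝ v).comp_memLp' hG)
    refine (memLp_congr_ae (Eventually.of_forall fun x => ?_)).1 h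
    simp [real_inner_comm]
  have i1 := int_mul hb huc _ hc
  have i2 := int_mul hb hGv θ hθ.continuous
  apply Complex.ext
  · have a1 : (∫ x in Ω, ((u x - c : ℝ) : ℂ) * (fderiv ℝ θ x v)).re =
        ∫ x in Ω, (u x - c) * (fderiv ℝ θ x v).re := by
      have := (Complex.reCLM.integral_comp_comm i1).symm
      simp only [Complex.reCLM_apply] at this
      rw [this]
      refine integral_congr_ae (Eventually.of_forall fun x => ?_)
      simp only [Complex.re_ofReal_mul]
    have a2 : (∫ x in Ω, ((@inner ℝ ℂ _ (G x) v : ℝ) : ℂ) * θ x).re =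
        ∫ x in Ω, @inner ℝ ℂ _ (G x) v * (θ x).re := by
      have := (Complex.reCLM.integral_comp_comm i2).symm
      simp only [Complex.reCLM_apply] at this
      rw [this]
      refine integral_congr_ae (Eventually.of_forall fun x => ?_)
      simp only [Complex.re_ofReal_mul]
    rw [a1, Complex.neg_re, a2, e1]
  · have a1 : (∫ x in Ω, ((u x - c : ℝ) : ℂ) * (fderiv ℝ θ x v)).im =
        ∫ x in Ω, (u x - c) * (fderiv ℝ θ x v).im := by
      have := (Complex.imCLM.integral_comp_comm i1).symm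
      simp only [Complex.imCLM_apply] at this
      rw [this]
      refine integral_congr_ae (Eventually.of_forall fun x => ?_)
      simp only [Complex.im_ofReal_mul]
    have a2 : (∫ x in Ω, ((@inner ℝ ℂ _ (G x) v : ℝ) : ℂ) * θ x).im =
        ∫ x in Ω, @inner ℝ ℂ _ (G x) v * (θ x).im := by
      have := (Complex.imCLM.integral_comp_comm i2).symm
      simp only [Complex.imCLM_apply] at this
      rw [this]
      refine integral_congr_ae (Eventually.of_forall fun x => ?_)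
      simp only [Complex.im_ofReal_mul]
    rw [a1, Complex.neg_im, a2, e2]

/-- complex version of the second identity -/
theorem cid2 (hΩ : IsOpen Ω) (hb : Bornology.IsBounded Ω)
    (hu : MemLp u 2 (volume.restrict Ω)) (hG : MemLp G 2 (volume.restrict Ω))
    (h2 : ∀ φ : ℂ → ℝ, ContDiff ℝ 1 φ → HasCompactSupport φ →
      ∫ x in Ω, fderiv ℝ φ x (G x) = 1 * ∫ x in Ω, u x * φ x)
    (ζ : Fin 2 → ℂ) :
    ∫ x in Ω, ell ζ (G x) * ee ζ x = ∫ x in Ω, (u x : ℂ) * ee ζ x := by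
  have hθ : ContDiff ℝ 1 (ee ζ) := (ee_smooth ζ).of_le (by norm_num)
  have hre : ContDiff ℝ 1 fun x => (ee ζ x).re := Complex.reCLM.contDiff.comp hθ
  have him : ContDiff ℝ 1 fun x => (ee ζ x).im := Complex.imCLM.contDiff.comp hθ
  have e1 := Pool.Agent.N596.SC.id2 hΩ hb h2 _ hre
  have e2 := Pool.Agent.N596.SC.id2 hΩ hb h2 _ him
  have d0 : ∀ x, HasFDerivAt (ee ζ) (fderiv ℝ (ee ζ) x) x := fun x =>
    (hθ.differentiable one_ne_zero x).hasFDerivAt
  have d1 : ∀ x v, fderiv ℝ (fun x => (ee ζ x).re) x v = (ell ζ v * ee ζ x).re := by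
    intro x v
    have := (Complex.reCLM.hasFDerivAt (x := ee ζ x)).comp x (d0 x)
    have h := this.fderiv
    change fderiv ℝ (fun x => (ee ζ x).re) x = _ at h
    rw [h, ← ee_deriv]
    rfl
  have d2 : ∀ x v, fderiv ℝ (fun x => (ee ζ x).im) x v = (ell ζ v * ee ζ x).im := by
    intro x v
    have := (Complex.imCLM.hasFDerivAt (x := ee ζ x)).comp x (d0 x)
    have h := this.fderiv
    change fderiv ℝ (fun x => (ee ζ x).im) x = _ at h
    rw [h, ← ee_deriv]
    rfl
  simp only [d1] at e1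
  simp only [d2] at e2
  have i2 := int_mul hb hu _ hθ.continuous
  have i1 : Integrable (fun x => ell ζ (G x) * ee ζ x) (volume.restrict Ω) := by
    have h1 : MemLp (fun x => ell ζ (G x)) 2 (volume.restrict Ω) := (ell ζ).comp_memLp' hG
    exact h1.integrable_mul (memLp_of_cont hb _ hθ.continuous)
  apply Complex.ext
  · have a1 := (Complex.reCLM.integral_comp_comm i1).symm
    have a2 := (Complex.reCLM.integral_comp_comm i2).symm
    simp only [Complex.reCLM_apply] at a1 a2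
    rw [a1, a2, e1]
    refine integral_congr_ae (Eventually.of_forall fun x => ?_)
    simp only [Complex.re_ofReal_mul]
  · have a1 := (Complex.imCLM.integral_comp_comm i1).symm
    have a2 := (Complex.imCLM.integral_comp_comm i2).symm
    simp only [Complex.imCLM_apply] at a1 a2
    rw [a1, a2, e2]
    refine integral_congr_ae (Eventually.of_forall fun x => ?_)
    simp only [Complex.im_ofReal_mul]

/-- The Fourier-Laplace transform is divisible by `ζ₁² + ζ₂² - 1`. -/
theorem key (hΩ : IsOpen Ω) (hb : Bornology.IsBounded Ω)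
    (hu : MemLp u 2 (volume.restrict Ω)) (hG : MemLp G 2 (volume.restrict Ω))
    (h1 : ∀ φ : ℂ → ℝ, ContDiff ℝ 1 φ → HasCompactSupport φ → ∀ v : ℂ,
      ∫ x in Ω, (u x - c) * (fderiv ℝ φ x v) = - ∫ x in Ω, @inner ℝ ℂ _ (G x) v * φ x)
    (h2 : ∀ φ : ℂ → ℝ, ContDiff ℝ 1 φ → HasCompactSupport φ →
      ∫ x in Ω, fderiv ℝ φ x (G x) = 1 * ∫ x in Ω, u x * φ x)
    (ζ : Fin 2 → ℂ) :
    (c : ℂ) * ∫ x in Ω, ee ζ x = (ζ 0 ^ 2 + ζ 1 ^ 2 - 1) * ∫ x in Ω, ((u x - c : ℝ) : ℂ) * ee ζ x := by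
  have hfin : IsFiniteMeasure (volume.restrict Ω) := ⟨by
    rw [Measure.restrict_apply_univ]
    exact hb.measure_lt_top⟩
  have hθ : ContDiff ℝ 1 (ee ζ) := (ee_smooth ζ).of_le (by norm_num)
  have huc : MemLp (fun x => u x - c) 2 (volume.restrict Ω) := hu.sub (memLp_const c)
  have b1 := cid1 hΩ hb hu hG h1 (fun x => ell ζ 1 * ee ζ x) (contDiff_const.mul hθ) 1
  have b2 := cid1 hΩ hb hu hG h1 (fun x => ell ζ Complex.I * ee ζ x) (contDiff_const.mul hθ)
    Complex.I
  have b3 := cid2 hΩ hb hu hG h2 ζ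
  have f1 : ∀ (k : ℂ) (x v : ℂ), fderiv ℝ (fun x => k * ee ζ x) x v = k * (ell ζ v * ee ζ x) := by
    intro k x v
    have d0 : HasFDerivAt (ee ζ) (fderiv ℝ (ee ζ) x) x :=
      (hθ.differentiable one_ne_zero x).hasFDerivAt
    rw [(d0.const_mul k).fderiv, ← ee_deriv]
    rfl
  have l1 : ell ζ 1 = -(Complex.I * ζ 0) := by
    rw [ell_apply]; simp
  have l2 : ell ζ Complex.I = -(Complex.I * ζ 1) := by
    rw [ell_apply]; simp
  have g1 : ∀ x, @inner ℝ ℂ _ (G x) 1 = (G x).re := by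
    intro x
    rw [Complex.inner]
    simp
  have g2 : ∀ x, @inner ℝ ℂ _ (G x) Complex.I = (G x).im := by
    intro x
    rw [Complex.inner]
    simp
  simp only [f1, l1, g1] at b1
  simp only [f1, l2, g2] at b2
  have iu := int_mul hb huc _ hθ.continuous
  have iG1 : Integrable (fun x => (((G x).re : ℝ) : ℂ) * (-(Complex.I * ζ 0) * ee ζ x))
      (volume.restrict Ω) := int_mul hb hG.re _ (continuous_const.mul hθ.continuous)
  have iG2 : Integrable (fun x => (((G x).im : ℝ) : ℂ) * (-(Complex.I * ζ 1) * ee ζ x))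
      (volume.restrict Ω) := int_mul hb hG.im _ (continuous_const.mul hθ.continuous)
  have ie : Integrable (ee ζ) (volume.restrict Ω) :=
    (memLp_of_cont hb _ hθ.continuous).integrable (by norm_num)
  have s1 : ∫ x in Ω, ((u x - c : ℝ) : ℂ) * (-(Complex.I * ζ 0) * (-(Complex.I * ζ 0) * ee ζ x)) =
      -(ζ 0 ^ 2) * ∫ x in Ω, ((u x - c : ℝ) : ℂ) * ee ζ x := by
    rw [← integral_const_mul]
    refine integral_congr_ae (Eventually.of_forall fun x => ?_)
    simp only
    linear_combination ((u x - c : ℝ) : ℂ) * ζ 0 ^ 2 * ee ζ x * Complex.I_sq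
  have s2 : ∫ x in Ω, ((u x - c : ℝ) : ℂ) * (-(Complex.I * ζ 1) * (-(Complex.I * ζ 1) * ee ζ x)) =
      -(ζ 1 ^ 2) * ∫ x in Ω, ((u x - c : ℝ) : ℂ) * ee ζ x := by
    rw [← integral_const_mul]
    refine integral_congr_ae (Eventually.of_forall fun x => ?_)
    simp only
    linear_combination ((u x - c : ℝ) : ℂ) * ζ 1 ^ 2 * ee ζ x * Complex.I_sq
  have s3 : ∫ x in Ω, ell ζ (G x) * ee ζ x =
      (∫ x in Ω, (((G x).re : ℝ) : ℂ) * (-(Complex.I * ζ 0) * ee ζ x)) +
      ∫ x in Ω, (((G x).im : ℝ) : ℂ) * (-(Complex.I * ζ 1) * ee ζ x) := by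
    rw [← integral_add iG1 iG2]
    refine integral_congr_ae (Eventually.of_forall fun x => ?_)
    simp only [ell_apply]
    ring
  have s4 : ∫ x in Ω, (u x : ℂ) * ee ζ x =
      (∫ x in Ω, ((u x - c : ℝ) : ℂ) * ee ζ x) + (c : ℂ) * ∫ x in Ω, ee ζ x := by
    rw [← integral_const_mul, ← integral_add iu (ie.const_mul _)]
    refine integral_congr_ae (Eventually.of_forall fun x => ?_)
    simp only [Complex.ofReal_sub]
    ring
  rw [s1] at b1
  rw [s2] at b2
  rw [s3, s4] at b3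
  linear_combination b1 + b2 - b3

/-- The quotient is an entire function. -/
theorem entire (hb : Bornology.IsBounded Ω) (hΩ : MeasurableSet Ω) {w : ℂ → ℝ}
    (hw : MemLp w 2 (volume.restrict Ω)) :
    Differentiable ℂ (fun ζ : Fin 2 → ℂ => ∫ x in Ω, (w x : ℂ) * ee ζ x) := by
  have hfin : IsFiniteMeasure (volume.restrict Ω) := ⟨by
    rw [Measure.restrict_apply_univ]
    exact hb.measure_lt_top⟩
  obtain ⟨R, hR0, hR⟩ := hb.subset_ball_lt 0 0
  intro ζ₀
  set L : ℂ → ((Fin 2 → ℂ) →L[ℂ] ℂ) := fun x =>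
    -(Complex.I • ((x.re : ℂ) • ContinuousLinearMap.proj (R := ℂ) (φ := fun _ : Fin 2 => ℂ) 0 +
      (x.im : ℂ) • ContinuousLinearMap.proj (R := ℂ) (φ := fun _ : Fin 2 => ℂ) 1)) with hL
  have hLa : ∀ x ζ, L x ζ = -(Complex.I * ((x.re : ℂ) * ζ 0 + (x.im : ℂ) * ζ 1)) := by
    intro x ζ
    simp only [hL, neg_apply, smul_apply, add_apply, ContinuousLinearMap.proj_apply, smul_eq_mul]
  have hLc : Continuous L := by
    rw [hL]
    fun_prop
  have hLn : ∀ x, ‖L x‖ ≤ 2 * ‖x‖ := by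
    intro x
    refine ContinuousLinearMap.opNorm_le_bound _ (by positivity) fun ζ => ?_
    rw [hLa, norm_neg, norm_mul, Complex.norm_I, one_mul]
    have n0 : ‖ζ 0‖ ≤ ‖ζ‖ := norm_le_pi_norm ζ 0
    have n1 : ‖ζ 1‖ ≤ ‖ζ‖ := norm_le_pi_norm ζ 1
    have m0 : ‖(x.re : ℂ)‖ ≤ ‖x‖ := by
      rw [Complex.norm_real, Real.norm_eq_abs]
      exact Complex.abs_re_le_norm x
    have m1 : ‖(x.im : ℂ)‖ ≤ ‖x‖ := by
      rw [Complex.norm_real, Real.norm_eq_abs]
      exact Complex.abs_im_le_norm x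
    calc ‖(x.re : ℂ) * ζ 0 + (x.im : ℂ) * ζ 1‖ ≤ ‖(x.re : ℂ) * ζ 0‖ + ‖(x.im : ℂ) * ζ 1‖ :=
          norm_add_le _ _
      _ = ‖(x.re : ℂ)‖ * ‖ζ 0‖ + ‖(x.im : ℂ)‖ * ‖ζ 1‖ := by rw [norm_mul, norm_mul]
      _ ≤ ‖x‖ * ‖ζ‖ + ‖x‖ * ‖ζ‖ := by gcongr
      _ = 2 * ‖x‖ * ‖ζ‖ := by ring
  have hee : ∀ ζ x, ee ζ x = Complex.exp (L x ζ) := by
    intro ζ x
    rw [ee, hLa]
  have key : HasFDerivAt (fun ζ : Fin 2 → ℂ => ∫ x in Ω, (w x : ℂ) * ee ζ x)
      (∫ x in Ω, (w x : ℂ) • (ee ζ₀ x • L x)) ζ₀ := by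
    refine hasFDerivAt_integral_of_dominated_of_fderiv_le
      (F' := fun ζ x => (w x : ℂ) • (ee ζ x • L x))
      (bound := fun x => |w x| * (Real.exp (2 * R * (‖ζ₀‖ + 1)) * (2 * R)))
      (Metric.ball_mem_nhds ζ₀ one_pos) ?_ ?_ ?_ ?_ ?_ ?_
    · refine Eventually.of_forall fun ζ => ?_
      exact (int_mul hb hw _ (ee_smooth ζ).continuous).aestronglyMeasurable
    · exact int_mul hb hw _ (ee_smooth ζ₀).continuous
    · have h1 : AEStronglyMeasurable (fun x => (w x : ℂ)) (volume.restrict Ω) :=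
        hw.ofReal.aestronglyMeasurable
      exact h1.smul (((ee_smooth ζ₀).continuous.smul hLc).aestronglyMeasurable)
    · rw [ae_restrict_iff' hΩ]
      refine Eventually.of_forall fun x hx ζ hζ => ?_
      have hx1 : ‖x‖ ≤ R := by
        have := hR hx
        rw [mem_ball_zero_iff] at this
        exact this.le
      have hζ1 : ‖ζ‖ ≤ ‖ζ₀‖ + 1 := by
        rw [Metric.mem_ball, dist_eq_norm] at hζ
        have := norm_add_le (ζ - ζ₀) ζ₀
        rw [sub_add_cancel] at this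
        linarith
      rw [norm_smul, norm_smul, Complex.norm_real, Real.norm_eq_abs]
      refine mul_le_mul_of_nonneg_left ?_ (abs_nonneg _)
      refine mul_le_mul ?_ ((hLn x).trans (by linarith)) (norm_nonneg _) (Real.exp_pos _).le
      rw [hee]
      refine (Complex.norm_exp_le_exp_norm _).trans (Real.exp_le_exp.2 ?_)
      refine ((L x).le_opNorm ζ).trans ?_
      have h3 : ‖L x‖ ≤ 2 * R := (hLn x).trans (by linarith)
      exact mul_le_mul h3 hζ1 (norm_nonneg _) (by linarith)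
    · have h1 : Integrable w (volume.restrict Ω) := hw.integrable (by norm_num)
      exact h1.abs.mul_const _
    · refine Eventually.of_forall fun x ζ _ => ?_
      have h1 : HasFDerivAt (fun ζ : Fin 2 → ℂ => Complex.exp (L x ζ))
          (Complex.exp (L x ζ) • L x) ζ := (L x).hasFDerivAt.cexp
      have h2 : HasFDerivAt (fun ζ : Fin 2 → ℂ => ee ζ x) (ee ζ x • L x) ζ := by
        simp only [hee]
        exact h1
      exact h2.const_mul (w x : ℂ)
  exact key.differentiableAt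

end

end Pool.Agent.H957.CX.PF
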