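import Mathlib

/-!
Project CX (helper957), problem MP_a61b9a_an: a compact plane set with a rotational symmetry of order
`1897` which is the image of a disc under an affine map is a disc.
-/

set_option autoImplicit false

open Set Filter Topology

namespace Pool.Agent.H957.CX.PF

/-- a primitive root of unity -/
theorem root : ∃ ω : ℂ, ω ^ 1897 = 1 ∧ ω ≠ 1 ∧ ω ^ 2 ≠ 1 ∧ ‖ω‖ = 1 := by
  have h := Complex.isPrimitiveRoot_exp 1897 (by norm_num)
  refine ⟨_, h.pow_eq_one, h.ne_one (by norm_num), ?_, ?_⟩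
  · intro h2
    have := h.dvd_of_pow_eq_one 2 h2
    norm_num at this
  · exact Complex.norm_eq_one_of_pow_eq_one h.pow_eq_one (by norm_num)

section
variable {K : Set ℂ}

theorem rot_mem (hrot : ∀ ω : ℂ, ω ^ 1897 = 1 → (fun z => ω * z) '' K = K) {ω : ℂ}
    (hω : ω ^ 1897 = 1) {x : ℂ} (hx : x ∈ K) : ω * x ∈ K := by
  rw [← hrot ω hω]
  exact ⟨x, hx, rfl⟩

/-- the centre is the origin -/
theorem centre (hb : Bornology.IsBounded K)
    (hrot : ∀ ω : ℂ, ω ^ 1897 = 1 → (fun z => ω * z) '' K = K)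
    (b : ℂ) (hsym : ∀ x ∈ K, 2 * b - x ∈ K) (hne : K.Nonempty) : b = 0 := by
  obtain ⟨ω, h1, h2, -, h4⟩ := root
  have hω0 : ω ≠ 0 := by
    intro h
    rw [h, norm_zero] at h4
    norm_num at h4
  have hinv : ω⁻¹ ^ 1897 = 1 := by rw [inv_pow, h1, inv_one]
  have hT : ∀ x ∈ K, x + 2 * (b - ω * b) ∈ K := by
    intro x hx
    have e1 := rot_mem hrot hinv hx
    have e2 := hsym _ e1
    have e3 := rot_mem hrot h1 e2
    have e4 := hsym _ e3
    have : 2 * b - ω * (2 * b - ω⁻¹ * x) = x + 2 * (b - ω * b) := by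
      field_simp
      ring
    rwa [this] at e4
  obtain ⟨x, hx⟩ := hne
  have hN : ∀ m : ℕ, x + (m : ℂ) * (2 * (b - ω * b)) ∈ K := by
    intro m
    induction m with
    | zero => simpa using hx
    | succ m ih =>
      have := hT _ ih
      have e : x + ((m + 1 : ℕ) : ℂ) * (2 * (b - ω * b)) =
          x + (m : ℂ) * (2 * (b - ω * b)) + 2 * (b - ω * b) := by
        push_cast
        ring
      rwa [e]
  obtain ⟨R, hR⟩ := hb.subset_closedBall 0
  have hz : b - ω * b = 0 := by
    by_contra hne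
    have hpos : 0 < ‖2 * (b - ω * b)‖ := norm_pos_iff.2 (mul_ne_zero two_ne_zero hne)
    obtain ⟨m, hm⟩ := exists_nat_gt ((R + ‖x‖) / ‖2 * (b - ω * b)‖)
    have e1 := hR (hN m)
    rw [mem_closedBall_zero_iff] at e1
    have e2 : ‖(m : ℂ) * (2 * (b - ω * b))‖ ≤ R + ‖x‖ := by
      have := norm_sub_le (x + (m : ℂ) * (2 * (b - ω * b))) x
      rw [add_sub_cancel_left] at this
      linarith
    rw [norm_mul, Complex.norm_natCast] at e2
    rw [div_lt_iff₀ hpos] at hm
    linarith
  have h5 : b * (1 - ω) = 0 := by linear_combination hz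
  rcases mul_eq_zero.1 h5 with h | h
  · exact h
  · exact absurd (sub_eq_zero.1 h).symm h2

/-- the support function of an ellipse -/
theorem supp (α β e : ℂ) (hK : K = (fun z => α * z + β * (starRingEnd ℂ) z) '' Metric.closedBall 0 1)
    (t : ℝ) : (∀ x ∈ K, ((starRingEnd ℂ) e * x).re ≤ t) ↔
      ‖(starRingEnd ℂ) e * α + e * (starRingEnd ℂ) β‖ ≤ t := by
  set w := (starRingEnd ℂ) e * α + e * (starRingEnd ℂ) β with hw
  have hre : ∀ z : ℂ, ((starRingEnd ℂ) e * (α * z + β * (starRingEnd ℂ) z)).re = (w * z).re := by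
    intro z
    rw [hw]
    simp only [Complex.mul_re, Complex.add_re, Complex.add_im, Complex.mul_im, Complex.conj_re,
      Complex.conj_im]
    ring
  constructor
  · intro h
    by_cases hw0 : w = 0
    · have h0 : (0 : ℂ) ∈ K := by
        rw [hK]
        exact ⟨0, by simp, by simp⟩
      have := h 0 h0
      rw [hw0, norm_zero]
      simpa using this
    · have hwn : (‖w‖ : ℝ) ≠ 0 := norm_ne_zero_iff.2 hw0
      have hz : (starRingEnd ℂ) w / (‖w‖ : ℂ) ∈ Metric.closedBall (0 : ℂ) 1 := by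
        rw [mem_closedBall_zero_iff, norm_div, RCLike.norm_conj, Complex.norm_real, norm_norm,
          div_self hwn]
      have hmem : α * ((starRingEnd ℂ) w / (‖w‖ : ℂ)) +
          β * (starRingEnd ℂ) ((starRingEnd ℂ) w / (‖w‖ : ℂ)) ∈ K := by
        rw [hK]
        exact ⟨_, hz, rfl⟩
      have := h _ hmem
      rw [hre] at this
      have e1 : w * ((starRingEnd ℂ) w / (‖w‖ : ℂ)) = ((‖w‖ : ℝ) : ℂ) := by
        rw [mul_div_assoc', Complex.mul_conj, Complex.normSq_eq_norm_sq]
        have : (‖w‖ : ℂ) ≠ 0 := Complex.ofReal_ne_zero.2 hwn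
        field_simp
        push_cast
        ring
      rw [e1, Complex.ofReal_re] at this
      exact this
  · intro h x hx
    rw [hK] at hx
    obtain ⟨z, hz, rfl⟩ := hx
    rw [mem_closedBall_zero_iff] at hz
    simp only
    rw [hre]
    calc (w * z).re ≤ ‖w * z‖ := Complex.re_le_norm _
      _ = ‖w‖ * ‖z‖ := norm_mul _ _
      _ ≤ ‖w‖ * 1 := mul_le_mul_of_nonneg_left hz (norm_nonneg _)
      _ ≤ t := by linarith

theorem normSq_supp (α β e : ℂ) :
    ‖(starRingEnd ℂ) e * α + e * (starRingEnd ℂ) β‖ ^ 2 =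
      ‖e‖ ^ 2 * (‖α‖ ^ 2 + ‖β‖ ^ 2) + 2 * ((starRingEnd ℂ) e ^ 2 * (α * β)).re := by
  rw [← Complex.normSq_eq_norm_sq, ← Complex.normSq_eq_norm_sq, ← Complex.normSq_eq_norm_sq,
    ← Complex.normSq_eq_norm_sq, pow_two ((starRingEnd ℂ) e)]
  simp only [Complex.normSq_apply, Complex.mul_re, Complex.add_re,
    Complex.add_im, Complex.mul_im, Complex.conj_re, Complex.conj_im]
  ring

/-- a compact set with a rotational symmetry which is not a disc is not an ellipse -/
theorem not_ellipse (hb : Bornology.IsBounded K)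
    (hrot : ∀ ω : ℂ, ω ^ 1897 = 1 → (fun z => ω * z) '' K = K)
    (hball : ∀ s : ℝ, K ≠ Metric.closedBall 0 s) (A : ℂ →ₗ[ℝ] ℂ) (b : ℂ) :
    K ≠ (fun z => A z + b) '' Metric.closedBall 0 1 := by
  intro hK
  have hb0 : b = 0 := by
    refine centre hb hrot b ?_ ?_
    · intro x hx
      rw [hK] at hx ⊢
      obtain ⟨z, hz, rfl⟩ := hx
      refine ⟨-z, by simpa using hz, ?_⟩
      simp only [map_neg]
      ring
    · rw [hK]
      exact ⟨_, 0, by simp, rfl⟩
  set α : ℂ := (A 1 - Complex.I * A Complex.I) / 2 with hα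
  set β : ℂ := (A 1 + Complex.I * A Complex.I) / 2 with hβ
  have hA : ∀ z, A z = α * z + β * (starRingEnd ℂ) z := by
    intro z
    have h1 : z = z.re • (1 : ℂ) + z.im • Complex.I := by
      apply Complex.ext <;> simp
    conv_lhs => rw [h1]
    rw [map_add, map_smul, map_smul]
    have h2 : z = (z.re : ℂ) + (z.im : ℂ) * Complex.I := (Complex.re_add_im z).symm
    have h3 : (starRingEnd ℂ) z = (z.re : ℂ) - (z.im : ℂ) * Complex.I := by
      apply Complex.ext <;> simp
    rw [h3]
    conv_rhs => rw [h2]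
    rw [hα, hβ, Complex.real_smul, Complex.real_smul]
    simp only [Complex.add_re, Complex.ofReal_re, Complex.mul_re, Complex.I_re, mul_zero,
      Complex.ofReal_im, Complex.I_im, zero_mul, sub_self, add_zero, Complex.add_im,
      Complex.mul_im, mul_one, zero_add]
    linear_combination ((z.im : ℂ) * A Complex.I) * Complex.I_sq
  have hK' : K = (fun z => α * z + β * (starRingEnd ℂ) z) '' Metric.closedBall 0 1 := by
    rw [hK, hb0]
    refine image_congr fun z _ => ?_
    rw [hA, add_zero]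
  obtain ⟨ω, h1, h2, h3, h4⟩ := root
  have hωc : (starRingEnd ℂ) ω * ω = 1 := by
    rw [mul_comm, Complex.mul_conj, Complex.normSq_eq_norm_sq, h4]
    norm_num
  have hcinv : ((starRingEnd ℂ) ω) ^ 1897 = 1 := by
    rw [← map_pow, h1, map_one]
  -- the support function is invariant
  have hinv : ∀ e : ℂ, ‖(starRingEnd ℂ) e * α + e * (starRingEnd ℂ) β‖ =
      ‖(starRingEnd ℂ) (ω * e) * α + (ω * e) * (starRingEnd ℂ) β‖ := by
    intro e
    apply le_antisymm
    · rw [← supp α β e hK' _]
      intro x hx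
      have hx' := rot_mem hrot h1 hx
      have := (supp α β (ω * e) hK' _).2 le_rfl _ hx'
      have e1 : (starRingEnd ℂ) (ω * e) * (ω * x) = (starRingEnd ℂ) e * x := by
        rw [map_mul]
        linear_combination (starRingEnd ℂ) e * x * hωc
      rwa [e1] at this
    · rw [← supp α β (ω * e) hK' _]
      intro x hx
      have hx' := rot_mem hrot hcinv hx
      have := (supp α β e hK' _).2 le_rfl _ hx'
      have e1 : (starRingEnd ℂ) e * ((starRingEnd ℂ) ω * x) = (starRingEnd ℂ) (ω * e) * x := by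
        rw [map_mul]
        ring
      rwa [e1] at this
  have hre : ∀ e : ℂ, ((starRingEnd ℂ) e ^ 2 * (α * β)).re =
      ((starRingEnd ℂ) e ^ 2 * ((starRingEnd ℂ) ω ^ 2 * (α * β))).re := by
    intro e
    have e1 : ‖(starRingEnd ℂ) e * α + e * (starRingEnd ℂ) β‖ ^ 2 =
      ‖(starRingEnd ℂ) (ω * e) * α + (ω * e) * (starRingEnd ℂ) β‖ ^ 2 := by rw [hinv e]
    rw [normSq_supp, normSq_supp, norm_mul, h4, one_mul] at e1
    have e2 : (starRingEnd ℂ) (ω * e) ^ 2 * (α * β) =
        (starRingEnd ℂ) e ^ 2 * ((starRingEnd ℂ) ω ^ 2 * (α * β)) := by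
      rw [map_mul]
      ring
    rw [e2] at e1
    linarith
  have hprod : α * β = (starRingEnd ℂ) ω ^ 2 * (α * β) := by
    apply Complex.ext
    · have := hre 1
      simpa using this
    · have e0 : ∃ e : ℂ, (starRingEnd ℂ) e ^ 2 = -Complex.I := by
        refine ⟨Complex.exp (Real.pi / 4 * Complex.I), ?_⟩
        rw [← Complex.exp_conj, ← Complex.exp_nat_mul]
        have : ((2 : ℕ) : ℂ) * (starRingEnd ℂ) (Real.pi / 4 * Complex.I) =
            -(Real.pi / 2 * Complex.I) := by
          simp only [map_mul, map_div₀, Complex.conj_ofReal, Complex.conj_I, map_ofNat]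
          push_cast
          ring
        rw [this, Complex.exp_neg, Complex.exp_pi_div_two_mul_I, Complex.inv_I]
      obtain ⟨e, he⟩ := e0
      have := hre e
      rw [he] at this
      simpa using this
  have hαβ : α * β = 0 := by
    have h5 : (1 - (starRingEnd ℂ) ω ^ 2) * (α * β) = 0 := by linear_combination hprod
    rcases mul_eq_zero.1 h5 with h | h
    · exfalso
      apply h3
      have h6 : (starRingEnd ℂ) (ω ^ 2) = 1 := by
        rw [map_pow]
        exact (sub_eq_zero.1 h).symm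
      have := congrArg (starRingEnd ℂ) h6
      rwa [Complex.conj_conj, map_one] at this
    · exact h
  have hcb : ∀ a : ℂ, (fun z => a * z) '' Metric.closedBall (0 : ℂ) 1 = Metric.closedBall 0 ‖a‖ := by
    intro a
    have := smul_unitClosedBall (E := ℂ) a
    rw [← this]
    rfl
  rcases mul_eq_zero.1 hαβ with h | h
  · apply hball ‖β‖
    rw [hK', ← hcb β]
    ext x
    constructor
    · rintro ⟨z, hz, rfl⟩
      refine ⟨(starRingEnd ℂ) z, ?_, ?_⟩
      · rw [mem_closedBall_zero_iff, RCLike.norm_conj]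
        exact mem_closedBall_zero_iff.1 hz
      · simp [h]
    · rintro ⟨z, hz, rfl⟩
      refine ⟨(starRingEnd ℂ) z, ?_, ?_⟩
      · rw [mem_closedBall_zero_iff, RCLike.norm_conj]
        exact mem_closedBall_zero_iff.1 hz
      · simp [h]
  · apply hball ‖α‖
    rw [hK', ← hcb α]
    refine image_congr fun z _ => ?_
    rw [h]
    ring

end

end Pool.Agent.H957.CX.PF
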