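import Pool.Agent.H957.CX.Fin
import Pool.Agent.H957.CX.PF1
import Pool.Agent.H957.CX.PF2

/-!
Project CX (helper957), problem MP_a61b9a_an: the convex body with the polynomial factor
`ζ₁² + ζ₂² - 1`.
-/

set_option autoImplicit false

open Set Filter Topology MeasureTheory

namespace Pool.Agent.H957.CX.PF

open Pool.Agent.N229.SC

/-- the identification of `ℂ` and `ℝ²` -/
noncomputable def E : ℂ ≃L[ℝ] (Fin 2 → ℝ) := Complex.basisOneI.equivFun.toContinuousLinearEquiv

theorem E_apply (z : ℂ) : E z = ![z.re, z.im] := rfl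

theorem E_zero (z : ℂ) : E z 0 = z.re := rfl

theorem E_one (z : ℂ) : E z 1 = z.im := rfl

theorem normSq_E (z : ℂ) : E z 0 ^ 2 + E z 1 ^ 2 = ‖z‖ ^ 2 := by
  rw [E_zero, E_one, ← Complex.normSq_eq_norm_sq, Complex.normSq_apply]
  ring

theorem E_ball {s : ℝ} (hs : 0 ≤ s) :
    {x : Fin 2 → ℝ | x 0 ^ 2 + x 1 ^ 2 ≤ s ^ 2} = E '' Metric.closedBall 0 s := by
  ext x
  constructor
  · intro hx
    refine ⟨E.symm x, ?_, E.apply_symm_apply x⟩
    rw [mem_closedBall_zero_iff, ← abs_of_nonneg (norm_nonneg (E.symm x)), ← abs_of_nonneg hs,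
      ← sq_le_sq, ← normSq_E, E.apply_symm_apply]
    exact hx
  · rintro ⟨z, hz, rfl⟩
    rw [mem_closedBall_zero_iff] at hz
    have := normSq_E z
    change E z 0 ^ 2 + E z 1 ^ 2 ≤ s ^ 2
    rw [this]
    exact pow_le_pow_left₀ (norm_nonneg _) hz 2

/-- the Fourier-Laplace transform of `1_K` -/
noncomputable def FT (K : Set (Fin 2 → ℝ)) (ζ : Fin 2 → ℂ) : ℂ :=
  ∫ x in K, Complex.exp (-(Complex.I * ∑ i, (x i : ℂ) * ζ i))

theorem FT_image (S : Set ℂ) (ζ : Fin 2 → ℂ) : FT (E '' S) ζ = ∫ z in S, ee ζ z := by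
  have h := Complex.volume_preserving_equiv_pi.setIntegral_image_emb
    Complex.measurableEquivPi.measurableEmbedding
    (fun x : Fin 2 → ℝ => Complex.exp (-(Complex.I * ∑ i, (x i : ℂ) * ζ i))) S
  have e1 : (Complex.measurableEquivPi : ℂ → (Fin 2 → ℝ)) '' S = E '' S := rfl
  rw [e1] at h
  rw [FT, h]
  refine integral_congr_ae (Eventually.of_forall fun z => ?_)
  simp only [Fin.sum_univ_two, ee, Complex.measurableEquivPi_apply, Matrix.cons_val_zero,
    Matrix.cons_val_one]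

theorem closure_eq {f : ℂ → ℂ} {r : ℝ} (hr : 1 < r) (hf : DifferentiableOn ℂ f (Metric.ball 0 r)) :
    closure (f '' Metric.ball 0 1) = f '' Metric.closedBall 0 1 := by
  have hsub : Metric.closedBall (0 : ℂ) 1 ⊆ Metric.ball 0 r := Metric.closedBall_subset_ball hr
  have hc : ContinuousOn f (Metric.closedBall 0 1) := hf.continuousOn.mono hsub
  apply Subset.antisymm
  · refine closure_minimal (image_mono Metric.ball_subset_closedBall) ?_
    exact ((isCompact_closedBall (0 : ℂ) 1).image_of_continuousOn hc).isClosed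
  · have h1 : closure (Metric.ball (0 : ℂ) 1) = Metric.closedBall 0 1 :=
      closure_ball 0 one_ne_zero
    have h2 : ContinuousOn f (closure (Metric.ball (0 : ℂ) 1)) := by rwa [h1]
    have h3 := h2.image_closure
    rwa [h1] at h3

theorem core {ρ r : ℝ} {f : ℂ → ℂ} {Ω : Set ℂ} (hD : Dmn ρ r f Ω) (hS : Sln ρ r f Ω) :
    ∃ K : Set (Fin 2 → ℝ), IsCompact K ∧ (interior K).Nonempty ∧ StrictConvex ℝ K ∧
      (∀ (A : (Fin 2 → ℝ) →ₗ[ℝ] (Fin 2 → ℝ)) (b : Fin 2 → ℝ),
        K ≠ (fun x => A x + b) '' {x | x 0 ^ 2 + x 1 ^ 2 ≤ 1}) ∧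
      (∃ F : (Fin 2 → ℂ) → ℂ, Differentiable ℂ F ∧
        ∀ ζ, FT K ζ = (ζ 0 ^ 2 + ζ 1 ^ 2 - 1) * F ζ) ∧
      (∃ s : ℝ, 0 < s ∧ {x | x 0 ^ 2 + x 1 ^ 2 ≤ (s * (1 - 1 / 10 ^ 6)) ^ 2} ⊆ K ∧
        K ⊆ {x | x 0 ^ 2 + x 1 ^ 2 ≤ (s * (1 + 1 / 10 ^ 6)) ^ 2}) ∧
      ∃ (g : ℂ → ℂ) (R : ℝ), 1 < R ∧ DifferentiableOn ℂ g (Metric.ball 0 R) ∧
        InjOn g (Metric.ball 0 R) ∧
        K = (fun z => ![(g z).re, (g z).im]) '' Metric.closedBall 0 1 ∧
        ∀ ω : ℂ, ω ^ 1897 = 1 →
          (fun z => ω * z) '' (g '' Metric.closedBall 0 1) = g '' Metric.closedBall 0 1 := by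
  have hcl : closure Ω = f '' Metric.closedBall 0 1 := by
    rw [hD.dom]
    exact closure_eq hD.r1 hD.diff
  have hρ := hD.ρ0
  have hcomp : IsCompact (closure Ω) := hD.bd.isCompact_closure
  have hne : Ω.Nonempty := hD.conn.nonempty
  have hint : interior (closure Ω) = Ω := by
    rw [hD.cvx.interior_closure_eq_interior_of_nonempty_interior
      (by rw [hD.op.interior_eq]; exact hne), hD.op.interior_eq]
  have hrot : ∀ ω : ℂ, ω ^ 1897 = 1 → (fun z => ω * z) '' closure Ω = closure Ω := by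
    intro ω hω
    have hω0 : ω ≠ 0 := by
      intro h
      rw [h, zero_pow (by norm_num)] at hω
      exact zero_ne_one hω
    have h1 := (Homeomorph.mulLeft₀ ω hω0).image_closure Ω
    have h2 : (Homeomorph.mulLeft₀ ω hω0 : ℂ → ℂ) = fun z => ω * z := rfl
    rw [h2, hD.rot ω hω] at h1
    exact h1
  have hball : ∀ s : ℝ, closure Ω ≠ Metric.closedBall 0 s := by
    intro s hs
    apply hD.nd 0 s
    rw [← hint, hs, interior_closedBall']
  refine ⟨E '' closure Ω, hcomp.image E.continuous, ?_, ?_, ?_, ?_, ?_, f, r, hD.r1, hD.diff,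
    hD.inj, ?_, ?_⟩
  · have h1 : E '' Ω ⊆ interior (E '' closure Ω) :=
      (E.toHomeomorph.isOpenMap _ hD.op).subset_interior_iff.2 (image_mono subset_closure)
    exact (hne.image E).mono h1
  · exact hD.scvx.linear_image E.toLinearEquiv.toLinearMap E.toHomeomorph.isOpenMap
  · intro A b hK
    have h2 := not_ellipse hcomp.isBounded hrot hball
      ((E.symm.toLinearEquiv.toLinearMap.comp A).comp E.toLinearEquiv.toLinearMap) (E.symm b)
    apply h2
    have h3 : {x : Fin 2 → ℝ | x 0 ^ 2 + x 1 ^ 2 ≤ 1} = E '' Metric.closedBall 0 1 := by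
      have := E_ball (s := 1) zero_le_one
      rwa [one_pow] at this
    rw [h3, image_image] at hK
    have h4 : closure Ω = E.symm '' (E '' closure Ω) := by
      rw [image_image]
      simp
    rw [h4, hK, image_image]
    refine image_congr fun z _ => ?_
    simp
  · obtain ⟨r', c, U, S, -, -, -, hc, hW⟩ := hS.ex
    obtain ⟨w1, w2, w3, w4, -⟩ := hW
    have hfin : IsFiniteMeasure (volume.restrict Ω) := ⟨by
      rw [Measure.restrict_apply_univ]
      exact hD.bd.measure_lt_top⟩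
    have huc : MemLp (fun x => uF f U x - c) 2 (volume.restrict Ω) := w1.sub (memLp_const c)
    refine ⟨fun ζ => (c : ℂ)⁻¹ * ∫ z in Ω, ((uF f U z - c : ℝ) : ℂ) * ee ζ z,
      (entire hD.bd hD.op.measurableSet huc).const_mul _, ?_⟩
    intro ζ
    have hae : (closure Ω : Set ℂ) =ᵐ[volume] Ω := by
      have h0 : volume (frontier Ω) = 0 := hD.cvx.addHaar_frontier volume
      have h1 : (Ω : Set ℂ) ≤ᵐ[volume] closure Ω :=
        Eventually.of_forall fun x hx => subset_closure hx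
      have h2 : (closure Ω : Set ℂ) ≤ᵐ[volume] Ω := by
        rw [ae_le_set]
        refine measure_mono_null ?_ h0
        rw [frontier, hD.op.interior_eq]
      exact h2.antisymm h1
    rw [FT_image, setIntegral_congr_set hae]
    have hk := key hD.op hD.bd w1 w2 w3 w4 ζ
    have hc' : (c : ℂ) ≠ 0 := Complex.ofReal_ne_zero.2 hc
    field_simp
    linear_combination hk
  · refine ⟨ρ, hρ, ?_, ?_⟩
    · rw [E_ball (by positivity)]
      refine image_mono ?_
      have h1 := closure_mono hD.inn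
      rwa [closure_ball 0 (by positivity)] at h1
    · rw [E_ball (by positivity)]
      refine image_mono ?_
      have h1 := closure_mono hD.out
      rwa [closure_ball 0 (by positivity)] at h1
  · rw [hcl, image_image]
    rfl
  · intro ω hω
    have := hrot ω hω
    rwa [hcl] at this

end Pool.Agent.H957.CX.PF
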