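import Pool.Agent.H957.CX.Stm2
import Pool.Graph.R_pool_sql_team_seeded_63374d34.N596.SC.Pomp

/-!
Project CX (helper957), problem MP_83fd13_an: the statement `S_PMP` (written by helper767).
-/

set_option autoImplicit false

open Set Filter Topology MeasureTheory

namespace Pool.Agent.H957.CX.PPMP

open Pool.Agent.H957.CX

/-- an isometry of the plane preserves the measure -/
theorem mp_isom (σ : E2 ≃ᵢ E2) : MeasurePreserving σ volume volume := by
  have h : ∀ x, σ x = σ.toRealAffineIsometryEquiv.linearIsometryEquiv x + σ 0 := by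
    intro x
    have := σ.toRealAffineIsometryEquiv.map_vadd 0 x
    simpa using this
  have h1 : MeasurePreserving (σ.toRealAffineIsometryEquiv.linearIsometryEquiv) volume volume :=
    LinearIsometryEquiv.measurePreserving _
  have h2 : MeasurePreserving (fun y : E2 => y + σ 0) volume volume :=
    measurePreserving_add_right volume (σ 0)
  have h3 := h2.comp h1
  have e : (σ : E2 → E2) = (fun y : E2 => y + σ 0) ∘
      (σ.toRealAffineIsometryEquiv.linearIsometryEquiv) := by
    funext x
    exact h x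
  rw [e]
  exact h3

theorem main : S_PMP := by
  intro ρ r f Ω hD hS σ
  obtain ⟨r', c, U, S, -, -, -, hc, hW⟩ := hS.ex
  obtain ⟨w1, w2, w3, w4, -⟩ := hW
  rw [(mp_isom σ).setIntegral_image_emb σ.toHomeomorph.measurableEmbedding,
    (LinearIsometryEquiv.measurePreserving JJ).setIntegral_image_emb
      JJ.toHomeomorph.measurableEmbedding]
  set L := σ.toRealAffineIsometryEquiv.linearIsometryEquiv with hL
  have h : ∀ x, σ x = L x + σ 0 := by
    intro x
    have := σ.toRealAffineIsometryEquiv.map_vadd 0 x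
    simpa using this
  set e0 : E2 := EuclideanSpace.single 0 1 with he0
  set M : ℂ ≃ₗᵢ[ℝ] E2 := JJ.trans L with hM
  set ξ : ℂ := M.symm e0 with hξ
  have hξn : ‖ξ‖ = 1 := by
    rw [hξ, M.symm.norm_map, he0]
    simp
  have hkey : ∀ z : ℂ, (σ (JJ z)) 0 = ((starRingEnd ℂ) ξ * z + ((σ 0 0 : ℝ) : ℂ)).re := by
    intro z
    have h1 : (L (JJ z)) 0 = @inner ℝ E2 _ e0 (M z) := by
      rw [he0, EuclideanSpace.inner_single_left]
      simp [hM]
    have h2 : @inner ℝ E2 _ e0 (M z) = @inner ℝ ℂ _ ξ z := by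
      rw [← M.inner_map_map ξ z, hξ, M.apply_symm_apply]
    have h3 : (σ (JJ z)) 0 = (L (JJ z)) 0 + σ 0 0 := by
      rw [h (JJ z)]
      rfl
    rw [h3, h1, h2, Complex.inner, Complex.add_re, Complex.ofReal_re, mul_comm z]
  have hfin := Pool.Agent.N596.SC.fourier hD.op hD.bd hc w1 w2 w3 w4 ((starRingEnd ℂ) ξ)
    ((σ 0 0 : ℝ) : ℂ) (by rw [RCLike.norm_conj, hξn])
  rw [← hfin]
  refine integral_congr_ae (Eventually.of_forall fun z => ?_)
  simp only
  rw [hkey z]

end Pool.Agent.H957.CX.PPMP

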