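import Pool.Agent.H957.CX.Defs

/-!
Project CX (helper957), problem MP_83fd13_an: statements of the parts.

The library proof (namespace `Pool.Agent.N229.SC`, files
`Pool/Graph/R_pool_sql_team_seeded_63374d34/N229/SC/*.lean`, 50-700 lines each) constructs a
nonconvex counterexample with ONE propagating mode (`ν = n/ρ ≈ 0.81`).  We use `ρ = 8583.616...`,
`n = 1897`, `ν = 0.22100`, four propagating modes; the amplitude is `X ≈ 4.6e-4`, and the domain is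
CONVEX.  Every statement below is the exact analogue of the library statement with the same name;
the proof is the library proof with new constants and with the extra terms `md`, `ms` (modes
`2, 3, 4`).  All constants below were recomputed by hand with slack.
-/

set_option autoImplicit false

open Set Filter Topology MeasureTheory

namespace Pool.Agent.H957.CX

open Pool.Agent.N229.SC (Al Wt cf mon lft norm_mon lft_mon norm_lft_le lft_hasSum ext_mon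
  mul_def one_def mon_mul_mon S_A1 ev evh Conf Nd Str Om SS UU PP eF Fb)

/-- CX-A2: the operators. Library: `A2.lean` (251 lines), only `Rad`, `Pi5` and `res` (powers `≥ 5`,
constants `13/40`, `1/5`) changed. `(1 + j/8)/(j + i/n) ≤ 1/5 + 1/8 = 13/40` for `j ≥ 5`;
`wA j ≤ 8/13 wW j` for `j ≥ 5`. -/
def S_A2 : Prop :=
  ((∀ (a : W) (j : ℤ), cf (inc a) j = cf a j) ∧ (∀ a b : W, inc (a * b) = inc a * inc b) ∧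
    inc 1 = 1 ∧ (∀ a : W, ‖inc a‖ ≤ ‖a‖) ∧
    (∀ a : W, (∀ j < 5, cf a j = 0) → ‖inc a‖ ≤ 8 / 13 * ‖a‖)) ∧
  ((∀ (a : W) (j : ℤ), cf (conj a) j = cf a (-j)) ∧ (∀ a b : W, conj (a * b) = conj a * conj b) ∧
    conj 1 = 1 ∧ (∀ a : W, ‖conj a‖ = ‖a‖) ∧ (∀ a : W, conj (conj a) = a)) ∧
  ((∀ (a : W) (j : ℤ), cf (hol a) j =
      if 0 < j then cf a j + cf a (-j) else if j = 0 then cf a 0 else 0) ∧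
    (∀ a : W, ‖hol a‖ ≤ ‖a‖)) ∧
  ((∀ (a : W) (j : ℤ), cf (der a) j = j * cf a j) ∧ (∀ a : W, ‖der a‖ ≤ 8 * ‖a‖) ∧
    (∀ a b : W, der (a * b) = der a * inc b + inc a * der b)) ∧
  ((∀ (a : W) (j : ℤ), cf (Pi2 a) j = if 2 ≤ j then cf a j else 0) ∧ (∀ a : W, ‖Pi2 a‖ ≤ ‖a‖)) ∧
  ((∀ (a : W) (j : ℤ), cf (Pi5 a) j = if 5 ≤ j then cf a j else 0) ∧ (∀ a : W, ‖Pi5 a‖ ≤ ‖a‖)) ∧
  ((∀ (n i : ℕ) (a : A) (j : ℤ), cf (res n i a) j =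
      if 5 ≤ j then cf a j / (j + (i : ℝ) / n) else 0) ∧
    (∀ (n i : ℕ) (a : A), ‖res n i a‖ ≤ 13 / 40 * ‖a‖) ∧
    (∀ (n i : ℕ) (a : A), ‖inc (res n i a)‖ ≤ 1 / 5 * ‖a‖) ∧
    (∀ (n i : ℕ) (a : A), (i : ℝ) / n * ‖inc (res n i a)‖ ≤ ‖a‖))

/-- CX-A3: the exponential and the series `TT`. Library: `A3.lean` (395 lines), nothing changed
except the value of `Rad` (a larger weight), which does not enter. -/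
def S_A3 : Prop :=
  ((∀ x : W, HasSum (fun k : ℕ => ((k.factorial : ℝ)⁻¹) • x ^ k) (ex x)) ∧ ex 0 = 1 ∧
    (∀ x : W, ‖ex x‖ ≤ Real.exp ‖x‖) ∧ (∀ x : W, ‖ex x - 1‖ ≤ Real.exp ‖x‖ - 1) ∧
    (∀ x : W, ‖ex x - 1 - x‖ ≤ Real.exp ‖x‖ - 1 - ‖x‖) ∧
    (∀ x y : W, ∀ r : ℝ, ‖x‖ ≤ r → ‖y‖ ≤ r → ‖ex x - ex y‖ ≤ Real.exp r * ‖x - y‖) ∧
    (∀ x y : W, ex (x + y) = ex x * ex y) ∧
    (∀ x : W, conj (ex x) = ex (conj x)) ∧ (∀ x : W, der (ex x) = inc (ex x) * der x) ∧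
    (∀ x : W, (∀ j < 0, cf x j = 0) → (∀ j < 0, cf (ex x) j = 0) ∧
      cf (ex x) 0 = Real.exp (cf x 0) ∧ cf (ex x) 1 = Real.exp (cf x 0) * cf x 1)) ∧
  (∀ (ξ : W) (c : ℕ → W) (M : ℝ), (∀ i, ‖c i‖ ≤ M * (3 ^ i * i.factorial)) → ‖ξ‖ ≤ 1 / 30 →
    Summable (fun i : ℕ => ((-1) ^ i * (i.factorial : ℝ)⁻¹) • (ξ ^ i * c i)) ∧
    ∀ m : ℕ, ‖TT ξ c - ∑ i ∈ Finset.range m, ((-1) ^ i * (i.factorial : ℝ)⁻¹) • (ξ ^ i * c i)‖ ≤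
      10 / 9 * M * (3 * ‖ξ‖) ^ m) ∧
  (∀ (ξ η : W) (c : ℕ → W) (M δ : ℝ), (∀ i, ‖c i‖ ≤ M * (3 ^ i * i.factorial)) → 0 ≤ δ →
    δ ≤ 1 / 30 → ‖ξ‖ ≤ δ → ‖η‖ ≤ δ →
    ‖TT ξ c - TT η c‖ ≤ ‖ξ - η‖ * (‖c 1‖ + 25 * M * δ)) ∧
  (∀ (ξ : W) (c c' : ℕ → W) (M : ℝ), (∀ i, ‖c i‖ ≤ M * (3 ^ i * i.factorial)) →
    (∀ i, ‖c' i‖ ≤ M * (3 ^ i * i.factorial)) → ‖ξ‖ ≤ 1 / 30 →
    TT ξ (fun i => c i + c' i) = TT ξ c + TT ξ c' ∧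
    TT ξ (fun i => c i - c' i) = TT ξ c - TT ξ c' ∧
    ∀ r : ℝ, TT ξ (fun i => r • c i) = r • TT ξ c)

/-- CX-AB: bounds of the sequences. Library: `AB.lean`. General bounds by induction from the
recurrence, e.g. `m = 4`: factor `(1.77 + 2.4e-4 (i+1))/(1.5 (i+2)) + 1/(2.25 (i+1)(i+2)) < 1`.
Values: `a_{1,2} = -2ν - 2/ρ - a_{1,0}`, `a_{1,3} = .8043`, `a_{2,2} = -.9653`, `a_{2,3} = .1462`,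
`a_{3,2} = -3.1498`, `a_{3,3} = -3.178`, `a_{4,2} = -.8202`, `a_{4,3} = -.4505`, `b_2 = -4/ρ - b_0`.
The estimate of `n` is from `n = ν ρ`. -/
def S_AB : Prop :=
  ∀ P : Par, Good P → (∀ i, |P.a 1 i| ≤ 2 / 3 * ((3 / 2) ^ i * i.factorial)) ∧
    (∀ i, |P.a 2 i| ≤ (3 / 2) ^ i * i.factorial) ∧
    (∀ i, |P.a 3 i| ≤ 2 * ((3 / 2) ^ i * i.factorial)) ∧
    (∀ i, |P.a 4 i| ≤ (3 / 2) ^ i * i.factorial) ∧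
    (∀ i, |P.b i| ≤ 2 / 3 * ((3 / 2) ^ i * i.factorial)) ∧
    (|P.a 1 2 + 2 * P.nu| ≤ 3 / 10000 ∧ |P.a 1 3| ≤ 81 / 100 ∧ |P.b 2| ≤ 5 / 10000 ∧
      |P.b 3| ≤ 101 / 100) ∧
    (|P.a 2 2| ≤ 97 / 100 ∧ |P.a 2 3| ≤ 15 / 100 ∧ |P.a 3 2| ≤ 316 / 100 ∧
      |P.a 3 3| ≤ 32 / 10 ∧ |P.a 4 2| ≤ 83 / 100 ∧ |P.a 4 3| ≤ 46 / 100) ∧
    1896 ≤ (P.n : ℝ) ∧ (P.n : ℝ) ≤ 1898

/-- CX-B1: the functions of `h`. Library: `B1.lean` (266 lines). `‖t‖ = wW 1 = 1.1475`,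
`wW 2 = 1.3005`, `wW 3 = 1.45917`, `wW 4 = 1.62365`. `τ = t ex(Φ)`, `τ ^ m = t ^ m ex (m Φ)`
(`ex x ^ m = ex (m x)` from `ex (x + y) = ex x * ex y`), `‖Φ‖ ≤ ν ‖h‖ ≤ 2.8e-4`:
`‖τ - t‖ ≤ 1.1475 (exp (ν ‖h‖) - 1) ≤ .2538 ‖h‖`, `‖τ ^ 4 - t ^ 4‖ ≤ 1.6237 (exp (4 ν ‖h‖) - 1) ≤
1.44 ‖h‖`, and the same for differences. `2/ρ ≤ 2.3302e-4`. -/
def S_B1 : Prop :=
  ∀ P : Par, Good P → ∀ h : W, ‖h‖ ≤ 1 / 800 →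
    (‖Phi P h‖ ≤ P.nu * ‖h‖ ∧ ‖beta P h‖ ≤ 8 * P.nu * ‖h‖ ∧
      ‖tau P h - mon wW 1‖ ≤ 255 / 1000 * ‖h‖ ∧ ‖tau P h‖ ≤ 1149 / 1000 ∧
      ‖YY P h - 1‖ ≤ 234 / 10 ^ 6 * ‖h‖ ∧ ‖xi P h - h‖ ≤ ‖h‖ ^ 2 / 8000 ∧
      ∀ m : ℕ, 2 ≤ m → m ≤ 4 → ‖tau P h ^ m - mon wW (m : ℤ)‖ ≤ 3 / 2 * ‖h‖ ∧
        ‖tau P h ^ m‖ ≤ 1002 / 1000 * wW (m : ℤ)) ∧
    (conj h = h → conj (xi P h) = xi P h ∧ conj (YY P h) = YY P h) ∧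
    ((∀ j < 0, cf (Phi P h) j = 0) ∧ cf (Phi P h) 0 = P.nu * cf h 0 ∧
      (∀ j < 1, cf (beta P h) j = 0) ∧ (∀ j < 1, cf (tau P h) j = 0) ∧
      cf (tau P h) 1 = Real.exp (P.nu * cf h 0) ∧
      ∀ m : ℕ, 2 ≤ m → m ≤ 4 → (∀ j < (m : ℤ), cf (tau P h ^ m) j = 0) ∧
        cf (tau P h ^ m) (m : ℤ) = Real.exp (m * (P.nu * cf h 0))) ∧
    ∀ h' : W, ‖h'‖ ≤ 1 / 800 → ‖beta P h - beta P h'‖ ≤ 8 * P.nu * ‖h - h'‖ ∧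
      ‖tau P h - tau P h'‖ ≤ 255 / 1000 * ‖h - h'‖ ∧
      ‖YY P h - YY P h'‖ ≤ 234 / 10 ^ 6 * ‖h - h'‖ ∧
      ‖(xi P h - h) - (xi P h' - h')‖ ≤ ‖h - h'‖ / 1000 ∧
      ∀ m : ℕ, 2 ≤ m → m ≤ 4 → ‖tau P h ^ m - tau P h' ^ m‖ ≤ 3 / 2 * ‖h - h'‖

/-- The domain of the contraction. -/
structure Dom (X : ℝ) (h v : W) (y : ℕ → A) : Prop where
  hc : conj h = h
  hv : ∀ j < 2, cf v j = 0
  hy : ∀ i, ∀ j < 5, cf (y i) j = 0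
  nh : ‖h‖ ≤ 2 * X
  nv : ‖v‖ ≤ 6 * X ^ 2
  ny : ∀ i, ‖y i‖ ≤ 6 * X ^ 2

/-- CX-M1: bounds of the modes. New (no library analogue). From `S_AB`, `S_B1`:
`∑_{m=2}^4 |cf v m| wW m + ‖Pi5 v‖ ≤ ‖v‖` (from `S_A1`: the norm is `∑ |cf v j| wW j`), so
`‖md i‖ ≤ 1.002 max_m |a_{m,i}/a_{m,0}| ‖v‖` with `1/a_{2,0} ≤ 12.332`, `1/a_{3,0} ≤ .549`,
`1/|a_{4,0}| ≤ 1.055`; e.g. `i = 2`: `.97/.08109 = 11.97` and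
`‖md 2‖ ≤ 11.99 ‖v‖`. `md 0 + Pi5 v - v = ∑ cf v m (τ ^ m - t ^ m)` because `a_{m,0}/a_{m,0} = 1`
and `cf v j = 0` for `j < 2`; `∑ |cf v m| ≤ ‖v‖/1.3005`. -/
def S_M1 : Prop :=
  ∀ P : Par, Good P → ∀ h v : W, ‖h‖ ≤ 1 / 800 → (∀ j < 2, cf v j = 0) →
    ((∀ i, ∀ j < 2, cf (md P h v i) j = 0) ∧ (∀ i, ∀ j < 2, cf (ms P h v i) j = 0) ∧
      (∀ i, cf (md P h v i) 2 = cf v 2 / P.a 2 0 * P.a 2 i * Real.exp (2 * (P.nu * cf h 0))) ∧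
      (∀ i, cf (ms P h v i) 2 =
        cf v 2 / (2 * P.a 2 0) * P.a 2 i * Real.exp (2 * (P.nu * cf h 0)))) ∧
    (∀ i, ‖md P h v i‖ ≤ 25 / 2 * ((3 / 2) ^ i * i.factorial) * ‖v‖) ∧
    (∀ i, ‖ms P h v i‖ ≤ 25 / 4 * ((3 / 2) ^ i * i.factorial) * ‖v‖) ∧
    (‖md P h v 0 + Pi5 v - v‖ ≤ 6 / 5 * ‖h‖ * ‖v‖ ∧ ‖md P h v 0 + Pi5 v‖ ≤ 1002 / 1000 * ‖v‖) ∧
    (‖md P h v 1‖ ≤ 1236 / 100 * ‖v‖ ∧ ‖md P h v 2‖ ≤ 12 * ‖v‖ ∧ ‖md P h v 3‖ ≤ 2 * ‖v‖) ∧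
    (‖ms P h v 1‖ ≤ 619 / 100 * ‖v‖ ∧ ‖ms P h v 2‖ ≤ 6 * ‖v‖ ∧ ‖ms P h v 3‖ ≤ ‖v‖)

/-- CX-M2: Lipschitz bounds of the modes. New. As `S_M1`, with
`md P h v i - md P h' v' i = ∑ (cf v m - cf v' m)(a_{m,i}/a_{m,0}) τ ^ m +
∑ cf v' m (a_{m,i}/a_{m,0}) (τ ^ m - τ' ^ m)`; the second sum is at most
`12.34 (3/2)^i i! · .77 ‖v'‖ · 1.5 · 10 D ≤ 4e-4 (3/2)^i i! D` since `‖v'‖ ≤ 2.2e-6`. -/
def S_M2 : Prop :=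
  ∀ P : Par, Good P → ∀ (h v h' v' : W) (D : ℝ), ‖h‖ ≤ 12 / 10 ^ 4 → ‖h'‖ ≤ 12 / 10 ^ 4 →
    (∀ j < 2, cf v j = 0) → (∀ j < 2, cf v' j = 0) → ‖v‖ ≤ 22 / 10 ^ 7 → ‖v'‖ ≤ 22 / 10 ^ 7 →
    ‖h - h'‖ ≤ 10 * D → ‖v - v'‖ ≤ D →
    (∀ i, ‖md P h v i - md P h' v' i‖ ≤ 25 / 2 * ((3 / 2) ^ i * i.factorial) * D) ∧
    (∀ i, ‖ms P h v i - ms P h' v' i‖ ≤ 25 / 4 * ((3 / 2) ^ i * i.factorial) * D) ∧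
    ‖(md P h v 0 + Pi5 v - v) - (md P h' v' 0 + Pi5 v' - v')‖ ≤ 2 / 1000 * D ∧
    ‖md P h v 1 - md P h' v' 1‖ ≤ 1237 / 100 * D ∧ ‖ms P h v 1 - ms P h' v' 1‖ ≤ 619 / 100 * D

/-- CX-B2: bounds of the functions `q_i`, `v_i`, `V_i`, `Q_i`. Library: `B2.lean` (229 lines).
`‖1 + β‖ ≤ 1.00212`; `‖q_0‖ ≤ (13/40) 1.00212 (8/13) ‖v‖ = .2005 ‖v‖`; `1/(2ν) ≤ 2.26245`;
`‖v_1‖ ≤ 2.26245 (.201 V + .325 M) + .0002 M`; `V_i`: `X |a_{1,i}| 1.149 + 12.5 (3/2)^i i! 6 X² +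
11.64 i X²`, with `(3/2)^i ≤ 3^i/2` for `i ≥ 1`: at most `(.383 + .0225 + .0025) X 3^i i!`;
`Q_i`: `|b_i| ≤ (1/3) 3^i i!`, the rest is at most `.001 · 3^i i!`. -/
def S_B2 : Prop :=
  ∀ P : Par, Good P → ∀ (X : ℝ) (h v : W) (y : ℕ → A), 0 < X → X ≤ 6 / 10 ^ 4 → Dom X h v y →
    (∀ i, ∀ j < 5, cf (qq P h v y i) j = 0) ∧ (∀ i, ∀ j < 5, cf (vv P h v y i) j = 0) ∧
    (∀ i, ‖Vh P X h v y i‖ ≤ 3 / 5 * X * (3 ^ i * i.factorial)) ∧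
    (∀ i, ‖Qh P X h v y i‖ ≤ 3 / 5 * (3 ^ i * i.factorial)) ∧
    ∀ V M : ℝ, 0 ≤ V → V ≤ 6 → 0 ≤ M → M ≤ 6 → ‖v‖ ≤ V * X ^ 2 → (∀ i, ‖y i‖ ≤ M * X ^ 2) →
      ‖qq P h v y 0‖ ≤ 201 / 1000 * V * X ^ 2 ∧ ‖inc (qq P h v y 0)‖ ≤ 1234 / 10 ^ 4 * V * X ^ 2 ∧
      (∀ i, ‖qq P h v y (i + 1)‖ ≤ 13 / 40 * M * X ^ 2) ∧
      (∀ i, ‖inc (qq P h v y (i + 1))‖ ≤ 1 / 5 * M * X ^ 2) ∧
      ‖vv P h v y 1‖ ≤ (46 / 100 * V + 74 / 100 * M) * X ^ 2 ∧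
      (∀ i : ℕ, ‖vv P h v y (i + 1)‖ ≤ (46 / 100 * V + 148 / 100 * M) * (i + 1) * X ^ 2)

/-- CX-B3: Lipschitz bounds of `q_i`, `v_i`, `V_i`, `Q_i`. Library: `B3.lean` (257 lines).
`‖β - β'‖ ≤ 8 ν 10 D ≤ 17.69 D`, times `‖inc (Pi5 v)‖ ≤ 1.4e-6`; `V_1`: `X .255 · 10 D + 12.37 D +
1.2 D`; general `V_i` (`i ≥ 1`): `6.25 + .5 + small`; `Q_0`: `X .255 · 10 D + 6.19 D + .325 D`;
general `Q_i`: `6.25 · 1.5 + .325 + small ≤ 10` (`(3/2)^i (i+1) ≤ 3^i`). -/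
def S_B3 : Prop :=
  ∀ P : Par, Good P → ∀ (X : ℝ) (h v : W) (y : ℕ → A) (h' v' : W) (y' : ℕ → A) (D : ℝ), 0 < X →
    X ≤ 6 / 10 ^ 4 → Dom X h v y → Dom X h' v' y' → ‖h - h'‖ ≤ 10 * D → ‖v - v'‖ ≤ D →
    (∀ i, ‖y i - y' i‖ ≤ D) →
    ‖inc (qq P h v y 0) - inc (qq P h' v' y' 0)‖ ≤ 124 / 1000 * D ∧
    (∀ i, ‖qq P h v y (i + 1) - qq P h' v' y' (i + 1)‖ ≤ 13 / 40 * D) ∧
    (∀ i, ‖inc (qq P h v y (i + 1)) - inc (qq P h' v' y' (i + 1))‖ ≤ 1 / 5 * D) ∧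
    ‖vv P h v y 1 - vv P h' v' y' 1‖ ≤ 6 / 5 * D ∧
    ‖(Vh P X h v y 0 - Vh P X h' v' y' 0) - (v - v')‖ ≤ 3 / 1000 * D ∧
    ‖Vh P X h v y 1 - Vh P X h' v' y' 1‖ ≤ 68 / 5 * D ∧
    ‖Qh P X h v y 0 - Qh P X h' v' y' 0‖ ≤ 66 / 10 * D ∧
    (∀ i, ‖Vh P X h v y i - Vh P X h' v' y' i‖ ≤ 7 * D * (3 ^ i * i.factorial)) ∧
    (∀ i, ‖Qh P X h v y i - Qh P X h' v' y' i‖ ≤ 10 * D * (3 ^ i * i.factorial))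

/-- CX-SELF: the map sends the domain to itself. Library: `SELF.lean` (345 lines). Here
`a_{1,0} ≤ 4 X²`. `V_0 = X a_{1,0} τ + (md 0 + Pi5 v)`, `‖V_0‖ ≤ 4.6 X³ + 6.02 X²`;
`‖V_1‖ ≤ 1.149 X + (74.2 + 7.2) X² ≤ 1.2 X`; remainder of `TT ξ V` after two terms
`≤ (10/9)(3/5 X)(6.001 X)² ≤ 24.1 X³`; so `‖TT ξ V‖ ≤ 8.5 X²`, and
`v - Pi2 (OO) = - Pi2 (X a (τ - conj τ) + (md 0 + Pi5 v - v) - conj (..) + R - conj R)`,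
`R = - ξ V_1 + R1`, `‖R‖ ≤ 2.42 X²`: at most `4.9 X² ≤ 6 X²`. `E1 = TT ξ Q - ξ`:
`‖E1‖ ≤ 1.149 X + 37.2 X² + 2 X² + 2.0002 X (.51 X + 38 X²) + 24.1 X² ≤ 1.2 X`, so the new `h` has
norm `≤ 1.21 X`. New `y`: `i = 0`: `2.26245 · 1.00212 (.1234 · 6 + .2 · 6) + .0022 · 6 ≤ 4.5`;
`i ≥ 1`: `(2.26245 · 1.00212 · .4 + .0022) · 6 ≤ 5.5`. -/
def S_SELF : Prop :=
  ∀ P : Par, Good P → ∀ (X : ℝ) (h v : W) (y : ℕ → A), Real.sqrt (P.a 1 0) / 2 ≤ X →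
    X ≤ 6 / 10 ^ 4 → Dom X h v y →
    Dom X (h + EE P X h v y) (v - Pi2 (OO P X h v y)) (RH P h v y)

/-- CX-CTR: the map is a contraction. Library: `CTR.lean` (509 lines; the same three parts).
`x = ‖ξ - ξ'‖ ≤ 10.01 D`. Part T: `‖(T - T') - (v - v')‖ ≤ .003 D + ‖ξ‖ 13.6 D + (10/9) 7 D
(3‖ξ‖)² + x (‖V'_1‖ + 25 (3/5) X 2.001 X) ≤ .003 D + .0164 D + .0002 D + .0074 D ≤ .03 D`.
Part S: `‖(S - S') - (ξ - ξ')‖ ≤ 6.6 D + (10/9) 10 D 3 ‖ξ‖ + x (‖Q'_1 + 1‖ + 25 · 2.001 X) ≤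
6.6 D + .041 D + .31 D ≤ 7 D`. Sum for `h`: `.01 D + .01 D + .222 · 1.03 D + 1.001 · 7 D +
.002 D ≤ 46/5 D`. Part RH: `2.26245 (17.7 D · .8 · 3 X² + 1.00212 · .4 D) + 17.7 D · 6 X² +
.0022 D ≤ .91 D`. -/
def S_CTR : Prop :=
  ∀ P : Par, Good P → ∀ (X : ℝ) (h v : W) (y : ℕ → A) (h' v' : W) (y' : ℕ → A) (D : ℝ), 0 < X →
    X ≤ 6 / 10 ^ 4 → Dom X h v y → Dom X h' v' y' → ‖h - h'‖ ≤ 10 * D → ‖v - v'‖ ≤ D →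
    (∀ i, ‖y i - y' i‖ ≤ D) →
    ‖(h + EE P X h v y) - (h' + EE P X h' v' y')‖ ≤ 10 * (23 / 25 * D) ∧
    ‖(OO P X h v y - OO P X h' v' y') - ((v - v') - conj (v - v'))‖ ≤ 1 / 10 * D ∧
    ∀ i, ‖RH P h v y i - RH P h' v' y' i‖ ≤ 23 / 25 * D

/-- CX-LX: dependence on `X`. Library: `LX.lean` (167 lines). -/
def S_LX : Prop :=
  ∀ P : Par, Good P → ∀ (X X' : ℝ) (h v : W) (y : ℕ → A), 0 < X → X ≤ X' →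
    X' ≤ 6 / 10 ^ 4 → Dom X h v y →
    ‖EE P X h v y - EE P X' h v y‖ ≤ 10 * (X' - X) ∧ ‖OO P X h v y - OO P X' h v y‖ ≤ 10 * (X' - X)

/-- CX-FIX: for each amplitude `X` there is a solution of all equations except one. Library:
`FIX.lean` (388 lines), the contraction factor is `23/25`, the weight of `h` is `10`. -/
def S_FIX : Prop :=
  ∀ P : Par, Good P → ∃ x : ℝ → W × W × (ℕ → A),
    (∀ X ∈ Icc (Real.sqrt (P.a 1 0) / 2) (Real.sqrt (P.a 1 0)),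
      IsSol P X (x X).1 (x X).2.1 (x X).2.2) ∧
    ContinuousOn (fun X => cf (OO P X (x X).1 (x X).2.1 (x X).2.2) 1)
      (Icc (Real.sqrt (P.a 1 0) / 2) (Real.sqrt (P.a 1 0)))

/-! ### The sign of the remaining equation -/

/-- The hypotheses of the estimates. -/
structure Hyp (P : Par) (X : ℝ) (h v : W) (y : ℕ → A) : Prop where
  good : Good P
  sol : IsSol P X h v y
  X1 : Real.sqrt (P.a 1 0) / 2 ≤ X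
  X2 : X ≤ Real.sqrt (P.a 1 0)

/-- `c = (t + 1 / t) / 2`. -/
noncomputable def cc : W := (1 / 2 : ℝ) • (mon wW 1 + mon wW (-1))

/-- CX-HG: the first order of `h`. Library: `HG.lean` (419 lines), same proof.
`2.9e-4 ≤ X ≤ 5.82e-4`, `a_{1,0} ≤ 4 X²`. From `EE = 0`: `ξ = (1 - YY) ξ + ν Re TV - YY Re E1`,
`E1 = b_0 - X τ + ms 1 + q_1 - ξ (X a_{1,2} τ + ms 2 + q_2) + (1/2) ξ² Q_2 + R`,
`‖R‖ ≤ (10/9)(3/5)(3‖ξ‖)³ = 18 ‖ξ‖³`, `‖Q_2‖ ≤ 5e-4 + .94 X + ...`,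
`‖TV‖ ≤ 4.6 X³ + 1.002 V X² + ‖ξ‖ (1.149 X + (12.36 V + .46 V + .74 M) X²) + 6 X ‖ξ‖²`. Coefficients:
`H`: `.255 + .5083 + .2557 + .0011 + .0419 + .0008 = 1.063`; `V`: `6.19 + .007 + .2248 = 6.422`;
`M`: `.325 + .0004 + .0002`; constant `.001`. -/
def S_HG : Prop :=
  ∀ (P : Par) (X : ℝ) (h v : W) (y : ℕ → A), Hyp P X h v y → ∀ H V M : ℝ, 0 ≤ H → H ≤ 2 →
    0 ≤ V → V ≤ 6 → 0 ≤ M → M ≤ 6 → ‖h‖ ≤ H * X → ‖v‖ ≤ V * X ^ 2 → (∀ i, ‖y i‖ ≤ M * X ^ 2) →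
    ‖h - X • cc‖ ≤ (11 / 10 * H + 13 / 2 * V + 1 / 3 * M + 1 / 10) * X ^ 2 ∧
    ‖xi P h - X • cc‖ ≤ (11 / 10 * H + 13 / 2 * V + 1 / 3 * M + 1 / 10) * X ^ 2

/-- CX-VG: the second order of `v`. Library: `VG.lean` (351 lines), same proof.
From `Pi2 (OO) = 0`: `v = - Pi2 (X a (τ - conj τ) + (md 0 + Pi5 v - v) - conj (..) +
(- ξ V_1 + R1) - conj (- ξ V_1 + R1))` and `- ξ V_1 = X² c t + X² c (τ - t) + X ζ τ - ξ (md 1 + v_1)`,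
`ζ = ξ - X c`, `Pi2 (c t - conj (c t)) = t²/2`. Terms: `2 · 1.149 K = 2.298 K`;
`2 H (12.82 V + .74 M) 1.0001`; `2 · 1.2 H V` (modes of order 0); `2 · 1.1475 · .255 H`;
`2 · 6.001 H²`; `4 · 2 · 1.149 = 9.2`. -/
def S_VG : Prop :=
  ∀ (P : Par) (X : ℝ) (h v : W) (y : ℕ → A), Hyp P X h v y → ∀ H V M K : ℝ, 0 ≤ H → H ≤ 2 →
    0 ≤ V → V ≤ 6 → 0 ≤ M → M ≤ 6 → 0 ≤ K → K ≤ 50 →
    ‖h‖ ≤ H * X → ‖v‖ ≤ V * X ^ 2 → (∀ i, ‖y i‖ ≤ M * X ^ 2) → ‖xi P h - X • cc‖ ≤ K * X ^ 2 →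
    ‖v + (X ^ 2 / 2) • mon wW 2‖ ≤
      (23 / 10 * K + H * (29 * V + 3 / 2 * M) + 3 / 5 * H + 25 / 2 * H ^ 2 + 10) * X ^ 3

/-- CX-YG: the bound of `y` by `v`. Library: `YG.lean` (188 lines). With `S = sup ‖y_i‖`:
`‖y_0‖ ≤ 2.26245 · 1.00212 (.1234 V X² + S/5) + .0022 S = .2798 V X² + .4557 S`,
`‖y_{i+1}‖ ≤ (2.26245 · 1.00212 · 2/5 + .0022) S = .9091 S`, so
`S ≤ .2798/.5443 V X² ≤ .5141 V X²`. -/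
def S_YG : Prop :=
  ∀ (P : Par) (X : ℝ) (h v : W) (y : ℕ → A), Hyp P X h v y → ∀ V : ℝ, 0 ≤ V →
    ‖v‖ ≤ V * X ^ 2 → ∀ i, ‖y i‖ ≤ 13 / 25 * V * X ^ 2

/-- The refined estimates of the solution. -/
structure Ref (P : Par) (X : ℝ) (h v : W) (y : ℕ → A) : Prop where
  rh : ‖h‖ ≤ 29 / 25 * X
  rhc : ‖h - X • cc‖ ≤ 8 * X ^ 2
  rxc : ‖xi P h - X • cc‖ ≤ 8 * X ^ 2
  rv : ‖v‖ ≤ 3 / 4 * X ^ 2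
  ry : ∀ i, ‖y i‖ ≤ 2 / 5 * X ^ 2
  rv2 : ‖v + (X ^ 2 / 2) • mon wW 2‖ ≤ 80 * X ^ 3
  rc2 : |cf v 2 + X ^ 2 / 2| ≤ 62 * X ^ 3

/-- CX-REF: the refined estimates, from `S_A1`, `S_HG`, `S_VG`, `S_YG` in two rounds. Library: the
first part of `SGN.lean`. `‖cc‖ ≤ 1.1475`, `‖mon 2‖ = 1.3005`, `X ≤ 5.82e-4`. Round 1: `H = 2`,
`V = 6`, `M = 3.12` (YG): `K = 42.34`; `‖h‖ ≤ 1.1475 X + 42.34 X² ≤ 1.1722 X`; VG with `H = 1.173`: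
`≤ 335 X³ ≤ .195 X²`, `‖v‖ ≤ .8453 X²`, `M ≤ .442`. Round 2: `K ≤ 7.07`, `‖h‖ ≤ 1.152 X`, VG:
`≤ 73 X³`, `‖v‖ ≤ .693 X²`. -/
def S_REF : Prop :=
  ∀ (P : Par) (X : ℝ) (h v : W) (y : ℕ → A), Hyp P X h v y → Ref P X h v y

/-- CX-GT: the second order term of `τ`. Library: `gg_tau` in `GG.lean`.
`Φ - ν X t = ν hol (h - X c)`, so `≤ 1.1475 ((ν 1.16 X)² + ν 8 X²) ≤ 2.11 X²`. -/
def S_GT : Prop :=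
  ∀ (P : Par) (X : ℝ) (h v : W) (y : ℕ → A), Hyp P X h v y → Ref P X h v y →
    ‖tau P h - mon wW 1 - (P.nu * X) • (mon wW 1 * mon wW 1)‖ ≤ 22 / 10 * X ^ 2 ∧
    |cf (tau P h) 1 - 1| ≤ 4 * X ^ 2 ∧ |Real.exp (2 * (P.nu * cf h 0)) - 1| ≤ 8 * X ^ 2

/-- The data of the first functional. -/
structure GB (X ν a0 a2 p : ℝ) (ζ τ W0 W1 W2 V3 : W) : Prop where
  X0 : 0 < X
  X1 : X ≤ 582 / 10 ^ 6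
  ν0 : 221 / 1000 ≤ ν
  ν1 : ν ≤ 22101 / 100000
  a00 : 0 < a0
  a01 : a0 ≤ 4 * X ^ 2
  a2b : |a2| ≤ 4424 / 10 ^ 4
  zn : ‖ζ‖ ≤ 8 * X ^ 2
  zc : conj ζ = ζ
  xn : ‖X • cc + ζ‖ ≤ 29 / 25 * X
  tn : ‖τ‖ ≤ 1149 / 1000
  tn1 : ‖τ - mon wW 1‖ ≤ 3 / 10 * X
  tn2 : ‖τ - mon wW 1 - (ν * X) • (mon wW 1 * mon wW 1)‖ ≤ 22 / 10 * X ^ 2
  tD : |cf τ 1 - 1| ≤ 4 * X ^ 2
  tD' : cf τ (-1) = 0
  w0 : ∀ j < 2, cf W0 j = 0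
  w1 : ∀ j < 2, cf W1 j = 0
  w1c : cf W1 2 = p
  w1n : ‖W1‖ ≤ 10 * X ^ 2
  w2n : ‖W2‖ ≤ 11 * X ^ 2
  V3n : ‖V3‖ ≤ X

/-- CX-GD: the first functional `D z = cf z 1 - cf z (-1)` of `TV`. Library: `gg_D` in `GG.lean` (same
proof, with `W0, W1, W2` for `v, v1, v2`; `a_{1,0} ≤ 4 X²`). Errors (times `X⁴`): `1.1475 · 2.2 = 2.5`,
`8 · .3 = 2.4`, `8 · 10 = 80`, `½ · .4424 (8 · 2.3075 · 1.149 + 1.3168 · .3) = 4.8`,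
`½ · 1.3456 · 11 = 7.4`, `1.561/6 = .26`, `R ≤ .1`, `16 X ≤ .01`. Total `97.5`. -/
def S_GD : Prop :=
  ∀ (X ν a0 a2 p : ℝ) (ζ τ W0 W1 W2 V3 R : W), GB X ν a0 a2 p ζ τ W0 W1 W2 V3 →
    ∀ (D m : W →L[ℝ] ℝ), (∀ z, D z = cf z 1 - cf z (-1)) →
    (∀ z, m z = cf z 0 - (cf z 2 + cf z (-2)) / 2) → (∀ z, |D z| ≤ ‖z‖) →
    ‖R‖ ≤ 1 / 10 * X ^ 4 →
    |D ((X * a0) • τ + W0 - (X • cc + ζ) * ((-X) • τ + W1) +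
      (1/2 : ℝ) • ((X • cc + ζ) ^ 2 * ((X * a2) • τ + W2)) -
      (1/6 : ℝ) • ((X • cc + ζ) ^ 3 * V3) + R) -
      (X * a0 + X * m ζ - X * p / 2 + a2 * X ^ 3 / 8 + ν * X ^ 3 / 2)| ≤ 110 * X ^ 4

/-- More data and bounds. -/
structure GC (X b0 s : ℝ) (S1 S2 V2 Q2 Q3 R3 RS Y : W) : Prop where
  b0n : |b0| ≤ 1 / 10 ^ 4 * X ^ 2
  s10 : ∀ j < 2, cf S1 j = 0
  s1c : cf S1 2 = s
  s2n : ‖S2‖ ≤ 5 * X ^ 2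
  V2n : ‖V2‖ ≤ 52 / 100 * X
  Q2n : ‖Q2‖ ≤ 5 / 10 ^ 4 + 94 / 100 * X
  Q3n : ‖Q3‖ ≤ 11 / 10
  R3n : ‖R3‖ ≤ 2 / 100 * X ^ 3
  RSn : ‖RS‖ ≤ 6 / 100 * X ^ 3
  Yn : ‖Y - 1‖ ≤ 28 / 10 ^ 5 * X

/-- CX-GM: the second functional `m z = cf z 0 - (cf z 2 + cf z (-2)) / 2` of the normal equation.
Library: `gg_m` in `GG.lean` (same proof; `W0` for `v` with `r0 = cf W0 2`; `S1 = ms 1 + q_1`,
`S2 = ms 2 + q_2`). Errors (times `X³`): `ν (4.6 + 9.54 + 11.6 + .35 + .02) = 5.8`, `2.2`,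
`.4424 · 9.54 = 4.3`, `1.16 · 5 = 5.8`, `.64`, `.29`, `.06`; total `19.1`; times `X²`:
`3.4e-4 + 9.8e-4 + 1e-4`. -/
def S_GM : Prop :=
  ∀ (X ν a0 a2 p r0 b0 s : ℝ) (ζ τ W0 W1 W2 V3 S1 S2 V2 Q2 Q3 R3 RS Y T S : W),
    GB X ν a0 a2 p ζ τ W0 W1 W2 V3 → GC X b0 s S1 S2 V2 Q2 Q3 R3 RS Y → cf W0 2 = r0 →
    ∀ (m : W →L[ℝ] ℝ), (∀ z, m z = cf z 0 - (cf z 2 + cf z (-2)) / 2) →
    (∀ z, |m z| ≤ ‖z‖) → (∀ z, m (conj z) = m z) →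
    T = (X * a0) • τ + W0 - (X • cc + ζ) * ((-X) • τ + W1) +
      (1/2 : ℝ) • ((X • cc + ζ) ^ 2 * V2) + R3 →
    S = b0 • (1 : W) + (-X) • τ + S1 -
      (X • cc + ζ) * ((-1 : ℝ) • (1 : W) + (X * a2) • τ + S2) +
      (1/2 : ℝ) • ((X • cc + ζ) ^ 2 * Q2) - (1/6 : ℝ) • ((X • cc + ζ) ^ 3 * Q3) + RS →
    ‖S‖ ≤ 35 / 10 * X →
    (ν / 2) • (T + conj T) - (1 / 2 : ℝ) • (Y * (S + conj S)) = 0 →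
    |m ζ - (ν * (X ^ 2 / 4 - r0 / 2) - ν * X ^ 2 / 2 + s / 2 + a2 * X ^ 2 / 4)| ≤
      25 * X ^ 3 + 2 / 1000 * X ^ 2

/-- CX-GG: the main estimate. Library: `proof_GG` in `GG.lean` (the last 200 lines). With
`W0 = md 0 + Pi5 v`, `W1 = md 1 + v_1`, `W2 = md 2 + v_2`, `V3 = Vh 3`, `S1 = ms 1 + q_1`,
`S2 = ms 2 + q_2`; `κ = exp (2 ν h_0)`: `p = - κ v₂/a_{2,0}`, `r0 = κ v₂`, `s = - κ v₂/(2 a_{2,0})`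
(`v₂ = cf v 2`). `‖W1‖ ≤ (9.27 + .345 + .296) X²`, `‖W2‖ ≤ (9 + 1.88) X²`, `‖V3‖ ≤ .931 X +
(1.5 + 2.9) X²`, `‖S2‖ ≤ (4.5 + .13) X²`, `‖Vh 2‖ ≤ .5083 X + 11 X²`, `‖Qh 2‖ ≤ 5e-4 + .931 X +
.9 X²`, `‖Qh 3‖ ≤ 1.01 + 81 · 1.149 X + ... ≤ 1.1`; remainders `(10/9)(3/5) X (3.4803 X)^4 ≤ .06 X⁴`,
`(10/9)(3/5) X (3.4803 X)^3 = 28.2 X⁴ ≤ .017 X³`, `(10/9)(3/5)(3.4803 X)^4 = 98 X⁴ ≤ .058 X³`.
Sum: `X a_{1,0} + (3/8)(a_{1,2} + 2ν) X³ - (ν/2) X³ - ν X r0/2 + X s/2 - X p/2 ± 135 X⁴ ± .002 X³`,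
`s/2 - p/2 = κ v₂/(4 a_{2,0})`, `|v₂ + X²/2| ≤ 62 X³`, `1/(4 a_{2,0}) ≤ 3.084`: error
`(135 + 7 + 192) X⁴ + .0025 X³`. -/
def S_GG : Prop :=
  ∀ (P : Par) (X : ℝ) (h v : W) (y : ℕ → A), Hyp P X h v y → Ref P X h v y →
    |cf (OO P X h v y) 1 - (X * P.a 1 0 - (P.nu / 4 + 1 / (8 * P.a 2 0)) * X ^ 3)| ≤
      600 * X ^ 4 + 1 / 100 * X ^ 3

/-- CX-SGN: the signs at the ends. From `S_REF`, `S_GG`: at `X = √a/2`: `a = 4 X²`,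
`(4 - 1.5968) X³ > (600 · 2.91e-4 + .01) X³`; at `X = √a`: `(1 - 1.5965) X³ + (600 · 5.82e-4 + .01)
X³ < 0`. -/
def S_SGN : Prop :=
  ∀ (P : Par) (X : ℝ) (h v : W) (y : ℕ → A), Hyp P X h v y →
    (X = Real.sqrt (P.a 1 0) / 2 → 0 < cf (OO P X h v y) 1) ∧
    (X = Real.sqrt (P.a 1 0) → cf (OO P X h v y) 1 < 0)

/-- CX-EXI: the solution. Library: `EXI.lean` (79 lines); the last bound is from `S_REF`. -/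
def S_EXI : Prop :=
  ∀ P : Par, Good P → ∃ (X : ℝ) (h v : W) (y : ℕ → A), 2 / 10 ^ 4 ≤ X ∧ X ≤ 6 / 10 ^ 4 ∧
    IsSol P X h v y ∧ OO P X h v y = 0 ∧ ‖h - X • cc‖ ≤ 8 * X ^ 2

/-! ### The numbers -/

/-- CX-N2: propagation of errors. Library: `N2.lean` (270 lines), with `103/100` instead of
`101/100`. -/
def S_N2 : Prop :=
  ∀ (ρ : ℝ) (M L : ℕ) (e : ℕ → ℝ), 100 < ρ → ρ ≤ M → (M : ℝ) + 3 ≤ ρ + L →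
    (M : ℝ) + 1 ≤ 103 / 100 * ρ → e M = 0 → e (M + 1) = 0 →
    (∀ m < M, |e m - (2 * (m + 1) / ρ * e (m + 1) - e (m + 2))| ≤ 1) →
    ∀ m ≤ M, |e m| ≤ ρ ^ 2 * 4 ^ L

/-- The numerator of `2 / ρ = NN / 2 ^ 128`, `ρ = 8583.616484082833...`. -/
def NN : ℕ := 79286479667852473810299853436585926

/-- CX-N3: the computed sequences (`E = 0, 1`), by computation in the kernel (8760 steps with
numbers of 740 bits). Library: `N3.lean` (1508 lines, 60816 steps). -/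
def S_N3 : Prop :=
  ∀ E : ℤ, (E = 0 ∨ E = 1) → ∃ x : ℕ → ℤ, x 8760 = 2 ^ 700 ∧ x 8761 = E * 2 ^ 700 ∧
    (∀ m < 8760, |2 ^ 128 * x m - ((m + 1) * NN * x (m + 1) - 2 ^ 128 * x (m + 2))| ≤ 2 ^ 128) ∧
    2 ^ 700 ≤ -x 2 ∧ |x 1| * 10 ^ 20 ≤ -x 2 ∧
    (2 ^ 700 ≤ x 1898 ∧ 33792 * x 1898 ≤ 10 ^ 11 * (-x 1897) ∧
      10 ^ 11 * (-x 1897) ≤ 33793 * x 1898) ∧
    (2 ^ 700 ≤ x 3795 ∧ 81098 * x 3795 ≤ 10 ^ 6 * (-x 3794) ∧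
      10 ^ 6 * (-x 3794) ≤ 81099 * x 3795) ∧
    (2 ^ 700 ≤ x 5692 ∧ 18235 * x 5692 ≤ 10 ^ 4 * (-x 5691) ∧
      10 ^ 4 * (-x 5691) ≤ 18236 * x 5692) ∧
    (2 ^ 700 ≤ x 7589 ∧ 94805 * x 7589 ≤ 10 ^ 5 * x 7588 ∧ 10 ^ 5 * x 7588 ≤ 94806 * x 7589)

/-- CX-NUM: the parameters, from the library's `S_N1` (proved: `Pool.Agent.N229.SC.proof_N1`), `S_N2`,
`S_N3`. Library: `NUM.lean` (278 lines). `ρ = 2 ^ 129 / NN`, `n = 1897`,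
`a m i = - J_{1897 m + i}/J_{1897 m + 1}`, `b i = - J_{1 + i}/J_2`, `L = 180`:
`ρ² 4^180 ≤ 2^388`. -/
def S_NUM : Prop := ∃ P : Par, Good P ∧
  ∃ C, (∀ m, 1 ≤ m → m ≤ 4 → ∀ i, |P.a m i| ≤ C) ∧ ∀ i, |P.b i| ≤ C

/-! ### From coefficients to functions -/

/-- CX-EV: evaluation on the unit circle (the parts on `W`). Library: `EV.lean` (139 lines). -/
def S_EV : Prop :=
  ∀ (w : ℤ → ℝ) [Wt w] (t : ℂ), ‖t‖ = 1 →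
    (∀ a : Al w, ‖ev a t‖ ≤ ‖a‖) ∧ (∀ a b : Al w, ev (a + b) t = ev a t + ev b t) ∧
    (∀ (r : ℝ) (a : Al w), ev (r • a) t = r * ev a t) ∧
    (∀ a b : Al w, ev (a * b) t = ev a t * ev b t) ∧ (∀ j : ℤ, ev (mon w j) t = t ^ j) ∧
    (∀ a : Al w, (∀ j < 0, cf a j = 0) → ev a t = evh a t) ∧
    (∃ L : Al w →L[ℝ] ℂ, ∀ a, L a = ev a t) ∧
    (∀ a : W, ev (conj a) t = starRingEnd ℂ (ev a t)) ∧ (∀ a : W, ev (inc a) t = ev a t) ∧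
    (∀ a : W, ev (ex a) t = Complex.exp (ev a t)) ∧
    (∀ a : W, conj a = a → (evh (hol a) t).re = (ev a t).re ∧ (ev a t).im = 0)

/-- CX-EH: evaluation on the disc. Library: `EH.lean` (181 lines). -/
def S_EH : Prop :=
  ∀ (w : ℤ → ℝ) [Wt w], (∀ j, Rad ^ j.natAbs ≤ w j) →
    (∀ a : Al w, DifferentiableOn ℂ (evh a) (Metric.ball 0 Rad)) ∧
    (∀ (a : Al w) (z : ℂ), ‖z‖ ≤ Rad → ‖evh a z‖ ≤ ‖a‖) ∧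
    (∀ (a b : Al w) (z : ℂ), ‖z‖ ≤ Rad → evh (a + b) z = evh a z + evh b z) ∧
    (∀ (r : ℝ) (a : Al w) (z : ℂ), evh (r • a) z = r * evh a z) ∧
    (∀ (a b : Al w) (z : ℂ), ‖z‖ ≤ Rad → (∀ j < 0, cf a j = 0) → (∀ j < 0, cf b j = 0) →
      evh (a * b) z = evh a z * evh b z) ∧
    (∀ a : Al w, evh a 0 = cf a 0) ∧
    (∀ (a : W) (z : ℂ), ‖z‖ < Rad → evh (der a) z = z * deriv (evh a) z) ∧
    (∀ (a : W) (z : ℂ), evh (inc a) z = evh a z)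

section
variable (P : Par) (X : ℝ) (h v : W) (y : ℕ → A)

/-- The conformal map. -/
noncomputable def fF (z : ℂ) : ℂ := P.ρ * z * Complex.exp (evh (Phi P h) (z ^ P.n) / P.n)

/-- The functions `Q_i`. -/
noncomputable def QF : ℕ → ℂ → ℂ
  | 0 => fun z => (2 / P.ρ * P.b 0 - P.b 1 : ℝ) + (X * P.a 1 0 : ℝ) * (fF P h z / P.ρ) ^ P.n +
      ∑ m ∈ (Finset.Icc 2 4 : Finset ℕ), (cf v (m : ℤ) / (m * P.a m 0) * P.a m 0 : ℝ) *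
        ((fF P h z / P.ρ) ^ P.n) ^ m + evh (qq P h v y 0) (z ^ P.n)
  | i + 1 => fun z => (P.b i : ℝ) + (X * P.a 1 (i + 1) : ℝ) * (fF P h z / P.ρ) ^ P.n +
      ∑ m ∈ (Finset.Icc 2 4 : Finset ℕ), (cf v (m : ℤ) / (m * P.a m 0) * P.a m (i + 1) : ℝ) *
        ((fF P h z / P.ρ) ^ P.n) ^ m + evh (qq P h v y (i + 1)) (z ^ P.n)

/-- The radius of the disc of definition. -/
noncomputable def rF : ℝ := Rad ^ ((P.n : ℝ)⁻¹)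

/-- A solution of all equations. -/
structure Full : Prop where
  good : Good P
  bd : ∃ C, (∀ m, 1 ≤ m → m ≤ 4 → ∀ i, |P.a m i| ≤ C) ∧ ∀ i, |P.b i| ≤ C
  X_pos : 0 < X
  X_le : X ≤ 6 / 10 ^ 4
  sol : IsSol P X h v y
  eO : OO P X h v y = 0
  hX : ‖h - X • cc‖ ≤ 8 * X ^ 2

end

/-- CX-FN1: the conformal map. Library: `FN1.lean` (204 lines). -/
def S_FN1 : Prop :=
  ∀ (P : Par) (X : ℝ) (h v : W) (y : ℕ → A), Full P X h v y →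
    Conf P.ρ (rF P) (fF P h) ∧ Nd (fF P h)

/-- CX-FN2: the functions `Q_i`. Library: `FN2.lean` (124 lines). -/
def S_FN2 : Prop :=
  ∀ (P : Par) (X : ℝ) (h v : W) (y : ℕ → A), Full P X h v y →
    (∀ i, DifferentiableOn ℂ (QF P X h v y i) (Metric.ball 0 (rF P))) ∧
    (∃ C, ∀ i, ∀ z ∈ Metric.ball (0 : ℂ) (rF P), ‖QF P X h v y i z‖ ≤ C)

/-- CX-FN3: the relation between the functions `Q_i`. Library: `FN3.lean` (272 lines). For the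
modes: `F = (f/ρ)^(m n)` satisfies `f F' = m n f' F`, and
`m n + (i+1) = (ρ/2)(...)`: `(m n + i + 1) a_{m,i+1} = (ρ/2)(a_{m,i} + a_{m,i+2})`. -/
def S_FN3 : Prop :=
  ∀ (P : Par) (X : ℝ) (h v : W) (y : ℕ → A), Full P X h v y →
    ∀ i : ℕ, ∀ z ∈ Metric.ball (0 : ℂ) (rF P), fF P h z * deriv (QF P X h v y (i + 1)) z +
      (i + 1) * (deriv (fF P h) z * QF P X h v y (i + 1) z) =
      P.ρ / 2 * (deriv (fF P h) z * (QF P X h v y i z + QF P X h v y (i + 2) z))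

/-- CX-FN4: the boundary condition. Library: `FN4.lean` (322 lines). On `‖z‖ = 1`, `t = z ^ n`:
`z Q_i'(z) = n (1 + β(t)) ev (Vh i) t` (for the modes: `z (τ(z^n)^m)' = n m (1 + β) τ^m`, and
`m · cf v m/(m a_{m,0}) · a_{m,i} = cf v m / a_{m,0} · a_{m,i}`), `Q_{i+1}(z) = ev (Qh i) t`. -/
def S_FN4 : Prop :=
  ∀ (P : Par) (X : ℝ) (h v : W) (y : ℕ → A), Full P X h v y →
    ∀ z : ℂ, ‖z‖ = 1 → SS P.ρ (fF P h) (QF P X h v y) z = 0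

/-- CX-FN5: the boundary value is not zero. Library: `FN5.lean` (215 lines). -/
def S_FN5 : Prop :=
  ∀ (P : Par) (X : ℝ) (h v : W) (y : ℕ → A), Full P X h v y →
    ∃ z : ℂ, ‖z‖ = 1 ∧ UU P.ρ (fF P h) (QF P X h v y) z ≠ 0

/-! ### Convexity -/

/-- CX-D2: the second derivative of the conformal map. With `E = exp (evh Φ (z^n)/n)`, `s = z ^ n`,
`f = ρ z E`, `z f' = ρ z E (1 + β(s))`, `β = der Φ` (evaluated with `evh`), and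
`f'' = ρ E z⁻¹ (β(s)(1 + β(s)) + n s β'(s))` for `z ≠ 0`; here `|E| ≤ exp (ν ‖h‖/n) ≤ 1.000001`,
`|β| ≤ 8 ν ‖h‖ ≤ .00213`, and (for `|s| ≤ 1`) `|s β'(s)| ≤ ∑ j² |cf Φ j| ≤ ν (X + 150 ‖h - X c‖)`
because `Φ - ν X t = ν hol (h - X c)` and `j² ≤ 150 wW j` (`j²/(1 + j/8) ≤ 8 j ≤ 150 · 1.02^j`, e.g.
`1.02^j ≥ exp (.0198 j) ≥ e · .0198 j`). So `|n s β'| ≤ 1898 · .22101 (X + 1200 X²) ≤ .434`; divide by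
`|z|`: all terms contain `z^n`, `n ≥ 3` (`|s β'(s)| ≤ |s| (...)`), so the bound holds on the disc
`‖z‖ < 1`; `f''(0) = 0`. Also `|f' - ρ| = ρ |E (1 + β) - 1| ≤ ρ/100`. -/
def S_D2 : Prop :=
  ∀ (P : Par) (X : ℝ) (h v : W) (y : ℕ → A), Full P X h v y →
    ∀ z ∈ Metric.ball (0 : ℂ) 1, ‖deriv (deriv (fF P h)) z‖ ≤ P.ρ / 2 ∧
      ‖deriv (fF P h) z - P.ρ‖ ≤ P.ρ / 100

/-- CX-POL: Polyak's convexity principle. `F = f/ρ` satisfies `‖F' - 1‖ ≤ 1/100`, `‖F''‖ ≤ 1/2` on the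
unit disc `D`. For `a, b ∈ D`, `0 < s < 1`, `m = s a + (1 - s) b`: `‖s F a + (1 - s) F b - F m‖ ≤
(1/2)(1/2) s (1 - s) ‖a - b‖²` (Taylor at `m`), while `1 - ‖m‖ ≥ (1 - ‖m‖²)/2 > s (1 - s) ‖a - b‖²/2`
(`‖m‖² = s ‖a‖² + (1 - s) ‖b‖² - s (1 - s) ‖a - b‖²`), so the disc of centre `m` and radius
`r = s (1 - s) ‖a - b‖²/2` is contained in `D`, and its image contains the disc of centre `F m` and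
radius `(99/100) r` (`F` is `id` plus a `1/100`-Lipschitz map: contraction mapping
`w ↦ c - (F w - w)` maps the closed disc to itself). -/
def S_POL : Prop :=
  ∀ (ρ r : ℝ) (f : ℂ → ℂ), 0 < ρ → 1 < r → DifferentiableOn ℂ f (Metric.ball 0 r) →
    (∀ z ∈ Metric.ball (0 : ℂ) 1, ‖deriv (deriv f) z‖ ≤ ρ / 2 ∧ ‖deriv f z - ρ‖ ≤ ρ / 100) →
    Convex ℝ (f '' Metric.ball 0 1) ∧ StrictConvex ℝ (f '' Metric.closedBall 0 1)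

/-- CX-AN: the domain is close to a disc and has the symmetry of order 1897:
`‖f z‖ = ρ ‖z‖ exp (Re evh Φ (z^n)/n)`, `|Re evh Φ| ≤ ν ‖h‖ ≤ 2.7e-4`, divided by `n ≥ 1896`. -/
def S_AN : Prop :=
  ∀ (P : Par) (X : ℝ) (h v : W) (y : ℕ → A), Full P X h v y →
    (∀ z : ℂ, ‖z‖ ≤ 1 → |‖fF P h z‖ - P.ρ * ‖z‖| ≤ P.ρ / 10 ^ 6) ∧
    ∀ ω : ℂ, ω ^ P.n = 1 → ∀ z : ℂ, fF P h (ω * z) = ω * fF P h z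

end Pool.Agent.H957.CX
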