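import Pool.Agent.H957.CX.Fin

/-!
Project CX (helper957), problem MP_83fd13_an: the Pompeiu property in the Euclidean plane.
-/

set_option autoImplicit false

open Set Filter Topology MeasureTheory

namespace Pool.Agent.H957.CX

/-- the plane -/
abbrev E2 := EuclideanSpace ℝ (Fin 2)

/-- the isometry -/
noncomputable def JJ : ℂ ≃ₗᵢ[ℝ] E2 := Complex.orthonormalBasisOneI.repr

/-- CX-PMP: the domain fails the Pompeiu property: the bounded function `x ↦ cos x₀` has integral zero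
over all images of `Ω` under isometries of the plane.  Proof: `σ y = L y + σ 0` with a linear
isometry `L` (`IsometryEquiv.toRealAffineIsometryEquiv`, Mazur-Ulam), `σ` and `JJ` preserve the
measure, so the integral is `∫_{y ∈ JJ '' Ω} cos ((L y) 0 + (σ 0) 0) = ∫_{z ∈ Ω} cos (⟪z, ξ⟫ + s)`,
`ξ = JJ⁻¹ (L⁻¹ e₀)`, `‖ξ‖ = 1`, and `⟪z, ξ⟫ = Re (conj ξ z)`.  This is zero by the library theorem
`Pool.Agent.N596.SC.fourier` (file `Pool/Graph/R_pool_sql_team_seeded_63374d34/N596/SC/Pomp.lean`)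
with `a = conj ξ`, `b = s`, applied to the weak solution in `Sln` (`lam = 1`, `c ≠ 0`). -/
def S_PMP : Prop :=
  ∀ (ρ r : ℝ) (f : ℂ → ℂ) (Ω : Set ℂ), Dmn ρ r f Ω → Sln ρ r f Ω →
    ∀ σ : E2 ≃ᵢ E2, ∫ x in σ '' (JJ '' Ω), Real.cos (x 0) = 0

end Pool.Agent.H957.CX
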