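import Pool.Agent.H957.CX.Stm2

/-!
Project CX (helper957), problem MP_83fd13_an: transfer from `ℂ` to the Euclidean plane
(adapted from the library file `N229/SC/TR.lean` by helper50).
-/

set_option autoImplicit false

open MeasureTheory Set Filter Topology

namespace Pool.Agent.H957.CX

open Pool.Agent.N229.SC (Weak uF GF)

private lemma tr_mp : MeasurePreserving JJ volume volume := JJ.measurePreserving

private lemma tr_me : MeasurableEmbedding JJ := JJ.toHomeomorph.measurableEmbedding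

private lemma tr_fd {φ : E2 → ℝ} (h : ContDiff ℝ 1 φ) (y v : ℂ) :
    fderiv ℝ (fun z => φ (JJ z)) y v = fderiv ℝ φ (JJ y) (JJ v) := by
  have h1 : HasFDerivAt φ (fderiv ℝ φ (JJ y)) (JJ y) :=
    (h.differentiable (by norm_num) _).hasFDerivAt
  have h2 : HasFDerivAt (fun z : ℂ => JJ z) (JJ.toContinuousLinearEquiv : ℂ →L[ℝ] E2) y :=
    (JJ.toContinuousLinearEquiv : ℂ →L[ℝ] E2).hasFDerivAt
  have h3 : HasFDerivAt (fun z => φ (JJ z))
      ((fderiv ℝ φ (JJ y)).comp (JJ.toContinuousLinearEquiv : ℂ →L[ℝ] E2)) y := h1.comp y h2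
  rw [h3.fderiv]
  rfl

/-- The statement in the Euclidean plane, for a set `Ω`. -/
def PlaneSol (Ω : Set E2) : Prop :=
  ∃ (lam c : ℝ) (u : E2 → ℝ) (G : E2 → E2), 0 < lam ∧ c ≠ 0 ∧
    MemLp u 2 (volume.restrict Ω) ∧ MemLp G 2 (volume.restrict Ω) ∧
    (∀ φ : E2 → ℝ, ContDiff ℝ 1 φ → HasCompactSupport φ → ∀ v : E2,
      ∫ x in Ω, (u x - c) * (fderiv ℝ φ x v) = - ∫ x in Ω, @inner ℝ E2 _ (G x) v * φ x) ∧
    (∀ φ : E2 → ℝ, ContDiff ℝ 1 φ → HasCompactSupport φ →
      ∫ x in Ω, fderiv ℝ φ x (G x) = lam * ∫ x in Ω, u x * φ x) ∧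
    ¬ (u =ᵐ[volume.restrict Ω] 0)

/-- The properties of the domain in the Euclidean plane. -/
structure PlaneDom (Ω : Set E2) : Prop where
  op : IsOpen Ω
  bd : Bornology.IsBounded Ω
  conn : IsConnected Ω
  sc : SimplyConnectedSpace Ω
  fr : Nonempty (frontier Ω ≃ₜ Metric.sphere (0 : E2) 1)
  lip : ∀ p ∈ frontier Ω, ∃ e f : E2, ‖e‖ = 1 ∧ ‖f‖ = 1 ∧ @inner ℝ E2 _ e f = 0 ∧
      ∃ r : ℝ, 0 < r ∧ ∃ K : NNReal, ∃ g : ℝ → ℝ, LipschitzWith K g ∧
        ∀ x ∈ Metric.ball p r, (x ∈ Ω ↔ g (@inner ℝ E2 _ x e) < @inner ℝ E2 _ x f)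
  cvx : Convex ℝ Ω
  scvx : StrictConvex ℝ (closure Ω)
  near : ∃ ρ : ℝ, 0 < ρ ∧ Metric.ball 0 (ρ * (1 - 1 / 10 ^ 6)) ⊆ Ω ∧
    Ω ⊆ Metric.ball 0 (ρ * (1 + 1 / 10 ^ 6))
  nd : ∀ (a : E2) (s : ℝ), Ω ≠ Metric.ball a s

theorem transfer {ρ r : ℝ} {f : ℂ → ℂ} {Om : Set ℂ} (hD : Dmn ρ r f Om) (hS : Sln ρ r f Om) :
    PlaneDom (JJ '' Om) ∧ PlaneSol (JJ '' Om) := by
  obtain ⟨hdom, hρ, hr1, hdiff, hinj, hO, hb, hc, hs, ⟨hf⟩, hL, hcv, hscv, hin, hout, hrot, hnb⟩ := hD
  obtain ⟨-, -, r', c, U, S, hr', hr'r, hCl, hcne, hu, hG, w1, w2, hne⟩ := hS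
  set u : ℂ → ℝ := uF f U with hud
  set G : ℂ → ℂ := GF f S with hGd
  have pre : JJ.symm ⁻¹' Om = JJ '' Om := (JJ.image_eq_preimage_symm Om).symm
  have mps : MeasurePreserving JJ.symm (volume.restrict (JJ '' Om)) (volume.restrict Om) := by
    have h1 : MeasurePreserving JJ.symm (volume : Measure E2) (volume : Measure ℂ) :=
      JJ.symm.measurePreserving
    have h2 := h1.restrict_preimage_emb JJ.symm.toHomeomorph.measurableEmbedding Om
    rwa [pre] at h2
  constructor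
  · refine ⟨JJ.toHomeomorph.isOpenMap _ hO, JJ.lipschitz.isBounded_image hb,
      hc.image _ JJ.continuous.continuousOn, ?_, ?_, ?_, ?_, ?_, ⟨ρ, hρ, ?_, ?_⟩, ?_⟩
    · have h1 : Om ≃ₜ (JJ '' Om) := JJ.toHomeomorph.image Om
      exact h1.symm.toHomotopyEquiv.simplyConnectedSpace
    · have e1 : JJ '' frontier Om = frontier (JJ '' Om) := JJ.toHomeomorph.image_frontier Om
      have e2 : JJ '' Metric.sphere 0 1 = Metric.sphere 0 1 := by
        rw [JJ.image_sphere, map_zero]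
      have h1 : frontier Om ≃ₜ (JJ '' frontier Om) := JJ.toHomeomorph.image (frontier Om)
      have h2 : Metric.sphere (0 : ℂ) 1 ≃ₜ (JJ '' Metric.sphere (0 : ℂ) 1) :=
        JJ.toHomeomorph.image (Metric.sphere (0 : ℂ) 1)
      exact ⟨((Homeomorph.setCongr e1).symm.trans h1.symm).trans
        (hf.trans (h2.trans (Homeomorph.setCongr e2)))⟩
    · intro p hp
      have e1 : JJ '' frontier Om = frontier (JJ '' Om) := JJ.toHomeomorph.image_frontier Om
      rw [← e1] at hp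
      obtain ⟨q, hq, rfl⟩ := hp
      obtain ⟨e, g, he, hg, heg, s, hs, K, γ, hγ, h⟩ := hL q hq
      refine ⟨JJ e, JJ g, by rwa [JJ.norm_map], by rwa [JJ.norm_map],
        by rwa [JJ.inner_map_map], s, hs, K, γ, hγ, fun x hx => ?_⟩
      obtain ⟨y, rfl⟩ := JJ.surjective x
      rw [JJ.inner_map_map, JJ.inner_map_map, JJ.injective.mem_set_image]
      refine h y ?_
      rw [Metric.mem_ball, JJ.dist_map] at hx
      exact hx
    · exact hcv.linear_image (JJ.toLinearEquiv : ℂ →ₗ[ℝ] E2)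
    · have e1 : closure (JJ '' Om) = JJ '' closure Om := (JJ.toHomeomorph.image_closure Om).symm
      rw [e1]
      exact hscv.linear_image (JJ.toLinearEquiv : ℂ →ₗ[ℝ] E2) JJ.toHomeomorph.isOpenMap
    · have h1 := image_mono (f := JJ) hin
      rwa [JJ.image_ball, map_zero] at h1
    · have h1 := image_mono (f := JJ) hout
      rwa [JJ.image_ball, map_zero] at h1
    · intro a s har
      refine hnb (JJ.symm a) s ?_
      have h1 := congrArg (fun s => JJ.symm '' s) har
      simp only [JJ.symm.image_ball] at h1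
      rw [← h1, image_image]
      simp only [JJ.symm_apply_apply, image_id']
  · refine ⟨1, c, fun x => u (JJ.symm x), fun x => JJ (G (JJ.symm x)), one_pos, hcne,
      hu.comp_measurePreserving mps, ?_, ?_, ?_, ?_⟩
    · have h1 := hG.comp_measurePreserving mps
      exact (JJ.toContinuousLinearEquiv : ℂ →L[ℝ] E2).comp_memLp' h1
    · intro φ hφ hφ' v
      rw [tr_mp.setIntegral_image_emb tr_me, tr_mp.setIntegral_image_emb tr_me]
      have h1 : ContDiff ℝ 1 (fun z => φ (JJ z)) := hφ.comp JJ.contDiff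
      have h2 : HasCompactSupport (fun z => φ (JJ z)) :=
        hφ'.comp_homeomorph JJ.toHomeomorph
      have h3 := w1 _ h1 h2 (JJ.symm v)
      simp only [tr_fd hφ, JJ.apply_symm_apply] at h3
      simp only [JJ.symm_apply_apply]
      rw [h3]
      congr 1
      refine integral_congr_ae (Eventually.of_forall fun x => ?_)
      simp only
      rw [← JJ.inner_map_map, JJ.apply_symm_apply]
    · intro φ hφ hφ'
      rw [tr_mp.setIntegral_image_emb tr_me, tr_mp.setIntegral_image_emb tr_me]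
      have h1 : ContDiff ℝ 1 (fun z => φ (JJ z)) := hφ.comp JJ.contDiff
      have h2 : HasCompactSupport (fun z => φ (JJ z)) :=
        hφ'.comp_homeomorph JJ.toHomeomorph
      have h3 := w2 _ h1 h2
      simp only [tr_fd hφ] at h3
      simp only [JJ.symm_apply_apply]
      exact h3
    · intro h1
      refine hne ?_
      have h2 : MeasurePreserving JJ (volume.restrict Om) (volume.restrict (JJ '' Om)) :=
        tr_mp.restrict_image_emb tr_me Om
      have h3 := h2.quasiMeasurePreserving.ae h1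
      filter_upwards [h3] with x hx
      simpa using hx

end Pool.Agent.H957.CX
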