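import Pool.Agent.H957.CX.Stm

/-!
Project CX (helper957), problem MP_83fd13_an, part YG: the bound of `y` by `v` (helper390).
-/

set_option autoImplicit false

open Set Filter Topology

namespace Pool.Agent.H957.CX.PYG

open Pool.Agent.N229.SC (Al Wt cf mon lft norm_mon lft_mon norm_lft_le lft_hasSum ext_mon
  mul_def one_def mon_mul_mon S_A1 ev evh Conf Nd Str Om SS UU PP eF Fb)

/-- the range of the amplitude -/
private theorem yg_X {P : Par} (hP : Good P) {X : ℝ} (h1 : Real.sqrt (P.a 1 0) / 2 ≤ X)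
    (h2 : X ≤ Real.sqrt (P.a 1 0)) : 0 < X ∧ X ≤ 6 / 10 ^ 4 := by
  have ha := hP.a10
  have ha' := hP.a10'
  constructor
  · refine lt_of_lt_of_le (half_pos (Real.sqrt_pos.2 ?_)) h1
    norm_num at ha ⊢
    linarith
  · refine h2.trans ?_
    rw [Real.sqrt_le_left (by norm_num)]
    norm_num at ha' ⊢
    linarith

/-- the domain -/
private theorem yg_dom {P : Par} {X : ℝ} {h v : W} {y : ℕ → A} (hs : IsSol P X h v y) :
    Dom X h v y := ⟨hs.hc, hs.hv, hs.hy, hs.nh, hs.nv, hs.ny⟩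

/-- one step -/
private theorem yg_step (hA2 : S_A2) (hB1 : S_B1) (hB2 : S_B2) {P : Par} {X : ℝ} {h v : W}
    {y : ℕ → A} (H : Hyp P X h v y) {V M : ℝ} (hV0 : 0 ≤ V) (hV6 : V ≤ 6) (hM0 : 0 ≤ M)
    (hM6 : M ≤ 6) (hv : ‖v‖ ≤ V * X ^ 2) (hy : ∀ i, ‖y i‖ ≤ M * X ^ 2) (i : ℕ) :
    ‖y i‖ ≤ max (2804 / 10000 * V + 4545 / 10000 * M) (9089 / 10000 * M) * X ^ 2 := by
  obtain ⟨hX0, hX3⟩ := yg_X H.good H.X1 H.X2
  have hP := H.good
  have hD := yg_dom H.sol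
  obtain ⟨-, -, -, -, hB⟩ := hB2 P hP X h v y hX0 hX3 hD
  obtain ⟨-, hq0, -, hq, -, -⟩ := hB V M hV0 hV6 hM0 hM6 hv hy
  have hh3 : ‖h‖ ≤ 12 / 10 ^ 4 := by
    have := hD.nh
    norm_num at hX3 ⊢
    linarith
  have hh : ‖h‖ ≤ 1 / 800 := by
    refine hh3.trans ?_
    norm_num
  obtain ⟨⟨-, hβ, -, -, -, -, -⟩, -, -, -⟩ := hB1 P hP h hh
  have hν1 := hP.nu1
  have hν2 := hP.nu2
  have hν0 : 0 < P.nu := by linarith
  have hβ' : ‖beta P h‖ ≤ 213 / 100000 := by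
    refine hβ.trans ?_
    have h4 : 8 * P.nu * ‖h‖ ≤ 8 * (22101 / 100000) * (12 / 10 ^ 4) := by
      have := norm_nonneg h
      gcongr
    refine h4.trans ?_
    norm_num
  have hX2 : 0 ≤ X ^ 2 := sq_nonneg X
  -- the bound of `q_i`
  obtain ⟨m, hm⟩ : ∃ m : ℝ, m = (match i with
    | 0 => 1234 / 10 ^ 4 * V
    | _ + 1 => 1 / 5 * M) := ⟨_, rfl⟩
  have hm0 : 0 ≤ m := by
    rw [hm]
    cases i with
    | zero => positivity
    | succ i => positivity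
  have hqi : ‖inc (qq P h v y i)‖ ≤ m * X ^ 2 := by
    rw [hm]
    cases i with
    | zero => exact hq0
    | succ i => exact hq i
  have hqi2 : ‖inc (qq P h v y (i + 2))‖ ≤ 1 / 5 * M * X ^ 2 := hq (i + 1)
  -- the last term
  have hlast : (((i : ℝ) + 1) / P.n) * ‖inc (qq P h v y (i + 1))‖ ≤ ‖y i‖ := by
    have h1 := hA2.2.2.2.2.2.2.2.2.2 P.n (i + 1) (y i)
    push_cast at h1
    exact h1
  have hn0 : (0 : ℝ) ≤ ((i : ℝ) + 1) / P.n := by positivity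
  have e := H.sol.eY i
  have h1 : ‖y i‖ ≤ ‖(1 / (2 * P.nu)) • ((1 + beta P h) * inc (qq P h v y i + qq P h v y (i + 2)))‖ +
      ‖(((i : ℝ) + 1) / P.n) • (beta P h * inc (qq P h v y (i + 1)))‖ := by
    conv_lhs => rw [e]
    exact norm_sub_le _ _
  have h2 : ‖(1 / (2 * P.nu)) • ((1 + beta P h) * inc (qq P h v y i + qq P h v y (i + 2)))‖ ≤
      (1 / (2 * P.nu)) * ((1 + ‖beta P h‖) *
        (‖inc (qq P h v y i)‖ + ‖inc (qq P h v y (i + 2))‖)) := by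
    rw [norm_smul, Real.norm_eq_abs, abs_of_pos (by positivity)]
    refine mul_le_mul_of_nonneg_left ?_ (by positivity)
    refine (norm_mul_le _ _).trans ?_
    refine mul_le_mul ?_ ?_ (norm_nonneg _) (by positivity)
    · refine (norm_add_le _ _).trans ?_
      rw [norm_one]
    · rw [map_add]
      exact norm_add_le _ _
  have h3 : ‖(((i : ℝ) + 1) / P.n) • (beta P h * inc (qq P h v y (i + 1)))‖ ≤
      ‖beta P h‖ * ‖y i‖ := by
    rw [norm_smul, Real.norm_eq_abs, abs_of_nonneg hn0]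
    calc ((i : ℝ) + 1) / P.n * ‖beta P h * inc (qq P h v y (i + 1))‖
        ≤ ((i : ℝ) + 1) / P.n * (‖beta P h‖ * ‖inc (qq P h v y (i + 1))‖) :=
          mul_le_mul_of_nonneg_left (norm_mul_le _ _) hn0
      _ = ‖beta P h‖ * (((i : ℝ) + 1) / P.n * ‖inc (qq P h v y (i + 1))‖) := by ring
      _ ≤ ‖beta P h‖ * ‖y i‖ := mul_le_mul_of_nonneg_left hlast (norm_nonneg _)
  have h4 : 1 / (2 * P.nu) ≤ 500 / 221 := by
    rw [div_le_div_iff₀ (by positivity) (by norm_num)]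
    linarith
  have h5 : (1 / (2 * P.nu)) * ((1 + ‖beta P h‖) *
        (‖inc (qq P h v y i)‖ + ‖inc (qq P h v y (i + 2))‖)) ≤
      500 / 221 * ((1 + 213 / 100000) * (m * X ^ 2 + 1 / 5 * M * X ^ 2)) := by
    refine mul_le_mul h4 ?_ (by positivity) (by norm_num)
    refine mul_le_mul (by linarith) (by linarith) (by positivity) (by norm_num)
  have h6 : ‖beta P h‖ * ‖y i‖ ≤ 213 / 100000 * ‖y i‖ :=
    mul_le_mul_of_nonneg_right hβ' (norm_nonneg _)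
  have h7 : 0 ≤ (m + 1 / 5 * M) * X ^ 2 := by positivity
  have h8 : ‖y i‖ ≤ 500 / 221 * ((1 + 213 / 100000) * (m * X ^ 2 + 1 / 5 * M * X ^ 2)) +
      213 / 100000 * ‖y i‖ := by
    linarith
  have h9 : ‖y i‖ ≤ 22722 / 10000 * (m + 1 / 5 * M) * X ^ 2 := by
    have e9 : 500 / 221 * ((1 + 213 / 100000) * (m * X ^ 2 + 1 / 5 * M * X ^ 2)) =
        500 / 221 * (100213 / 100000) * ((m + 1 / 5 * M) * X ^ 2) := by ring
    rw [e9] at h8
    have e10 : 22722 / 10000 * (m + 1 / 5 * M) * X ^ 2 =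
        22722 / 10000 * ((m + 1 / 5 * M) * X ^ 2) := by ring
    rw [e10]
    linarith
  refine h9.trans (mul_le_mul_of_nonneg_right ?_ hX2)
  rw [hm]
  cases i with
  | zero =>
    refine le_max_of_le_left ?_
    simp only
    linarith
  | succ i =>
    refine le_max_of_le_right ?_
    simp only
    linarith

/-- the iteration -/
private theorem yg_iter (hA2 : S_A2) (hB1 : S_B1) (hB2 : S_B2) {P : Par} {X : ℝ} {h v : W}
    {y : ℕ → A} (H : Hyp P X h v y) {V : ℝ} (hV0 : 0 ≤ V) (hV6 : V ≤ 6) (hv : ‖v‖ ≤ V * X ^ 2)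
    (k : ℕ) : ∀ i, ‖y i‖ ≤ (min 6 (13 / 25 * V + 6 * (23 / 25 : ℝ) ^ k)) * X ^ 2 := by
  have hX2 : 0 ≤ X ^ 2 := sq_nonneg X
  induction k with
  | zero =>
    intro i
    refine (H.sol.ny i).trans ?_
    refine mul_le_mul_of_nonneg_right ?_ hX2
    rw [pow_zero, mul_one]
    exact le_min le_rfl (by linarith)
  | succ k ih =>
    intro i
    set δ : ℝ := 6 * (23 / 25 : ℝ) ^ k with hδ
    have hδ0 : 0 ≤ δ := by positivity
    have hM0 : 0 ≤ min 6 (13 / 25 * V + δ) := le_min (by norm_num) (by linarith)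
    have h1 := yg_step hA2 hB1 hB2 H hV0 hV6 hM0 (min_le_left _ _) hv ih i
    have h2 : min 6 (13 / 25 * V + δ) ≤ 13 / 25 * V + δ := min_le_right _ _
    set M := min 6 (13 / 25 * V + δ) with hM
    have h3 : max (2804 / 10000 * V + 4545 / 10000 * M) (9089 / 10000 * M) ≤
        13 / 25 * V + 6 * (23 / 25 : ℝ) ^ (k + 1) := by
      have e : 6 * (23 / 25 : ℝ) ^ (k + 1) = 23 / 25 * δ := by
        rw [hδ, pow_succ]; ring
      rw [e]
      refine max_le ?_ ?_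
      · linarith
      · linarith
    have h4 := H.sol.ny i
    rcases min_cases (6 : ℝ) (13 / 25 * V + 6 * (23 / 25 : ℝ) ^ (k + 1)) with h | h
    · rw [h.1]; exact h4
    · rw [h.1]
      exact h1.trans (mul_le_mul_of_nonneg_right h3 hX2)

private theorem yg_main (hA2 : S_A2) (hB1 : S_B1) (hB2 : S_B2) {P : Par} {X : ℝ} {h v : W}
    {y : ℕ → A} (H : Hyp P X h v y) {V : ℝ} (hV0 : 0 ≤ V) (hV6 : V ≤ 6) (hv : ‖v‖ ≤ V * X ^ 2)
    (i : ℕ) : ‖y i‖ ≤ 13 / 25 * V * X ^ 2 := by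
  have hX2 : 0 ≤ X ^ 2 := sq_nonneg X
  have h1 : ∀ k : ℕ, ‖y i‖ ≤ (13 / 25 * V + 6 * (23 / 25 : ℝ) ^ k) * X ^ 2 := fun k =>
    (yg_iter hA2 hB1 hB2 H hV0 hV6 hv k i).trans
      (mul_le_mul_of_nonneg_right (min_le_right _ _) hX2)
  have h2 : Tendsto (fun k : ℕ => (13 / 25 * V + 6 * (23 / 25 : ℝ) ^ k) * X ^ 2) atTop
      (𝓝 ((13 / 25 * V + 6 * 0) * X ^ 2)) := by
    refine Tendsto.mul_const _ (Tendsto.const_add _ (Tendsto.const_mul _ ?_))
    exact tendsto_pow_atTop_nhds_zero_of_lt_one (by norm_num) (by norm_num)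
  have h3 := ge_of_tendsto' h2 h1
  rw [mul_zero, add_zero] at h3
  exact h3

/-- CX-YG: the bound of `y` by `v` -/
theorem main (_hA1 : S_A1) (hA2 : S_A2) (_hA3 : S_A3) (_hAB : S_AB) (hB1 : S_B1)
    (hB2 : S_B2) : S_YG := by
  intro P X h v y H V hV hv i
  have hX2 : 0 ≤ X ^ 2 := sq_nonneg X
  rcases le_or_gt V 6 with hV6 | hV6
  · exact yg_main hA2 hB1 hB2 H hV hV6 hv i
  · refine (yg_main hA2 hB1 hB2 H (by norm_num : (0 : ℝ) ≤ 6) le_rfl H.sol.nv i).trans ?_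
    exact mul_le_mul_of_nonneg_right (by linarith) hX2

end Pool.Agent.H957.CX.PYG
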